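import Pool.Agent.TrI.VDefs

set_option autoImplicit false
set_option linter.all false

/-!
# What is used about the first forcing notion for families of sets of cardinality `k ≤ ℵ_ω`
-/

namespace Pool.Agent.TrI

open Cardinal Pool.Agent.SplK Pool.Agent.H55.Lav

/-- `q` decides the relation `S` below `c` as `R`. -/
def DecQ {Q : Type} [Preorder Q] {L : Type} [LinearOrder L] (S : L → L → Set Q) (c : L) (q : Q) (R : L → L → Prop) : Prop :=
  ∀ i < c, ∀ j < c, (R i j → FoQ (S i j) q) ∧ (¬ R i j → IncQ (S i j) q)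

/-- There are no new relations on the ordinals below `l`. -/
def DecP (Q : Type) [Preorder Q] {L : Type} [LinearOrder L] (l : L) : Prop :=
  ∀ (S : L → L → Set Q) (c : L), c < l → ∀ p : Q, ∃ q ≤ p, ∃ R : L → L → Prop, DecQ S c q R

/-- Families of sets of the cardinality of `k`, indexed by the elements of a set `I` below `c`, have transversals. -/
def TrC {L : Type} [LinearOrder L] (k c : L) (I : Set L) (R : L → L → Prop) : Prop :=
  (∀ e ∈ I, #{x | x < c ∧ R e x} = #(Set.Iio k)) →
  (∀ e ∈ I, ∀ e' ∈ I, e ≠ e' → ∀ s : ℕ → L, ¬ (Function.Injective s ∧ ∀ n, s n < c ∧ R e (s n) ∧ R e' (s n))) →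
  ∃ T : Set L, ∀ e ∈ I, (∃ x ∈ T, x < c ∧ R e x) ∧ ∃ s : ℕ → L, ∀ x ∈ T, x < c → R e x → ∃ n, s n = x

/-- Short families have transversals. -/
def TrP {L : Type} [LinearOrder L] (k l : L) : Prop :=
  ∀ c < l, ∀ (I : Set L) (R : L → L → Prop), (∀ e ∈ I, e < c) → TrC k c I R

end Pool.Agent.TrI
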