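import Pool.Agent.TrI.QA
import Pool.Agent.TrI.VDefs3

set_option autoImplicit false
set_option linter.all false

/-!
# No new relations below `ω_{ω+1}` in the first model
-/

namespace Pool.Agent.TrI

open Cardinal Pool.Agent.SplK Pool.Agent.H55.Lav

theorem decP_Q0 {L : Type} [LinearOrder L] [WellFoundedLT L] [Lam L] (hL : OTyp L (Order.succ (plw ℵ₀))) :
    DecP (Q0 L) (⊤ : WithTop L) := by
  intro S c hc p
  obtain ⟨q, hq, h⟩ := q0_dec hL c hc S p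
  refine ⟨q, hq, fun i j => FoQ (S i j) q, fun i hi j hj => ⟨id, fun hn => ?_⟩⟩
  rcases h i hi j hj with h1 | h1
  · exact absurd h1 hn
  · exact h1

/-- The first forcing notion. -/
theorem exists_q0' (gch : GCH0) : ∃ (L : Type) (_ : LinearOrder L) (_ : OTyp L (Order.succ (plw ℵ₀))) (D : ADat (WithTop L)),
    D.l = ⊤ ∧ (∀ n, OTyp (Set.Iio (D.al n)) (pl ℵ₀ n)) ∧ OTyp (Set.Iio D.u) (plw ℵ₀) ∧
    GchP (Q0 L) ∧ AFrc (Q0 L) D ∧ RFrc (Q0 L) D rT ∧ DecP (Q0 L) D.l := by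
  have hL := ot_ord (Order.succ (plw ℵ₀))
  haveI := hL.wf
  haveI := lam_of_ot hL
  obtain ⟨D, hl, hal, hu⟩ := exists_adat0 hL
  refine ⟨_, _, hL, D, hl, hal, hu, gchP_Q0 gch, afrc_Q0 hL hl hal hu, rfrc_Q0 hl hal, ?_⟩
  rw [hl]
  exact decP_Q0 hL

end Pool.Agent.TrI
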