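import Pool.Agent.TrI.VDefs2
import Pool.Agent.SplK.Ic

set_option autoImplicit false
set_option linter.all false

/-!
# OT (difficulty 2): wellordered types whose order type is a cardinal

`OTyp A c`: wellordered, `#A = c`, all proper initial segments are smaller; equivalent to `Ordinal.type (· < ·) = c.ord` (`ot_type`; see `ik_le` in SplG/Ik for `≤`, and `card_le` for `≥`: if `type < c.ord`.. then `#A < c`; conversely `typein a < c.ord` gives `#(Iio a) < c` by `lt_ord`).
`ot_iso`: equal types (`Ordinal.type_eq`, `RelIso` to `OrderIso`: `OrderIso.ofRelIsoLT`). `ot_pt`: `x < c` cardinal: the element `a` with `typein a = x.ord` (`Ordinal.typein_surj`); `Iio a` has type `x.ord`. `ot_pt'`: the same for `WithTop L`. `ot_bdd`: `c` regular, `#S < c`: if `S` is unbounded then `L = ⋃_{s ∈ S} Iic s`, of size `< c` (regular, each `#(Iic s) < c`; `c` infinite).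
`ot_ord`: the type `c.ord.ToType` has `OTyp`. `ot_iio`: initial segments of initial segments. `plw` facts: `plw_le`: `pl c n ≤ plw c`; `pl_lt_plw`; `lt_plw`: `x < plw c → ∃ n, x < pl c n`; `plw_lt`: `θ` inaccessible, `c < θ` → `plw c < θ` (`inac_pl_bdd`, SplK/Ic).
-/

namespace Pool.Agent.TrI

open Cardinal Pool.Agent.SplK

theorem ot_type {A : Type} [LinearOrder A] [WellFoundedLT A] {c : Cardinal.{0}} :
    OTyp A c ↔ Ordinal.type ((· < ·) : A → A → Prop) = c.ord := by
  constructor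
  · rintro ⟨_, h1, h2⟩
    apply le_antisymm
    · by_contra h3
      rw [not_le] at h3
      obtain ⟨a, ha⟩ := Ordinal.typein_surj (· < ·) h3
      have h4 := Ordinal.card_typein (r := ((· < ·) : A → A → Prop)) a
      rw [ha, card_ord] at h4
      exact (h2 a).ne h4.symm
    · rw [← h1]
      exact Cardinal.ord_le_type _
  · intro h
    refine ⟨inferInstance, ?_, ?_⟩
    · have h1 := congrArg Ordinal.card h
      rwa [Ordinal.card_type, card_ord] at h1
    · intro a
      have h1 := Ordinal.typein_lt_type ((· < ·) : A → A → Prop) a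
      rw [h, Cardinal.lt_ord, Ordinal.card_typein] at h1
      exact h1

theorem ot_iso {A B : Type} [LinearOrder A] [LinearOrder B] {c : Cardinal.{0}} (hA : OTyp A c) (hB : OTyp B c) :
    Nonempty (A ≃o B) := by
  haveI := hA.wf
  haveI := hB.wf
  have h1 := ot_type.mp hA
  have h2 := ot_type.mp hB
  have h3 := Ordinal.type_eq.mp (h1.trans h2.symm)
  obtain ⟨f⟩ := h3
  exact ⟨OrderIso.ofRelIsoLT f⟩

theorem ot_ord (c : Cardinal.{0}) : OTyp c.ord.ToType c := by
  refine ⟨inferInstance, Cardinal.mk_ord_toType c, fun a => ?_⟩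
  have := Cardinal.card_typein_toType_lt c a
  rwa [Ordinal.card_typein] at this

theorem ot_iio {A : Type} [LinearOrder A] {a : A} (b : Set.Iio a) : #(Set.Iio b) = #(Set.Iio b.1) := by
  refine Cardinal.mk_congr ⟨fun z => ⟨z.1.1, z.2⟩, fun z => ⟨⟨z.1, lt_trans z.2 b.2⟩, z.2⟩, fun z => rfl,
    fun z => rfl⟩

theorem ot_pt {A : Type} [LinearOrder A] {c x : Cardinal.{0}} (hA : OTyp A c) (hx : x < c) : ∃ a : A, OTyp (Set.Iio a) x := by
  haveI := hA.wf
  have h1 := ot_type.mp hA
  have h2 : x.ord < Ordinal.type ((· < ·) : A → A → Prop) := by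
    rw [h1]
    exact Cardinal.ord_lt_ord.mpr hx
  obtain ⟨a, ha⟩ := Ordinal.typein_surj ((· < ·) : A → A → Prop) h2
  refine ⟨a, inferInstance, ?_, ?_⟩
  · have h4 := Ordinal.card_typein (r := ((· < ·) : A → A → Prop)) a
    rw [ha, card_ord] at h4
    exact h4.symm
  · intro b
    rw [ot_iio]
    have h3 : Ordinal.typein ((· < ·) : A → A → Prop) b.1 < x.ord := by
      rw [← ha]
      exact (Ordinal.typein_lt_typein _).mpr b.2
    rw [Cardinal.lt_ord, Ordinal.card_typein] at h3
    exact h3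

/-- the initial segments are monotone -/
theorem OT_mono {A : Type} [LinearOrder A] {a b : A} (h : a ≤ b) : #(Set.Iio a) ≤ #(Set.Iio b) :=
  Cardinal.mk_le_mk_of_subset (fun _ hx => lt_of_lt_of_le hx h)

theorem ot_le {A : Type} [LinearOrder A] [WellFoundedLT A] {a b : A} {x y : Cardinal.{0}} (ha : OTyp (Set.Iio a) x) (hb : OTyp (Set.Iio b) y) :
    a < b ↔ x < y := by
  constructor
  · intro h
    have h1 := hb.seg ⟨a, h⟩
    rw [ot_iio] at h1
    rw [← ha.card]
    exact h1
  · intro h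
    by_contra h1
    have h2 := OT_mono (not_lt.mp h1)
    rw [ha.card, hb.card] at h2
    exact absurd h (not_lt.mpr h2)

theorem ot_top {A : Type} [LinearOrder A] {c : Cardinal.{0}} (hA : OTyp A c) : OTyp (Set.Iio (⊤ : WithTop A)) c := by
  haveI := hA.wf
  haveI : WellFoundedLT (WithTop A) := inferInstance
  have e : A ≃o Set.Iio (⊤ : WithTop A) :=
    { toFun := fun a => ⟨(a : WithTop A), WithTop.coe_lt_top a⟩
      invFun := fun z => z.1.untop (ne_of_lt z.2)
      left_inv := fun a => rfl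
      right_inv := fun z => Subtype.ext (WithTop.coe_untop _ _)
      map_rel_iff' := by
        intro a b
        show ((a : WithTop A) ≤ (b : WithTop A)) ↔ a ≤ b
        exact WithTop.coe_le_coe }
  rw [ot_type]
  rw [← ot_type.mp hA]
  exact (Ordinal.type_eq.mpr ⟨e.toRelIsoLT⟩).symm

theorem ot_coe {A : Type} [LinearOrder A] {x : Cardinal.{0}} {a : A} (ha : OTyp (Set.Iio a) x) : OTyp (Set.Iio (a : WithTop A)) x := by
  haveI := ha.wf
  have e : Set.Iio a ≃o Set.Iio (a : WithTop A) :=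
    { toFun := fun z => ⟨(z.1 : WithTop A), WithTop.coe_lt_coe.mpr z.2⟩
      invFun := fun z => ⟨z.1.untop (ne_of_lt (lt_of_lt_of_le z.2 le_top)), by
        have h := z.2
        rw [Set.mem_Iio] at h ⊢
        rw [← WithTop.coe_lt_coe, WithTop.coe_untop]
        exact h⟩
      left_inv := fun a => rfl
      right_inv := fun z => Subtype.ext (WithTop.coe_untop _ _)
      map_rel_iff' := by
        intro a b
        show ((a.1 : WithTop A) ≤ (b.1 : WithTop A)) ↔ a ≤ b
        exact WithTop.coe_le_coe }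
  haveI : WellFoundedLT (Set.Iio (a : WithTop A)) :=
    ⟨(e.symm.toRelIsoLT.toRelEmbedding.wellFounded ha.wf.wf)⟩
  rw [ot_type]
  rw [← ot_type.mp ha]
  exact (Ordinal.type_eq.mpr ⟨e.toRelIsoLT⟩).symm

theorem ot_bdd {A : Type} [LinearOrder A] {c : Cardinal.{0}} (hA : OTyp A c) (hc : c.IsRegular) (S : Set A) (hS : #S < c) :
    ∃ b, ∀ a ∈ S, a < b := by
  by_contra hcon
  push Not at hcon
  have h1 : (Set.univ : Set A) ⊆ ⋃ s : S, Set.Iic s.1 := by
    intro b _
    obtain ⟨a, ha, hb⟩ := hcon b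
    exact Set.mem_iUnion.mpr ⟨⟨a, ha⟩, hb⟩
  have h2 : ∀ s : S, #(Set.Iic s.1 : Set A) < c := by
    intro s
    have h3 : Set.Iic s.1 ⊆ insert s.1 (Set.Iio s.1) := by
      intro x hx
      rcases (Set.mem_Iic.mp hx).eq_or_lt with h | h
      · exact Or.inl h
      · exact Or.inr h
    refine lt_of_le_of_lt (Cardinal.mk_le_mk_of_subset h3) ?_
    refine lt_of_le_of_lt (Cardinal.mk_insert_le) ?_
    exact Cardinal.add_lt_of_lt hc.aleph0_le (hA.seg s.1) (lt_of_lt_of_le Cardinal.one_lt_aleph0 hc.aleph0_le)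
  have h4 : #(⋃ s : S, Set.Iic s.1 : Set A) < c :=
    (Cardinal.card_iUnion_lt_iff_forall_of_isRegular hc hS).mpr h2
  have h5 := lt_of_le_of_lt (Cardinal.mk_le_mk_of_subset h1) h4
  rw [Cardinal.mk_univ, hA.card] at h5
  exact lt_irrefl _ h5

theorem pl_le_plw (c : Cardinal.{0}) (n : ℕ) : pl c n ≤ plw c :=
  le_ciSup (Cardinal.bddAbove_range (fun n : ℕ => pl c n)) n

theorem pl_lt_plw (c : Cardinal.{0}) (n : ℕ) : pl c n < plw c := by
  refine lt_of_lt_of_le ?_ (pl_le_plw c (n + 1))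
  rw [pl_succ]
  exact Order.lt_succ _

theorem lt_plw {c x : Cardinal.{0}} (h : x < plw c) : ∃ n, x < pl c n := by
  obtain ⟨n, hn⟩ := exists_lt_of_lt_ciSup h
  exact ⟨n, hn⟩

theorem plw_lt {c θ : Cardinal.{0}} (hθ : θ.IsInaccessible) (hc : c < θ) : plw c < θ := by
  obtain ⟨y, hy, h⟩ := inac_pl_bdd hθ hc
  exact lt_of_le_of_lt (ciSup_le h) hy

theorem succ_plw_regular {c : Cardinal.{0}} (hc : ℵ₀ ≤ c) : (Order.succ (plw c)).IsRegular := by
  apply Cardinal.isRegular_succ
  exact hc.trans (pl_le_plw c 0)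

/-- the numbers and `ω` in a wellordered type of order type an uncountable cardinal -/
theorem exists_ndat {A : Type} [LinearOrder A] {c : Cardinal.{0}} (hA : OTyp A c) (hc : ℵ₀ < c) : ∃ D : NDat A, OTyp (Set.Iio D.om) ℵ₀ := by
  obtain ⟨a, ha⟩ := ot_pt hA hc
  have h0 : OTyp ℕ ℵ₀ := by
    refine ⟨inferInstance, Cardinal.mk_nat, fun n => ?_⟩
    exact Cardinal.lt_aleph0_of_finite _
  obtain ⟨e⟩ := ot_iso h0 ha
  refine ⟨⟨fun n => (e n).1, a, ?_, ?_⟩, ha⟩
  · intro m n h
    exact e.strictMono h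
  · intro x
    constructor
    · intro hx
      exact ⟨e.symm ⟨x, hx⟩, by rw [e.apply_symm_apply]⟩
    · rintro ⟨n, rfl⟩
      exact (e n).2

end Pool.Agent.TrI
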