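import Pool.Agent.TrI.VDefs3
import Pool.Agent.TrI.OT
import Pool.Agent.Transv.Final

set_option autoImplicit false
set_option linter.all false

/-!
# Families of at most `ℵ_ω` sets of cardinality at most `ℵ_ω` have transversals
-/

namespace Pool.Agent.TrI

open Cardinal Pool.Agent.SplK

theorem trv_cof {μ : Cardinal.{0}} (hμ : ℵ₀ < μ) (h : μ < plw ℵ₀) : μ.ord.cof = μ := by
  obtain ⟨n, hn⟩ := lt_plw h
  have h1 : ∀ n : ℕ, μ < pl ℵ₀ n → ∃ m, μ = Order.succ (pl ℵ₀ m) := by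
    intro n
    induction n with
    | zero =>
      intro h2
      exact absurd (hμ.trans h2) (lt_irrefl _)
    | succ n ih =>
      intro h2
      have h3 : pl ℵ₀ (n + 1) = Order.succ (pl ℵ₀ n) := Function.iterate_succ_apply' _ _ _
      rw [h3, Order.lt_succ_iff] at h2
      rcases lt_or_eq_of_le h2 with h4 | h4
      · exact ih h4
      · cases n with
        | zero =>
          rw [h4] at hμ
          exact absurd hμ (lt_irrefl _)
        | succ n =>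
          exact ⟨n, by rw [h4]; exact Function.iterate_succ_apply' _ _ _⟩
  obtain ⟨m, rfl⟩ := h1 n hn
  refine (Cardinal.isRegular_succ ?_).cof_eq
  have : ∀ m : ℕ, ℵ₀ ≤ pl ℵ₀ m := by
    intro m
    induction m with
    | zero => exact le_rfl
    | succ m ih =>
      have h3 : pl ℵ₀ (m + 1) = Order.succ (pl ℵ₀ m) := Function.iterate_succ_apply' _ _ _
      rw [h3]
      exact ih.trans (Order.le_succ _)
  exact this m

/-- Families of at most `ℵ_ω` sets of cardinality `κ ≤ ℵ_ω` have transversals. -/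
theorem trv_hasTr (gch : GCH0) {κ : Cardinal.{0}} (h0 : ℵ₀ < κ) (hκ : κ ≤ plw ℵ₀) :
    Pool.Agent.Transv.HasTr κ ℵ₀ (plw ℵ₀) := by
  refine Pool.Agent.Transv.hasTr_of_no_ladders gch le_rfl h0 _ hκ ?_
  intro μ h1 h2 h3 h4
  exfalso
  have h5 := trv_cof h1 ((Order.lt_succ μ).trans_le h4)
  rw [h5] at h2
  have h6 : (ℵ₀ : Cardinal.{0}).ord.cof ≤ ℵ₀ := Ordinal.cof_ord_le ℵ₀
  rw [← h2] at h6
  exact absurd h1 h6.not_gt

/-- A nonempty countable set is a set of values of a sequence. -/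
theorem trv_seq {L : Type} (S : Set L) (h : #S ≤ ℵ₀) [Nonempty L] : ∃ s : ℕ → L, ∀ x ∈ S, ∃ n, s n = x := by
  have h1 : S.Countable := Cardinal.le_aleph0_iff_set_countable.1 h
  obtain ⟨s, hs⟩ := Set.countable_iff_exists_subset_range.1 h1
  exact ⟨s, fun x hx => hs hx⟩

theorem trP_of {L : Type} [LinearOrder L] (gch : GCH0) {k l : L} (hk0 : ℵ₀ ≤ #(Set.Iio k)) (hk : #(Set.Iio k) ≤ plw ℵ₀)
    (hl : ∀ c < l, #(Set.Iio c) ≤ plw ℵ₀) : TrP k l := by
  classical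
  intro c hc I R hI hcard hdisj
  have : Nonempty L := ⟨k⟩
  rcases eq_or_lt_of_le hk0 with h0 | h0
  · refine ⟨Set.univ, fun e he => ⟨?_, ?_⟩⟩
    · have h1 : #{x | x < c ∧ R e x} ≠ 0 := by
        rw [hcard e he, ← h0]; exact aleph0_pos.ne'
      obtain ⟨x, hx⟩ := Cardinal.mk_ne_zero_iff.1 h1
      exact ⟨x, trivial, hx⟩
    · obtain ⟨s, hs⟩ := trv_seq {x | x < c ∧ R e x} (by rw [hcard e he, ← h0])
      exact ⟨s, fun x _ h1 h2 => hs x ⟨h1, h2⟩⟩
  · have h1 := trv_hasTr gch h0 hk I L (fun e => {x | x < c ∧ R e.1 x}) ?_ (fun e => hcard e.1 e.2) ?_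
    · obtain ⟨T, hT⟩ := h1
      refine ⟨T, fun e he => ?_⟩
      obtain ⟨⟨x, hx, hx'⟩, h2⟩ := hT ⟨e, he⟩
      refine ⟨⟨x, hx, hx'⟩, ?_⟩
      obtain ⟨s, hs⟩ := trv_seq _ h2
      exact ⟨s, fun y hy h3 h4 => hs y ⟨hy, h3, h4⟩⟩
    · exact (Cardinal.mk_le_mk_of_subset (fun e he => hI e he)).trans (hl c hc)
    · intro e e' hne
      by_contra hcon
      push Not at hcon
      obtain ⟨s⟩ : Nonempty (ℕ ↪ ↥({x | x < c ∧ R e.1 x} ∩ {x | x < c ∧ R e'.1 x})) := by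
        have h2 : #ℕ ≤ #↥({x | x < c ∧ R e.1 x} ∩ {x | x < c ∧ R e'.1 x}) := by
          rw [Cardinal.mk_nat]; exact hcon
        exact h2
      refine hdisj e.1 e.2 e'.1 e'.2 (fun h => hne (Subtype.ext h)) (fun n => (s n).1)
        ⟨fun m n hmn => s.injective (Subtype.ext hmn), fun n => ?_⟩
      exact ⟨(s n).2.1.1, (s n).2.1.2, (s n).2.2.2⟩

theorem trv_iio {L : Type} [LinearOrder L] (hL : OTyp L (Order.succ (plw ℵ₀))) {c : WithTop L} (hc : c < ⊤) :
    #(Set.Iio c) ≤ plw ℵ₀ := by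
  obtain ⟨a, rfl⟩ := WithTop.ne_top_iff_exists.1 hc.ne
  have h1 : #(Set.Iio (a : WithTop L)) ≤ #(Set.Iio a) := by
    have h2 : Set.Iio (a : WithTop L) ⊆ (fun x : L => (x : WithTop L)) '' Set.Iio a := by
      intro x hx
      obtain ⟨y, rfl⟩ := WithTop.ne_top_iff_exists.1 (lt_trans (Set.mem_Iio.1 hx) hc).ne
      exact ⟨y, WithTop.coe_lt_coe.1 hx, rfl⟩
    exact (Cardinal.mk_le_mk_of_subset h2).trans Cardinal.mk_image_le
  exact h1.trans (Order.lt_succ_iff.1 (hL.seg a))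

/-- The version for the top element of `WithTop L`, where `L` has order type `ℵ_{ω+1}`. -/
theorem trP_top {L : Type} [LinearOrder L] (gch : GCH0) (hL : OTyp L (Order.succ (plw ℵ₀))) {k : WithTop L}
    (hk0 : ℵ₀ ≤ #(Set.Iio k)) (hk : k < ⊤) : TrP k (⊤ : WithTop L) :=
  trP_of gch hk0 (trv_iio hL hk) fun _ hc => trv_iio hL hc

end Pool.Agent.TrI
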