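import Pool.Agent.TrI.K9
import Pool.Agent.TrI.TrV
import Pool.Agent.TrI.QE

set_option autoImplicit false
set_option linter.all false

namespace Pool.Agent.TrI

open Cardinal Pool.Agent.SplK Pool.Agent.H55.Lav

theorem goodModel (gch : GCH0) : GoodModel := by
  obtain ⟨L, iL, otL, D, hDl, hDn, hDu, h1, h2, h3, h4⟩ := exists_q0' gch
  have wL : WellFoundedLT L := otL.wf
  refine goodModel_of h1 h2 h3 h4 (fun k hk1 hku => ?_)
  rw [hDl]
  refine trP_top gch otL ?_ ?_
  · have h5 : ℵ₀ ≤ #(Set.Iio (D.al 1)) := by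
      rw [(hDn 1).card]
      exact (Order.le_succ _)
    exact h5.trans (Cardinal.mk_le_mk_of_subset (Set.Iio_subset_Iio hk1))
  · have h6 : k ≤ D.u := hku
    have h7 := D.u_lt
    rw [hDl] at h7
    exact h6.trans_lt h7

end Pool.Agent.TrI
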