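import Pool.Agent.TrI.G2

set_option autoImplicit false
set_option linter.all false

/-!
# G3: every ordinal of the model is given by an element of a big type; cardinal arithmetic
-/

namespace Pool.Agent.TrI

open Cardinal
open FirstOrder FirstOrder.Language Pool.Agent.H55.SC Pool.Agent.H55.ZFU Pool.Agent.H55.Lav Pool.Agent.SplH

/-- A strong limit cardinal. -/
noncomputable def btC (c : Cardinal.{0}) : Cardinal.{0} := ℶ_ (c.ord + Ordinal.omega0)

theorem lt_btC (c : Cardinal.{0}) : c < btC c := by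
  unfold btC
  refine (Cardinal.le_beth_ord c).trans_lt (Cardinal.beth_lt_beth.mpr ?_)
  exact lt_add_of_pos_right _ Ordinal.omega0_pos

theorem al0_lt_btC (c : Cardinal.{0}) : ℵ₀ < btC c := by
  unfold btC
  rw [← Cardinal.beth_zero]
  refine Cardinal.beth_lt_beth.mpr ?_
  exact (Ordinal.omega0_pos).trans_le le_add_self

theorem btC_lim (c : Cardinal.{0}) : IsStrongLimit (btC c) := by
  unfold btC
  rw [isStrongLimit_beth]
  exact (Ordinal.isSuccLimit_add _ Ordinal.isSuccLimit_omega0).isSuccPrelimit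

/-- The rank of a name. -/
noncomputable def rkO {Q : Type} : Nm Q → Ordinal.{0}
  | .mk ι A _ => ⨆ i : ι, Order.succ (rkO (A i))

theorem rkO_lt {Q : Type} (τ : Nm Q) (i : τ.ι) : rkO (τ.A i) < rkO τ := by
  cases τ with
  | mk ι A c =>
    show rkO (A i) < rkO (.mk ι A c)
    rw [rkO]
    exact (Order.lt_succ _).trans_le (Ordinal.le_iSup (fun i : ι => Order.succ (rkO (A i))) i)

section
variable {Q : Type}

/-- A big type for a name. -/
abbrev Bt (τ : Nm Q) : Type := (btC (max #Q (rkO τ).card)).ord.ToType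

theorem bt_type (τ : Nm Q) : Ordinal.type (α := Bt τ) (· < ·) = (btC (max #Q (rkO τ).card)).ord := Ordinal.type_toType _

theorem bt_card (τ : Nm Q) : #(Bt τ) = btC (max #Q (rkO τ).card) := by
  rw [Cardinal.mk_toType, Cardinal.card_ord]

theorem bt_big (τ : Nm Q) : BigL Q (Bt τ) := by
  refine ⟨inferInstance, ?_, ?_, fun a => ?_⟩
  · rw [bt_card]; exact al0_lt_btC _
  · rw [bt_card]; exact (le_max_left _ _).trans_lt (lt_btC _)
  · rw [bt_card]
    refine (btC_lim _).two_power_lt ?_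
    exact Cardinal.mk_Iio_ord_toType a

theorem bt_rk (τ : Nm Q) {σ : Nm Q} (h : rkO σ ≤ rkO τ) : rkO σ < Ordinal.type (α := Bt τ) (· < ·) := by
  rw [bt_type]
  refine h.trans_lt ?_
  rw [Cardinal.lt_ord]
  exact (le_max_right _ _).trans_lt (lt_btC _)

/-- The rank of `σ` as an element of `Bt τ`. -/
noncomputable def rkL (τ σ : Nm Q) : Bt τ := by
  classical
  exact if h : rkO σ ≤ rkO τ then elG (Bt τ) (rkO σ) (bt_rk τ h) else elG (Bt τ) (rkO τ) (bt_rk τ le_rfl)

theorem rkL_lt (τ σ : Nm Q) (h : rkO σ ≤ rkO τ) (i : σ.ι) : rkL τ (σ.A i) < rkL τ σ := by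
  unfold rkL
  rw [dif_pos h, dif_pos ((rkO_lt σ i).le.trans h), elG_lt]
  exact rkO_lt σ i

variable [Preorder Q] [OrderTop Q]

theorem g3_lt {N : Set (Un Q)} {G : Set Q} [Env N G] (τ : Nm Q) [LEnv N (Bt τ)] (hr : ∀ σ : Nm Q, InN N σ → InT N (rkL τ σ)) :
    ∀ σ : Nm Q, InN N σ → rkO σ ≤ rkO τ → ∀ i : LN N (Bt τ), (lv G i).1 ∈ val N G σ → i.1 < rkL τ σ := by
  intro σ
  induction σ with
  | mk ι A c ih =>
    intro hσ h i hi
    obtain ⟨k, h1, _, h3⟩ := mem_val.mp hi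
    have h4 : i.1 ≤ rkL τ (A k) := by
      by_contra h5
      have h6 : (⟨rkL τ (A k), hr _ h1⟩ : LN N (Bt τ)) < i := not_le.mp h5
      have h7 : lv G (⟨rkL τ (A k), hr _ h1⟩ : LN N (Bt τ)) ∈ lv G i := lv_lt.mpr h6
      have h8 : (lv G (⟨rkL τ (A k), hr _ h1⟩ : LN N (Bt τ))).1 ∈ val N G (A k) := by
        have h9 : val N G (A k) = (lv G i).1 := h3
        rw [h9]
        exact h7
      exact lt_irrefl _ (ih k h1 ((rkO_lt (.mk ι A c) k).le.trans h) _ h8)
    exact h4.trans_lt (rkL_lt τ (.mk ι A c) h k)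

end

/-- What is used about a name. -/
structure G3Ok {Q : Type} [Preorder Q] [OrderTop Q] (N : Set (Un Q)) (τ : Nm Q) : Prop where
  env : LEnv N (Bt τ)
  rk : ∀ σ : Nm Q, InN N σ → InT N (rkL τ σ)
  car : ∀ (G : Set Q) [Env N G] [LEnv N (Bt τ)] (i : LN N (Bt τ)), (omega : MM N G) ⊆ lv G i → G2P (lv G i)

theorem carith_club {Q : Type} [Preorder Q] [OrderTop Q] (hQ : GchP Q) : ∀ᶠ N in club (Un Q), ∀ (G : Set Q) [Env N G],
    CArith (MM N G) := by
  have h1 : ∀ᶠ N in club (Un Q), ∀ τ : Nm Q, InN N τ → G3Ok N τ := by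
    refine diagN (fun τ => ?_)
    have h2 : ∀ᶠ N in club (Un Q), ∀ σ : Nm Q, InN N σ → InT N (rkL τ σ) := diagN (fun σ => club_inT _)
    filter_upwards [h2, g2_club (L := Bt τ) (bt_big τ) hQ] with N h2 h3
    exact ⟨h3.1, h2, h3.2⟩
  filter_upwards [h1] with N h1 G _
  have key : ∀ x : MM N G, IsOrd x → (omega : MM N G) ⊆ x → G2P x := by
    intro x hx hom
    obtain ⟨τ, hτ, hτx⟩ := x.2
    have hok := h1 τ hτ
    haveI := hok.env
    have h2 : ∃ i : LN N (Bt τ), x = lv G i := by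
      let e : LN N (Bt τ) := ⟨rkL τ τ, hok.rk τ hτ⟩
      rcases ord_tri x hx (lv G e) (lv_ord e) with h3 | h3 | h3
      · obtain ⟨j, _, hj⟩ := mem_lv.mp h3
        exact ⟨j, hj⟩
      · exact ⟨e, h3⟩
      · exfalso
        have h4 : (lv G e).1 ∈ val N G τ := by
          rw [hτx]
          exact h3
        exact lt_irrefl _ (g3_lt τ hok.rk τ hτ le_rfl e h4)
    obtain ⟨i, rfl⟩ := h2
    exact hok.car G i hom
  exact ⟨fun x hx h => (key x hx h).1, fun x hx h => (key x hx h).2⟩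

end Pool.Agent.TrI
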