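import Pool.Agent.TrI.UDefs

set_option autoImplicit false
set_option linter.all false

/-!
# T2: `ImgP` in the model
-/

namespace Pool.Agent.TrI

open FirstOrder FirstOrder.Language Pool.Agent.H55.SC Pool.Agent.H55.ZFU Pool.Agent.H55.Lav Pool.Agent.SplH

variable {Q : Type} [Preorder Q] [OrderTop Q] {L : Type} [LinearOrder L] [WellFoundedLT L]

/-- `s` is a name of a function from `a` onto `b`. -/
def T2P (a b : L) (q : Q) (s : L → L → Set Q) : Prop :=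
  (∀ x y y' E, BelQ (s x y) E → BelQ (s x y') E → y = y') ∧ ∀ y < b, FoQ {E | ∃ x < a, E ∈ s x y} q

theorem timg_club : ∀ᶠ N in club (Un Q), ∀ (G : Set Q) [Env N G] [LEnv N L] (a b : LN N L), ImgP Q a.1 b.1 →
    Img (lv G a) (lv G b) := by
  have h0 : ∀ᶠ N in club (Un Q), ∀ a : L, InT N a → ∀ b : L, InT N b → InT N {q : Q | ∃ s, T2P a b q s} :=
    diagT (fun a => diagT (fun b => club_inT _))
  have h1 : ∀ᶠ N in club (Un Q), ∀ a : L, InT N a → ∀ b : L, InT N b → ∀ q : Q, InT N q →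
      (∃ s, T2P a b q s) → ∃ s, T2P a b q s ∧ InT N s :=
    diagT (fun a => diagT (fun b => diagT (fun q => u_wit _)))
  have h2 : ∀ᶠ N in club (Un Q), ∀ a : L, InT N a → ∀ s : L → L → Set Q, InT N s → ∀ y : L, InT N y →
      InT N {E | ∃ x, x < a ∧ E ∈ s x y} :=
    diagT (fun a => diagT (fun s => diagT (fun y => club_inT _)))
  have h3 : ∀ᶠ N in club (Un Q), ∀ a : L, InT N a → ∀ s : L → L → Set Q, InT N s → ∀ y : L, InT N y → ∀ q : Q, InT N q →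
      (∃ x, x < a ∧ q ∈ s x y) → ∃ x, (x < a ∧ q ∈ s x y) ∧ InT N x :=
    diagT (fun a => diagT (fun s => diagT (fun y => diagT (fun q => u_wit _))))
  filter_upwards [h0, h1, h2, h3] with N h0 h1 h2 h3 G _ _ a b hab
  have gen : GenF N G := Env.gen
  have qok : QOk N := Env.qok (N := N) (G := G)
  obtain ⟨q, hq, hqc⟩ := gen.gen _ (h0 a.1 a.2 b.1 b.2) (fun p => by
    obtain ⟨q, hq, s, h⟩ := hab p
    exact ⟨q, ⟨s, h⟩, hq⟩)
  obtain ⟨s, ⟨hu, hs⟩, hsN⟩ := h1 a.1 a.2 b.1 b.2 q (gen.sub q hq) hqc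
  obtain ⟨f, hf⟩ := exists_fam (N := N) (G := G) hsN
  refine ⟨lam (lv G a) (fun x => bigU (app f x)), fun y hy => ?_⟩
  obtain ⟨j, hj, rfl⟩ := mem_lv.mp hy
  obtain ⟨q2, hq2, hq2c⟩ := ht_of_fo qok gen (h2 a.1 a.2 s hsN j.1 j.2) hq (hs j.1 hj)
  obtain ⟨i, ⟨hi, hi2⟩, hiN⟩ := h3 a.1 a.2 s hsN j.1 j.2 q2 (gen.sub q2 hq2) hq2c
  refine ⟨lv G ⟨i, hiN⟩, lv_lt.mpr hi, ?_⟩
  rw [app_lam (lv_lt.mpr hi)]
  have key : ∀ z : MM N G, z ∈ app f (lv G ⟨i, hiN⟩) ↔ z = lv G j := by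
    intro z
    rw [hf]
    constructor
    · rintro ⟨k, rfl, q3, hq3, hk⟩
      obtain ⟨r, hr, hr2, hr3⟩ := gen.dir q2 hq2 q3 hq3
      have : j.1 = k.1 := hu i j.1 k.1 r ⟨q2, hi2, hr2⟩ ⟨q3, hk, hr3⟩
      rw [Subtype.ext this]
    · rintro rfl
      exact ⟨j, rfl, q2, hq2, hi2⟩
  apply Pool.Agent.H55.ZFU.ext
  intro w
  rw [mem_bigU]
  constructor
  · rintro ⟨z, hz, hw⟩
    rw [(key z).mp hz] at hw
    exact hw
  · intro hw
    exact ⟨_, (key _).mpr rfl, hw⟩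

end Pool.Agent.TrI
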