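import Pool.Agent.TrI.T1
import Pool.Agent.TrI.T2

set_option autoImplicit false
set_option linter.all false

/-!
# T4: `AFrc` in the model
-/

namespace Pool.Agent.TrI

open FirstOrder FirstOrder.Language Pool.Agent.H55.SC Pool.Agent.H55.ZFU Pool.Agent.H55.Lav Pool.Agent.SplH

variable {Q : Type} [Preorder Q] [OrderTop Q] {L : Type} [LinearOrder L] [WellFoundedLT L]

theorem ua_club {D : ADat L} (hD : AFrc Q D) : ∀ᶠ N in club (Un Q), ∀ (G : Set Q) [Env N G] [LEnv N L] [AEnv N D],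
    ∃ f : MM N G, (∀ n : ℕ, app f (lv G (D.toNDat.nN (N := N) n)) = lv G (D.alN (N := N) n)) ∧
      UA f (lv G (D.uN (N := N))) (lv G (D.lN (N := N))) := by
  filter_upwards [nimg_club (Q := Q) (L := L), timg_club (Q := Q) (L := L)] with N hn hi G _ _ _
  obtain ⟨f, hf1, hf⟩ := exists_alf (N := N) (G := G) D
  refine ⟨f, hf, ?_⟩
  have hz : (∅ : MM N G) = lv G (D.toNDat.nN (N := N) 0) := (lv_zero D.toNDat).symm
  refine ⟨hf1, ?_, ?_, ?_, lv_ord _, ?_⟩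
  · rw [hz, hf 0, omega_eq D.toNDat]
    congr 1
    exact Subtype.ext D.al_zero
  · intro n hn'
    obtain ⟨n, rfl⟩ := (mem_om D.toNDat).mp hn'
    rw [suc_nN, hf, hf]
    refine ⟨lv_ord _, lv_lt.mpr (D.al_lt n), fun c hc => ?_, hn G _ _ (hD.nimg n)⟩
    obtain ⟨c, hc', rfl⟩ := mem_lv.mp hc
    exact hi G _ _ (hD.img n c.1 hc')
  · intro x
    rw [mem_lv]
    constructor
    · rintro ⟨j, hj, rfl⟩
      obtain ⟨n, hn'⟩ := (D.u_iff j.1).mp hj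
      refine ⟨lv G (D.toNDat.nN (N := N) n), (mem_om D.toNDat).mpr ⟨n, rfl⟩, ?_⟩
      rw [hf]
      exact lv_lt.mpr hn'
    · rintro ⟨n, hn', hx⟩
      obtain ⟨n, rfl⟩ := (mem_om D.toNDat).mp hn'
      rw [hf] at hx
      obtain ⟨j, hj, rfl⟩ := mem_lv.mp hx
      exact ⟨j, (D.u_iff j.1).mpr ⟨n, hj⟩, rfl⟩
  · refine ⟨lv_ord _, lv_lt.mpr D.u_lt, fun c hc => ?_, hn G _ _ hD.nimgu⟩
    obtain ⟨c, hc', rfl⟩ := mem_lv.mp hc
    exact hi G _ _ (hD.imgu c.1 hc')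

end Pool.Agent.TrI
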