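import Pool.Agent.TrI.Id

set_option autoImplicit false
set_option linter.all false
universe u

/-!
# If (difficulty 2): the generalized continuum hypothesis in the model

Let `IsCard a`, `omega ⊆ a` (`Sub`), `IsSuccCard a b` (so `SuccI a b`, `succCard_iff`), `p` the power set (`p = pow a` by `ZFU.ext`, `mem_pow'`). `hC.gch a` gives the ordinal `y` with `∀ c ∈ y, Img a c`, `Img y (pow a)`. `y ⊆ b`: otherwise `b ∈ y` (`ord_tri`) and `Img a b`. So `Img b (pow a)` (`img_dom`).
An injection from `b` to `pow a`: `wellorder (pow a)` gives an ordinal `θ` and a bijection `e : θ → pow a`; `b ⊆ θ`: otherwise `θ ∈ b` (`ord_not_mem`), `Img a θ`, so `Img a (pow a)`: Cantor: `s` covers `pow a` from `a`; `D = sep a (fun x => x ∉ app s x)`, `app s x = D` for some `x ∈ a`, contradiction.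
`bij_of_inj` with `G = app e`. (`IsBij Model.E f b p`.)
-/

namespace Pool.Agent.TrI

open Pool.Agent.H55.SC Pool.Agent.H55.CS Pool.Agent.H55.ZFU
open Pool.Agent.SplH (Img isOrdinal_iff isSurj_iff isBij_iff surj_img img_surj csb)
open Pool.Agent.SplC (IsBij IsCard)

variable {M : Type u} [Model M] [Pool.Agent.H55.ZFU.Pure M] [Choice M]

theorem cantor_img (a : M) : ¬ Img a (pow a) := by
  rintro ⟨s, hs⟩
  have i1 : Dfn1 (fun x : M => x ∉ app s x) := inferInstance
  obtain ⟨D, hD⟩ : ∃ D : M, D = sep a (fun x : M => x ∉ app s x) := ⟨_, rfl⟩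
  have hDm : ∀ x : M, x ∈ D ↔ x ∈ a ∧ x ∉ app s x := by
    intro x
    rw [hD, mem_sep]
  have hDp : D ∈ pow a := mem_pow'.2 (fun x hx => ((hDm x).1 hx).1)
  obtain ⟨x, hx, hxD⟩ := hs D hDp
  have h1 : x ∉ D := by
    intro h
    have h2 := ((hDm x).1 h).2
    rw [hxD] at h2
    exact h2 h
  apply h1
  rw [hDm, hxD]
  exact ⟨hx, h1⟩

theorem gch_int (hC : CArith M) : IsGCH Model.E (omega : M) := by
  intro a b p ha hωa hab hp
  have haO : IsOrd a := isOrdinal_iff.1 ha.1
  have hs : SuccI a b := succCard_iff.1 hab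
  have hpe : p = pow a := by
    apply Pool.Agent.H55.ZFU.ext
    intro x
    rw [mem_pow']
    exact hp x
  subst hpe
  obtain ⟨y, hyO, hyc, hyp⟩ := hC.gch a haO hωa
  have hby : b ∉ y := fun h => hs.nimg (hyc b h)
  have hyb : y ⊆ b := ord_not_mem hs.ord hyO hby
  have hbp : Img b (pow a) := img_dom hyp hyb
  obtain ⟨θ, e, hθ, heF, heA, heI, heS⟩ := wellorder (pow a)
  have hθb : θ ∉ b := by
    intro h
    obtain ⟨s, hs'⟩ := hs.img θ h
    have i1 : Fn1 (fun x : M => app e (app s x)) := inferInstance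
    apply cantor_img a
    apply img_fn (fun x : M => app e (app s x))
    intro z hz
    obtain ⟨i, hi, hiz⟩ := heS z hz
    obtain ⟨x, hx, hxi⟩ := hs' i hi
    exact ⟨x, hx, by rw [hxi, hiz]⟩
  have hbθ : b ⊆ θ := ord_not_mem hθ hs.ord hθb
  have i2 : Fn1 (fun x : M => app e x) := inferInstance
  exact bij_of_inj hs.ord hbp (fun x : M => app e x) (fun x hx => heA x (hbθ x hx))
    (fun x x' hx hx' he => heI x x' (hbθ x hx) (hbθ x' hx') he)

end Pool.Agent.TrI
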