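import Pool.Agent.TrI.Id

set_option autoImplicit false
set_option linter.all false
universe u

/-!
# Ig (difficulty 1): `l` is the cardinal `ℵ_{ω+1}` of the model

Take the function `f`, `b = img omega (fun n => app f n)`, `u`. `isFun_iff` (SplH/F1): `FnOn f omega` is `hA.fn`. `Rel Model.E f x y` for `x ∈ omega` is `app f x = y` (`f1_rel`, SplH/F1; if `Rel f e y` then `e ∈ omega` by `FnOn.dom`); `IsSucc` is `succ_iff` (SCBridge). `succCard_iff`.
`omega_iff` is not needed.
-/

namespace Pool.Agent.TrI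

open Pool.Agent.H55.SC Pool.Agent.H55.CS Pool.Agent.H55.ZFU
open Pool.Agent.SplH (Img isOrdinal_iff isSurj_iff isBij_iff isFun_iff f1_rel surj_img img_surj)
open Pool.Agent.SplC (IsBij IsCard)

variable {M : Type u} [Model M] [Pool.Agent.H55.ZFU.Pure M] [Choice M]

theorem aleph_int {f u l : M} (hA : UA f u l) : IsAlephOmegaSucc Model.E (omega : M) l := by
  refine ⟨f, img omega (fun n => app f n), u, ?_, ?_, ?_, ?_, ?_⟩
  · exact isFun_iff.2 ⟨hA.fn, fun x hx => mem_img.2 ⟨x, hx, rfl⟩⟩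
  · intro e y he hy
    have h1 : e = ∅ := eq_empty_iff.2 he
    subst h1
    have h2 : (∅ : M) ∈ (omega : M) := omega_inductive.1
    rw [← (f1_rel hA.fn h2).1 hy]
    exact hA.zero
  · intro n m y z hn hm hy hz
    have h1 : m = suc n := succ_iff.1 hm
    subst h1
    have h2 : suc n ∈ (omega : M) := suc_mem_omega hn
    rw [← (f1_rel hA.fn hn).1 hy, ← (f1_rel hA.fn h2).1 hz]
    exact succCard_iff.2 (hA.succ n hn)
  · intro x
    constructor
    · intro hx
      obtain ⟨n, hn, hxn⟩ := (hA.u_iff x).1 hx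
      exact ⟨n, app f n, (f1_rel hA.fn hn).2 rfl, hxn⟩
    · rintro ⟨n, y, hy, hxy⟩
      have hn : n ∈ (omega : M) := hA.fn.dom (rel_iff.1 hy)
      rw [← (f1_rel hA.fn hn).1 hy] at hxy
      exact (hA.u_iff x).2 ⟨n, hn, hxy⟩
  · exact succCard_iff.2 hA.ul

end Pool.Agent.TrI
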