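import Pool.Agent.TrI.S1

set_option autoImplicit false
set_option linter.all false
universe u

/-!
# S3 (difficulty 3): the degree of disjunction of the family is `ω`

`mb_fin`: for indices `(c, ξ) ≠ (c', ξ')` in `Ix` the intersection of the members is finite. A common point: by definition of `Mb` a point of `Mb k B T c ξ` is `Pt c ξ a` (`a ∈ k`), or (`c = o1`) `Pt ∅ x (hT T ξ x)` with `x ∈ app B ξ`, or (`c = o2`, `ξ ∈ omega`) `Pt o3 i i`, `i ∈ ξ`; use `own_mb` for the second member. Cases: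
both of the kind `o1`: `ξ ≠ ξ'`, the common points are `Pt ∅ x ..` with `x ∈ inter (app B ξ) (app B ξ')` (`hB.fin`, `img_inj`/`img_img`); kinds `∅` and `o1`: at most one common point `Pt ∅ ξ (hT T ξ' ξ)`: covered by `suc ∅`; kinds `o2`, `o2`: common points `Pt o3 i i`, `i ∈ ξ ∈ omega`: covered by `ξ`; in the other cases no common point
(covered by `∅`: `Img ∅ x` iff `x` is empty).
`fam_degree`: `IsCard omega` (`card_omega`), `IsDisjBelow` by `smaller_omega` and `mb_fin` (members with the same index are equal); for `e ∈ omega`: the members with indices `(o2, e)`, `(o2, suc e)` (`e, suc e ∈ omega ⊆ m`) are different (private points) and both contain `Pt o3 i i` for `i ∈ e`; if the intersection `c` were smaller than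
`e` (`smaller_nat`: `Img j c`, `j ∈ e`) then `Img j e`, against `nat_nimg`.
-/

namespace Pool.Agent.TrI

open Pool.Agent.H55.SC Pool.Agent.H55.CS Pool.Agent.H55.ZFU
open Pool.Agent.SplH (Img o1 o2 o3 isBij_iff)
open Pool.Agent.SplC (IsBij IsCard)

variable {M : Type u} [Model M] [Pool.Agent.H55.ZFU.Pure M] [Choice M] {f u l S B T k m : M}

private theorem S3_m0 {z ξ : M} : z ∈ Mb k B T ∅ ξ ↔ ∃ a, a ∈ k ∧ z = Pt ∅ ξ a := by
  obtain ⟨h1, h2, -, -, -, -⟩ := o_ne (M := M)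
  unfold Mb Bs Own
  rw [iteM_neg h1, iteM_neg (fun h => h2 h.1), mem_un, mem_img]
  constructor
  · rintro (h | h)
    · exact absurd h (not_mem_empty z)
    · exact h
  · exact fun h => Or.inr h

private theorem S3_m1 {z ξ : M} : z ∈ Mb k B T o1 ξ ↔ (∃ a, a ∈ k ∧ z = Pt o1 ξ a) ∨
    ∃ x, x ∈ app B ξ ∧ z = Pt ∅ x (hT T ξ x) := by
  unfold Mb Bs Own
  rw [iteM_pos rfl, mem_un, mem_img, mem_img]
  exact or_comm

private theorem S3_m2 {z ξ : M} : z ∈ Mb k B T o2 ξ ↔ (∃ a, a ∈ k ∧ z = Pt o2 ξ a) ∨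
    (ξ ∈ (omega : M) ∧ ∃ i, i ∈ ξ ∧ z = Pt o3 i i) := by
  obtain ⟨-, -, -, h3, -, -⟩ := o_ne (M := M)
  unfold Mb Bs Own
  rw [iteM_neg (fun h => h3 h.symm), mem_un]
  by_cases h : ξ ∈ (omega : M)
  · rw [iteM_pos ⟨rfl, h⟩, mem_img, mem_img]
    constructor
    · rintro (h1 | h1)
      · exact Or.inr ⟨h, h1⟩
      · exact Or.inl h1
    · rintro (h1 | h1)
      · exact Or.inr h1
      · exact Or.inl h1.2
  · rw [iteM_neg (fun h1 => h h1.2), mem_img]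
    constructor
    · rintro (h1 | h1)
      · exact absurd h1 (not_mem_empty z)
      · exact Or.inl h1
    · rintro (h1 | h1)
      · exact Or.inr h1
      · exact absurd h1.1 h

private theorem S3_none {a b : M} (h : ∀ z, z ∈ a → z ∈ b → False) :
    ∃ n, n ∈ (omega : M) ∧ Img n (inter a b) :=
  ⟨∅, empty_mem_omega, ∅, fun y hy => absurd (mem_inter.1 hy).2 (fun h1 => h y (mem_inter.1 hy).1 h1)⟩

private theorem S3_comm {a b : M} (h : ∃ n, n ∈ (omega : M) ∧ Img n (inter a b)) :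
    ∃ n, n ∈ (omega : M) ∧ Img n (inter b a) := by
  obtain ⟨n, hn, h1⟩ := h
  exact ⟨n, hn, img_mono h1 (fun x hx => mem_inter.2 ⟨(mem_inter.1 hx).2, (mem_inter.1 hx).1⟩)⟩

private theorem S3_one {a b p : M} (h : ∀ z, z ∈ a → z ∈ b → z = p) :
    ∃ n, n ∈ (omega : M) ∧ Img n (inter a b) := by
  refine ⟨suc ∅, suc_mem_omega empty_mem_omega, ?_⟩
  apply img_fn (fun _ => p)
  intro y hy
  rw [mem_inter] at hy
  exact ⟨∅, mem_suc.2 (Or.inr rfl), (h y hy.1 hy.2).symm⟩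

/-- The members with indices `(0, ξ)` and `(1, ξ')`. -/
private theorem S3_01 {ξ ξ' : M} : ∃ n, n ∈ (omega : M) ∧ Img n (inter (Mb k B T ∅ ξ) (Mb k B T o1 ξ')) := by
  obtain ⟨n01, -⟩ := o_ne (M := M)
  apply S3_one (p := Pt ∅ ξ (hT T ξ' ξ))
  intro z hz hz'
  rw [S3_m0] at hz
  rw [S3_m1] at hz'
  obtain ⟨a, _, rfl⟩ := hz
  rcases hz' with ⟨a', _, h⟩ | ⟨x, _, h⟩
  · rw [pt_inj] at h
    exact absurd h.1 n01
  · rw [pt_inj] at h
    obtain ⟨-, rfl, h2⟩ := h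
    rw [h2]

/-- The members with indices `(0, ξ)` and `(2, ξ')`. -/
private theorem S3_02 {ξ ξ' : M} : ∃ n, n ∈ (omega : M) ∧ Img n (inter (Mb k B T ∅ ξ) (Mb k B T o2 ξ')) := by
  obtain ⟨-, n02, n03, -, -, -⟩ := o_ne (M := M)
  apply S3_none
  intro z hz hz'
  rw [S3_m0] at hz
  rw [S3_m2] at hz'
  obtain ⟨a, _, rfl⟩ := hz
  rcases hz' with ⟨a', _, h⟩ | ⟨_, x, _, h⟩
  · rw [pt_inj] at h
    exact n02 h.1
  · rw [pt_inj] at h
    exact n03 h.1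

/-- The members with indices `(1, ξ)` and `(2, ξ')`. -/
private theorem S3_12 {ξ ξ' : M} : ∃ n, n ∈ (omega : M) ∧ Img n (inter (Mb k B T o1 ξ) (Mb k B T o2 ξ')) := by
  obtain ⟨-, n02, n03, n12, n13, -⟩ := o_ne (M := M)
  apply S3_none
  intro z hz hz'
  rw [S3_m1] at hz
  rw [S3_m2] at hz'
  rcases hz with ⟨a, _, rfl⟩ | ⟨x, _, rfl⟩
  · rcases hz' with ⟨a', _, h⟩ | ⟨_, x, _, h⟩
    · rw [pt_inj] at h
      exact n12 h.1
    · rw [pt_inj] at h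
      exact n13 h.1
  · rcases hz' with ⟨a', _, h⟩ | ⟨_, x, _, h⟩
    · rw [pt_inj] at h
      exact n02 h.1
    · rw [pt_inj] at h
      exact n03 h.1

private theorem S3_00 {ξ ξ' : M} (hne : ξ ≠ ξ') : ∃ n, n ∈ (omega : M) ∧ Img n (inter (Mb k B T ∅ ξ) (Mb k B T ∅ ξ')) := by
  apply S3_none
  intro z hz hz'
  rw [S3_m0] at hz hz'
  obtain ⟨a, _, rfl⟩ := hz
  obtain ⟨a', _, h⟩ := hz'
  rw [pt_inj] at h
  exact hne h.2.1

private theorem S3_11 {ξ ξ' : M} (hne : ξ ≠ ξ')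
    (h : ∃ n, n ∈ (omega : M) ∧ Img n (inter (app B ξ) (app B ξ'))) :
    ∃ n, n ∈ (omega : M) ∧ Img n (inter (Mb k B T o1 ξ) (Mb k B T o1 ξ')) := by
  obtain ⟨n01, -⟩ := o_ne (M := M)
  obtain ⟨n, hn, h1⟩ := h
  refine ⟨n, hn, ?_⟩
  have i1 : Fn1 (fun x : M => Pt ∅ x (hT T ξ x)) := inferInstance
  refine img_mono (img_img (fun x : M => Pt ∅ x (hT T ξ x)) h1) ?_
  intro z hz
  rw [mem_inter, S3_m1, S3_m1] at hz
  obtain ⟨hz1, hz2⟩ := hz
  rw [mem_img]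
  rcases hz1 with ⟨a, _, rfl⟩ | ⟨x, hx, rfl⟩
  · rcases hz2 with ⟨a', _, h2⟩ | ⟨x, _, h2⟩
    · rw [pt_inj] at h2
      exact absurd h2.2.1 hne
    · rw [pt_inj] at h2
      exact absurd h2.1.symm n01
  · rcases hz2 with ⟨a', _, h2⟩ | ⟨x', hx', h2⟩
    · rw [pt_inj] at h2
      exact absurd h2.1 n01
    · rw [pt_inj] at h2
      obtain ⟨-, rfl, -⟩ := h2
      exact ⟨x, mem_inter.2 ⟨hx, hx'⟩, rfl⟩

private theorem S3_22 {ξ ξ' : M} (hne : ξ ≠ ξ') :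
    ∃ n, n ∈ (omega : M) ∧ Img n (inter (Mb k B T o2 ξ) (Mb k B T o2 ξ')) := by
  obtain ⟨-, -, -, -, -, n23⟩ := o_ne (M := M)
  by_cases hξ : ξ ∈ (omega : M)
  · refine ⟨ξ, hξ, ?_⟩
    have i1 : Fn1 (fun x : M => Pt o3 x x) := inferInstance
    refine img_mono (img_img (fun x : M => Pt o3 x x) (img_refl ξ)) ?_
    intro z hz
    rw [mem_inter, S3_m2, S3_m2] at hz
    obtain ⟨hz1, hz2⟩ := hz
    rw [mem_img]
    rcases hz1 with ⟨a, _, rfl⟩ | ⟨_, x, hx, rfl⟩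
    · rcases hz2 with ⟨a', _, h2⟩ | ⟨_, x, _, h2⟩
      · rw [pt_inj] at h2
        exact absurd h2.2.1 hne
      · rw [pt_inj] at h2
        exact absurd h2.1 n23
    · exact ⟨x, hx, rfl⟩
  · apply S3_none
    intro z hz1 hz2
    rw [S3_m2] at hz1 hz2
    rcases hz1 with ⟨a, _, rfl⟩ | ⟨h, _⟩
    · rcases hz2 with ⟨a', _, h2⟩ | ⟨_, x, _, h2⟩
      · rw [pt_inj] at h2
        exact hne h2.2.1
      · rw [pt_inj] at h2
        exact n23 h2.1
    · exact hξ h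

theorem mb_fin (hB : UB (app f (suc ∅)) l S B T) {c ξ c' ξ' : M} (h : opair c ξ ∈ Ix l S m) (h' : opair c' ξ' ∈ Ix l S m)
    (hne : ¬ (c = c' ∧ ξ = ξ')) : ∃ n, n ∈ (omega : M) ∧ Img n (inter (Mb k B T c ξ) (Mb k B T c' ξ')) := by
  rw [mem_ix] at h h'
  simp only [opair_inj] at h h'
  rcases h with ⟨x, hx, rfl, rfl⟩ | ⟨x, hx, rfl, rfl⟩ | ⟨x, hx, rfl, rfl⟩ <;>
    rcases h' with ⟨x', hx', rfl, rfl⟩ | ⟨x', hx', rfl, rfl⟩ | ⟨x', hx', rfl, rfl⟩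
  · exact S3_00 (fun h => hne ⟨rfl, h⟩)
  · exact S3_01
  · exact S3_02
  · exact S3_comm S3_01
  · exact S3_11 (fun h => hne ⟨rfl, h⟩) (hB.fin _ _ hx hx' (fun h => hne ⟨rfl, h⟩))
  · exact S3_12
  · exact S3_comm S3_02
  · exact S3_comm S3_12
  · exact S3_22 (fun h => hne ⟨rfl, h⟩)

private theorem S3_fam {a : M} (h : a ∈ Fam k B T l S m) : ∃ c ξ, opair c ξ ∈ Ix l S m ∧ a = Mb k B T c ξ := by
  rw [mem_fam] at h
  rcases h with ⟨x, hx, h⟩ | ⟨x, hx, h⟩ | ⟨x, hx, h⟩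
  · exact ⟨∅, x, mem_ix.2 (Or.inl ⟨x, hx, rfl⟩), h⟩
  · exact ⟨o1, x, mem_ix.2 (Or.inr (Or.inl ⟨x, hx, rfl⟩)), h⟩
  · exact ⟨o2, x, mem_ix.2 (Or.inr (Or.inr ⟨x, hx, rfl⟩)), h⟩

theorem fam_degree (hA : UA f u l) (hB : UB (app f (suc ∅)) l S B T) (hωk : (omega : M) ∈ k) (hlm : l ⊆ m) :
    IsDegree Model.E (Fam k B T l S m) (omega : M) := by
  obtain ⟨-, -, -, -, -, n23⟩ := o_ne (M := M)
  refine ⟨card_omega, ?_, ?_⟩
  · intro a b c ha hb hab hc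
    obtain ⟨c1, ξ, h1, rfl⟩ := S3_fam ha
    obtain ⟨c2, ξ', h2, rfl⟩ := S3_fam hb
    rw [smaller_omega]
    obtain ⟨n, hn, h3⟩ := mb_fin (k := k) hB h1 h2 (by rintro ⟨rfl, rfl⟩; exact hab rfl)
    exact ⟨n, hn, img_mono h3 (fun x hx => mem_inter.2 ((hc x).1 hx))⟩
  · intro e _ he hdis
    have heo : e ∈ (omega : M) := he
    have hol : ∀ x : M, x ∈ (omega : M) → x ∈ m := by
      intro x hx
      apply hlm
      exact hA.ul.ord.sub hA.ul.mem x (hA.u_ord.sub (om_u hA) x hx)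
    have ha : Mb k B T o2 e ∈ Fam k B T l S m := mem_fam.2 (Or.inr (Or.inr ⟨e, hol e heo, rfl⟩))
    have hb : Mb k B T o2 (suc e) ∈ Fam k B T l S m :=
      mem_fam.2 (Or.inr (Or.inr ⟨suc e, hol _ (suc_mem_omega heo), rfl⟩))
    have hab : Mb k B T o2 e ≠ Mb k B T o2 (suc e) := by
      intro hh
      have h1 : Pt o2 e omega ∈ Mb k B T o2 e := S3_m2.2 (Or.inl ⟨omega, hωk, rfl⟩)
      rw [hh, S3_m2] at h1
      rcases h1 with ⟨a', _, h2⟩ | ⟨_, x, _, h2⟩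
      · rw [pt_inj] at h2
        have h4 : e ∈ suc e := mem_suc.2 (Or.inr rfl)
        rw [← h2.2.1] at h4
        exact not_mem_self e h4
      · rw [pt_inj] at h2
        exact n23 h2.1
    have h3 := hdis _ _ (inter (Mb k B T o2 e) (Mb k B T o2 (suc e))) ha hb hab (fun x => mem_inter)
    obtain ⟨j, hj, s, hs⟩ := smaller_nat heo h3
    apply nat_nimg heo j hj
    have i1 : Fn1 (fun x : M => snd (snd (app s x))) := inferInstance
    apply img_fn (fun x : M => snd (snd (app s x)))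
    intro i hi
    obtain ⟨x, hx, hxs⟩ := hs (Pt o3 i i) (mem_inter.2 ⟨S3_m2.2 (Or.inr ⟨heo, i, hi, rfl⟩),
      S3_m2.2 (Or.inr ⟨suc_mem_omega heo, i, mem_suc.2 (Or.inl hi), rfl⟩)⟩)
    refine ⟨x, hx, ?_⟩
    simp only [hxs]
    unfold Pt
    rw [snd_opair, snd_opair]

end Pool.Agent.TrI
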