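import Pool.Agent.TrI.S2
import Pool.Agent.TrI.S3

set_option autoImplicit false
set_option linter.all false
universe u

/-!
# S5 (difficulty 3): no `m ≥ ℵ_{ω+1}` is good for `(k, ℵ_0)` in the second model

Suppose `IsGoodFor Model.E k omega m`. Apply it to `Fam k B T l S m` (`fam_bij`, `mb_bij`, `fam_degree`) and `c = app f (suc ∅)` (`succCard_iff`, `hA.succ ∅`, `hA.zero`): a transversal `t`. `X = sep (prod l k) (fun p => Pt ∅ (fst p) (snd p) ∈ t)`, `h = lam l (fun ξ => mu (fun a => opair ξ a ∈ X))`. `hB.guess X h` gives `d ∈ S`.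
For `ξ ∈ d` (so `ξ ∈ l`): `t` meets `Mb k B T ∅ ξ` (= private points `Pt ∅ ξ a`, `a ∈ k`), so there is `a` with `opair ξ a ∈ X` and `a0 = app h ξ` is the least one (`mu_spec`; elements of `k` are ordinals; `k ⊆ l`, so `a0 ∈ l`), `a0 ∈ d`. So `opair ξ a0 ∈ app T d`, and `hT T d ξ = a0` (`mu_eq`: for `b` ordinal with
`opair ξ b ∈ app T d`: if not `a0 ⊆ b` then `b ∈ a0 ⊆ d`, so `opair ξ b ∈ X`, against minimality). So for all `ξ ∈ app B d` (`⊆ d`) the point `Pt ∅ ξ (hT T d ξ)` belongs to `t` and to `Mb k B T o1 d`. The intersection of `t` with this member is smaller than `app f (suc ∅)`, i.e. countable (`smaller_succ`); by `img_inj`-type argument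
(`ξ ↦ Pt ∅ ξ (hT T d ξ)` is injective) `Img omega (app B d)`, against `b_nimg`.
-/

namespace Pool.Agent.TrI

open Pool.Agent.H55.SC Pool.Agent.H55.CS Pool.Agent.H55.ZFU
open Pool.Agent.SplH (Img o1 o2 o3 isBij_iff)
open Pool.Agent.SplC (IsBij IsCard)

variable {M : Type u} [Model M] [Pool.Agent.H55.ZFU.Pure M] [Choice M] {f u l S B T k m : M}

theorem bad_int (hC : CArith M) (hA : UA f u l) (hB : UB (app f (suc ∅)) l S B T) (hk : IsCard Model.E k) (hωk : (omega : M) ∈ k)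
    (hkl : k ⊆ l) (hm : IsCard Model.E m) (hlm : l ⊆ m) : ¬ IsGoodFor Model.E k (omega : M) m := by
  intro hg
  obtain ⟨g, hgb⟩ := fam_bij hC hA hB hk hωk hm hlm
  have hsc : SuccI (omega : M) (app f (suc ∅)) := by
    have h1 := hA.succ ∅ empty_mem_omega
    rw [hA.zero] at h1
    exact h1
  obtain ⟨t, ht⟩ := hg (Fam k B T l S m) g hgb (fun a ha => mb_bij hC hA hB hk hωk ha) (fam_degree hA hB hωk hlm)
    (app f (suc ∅)) (succCard_iff.2 hsc)
  have hk' : IsOrd k := (card_nimg hk).1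
  have hl : IsOrd l := hA.ul.ord
  have i1 : Dfn1 (fun p : M => Pt ∅ (fst p) (snd p) ∈ t) := inferInstance
  obtain ⟨X, hX⟩ : ∃ X : M, X = sep (prod l k) (fun p : M => Pt ∅ (fst p) (snd p) ∈ t) := ⟨_, rfl⟩
  have hXm : ∀ x y : M, opair x y ∈ X ↔ (x ∈ l ∧ y ∈ k) ∧ Pt ∅ x y ∈ t := by
    intro x y
    rw [hX, mem_sep, opair_mem_prod, fst_opair, snd_opair]
  have i2 : Fn1 (fun x : M => mu (fun a => opair x a ∈ X)) := inferInstance
  obtain ⟨h, hh⟩ : ∃ h : M, h = lam l (fun x : M => mu (fun a => opair x a ∈ X)) := ⟨_, rfl⟩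
  have hha : ∀ x, x ∈ l → app h x = mu (fun a => opair x a ∈ X) := by
    intro x hx
    rw [hh, app_lam hx]
  obtain ⟨d, hd, hdh, hdT⟩ := hB.guess X h
  have hdl : d ∈ l := hB.sub d hd
  have hdo : IsOrd d := hl.mem hdl
  -- the main point
  have key : ∀ x, x ∈ d → Pt ∅ x (hT T d x) ∈ t := by
    intro x hx
    have hxl : x ∈ l := hl.2.1 d hdl x hx
    have hmem : Mb k B T ∅ x ∈ Fam k B T l S m := mem_fam.2 (Or.inl ⟨x, hxl, rfl⟩)
    obtain ⟨⟨p, hp⟩, _⟩ := ht (Mb k B T ∅ x) (inter (Mb k B T ∅ x) t) hmem (fun y => mem_inter)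
    have hp : p ∈ inter (Mb k B T ∅ x) t := hp
    rw [mem_inter] at hp
    obtain ⟨hp1, hpt⟩ := hp
    have hex : ∃ a, a ∈ k ∧ opair x a ∈ X := by
      unfold Mb Bs Own at hp1
      rw [mem_un] at hp1
      rcases hp1 with hp1 | hp1
      · rw [iteM_neg o_ne.1, iteM_neg (fun hc => o_ne.2.1 hc.1)] at hp1
        exact absurd hp1 (not_mem_empty p)
      · rw [mem_img] at hp1
        obtain ⟨a, ha, rfl⟩ := hp1
        exact ⟨a, ha, (hXm x a).2 ⟨⟨hxl, ha⟩, hpt⟩⟩
    obtain ⟨a, ha, hxa⟩ := hex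
    have i3 : Dfn1 (fun a : M => opair x a ∈ X) := inferInstance
    obtain ⟨m1, m2, m3⟩ := mu_spec (fun a : M => opair x a ∈ X) ⟨a, hk'.mem ha, hxa⟩
    obtain ⟨a0, ha0⟩ : ∃ a0 : M, a0 = mu (fun a : M => opair x a ∈ X) := ⟨_, rfl⟩
    rw [← ha0] at m1 m2 m3
    have ha0k : a0 ∈ k := ((hXm x a0).1 m2).1.2
    have ha0l : a0 ∈ l := hkl a0 ha0k
    have happ : app h x = a0 := by rw [hha x hxl, ha0]
    have ha0d : a0 ∈ d := by
      have := hdh x hx (by rw [happ]; exact ha0l)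
      rwa [happ] at this
    have hTe : hT T d x = a0 := by
      unfold hT
      refine mu_eq ⟨m1, (hdT x a0 hx ha0d).1 m2, ?_⟩
      intro b hb hbT
      by_contra hcon
      have hba : b ∈ a0 := by
        by_contra hn
        exact hcon (ord_not_mem hb m1 hn)
      have hbd : b ∈ d := hdo.2.1 a0 ha0d b hba
      have hbX : opair x b ∈ X := (hdT x b hx hbd).2 hbT
      exact hcon (m3 b hb hbX)
    rw [hTe]
    exact ((hXm x a0).1 m2).2
  -- the member with index `(o1, d)`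
  have hmem : Mb k B T o1 d ∈ Fam k B T l S m := mem_fam.2 (Or.inr (Or.inl ⟨d, hd, rfl⟩))
  obtain ⟨_, hsm⟩ := ht (Mb k B T o1 d) (inter (Mb k B T o1 d) t) hmem (fun y => mem_inter)
  rw [smaller_succ hsc] at hsm
  have himg : Img (inter (Mb k B T o1 d) t) (app B d) := by
    have i4 : Fn1 (fun p : M => fst (snd p)) := inferInstance
    refine img_fn (fun p : M => fst (snd p)) ?_
    intro y hy
    have hyd : y ∈ d := hB.b_sub d hd y hy
    refine ⟨Pt ∅ y (hT T d y), ?_, ?_⟩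
    · rw [mem_inter]
      refine ⟨?_, key y hyd⟩
      unfold Mb Bs
      rw [mem_un, iteM_pos rfl]
      left
      have i5 : Fn1 (fun x : M => Pt ∅ x (hT T d x)) := inferInstance
      rw [mem_img]
      exact ⟨y, hy, rfl⟩
    · simp only [Pt, snd_opair, fst_opair]
  exact b_nimg hC hA hB hd (img_trans hsm himg)

end Pool.Agent.TrI
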