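import Pool.Agent.TrI.U2
import Pool.Agent.SplH.V6
import Pool.Agent.TrI.S5
import Pool.Agent.TrI.If
import Pool.Agent.TrI.Ig

set_option autoImplicit false
set_option linter.all false

/-!
# U4: the model in which no `ι ≥ ℵ_{ω+1}` is good for `(k, ℵ_0)`, `ω < k ≤ ℵ_{ω+1}`
-/

namespace Pool.Agent.TrI

open FirstOrder FirstOrder.Language Pool.Agent.H55.SC Pool.Agent.H55.CS Pool.Agent.H55.Lav Pool.Agent.SplH
open Pool.Agent.SplC (IsBij IsCard)

/-- There is a countable wellfounded model of `ZFC` and `GCH` in which no cardinal `m ≥ ℵ_{ω+1}` is good for `(k, ℵ_0)`, for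
all cardinals `k` with `ω < k ≤ ℵ_{ω+1}`. -/
def BadModel : Prop := ∃ (M : Type 1) (E : M → M → Prop), Countable M ∧ WellFounded E ∧ ZFC E ∧
  ∃ w l : M, IsOmega E w ∧ IsGCH E w ∧ IsAlephOmegaSucc E w l ∧
    ∀ k m : M, IsCard E k → E w k → Sub E k l → IsCard E m → Sub E l m → ¬ IsGoodFor E k w m

section
open Pool.Agent.H55.ZFU
variable {Q : Type} [Preorder Q] [OrderTop Q] {L : Type} [LinearOrder L] [WellFoundedLT L]

/-- The class of models is transitive: countability and wellfoundedness. -/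
theorem u4_countable {N : Set (Un Q)} (hN : N.Countable) (G : Set Q) : Countable (MM N G) := by
  have h7 : {τ : Nm Q | InN N τ}.Countable := hN.preimage_of_injOn uN_inj.injOn
  have h8 : Countable {τ : Nm Q | InN N τ} := h7.to_subtype
  refine Function.Surjective.countable (f := fun τ : {τ : Nm Q | InN N τ} => (vl G τ.2 : MM N G)) ?_
  rintro ⟨x, τ, hτ, rfl⟩
  exact ⟨⟨τ, hτ⟩, rfl⟩

theorem bad_model {D : ADat L}
    (hC : ∀ᶠ N in club (Un Q), ∀ (G : Set Q) [Env N G], CArith (MM N G))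
    (hA : ∀ᶠ N in club (Un Q), ∀ (G : Set Q) [Env N G] [LEnv N L] [AEnv N D], ∃ f : MM N G,
      (∀ n : ℕ, app f (lv G (D.toNDat.nN (N := N) n)) = lv G (D.alN (N := N) n)) ∧
        UA f (lv G (D.uN (N := N))) (lv G (D.lN (N := N))))
    {S : Set L} {Bd : L → L → Set Q} {g : L → L → L} {T : L → L → L → Set Q} (hB : BFrc Q D S Bd g T) : BadModel := by
  obtain ⟨N, hcount, h1, h2, h3, ⟨G, gen⟩, h4, h5, h6⟩ := ((club_countable (Ω := Un Q)).and
    ((env_club (Q := Q)).and ((lenv_club (Q := Q) (L := L)).and ((aenv_club (Q := Q) D).and ((exists_genF_all Q).and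
      (hC.and (hA.and (ub_club hB)))))))).exists
  have i1 : Env N G := h1 G gen
  obtain ⟨f, hf, hUA⟩ := h5 G
  obtain ⟨S', B', T', hUB⟩ := h6 G
  have hCA : CArith (MM N G) := h4 G
  have hf1 : app f (suc (∅ : MM N G)) = lv G (D.alN (N := N) 1) := by
    rw [← lv_zero (G := G) D.toNDat, suc_nN, hf]
  rw [← hf1] at hUB
  refine ⟨MM N G, EE, u4_countable hcount G, InvImage.wf Subtype.val ZFSet.mem_wf,
    choice_ax i1.ok i1.fok i1.zok i1.aok i1.gen, (omega : MM N G), lv G (D.lN (N := N)), omega_iff.2 rfl, gch_int hCA,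
    aleph_int hUA, ?_⟩
  intro k m hk hwk hkl hm hlm
  exact bad_int hCA hUA hUB hk hwk hkl hm hlm

end

end Pool.Agent.TrI
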