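import Pool.Agent.TrI.W9
import Pool.Agent.TrI.U4
import Pool.Agent.TrI.G3
import Pool.Agent.TrI.T4

set_option autoImplicit false
set_option linter.all false

/-!
# W10: the second model
-/

namespace Pool.Agent.TrI

open Cardinal Pool.Agent.SplK Pool.Agent.H55.Lav

theorem bad_of_sc (gch : GCH0) {κ : Cardinal.{0}} (hκ : κ.IsInaccessible)
    (sc : ∀ Θ : Type, ∃ W : Ultrafilter (Set Θ), NFU κ Θ W) : BadModel := by
  obtain ⟨Q, iQ, tQ, L, iL, wL, D, S, Bd, g, T, h1, h2, h3⟩ := exists_q1 gch hκ sc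
  exact bad_model (D := D) (carith_club h1) (ua_club h2) h3

end Pool.Agent.TrI
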