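import Mathlib
import Pool.Agent.Transv.Diamond

/-!
MP_33d970_lc, M1, V-level: Shelah's diamond theorem with clubs (stationarily many guesses).
-/

set_option autoImplicit false

namespace Pool.Agent.TrI

open Cardinal Order Ordinal Set Pool.Agent.Transv

variable {μ : Cardinal.{0}}

theorem diamond_club (hμ : ℵ₀ ≤ μ) (hpow : (2 : Cardinal.{0}) ^ μ = Order.succ μ)
    {Y J : Type} [Nonempty Y] (hY : #Y ≤ Order.succ μ) [LinearOrder J] (hJ : #J ≤ μ)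
    (A : KK μ → J → Set (KK μ)) (hAmono : ∀ δ, Monotone (A δ))
    (hAcov : ∀ δ, ∀ α < δ, ∃ j, α ∈ A δ j) (hAcard : ∀ δ j, #(A δ j) < μ)
    {S : Set (KK μ)} (hS : IsStationary S)
    (hQ : ∀ δ ∈ S, ∀ i : KK μ → J, ∃ j, ∀ ε < δ, ∃ α < δ, ε < α ∧ i α ≤ j) :
    ∃ g : KK μ → KK μ → Y, ∀ y : KK μ → Y, ∀ C : Set (KK μ), IsClub C →
      ∃ δ ∈ S, δ ∈ C ∧ ∀ β < δ, g δ β = y β := by
  classical
  let M : Type := μ.ord.ToType
  have hM : #M = μ := by simp [M]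
  have hL : #(J × M) ≤ μ := by
    rw [mk_prod, Cardinal.lift_id, Cardinal.lift_id, hM]
    exact (mul_le_mul_left hJ _).trans (mul_eq_self hμ).le
  obtain ⟨E, hE⟩ := exists_enum hμ hpow hY hL
  -- one index `j` works
  have claim : ∃ j : J, ∀ Z : M → KK μ → Y, ∀ C : Set (KK μ), IsClub C → ∃ δ ∈ S, δ ∈ C ∧
      ∀ ε < δ, ∃ α ∈ A δ j, ε < α ∧
      ∃ γ ∈ A δ j, ∀ τ, ∀ β < α, E γ (j, τ) β = Z τ β := by
    by_contra hcon
    push Not at hcon
    choose Z D hD hZ using hcon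
    have hf : ∀ α, ∃ γ, ∀ l : J × M, ∀ β < α, E γ l β = Z l.1 l.2 β := fun α =>
      hE (fun l => Z l.1 l.2) α
    choose f hf using hf
    have hDD : IsClub (⋂ j, D j) := iInter_club hμ hJ D hD
    obtain ⟨δ, ⟨hδS, hδD⟩, hδC⟩ := (IsStationary.inter_club hμ hS hDD) (isClub_closure hμ f)
    have hi : ∀ α : KK μ, ∃ j : J, α < δ → (α ∈ A δ j ∧ f α ∈ A δ j) := by
      intro α
      by_cases hα : α < δ
      · obtain ⟨j1, hj1⟩ := hAcov δ α hα
        obtain ⟨j2, hj2⟩ := hAcov δ (f α) (hδC α hα)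
        exact ⟨max j1 j2, fun _ => ⟨hAmono δ (le_max_left _ _) hj1,
          hAmono δ (le_max_right _ _) hj2⟩⟩
      · obtain ⟨j, -⟩ : ∃ j : J, True := by
          by_contra hno
          push Not at hno
          obtain ⟨j, _⟩ := hQ δ hδS (fun a => False.elim (by
            obtain ⟨x, hx, hx2⟩ := IsStationary.unbounded hμ hS a
            obtain ⟨j, _⟩ := hAcov x a hx2
            exact hno j))
          exact hno j
        exact ⟨j, fun h => absurd h hα⟩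
    choose i hi using hi
    obtain ⟨j, hj⟩ := hQ δ hδS i
    obtain ⟨ε, hε, hε2⟩ := hZ j δ hδS (Set.mem_iInter.mp hδD j)
    obtain ⟨α, hα, hεα, hαj⟩ := hj ε hε
    have h1 := hi α hα
    obtain ⟨τ, β, hβ, hne⟩ := hε2 α (hAmono δ hαj h1.1) hεα (f α) (hAmono δ hαj h1.2)
    exact hne (hf α (j, τ) β hβ)
  obtain ⟨j, hj⟩ := claim
  by_contra hno
  push Not at hno
  choose Yf Cf hCf hYf using hno
  -- recursive choice
  let cond : (τ : M) → ((σ : M) → σ < τ → KK μ → Y) → KK μ → KK μ → KK μ × KK μ → Prop :=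
    fun τ Zp δ β p => p.1 ∈ A δ j ∧ p.2 ∈ A δ j ∧ β < p.1 ∧
      ∀ (σ : M) (hσ : σ < τ), ∀ β' < p.1, E p.2 (j, σ) β' = Zp σ hσ β'
  let G : (τ : M) → ((σ : M) → σ < τ → KK μ → Y) → KK μ → KK μ → Y :=
    fun τ Zp δ β => if h : ∃ p, cond τ Zp δ β p then E (Classical.choose h).2 (j, τ) β
      else Classical.arbitrary Y
  let Z : M → KK μ → Y := (wellFounded_lt (α := M)).fix (fun τ Zp => Yf (G τ Zp))
  have hZ : ∀ τ, Z τ = Yf (G τ (fun σ _ => Z σ)) := fun τ =>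
    (wellFounded_lt (α := M)).fix_eq (fun τ Zp => Yf (G τ Zp)) τ
  have hCC : IsClub (⋂ τ : M, Cf (G τ (fun σ _ => Z σ))) :=
    iInter_club hμ hM.le _ (fun τ => hCf _)
  obtain ⟨δ, hδS, hδC, hδ⟩ := hj Z _ hCC
  have key : ∀ τ : M, ∃ p : KK μ × KK μ, ∃ β, p.1 ∈ A δ j ∧ p.2 ∈ A δ j ∧ β < p.1 ∧
      (∀ σ < τ, ∀ β' < p.1, E p.2 (j, σ) β' = Z σ β') ∧ E p.2 (j, τ) β ≠ Z τ β := by
    intro τ
    obtain ⟨β, hβ, hne⟩ := hYf (G τ (fun σ _ => Z σ)) δ hδS (Set.mem_iInter.mp hδC τ)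
    rw [← hZ τ] at hne
    obtain ⟨α, hα, hβα, γ, hγ, hag⟩ := hδ β hβ
    have hex : ∃ p, cond τ (fun σ _ => Z σ) δ β p :=
      ⟨(α, γ), hα, hγ, hβα, fun σ _ β' hβ' => hag σ β' hβ'⟩
    have hG : G τ (fun σ _ => Z σ) δ β = E (Classical.choose hex).2 (j, τ) β := by
      simp only [G]
      rw [dif_pos hex]
    rw [hG] at hne
    obtain ⟨c1, c2, c3, c4⟩ := Classical.choose_spec hex
    exact ⟨Classical.choose hex, β, c1, c2, c3, fun σ hσ β' hβ' => c4 σ hσ β' hβ', hne⟩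
  choose p b hp1 hp2 hb hag hne using key
  have hinj : Function.Injective p := by
    intro σ τ hst
    by_contra hne'
    wlog hlt : σ < τ generalizing σ τ
    · exact this hst.symm (Ne.symm hne') (lt_of_le_of_ne (not_lt.1 hlt) (Ne.symm hne'))
    have h1 := hag τ σ hlt (b σ) (by rw [← hst]; exact hb σ)
    rw [← hst] at h1
    exact hne σ h1
  have hcard : #M ≤ #(A δ j) * #(A δ j) := by
    have : #M ≤ #(↥(A δ j) × ↥(A δ j)) :=
      mk_le_of_injective (f := fun τ => (⟨(p τ).1, hp1 τ⟩, ⟨(p τ).2, hp2 τ⟩)) (by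
        intro σ τ hst
        simp only [Prod.mk.injEq, Subtype.mk.injEq] at hst
        exact hinj (Prod.ext hst.1 hst.2))
    simpa using this
  rw [hM] at hcard
  exact absurd hcard (mul_lt_of_lt hμ (hAcard δ j) (hAcard δ j)).not_ge

end Pool.Agent.TrI
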