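import Pool.Agent.TrI.VDefs

set_option autoImplicit false
set_option linter.all false

/-!
# The combinatorial output of a supercompact cardinal, and the second forcing notion
-/

namespace Pool.Agent.TrI

open Cardinal Pool.Agent.SplK

/-- `c⁺ʷ`, the supremum of the cardinals `c⁺ⁿ`. -/
noncomputable def plw (c : Cardinal.{0}) : Cardinal.{0} := ⨆ n : ℕ, pl c n

/-- The order type of `A` is the cardinal `c`. -/
structure OTyp (A : Type) [LinearOrder A] (c : Cardinal.{0}) : Prop where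
  wf : WellFoundedLT A
  card : #A = c
  seg : ∀ a : A, #(Set.Iio a) < c

/-- The set `S` meets all closed unbounded sets of the form `{d | d is closed under h}` (`h : A → A`), i.e. it is stationary. -/
def StatP {A : Type} [LinearOrder A] (S : Set A) : Prop := ∀ h : A → A, ∃ d ∈ S, ∀ x < d, h x < d

/-- Output of the combinatorial part: `κ` supercompact, `L` of order type `(κ⁺ʷ)⁺`, `c < κ` inaccessible, `A` of order type `(c⁺ʷ)⁺`, `S` a
stationary set in `L`, for `d ∈ S` an increasing function `j d : A → L` with values below `d`, and functions `f z : ℕ → A`, with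
* `sc`: for every `g ∈ ∏ c⁺ⁿ` almost all `f z` are greater than `g` almost everywhere,
* `dj`: for `d ≠ e` in `S` the set of all `z` such that `j d z` is a value of `j e` is bounded by a function `m ∈ ∏ c⁺ⁿ`,
* `gs`: a guessing sequence for subsets of `L` (diamond). -/
structure LadP (κ c : Cardinal.{0}) (L A : Type) [LinearOrder L] [LinearOrder A] (S : Set L) (j : L → A → L) (b : ℕ → A)
    (f : A → ℕ → A) (W : L → Set L) : Prop where
  otL : OTyp L (Order.succ (plw κ))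
  otA : OTyp A (Order.succ (plw c))
  inac : c.IsInaccessible
  lt : c < κ
  b_ot : ∀ n, OTyp (Set.Iio (b n)) (pl c n)
  f_lt : ∀ z n, f z n < b n
  mono : ∀ d ∈ S, StrictMono (j d)
  j_lt : ∀ d ∈ S, ∀ z, j d z < d
  sc : ∀ g : ℕ → A, (∀ n, g n < b n) → ∃ z₀, ∀ z ≥ z₀, ∃ n₀, ∀ n ≥ n₀, g n < f z n
  dj : ∀ d ∈ S, ∀ e ∈ S, d ≠ e → ∃ (m : ℕ → A) (n₀ : ℕ), (∀ n, m n < b n) ∧ ∀ z, (∃ z', j e z' = j d z) → ∀ n ≥ n₀, f z n ≤ m n
  gs : ∀ (X : Set L) (h : L → L), ∃ d ∈ S, (∀ x < d, h x < d) ∧ ∀ x < d, (x ∈ X ↔ x ∈ W d)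

/-- Output of the forcing notion `P_T × Fn(ω, c⁺ʷ)`: `B z` is the set of conditions which force that `z` belongs to the generic subset of `A`. -/
structure AdP (c : Cardinal.{0}) (A : Type) [LinearOrder A] (b : ℕ → A) (f : A → ℕ → A) (P : Type) [Preorder P] (B : A → Set P) :
    Prop where
  size : #P ≤ #A
  cc : ∀ X : Set P, (∀ p ∈ X, ∀ q ∈ X, p ≠ q → ∀ r, r ≤ p → ¬ r ≤ q) → #X < #A
  B_down : ∀ z p q, p ∈ B z → q ≤ p → q ∈ B z
  unb : ∀ (z : A) (p : P), ∃ q ≤ p, ∃ z' > z, q ∈ B z'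
  fin : ∀ (m : ℕ → A) (n₀ : ℕ), (∀ n, m n < b n) → ∀ p : P, ∃ q ≤ p, ∃ F : Finset A, ∀ z, (∀ n ≥ n₀, f z n ≤ m n) →
    ∀ r ≤ q, r ∈ B z → z ∈ F
  col : ∀ a : A, ∃ s : ℕ → A → Set P, (∀ n x y r, r ∈ s n x → r ∈ s n y → x = y) ∧
    (∀ n x p q, p ∈ s n x → q ≤ p → q ∈ s n x) ∧ ∀ z < a, ∀ p : P, ∃ q ≤ p, ∃ n, q ∈ s n z

/-- The Levy collapse `Col(A, < K)`. -/
structure ColP (K A C : Type) [LinearOrder K] [Preorder C] : Prop where
  size : #C ≤ #K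
  cc : ∀ X : Set C, (∀ p ∈ X, ∀ q ∈ X, p ≠ q → ∀ r, r ≤ p → ¬ r ≤ q) → #X < #K
  closed : ∀ (ι : Type) (f : ι → C), #ι < #A → (∀ i j, f i ≤ f j ∨ f j ≤ f i) → ∃ m, ∀ i, m ≤ f i
  col : ∃ s : K → A → K → Set C, (∀ a x y y' r, r ∈ s a x y → r ∈ s a x y' → y = y') ∧
    (∀ a x y p q, p ∈ s a x y → q ≤ p → q ∈ s a x y) ∧ ∀ a, ∀ y < a, ∀ p : C, ∃ q ≤ p, ∃ x, q ∈ s a x y

/-- Antichains of `Q` are smaller than `c`. -/
def CcP (Q : Type) [Preorder Q] (c : Cardinal.{0}) : Prop :=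
  ∀ X : Set Q, (∀ p ∈ X, ∀ q ∈ X, p ≠ q → ∀ r, r ≤ p → ¬ r ≤ q) → #X < c

end Pool.Agent.TrI
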