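import Mathlib
import Pool.Agent.Transv.Ladders
import Pool.Agent.SplK.Ar
import Pool.Agent.SplK.Ic
import Pool.Agent.TrI.VDefs2

/-!
MP_33d970_lc, M1, V-level: levels of `KK (plw κ)` and the scale.
-/

set_option autoImplicit false

namespace Pool.Agent.TrI

open Cardinal Order Ordinal Set Pool.Agent.Transv Pool.Agent.SplK

theorem cb_pl_le_plw (κ : Cardinal.{0}) (n : ℕ) : pl κ n ≤ plw κ :=
  le_ciSup Cardinal.bddAbove_of_small n

theorem cb_pl_lt_succ (κ : Cardinal.{0}) (n : ℕ) : pl κ n < pl κ (n + 1) := by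
  rw [pl_succ]; exact Order.lt_succ _

theorem cb_pl_lt_plw (κ : Cardinal.{0}) (n : ℕ) : pl κ n < plw κ :=
  (cb_pl_lt_succ κ n).trans_le (cb_pl_le_plw κ (n + 1))

theorem cb_le_plw (κ : Cardinal.{0}) : κ ≤ plw κ := cb_pl_le_plw κ 0

theorem cb_lt_plw {κ c : Cardinal.{0}} (h : c < plw κ) : ∃ n, c < pl κ n :=
  exists_lt_of_lt_ciSup h

theorem cb_plw_le {κ c : Cardinal.{0}} (h : ∀ n, pl κ n ≤ c) : plw κ ≤ c := ciSup_le' h

theorem cb_aleph0_le_plw {κ : Cardinal.{0}} (hκ : ℵ₀ ≤ κ) : ℵ₀ ≤ plw κ := hκ.trans (cb_le_plw κ)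

theorem cb_pl_reg {κ : Cardinal.{0}} (hκ : κ.IsRegular) (n : ℕ) : (pl κ n).IsRegular := by
  cases n with
  | zero => exact hκ
  | succ n =>
    rw [pl_succ]
    exact Cardinal.isRegular_succ (hκ.aleph0_le.trans (le_pl κ n))

/-- The level `n` of a wellorder: the points with fewer than `κ^{+n}` predecessors. -/
def Lv {X : Type} [LinearOrder X] (κ : Cardinal.{0}) (n : ℕ) (a : X) : Prop :=
  #(Set.Iio a) < pl κ n

theorem Lv.down {X : Type} [LinearOrder X] {κ : Cardinal.{0}} {n : ℕ} {a b : X} (hab : a ≤ b)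
    (h : Lv κ n b) : Lv κ n a :=
  (Cardinal.mk_le_mk_of_subset (Set.Iio_subset_Iio hab)).trans_lt h

theorem Lv.mono {X : Type} [LinearOrder X] {κ : Cardinal.{0}} {m n : ℕ} {a : X} (hmn : m ≤ n)
    (h : Lv κ m a) : Lv κ n a := lt_of_lt_of_le h (pl_mono hmn)

theorem mk_lt_level {μ c : Cardinal.{0}} (hc : c ≤ μ) :
    #{a : KK μ | #(Set.Iio a) < c} = c := by
  obtain ⟨q, hq⟩ := exists_mk_Iio (c := c) (lam := Order.succ μ) (Order.lt_succ_of_le hc)
  have h1 : {a : KK μ | #(Set.Iio a) < c} ⊆ Set.Iio q := by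
    intro a ha
    by_contra hqa
    have hqa' : q ≤ a := not_lt.1 hqa
    have : #(Set.Iio q) ≤ #(Set.Iio a) := mk_le_mk_of_subset (Set.Iio_subset_Iio hqa')
    rw [hq] at this
    exact absurd ha (not_lt.2 this)
  have h2 : #{a : KK μ | #(Set.Iio a) < c} ≤ c := (mk_le_mk_of_subset h1).trans hq.le
  refine le_antisymm h2 ?_
  by_contra h3
  rw [not_le] at h3
  -- the least point outside the level has too few predecessors
  have hne : {a : KK μ | ¬ #(Set.Iio a) < c}.Nonempty := ⟨q, by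
    change ¬ #(Set.Iio q) < c
    rw [hq]; exact lt_irrefl c⟩
  obtain ⟨p, hp, hmin⟩ : ∃ p : KK μ, ¬ #(Set.Iio p) < c ∧ ∀ a < p, #(Set.Iio a) < c := by
    refine ⟨wellFounded_lt.min _ hne, wellFounded_lt.min_mem _ hne, fun a ha => ?_⟩
    by_contra hcon
    exact wellFounded_lt.not_lt_min _ (x := a) hcon ha
  apply hp
  refine (mk_le_mk_of_subset (t := {a : KK μ | #(Set.Iio a) < c}) ?_).trans_lt h3
  intro a ha
  exact hmin a ha

theorem mk_Lv {κ : Cardinal.{0}} (n : ℕ) : #{a : KK (plw κ) | Lv κ n a} = pl κ n :=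
  mk_lt_level (cb_pl_le_plw κ n)

/-- small subsets of a level are bounded in the level -/
theorem level_bound {X : Type} [LinearOrder X] {κ : Cardinal.{0}} {n : ℕ}
    (hreg : (pl κ n).IsRegular) {D : Set X} (hD : pl κ n ≤ #D)
    (hseg : ∀ b ∈ D, #{a | a ∈ D ∧ a < b} < pl κ n)
    {s : Set X} (hs : #s < pl κ n) (hsD : s ⊆ D) : ∃ b ∈ D, ∀ x ∈ s, x < b := by
  by_contra hcon
  push Not at hcon
  have h1 : D ⊆ ⋃ x : s, ({a | a ∈ D ∧ a < x.1} ∪ {x.1}) := by
    intro b hb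
    obtain ⟨x, hx, hbx⟩ := hcon b hb
    refine Set.mem_iUnion.2 ⟨⟨x, hx⟩, ?_⟩
    rcases lt_or_eq_of_le hbx with h | h
    · exact Or.inl ⟨hb, h⟩
    · exact Or.inr h
  have h2 : #(⋃ x : s, ({a | a ∈ D ∧ a < x.1} ∪ {x.1}) : Set X) < pl κ n := by
    refine (Cardinal.card_iUnion_lt_iff_forall_of_isRegular hreg hs).mpr (fun x => ?_)
    refine (mk_union_le _ _).trans_lt (add_lt_of_lt hreg.aleph0_le (hseg x.1 (hsD x.2)) ?_)
    rw [mk_singleton]
    exact one_lt_aleph0.trans_le hreg.aleph0_le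
  exact absurd (hD.trans (mk_le_mk_of_subset h1)) (not_le.2 h2)

theorem Lv_bound {κ : Cardinal.{0}} (hκ : κ.IsRegular) {n : ℕ} {s : Set (KK (plw κ))}
    (hs : #s < pl κ n) (hsL : ∀ x ∈ s, Lv κ n x) : ∃ b, Lv κ n b ∧ ∀ x ∈ s, x < b := by
  obtain ⟨b, hb, hb2⟩ := level_bound (cb_pl_reg hκ n) (D := {a : KK (plw κ) | Lv κ n a})
    (mk_Lv n).ge (fun b hb => by
      refine (mk_le_mk_of_subset (t := Set.Iio b) ?_).trans_lt hb
      intro a ha; exact ha.2) hs hsL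
  exact ⟨b, hb, hb2⟩

theorem Lv_nonempty {κ : Cardinal.{0}} (hκ : κ.IsRegular) (n : ℕ) :
    ∃ b : KK (plw κ), Lv κ n b := by
  obtain ⟨b, hb, _⟩ := Lv_bound hκ (n := n) (s := ∅) (by
    rw [Cardinal.mk_eq_zero]; exact (cb_pl_reg hκ n).pos) (by simp)
  exact ⟨b, hb⟩

/-- Filtration of the initial segments. -/
theorem exists_filt (κ : Cardinal.{0}) :
    ∃ i : KK (plw κ) → KK (plw κ) → ℕ, ∀ a n, #{c | c < a ∧ i a c ≤ n} ≤ pl κ n := by
  classical
  have h1 : ∀ a : KK (plw κ), Nonempty (Set.Iio a ↪ {b : KK (plw κ) | #(Set.Iio b) < plw κ}) := by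
    intro a
    have : #(Set.Iio a) ≤ #{b : KK (plw κ) | #(Set.Iio b) < plw κ} := by
      rw [mk_lt_level le_rfl]
      exact mk_Iio_le a
    exact this
  have h2 : ∀ b : {b : KK (plw κ) | #(Set.Iio b) < plw κ}, ∃ n, Lv κ n b.1 := fun b => cb_lt_plw b.2
  choose lev hlev using h2
  refine ⟨fun a c => if h : c < a then lev ((h1 a).some ⟨c, h⟩) else 0, fun a n => ?_⟩
  rw [← mk_Lv (κ := κ) n]
  refine mk_le_of_injective (f := fun c : {c | c < a ∧ (if h : c < a then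
      lev ((h1 a).some ⟨c, h⟩) else 0) ≤ n} => (⟨((h1 a).some ⟨c.1, c.2.1⟩).1, ?_⟩ :
      {a : KK (plw κ) | Lv κ n a})) ?_
  · have h3 := c.2.2
    rw [dif_pos c.2.1] at h3
    exact (hlev _).mono h3
  · intro c c' hcc
    have h3 := congrArg Subtype.val hcc
    have h4 := (h1 a).some.injective (Subtype.ext h3)
    exact Subtype.ext (Subtype.mk.inj h4)

/-- The scale. -/
structure Scale (κ : Cardinal.{0}) (f : KK (plw κ) → ℕ → KK (plw κ)) : Prop where
  lv : ∀ a n, Lv κ n (f a n)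
  inc : ∀ a b, b < a → ∃ n0, ∀ n ≥ n0, f b n < f a n
  dom : ∀ g : ℕ → KK (plw κ), (∀ n, Lv κ n (g n)) → ∃ a0, ∀ a ≥ a0, ∃ n0, ∀ n ≥ n0, g n < f a n

theorem exists_scale {κ : Cardinal.{0}} (hG : GCH0) (hκ : κ.IsRegular) :
    ∃ f, Scale κ f := by
  classical
  have hκ0 := hκ.aleph0_le
  have hμ := cb_aleph0_le_plw hκ0
  obtain ⟨i, hi⟩ := exists_filt κ
  -- enumeration of all functions
  have hcard : #(ℕ → KK (plw κ)) ≤ #(KK (plw κ)) := by
    have h1 : #(ℕ → KK (plw κ)) = (Order.succ (plw κ)) ^ ℵ₀ := by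
      rw [← Cardinal.power_def, mk_KK, mk_nat]
    rw [h1, mk_KK, ← hG _ hμ, ← Cardinal.power_mul]
    exact Cardinal.power_le_power_left two_ne_zero ((mul_eq_left hμ hμ aleph0_ne_zero).le)
  have hne : Nonempty (KK (plw κ)) := ⟨(Lv_nonempty hκ 0).choose⟩
  obtain ⟨e⟩ : Nonempty ((ℕ → KK (plw κ)) ↪ KK (plw κ)) := hcard
  obtain ⟨G, hG2⟩ : ∃ G : KK (plw κ) → (ℕ → KK (plw κ)), Function.Surjective G :=
    ⟨Function.invFun e, (Function.leftInverse_invFun e.injective).surjective⟩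
  obtain ⟨G', hG'⟩ : ∃ G' : KK (plw κ) → ℕ → KK (plw κ),
    G' = fun a n => if Lv κ n (G a n) then G a n else (Lv_nonempty hκ n).choose := ⟨_, rfl⟩
  have hG'lv : ∀ a n, Lv κ n (G' a n) := by
    intro a n
    rw [hG']
    dsimp only
    split_ifs with h
    · exact h
    · exact (Lv_nonempty hκ n).choose_spec
  -- the recursion step
  have step : ∀ (a : KK (plw κ)) (F : (c : KK (plw κ)) → c < a → ℕ → KK (plw κ)),
      (∀ c hc n, Lv κ n (F c hc n)) → ∃ h : ℕ → KK (plw κ), (∀ n, Lv κ n (h n)) ∧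
        ∀ n c (hc : c < a), i a c ≤ n → F c hc (n + 1) < h (n + 1) ∧ G' c (n + 1) < h (n + 1) := by
    intro a F hF
    have h1 : ∀ n, ∃ b, Lv κ (n + 1) b ∧ ∀ c (hc : c < a), i a c ≤ n →
        F c hc (n + 1) < b ∧ G' c (n + 1) < b := by
      intro n
      obtain ⟨s, hs⟩ : ∃ s : Set (KK (plw κ)), s =
        Set.range (fun c : {c | c < a ∧ i a c ≤ n} => F c.1 c.2.1 (n + 1)) ∪
        Set.range (fun c : {c | c < a ∧ i a c ≤ n} => G' c.1 (n + 1)) := ⟨_, rfl⟩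
      have hs1 : #s < pl κ (n + 1) := by
        rw [hs]
        refine (mk_union_le _ _).trans_lt (add_lt_of_lt (hκ0.trans (le_pl κ _)) ?_ ?_)
        · exact (mk_range_le.trans (hi a n)).trans_lt (cb_pl_lt_succ κ n)
        · exact (mk_range_le.trans (hi a n)).trans_lt (cb_pl_lt_succ κ n)
      have hs2 : ∀ x ∈ s, Lv κ (n + 1) x := by
        rw [hs]
        rintro x (⟨c, rfl⟩ | ⟨c, rfl⟩)
        · exact hF _ _ _
        · exact hG'lv _ _
      obtain ⟨b, hb1, hb2⟩ := Lv_bound hκ hs1 hs2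
      refine ⟨b, hb1, fun c hc hcn => ⟨hb2 _ ?_, hb2 _ ?_⟩⟩
      · rw [hs]; exact Or.inl ⟨⟨c, hc, hcn⟩, rfl⟩
      · rw [hs]; exact Or.inr ⟨⟨c, hc, hcn⟩, rfl⟩
    choose b hb1 hb2 using h1
    refine ⟨fun n => match n with
      | 0 => (Lv_nonempty hκ 0).choose
      | n + 1 => b n, ?_, ?_⟩
    · intro n
      cases n with
      | zero => exact (Lv_nonempty hκ 0).choose_spec
      | succ n => exact hb1 n
    · intro n c hc hcn
      exact hb2 n c hc hcn
  choose! H hH1 hH2 using step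
  obtain ⟨f, hf⟩ : ∃ f : KK (plw κ) → ℕ → KK (plw κ), ∀ a, f a = H a (fun c _ => f c) := by
    refine ⟨(wellFounded_lt (α := KK (plw κ))).fix (fun a F => H a F), fun a => ?_⟩
    exact (wellFounded_lt (α := KK (plw κ))).fix_eq (fun a F => H a F) a
  have hlv : ∀ a n, Lv κ n (f a n) := by
    intro a
    induction a using (wellFounded_lt (α := KK (plw κ))).induction with
    | _ a ih =>
      intro n
      rw [hf]
      exact hH1 a (fun c _ => f c) (fun c hc n => ih c hc n) n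
  have hst : ∀ a c, c < a → ∀ n ≥ i a c, f c (n + 1) < f a (n + 1) ∧ G' c (n + 1) < f a (n + 1) := by
    intro a c hc n hn
    have h1 := hH2 a (fun c _ => f c) (fun c _ n => hlv c n) n c hc hn
    rw [← hf a] at h1
    exact h1
  refine ⟨f, hlv, ?_, ?_⟩
  · intro a b hba
    refine ⟨i a b + 1, fun n hn => ?_⟩
    obtain ⟨m, rfl⟩ : ∃ m, n = m + 1 := ⟨n - 1, by omega⟩
    exact (hst a b hba m (by omega)).1
  · intro g hg
    obtain ⟨c, hc⟩ := hG2 g
    have hc' : G' c = g := by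
      rw [hG']
      funext n
      dsimp only
      rw [if_pos (by rw [hc]; exact hg n), hc]
    obtain ⟨a0, ha0⟩ := exists_bound hμ (s := {c}) (mk_singleton_le hμ c)
    refine ⟨a0, fun a ha => ⟨i a c + 1, fun n hn => ?_⟩⟩
    obtain ⟨m, rfl⟩ : ∃ m, n = m + 1 := ⟨n - 1, by omega⟩
    have h2 := (hst a c ((ha0 c rfl).trans_le ha) m (by omega)).2
    rw [hc'] at h2
    exact h2

end Pool.Agent.TrI
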