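import Pool.Agent.TrI.CB
import Pool.Agent.SplK.Cw

/-!
MP_33d970_lc, M1, V-level: almost all sets `x` for a normal fine ultrafilter on the small subsets of
`κ^{+ω+1}`.
-/

set_option autoImplicit false

namespace Pool.Agent.TrI

open Cardinal Order Ordinal Set Pool.Agent.Transv Pool.Agent.SplK

/-- The wellordered set of order type `κ^{+ω+1}`. -/
abbrev LL (K : Type) : Type := KK (plw #K)

section gen

variable {κ : Cardinal.{0}} {Θ : Type} {W : Ultrafilter (Set Θ)}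

theorem nfu_closed (hW : NFU κ Θ W) (h : Θ → Θ) :
    ∀ᶠ x : Set Θ in (W : Filter (Set Θ)), ∀ a, a ∈ x → h a ∈ x :=
  nfu_diag hW id Function.injective_id (fun a x => h a ∈ x) (fun a => hW.fine (h a))

theorem nfu_closed2 (hW : NFU κ Θ W) (h : Θ → Θ → Θ) :
    ∀ᶠ x : Set Θ in (W : Filter (Set Θ)), ∀ b, b ∈ x → ∀ a, a ∈ x → h b a ∈ x :=
  nfu_diag hW id Function.injective_id (fun b x => ∀ a, a ∈ x → h b a ∈ x)
    (fun b => nfu_closed hW (h b))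

theorem nfu_lower (hW : NFU κ Θ W) (A B : Set Θ) (hAB : #A < #B) :
    ∀ᶠ x : Set Θ in (W : Filter (Set Θ)), #{a | a ∈ x ∧ a ∈ A} < #{a | a ∈ x ∧ a ∈ B} := by
  classical
  by_contra hcon
  rw [← Ultrafilter.eventually_not] at hcon
  have hB : Nonempty B := by
    rw [← Cardinal.mk_ne_zero_iff]
    exact (lt_of_le_of_lt zero_le hAB).ne'
  obtain ⟨b0⟩ := hB
  have h1 : ∀ x : Set Θ, ∃ s : Θ → Θ, (¬ #{a | a ∈ x ∧ a ∈ A} < #{a | a ∈ x ∧ a ∈ B} ∧ b0.1 ∈ x) →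
      (∀ a, s a ∈ x ∧ s a ∈ B) ∧ ∀ b, b ∈ x → b ∈ B → ∃ a, a ∈ x ∧ a ∈ A ∧ s a = b := by
    intro x
    by_cases h : ¬ #{a | a ∈ x ∧ a ∈ A} < #{a | a ∈ x ∧ a ∈ B} ∧ b0.1 ∈ x
    · obtain ⟨h2, h3⟩ := h
      rw [not_lt] at h2
      obtain ⟨e⟩ : Nonempty ({a | a ∈ x ∧ a ∈ B} ↪ {a | a ∈ x ∧ a ∈ A}) := h2
      refine ⟨fun a => if h : ∃ b : {a | a ∈ x ∧ a ∈ B}, (e b).1 = a then h.choose.1 else b0.1,
        fun _ => ⟨fun a => ?_, fun b hb hbB => ?_⟩⟩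
      · dsimp only
        split_ifs with h
        · exact h.choose.2
        · exact ⟨h3, b0.2⟩
      · refine ⟨(e ⟨b, hb, hbB⟩).1, (e ⟨b, hb, hbB⟩).2.1, (e ⟨b, hb, hbB⟩).2.2, ?_⟩
        have h4 : ∃ b' : {a | a ∈ x ∧ a ∈ B}, (e b').1 = (e ⟨b, hb, hbB⟩).1 := ⟨_, rfl⟩
        dsimp only
        rw [dif_pos h4]
        have h5 := e.injective (Subtype.ext h4.choose_spec)
        exact congrArg Subtype.val h5
    · exact ⟨id, fun h' => absurd h' h⟩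
  choose s hs using h1
  have h2 : ∀ᶠ x : Set Θ in (W : Filter (Set Θ)), (∀ a, s x a ∈ x ∧ s x a ∈ B) ∧
      ∀ b, b ∈ x → b ∈ B → ∃ a, a ∈ x ∧ a ∈ A ∧ s x a = b := by
    filter_upwards [hcon, hW.fine b0.1] with x hx1 hx2
    exact hs x ⟨hx1, hx2⟩
  have h3 : ∀ a, ∃ t, ∀ᶠ x : Set Θ in (W : Filter (Set Θ)), s x a = t := by
    intro a
    exact hW.normal (fun x => s x a) (h2.mono (fun x hx => (hx.1 a).1))
  choose t ht using h3
  have h4 := nfu_diag hW id Function.injective_id (fun a x => s x a = t a) ht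
  have h5 : ∃ b ∈ B, b ∉ t '' A := by
    by_contra h
    push Not at h
    exact absurd ((mk_le_mk_of_subset h).trans mk_image_le) (not_le.2 hAB)
  obtain ⟨b, hb, hbt⟩ := h5
  obtain ⟨x, ⟨_, hx1⟩, hx2, hx3⟩ := (h2.and (h4.and (hW.fine b))).exists
  obtain ⟨a, ha1, ha2, ha3⟩ := hx1 b hx3 hb
  apply hbt
  refine ⟨a, ha2, ?_⟩
  rw [← hx2 a ha1, ha3]

end gen

/-- The bijections between a level and the points of the next level. -/
structure BijP {κ : Cardinal.{0}} (E E' : KK (plw κ) → KK (plw κ) → KK (plw κ)) : Prop where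
  fwd : ∀ b n, ¬ Lv κ n b → Lv κ (n + 1) b → ∀ a, Lv κ n a → E b a < b ∧ E' b (E b a) = a
  inv : ∀ b n, ¬ Lv κ n b → Lv κ (n + 1) b → ∀ a, a < b → Lv κ n (E' b a) ∧ E b (E' b a) = a

theorem exists_bijP (κ : Cardinal.{0}) :
    ∃ E E' : KK (plw κ) → KK (plw κ) → KK (plw κ), BijP E E' := by
  classical
  have h1 : ∀ b : KK (plw κ), ∃ e e' : KK (plw κ) → KK (plw κ), ∀ n, ¬ Lv κ n b →
      Lv κ (n + 1) b → (∀ a, Lv κ n a → e a < b ∧ e' (e a) = a) ∧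
        (∀ a, a < b → Lv κ n (e' a) ∧ e (e' a) = a) := by
    intro b
    by_cases h : ∃ n, ¬ Lv κ n b ∧ Lv κ (n + 1) b
    · obtain ⟨n, hn1, hn2⟩ := h
      have hc : #{a : KK (plw κ) | Lv κ n a} = #(Set.Iio b) := by
        rw [mk_Lv]
        apply le_antisymm (not_lt.1 hn1)
        have h2 : #(Set.Iio b) < pl κ (n + 1) := hn2
        rw [pl_succ] at h2
        exact Order.lt_succ_iff.1 h2
      obtain ⟨e⟩ := Cardinal.eq.1 hc
      refine ⟨fun a => if h : Lv κ n a then (e ⟨a, h⟩).1 else a,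
        fun a => if h : a < b then (e.symm ⟨a, h⟩).1 else a, ?_⟩
      intro m hm1 hm2
      have hmn : m = n := by
        rcases lt_trichotomy m n with h | h | h
        · exact absurd (hm2.mono (show m + 1 ≤ n by omega)) hn1
        · exact h
        · exact absurd (hn2.mono (show n + 1 ≤ m by omega)) hm1
      subst hmn
      constructor
      · intro a ha
        have h3 : (e ⟨a, ha⟩).1 < b := (e ⟨a, ha⟩).2
        dsimp only
        rw [dif_pos ha]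
        refine ⟨h3, ?_⟩
        rw [dif_pos h3]
        have h4 : e.symm ⟨(e ⟨a, ha⟩).1, h3⟩ = ⟨a, ha⟩ := e.symm_apply_apply ⟨a, ha⟩
        rw [h4]
      · intro a ha
        have h3 : Lv κ m (e.symm ⟨a, ha⟩).1 := (e.symm ⟨a, ha⟩).2
        dsimp only
        rw [dif_pos ha]
        refine ⟨h3, ?_⟩
        rw [dif_pos h3]
        have h4 : e ⟨(e.symm ⟨a, ha⟩).1, h3⟩ = ⟨a, ha⟩ := e.apply_symm_apply ⟨a, ha⟩
        rw [h4]
    · push Not at h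
      exact ⟨id, id, fun n hn1 hn2 => absurd hn2 (h n hn1)⟩
  choose E E' hE using h1
  exact ⟨E, E', fun b n h1 h2 => (hE b n h1 h2).1, fun b n h1 h2 => (hE b n h1 h2).2⟩

variable {K : Type} [LinearOrder K] [Stp K]

/-- The map of `K` onto the level `0`. -/
structure KP (k : K → LL K) : Prop where
  inj : Function.Injective k
  ran : ∀ a : LL K, Lv #K 0 a ↔ ∃ b, k b = a

omit [LinearOrder K] [Stp K] in
theorem exists_KP : ∃ k : K → LL K, KP k := by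
  have h1 : #K = #{a : LL K | Lv #K 0 a} := (mk_Lv 0).symm
  obtain ⟨e⟩ := Cardinal.eq.1 h1
  refine ⟨fun a => (e a).1, fun a b hab => e.injective (Subtype.ext hab), fun a => ⟨fun ha => ?_, ?_⟩⟩
  · exact ⟨e.symm ⟨a, ha⟩, by simp⟩
  · rintro ⟨b, rfl⟩
    exact (e b).2

/-- Good sets. -/
structure Gd (k : K → LL K) (E E' : LL K → LL K → LL K) (f : LL K → ℕ → LL K) (nx : LL K → LL K)
    (x : Set (LL K)) : Prop where
  small : #x < #K
  inac : Inac (Set.Iio (kx k x))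
  kk : ∀ a, k a ∈ x ↔ a < kx k x
  lo : ∀ n, pl #(Set.Iio (kx k x)) n ≤ #{a | a ∈ x ∧ Lv #K n a}
  hi : ∀ b, b ∈ x → ∀ n, Lv #K n b → #{a | a ∈ x ∧ a < b} < pl #(Set.Iio (kx k x)) n
  top : plw #(Set.Iio (kx k x)) < #x
  seg : ∀ b, b ∈ x → #{a | a ∈ x ∧ a < b} ≤ plw #(Set.Iio (kx k x))
  cE : ∀ b, b ∈ x → ∀ a, a ∈ x → E b a ∈ x
  cE' : ∀ b, b ∈ x → ∀ a, a ∈ x → E' b a ∈ x
  cf : ∀ a, a ∈ x → ∀ n, f a n ∈ x
  nx : ∀ a, a ∈ x → nx a ∈ x
  dom : ∀ g : ℕ → LL K, (∀ n, g n ∈ x) → (∀ n, Lv #K n (g n)) →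
    ∃ a0, a0 ∈ x ∧ ∀ a, a ∈ x → a0 ≤ a → ∃ n0, ∀ n ≥ n0, g n < f a n

variable {W : Ultrafilter (Set (LL K))}

theorem cc_nat : #ℕ < #K := by
  rw [mk_nat]; exact (Stp.inac (K := K)).unc

theorem cc_reg : (#K).IsRegular := (inac_card (Stp.inac (K := K))).isRegular

theorem cc_hi (hW : NFU #K (LL K) W) (k : K → LL K) (hk : Function.Injective k) :
    ∀ᶠ x : Set (LL K) in (W : Filter (Set (LL K))), ∀ b, b ∈ x → ∀ n, Lv #K n b →
      #{a | a ∈ x ∧ a < b} < pl #(Set.Iio (kx k x)) n := by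
  refine nfu_diag hW id Function.injective_id (fun b x => ∀ n, Lv #K n b →
      #{a | a ∈ x ∧ a < b} < pl #(Set.Iio (kx k x)) n) (fun b => ?_)
  refine nfu_all hW cc_nat (fun n x => Lv #K n b →
      #{a | a ∈ x ∧ a < b} < pl #(Set.Iio (kx k x)) n) (fun n => ?_)
  by_cases hb : Lv #K n b
  swap
  · exact Filter.Eventually.of_forall (fun x h => absurd h hb)
  cases n with
  | zero =>
    have h1 : #(Set.Iio b) < #K := hb
    obtain ⟨c, hc⟩ := exists_seg (Stp.inac (K := K)) h1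
    filter_upwards [kx_large hW k hk c, kx_inac hW k hk] with x hx1 hx2 _
    refine lt_of_le_of_lt ((mk_le_mk_of_subset ?_).trans hc) (iio_lt_iio hx2 hx1)
    intro a ha
    exact ha.2
  | succ n =>
    have h1 : #(Set.Iio b) < pl #K (n + 1) := hb
    rw [pl_succ, Order.lt_succ_iff] at h1
    have h2 := kx_card hW k hk n (Y := Set.Iio b) (g := fun y => y.1) Subtype.val_injective h1
    filter_upwards [h2] with x hx _
    refine lt_of_le_of_lt ?_ (cb_pl_lt_succ _ n)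
    refine le_trans (mk_le_of_injective (f := fun a : {a | a ∈ x ∧ a < b} =>
      (⟨⟨a.1, a.2.2⟩, a.2.1⟩ : {y : Set.Iio b | y.1 ∈ x})) ?_) hx
    intro a a' haa
    exact Subtype.ext (congrArg (fun z => z.1.1) haa)

theorem cc_seg (hW : NFU #K (LL K) W) (k : K → LL K) (hk : Function.Injective k) :
    ∀ᶠ x : Set (LL K) in (W : Filter (Set (LL K))), ∀ b, b ∈ x →
      #{a | a ∈ x ∧ a < b} ≤ plw #(Set.Iio (kx k x)) := by
  obtain ⟨i, hi⟩ := exists_filt #K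
  refine nfu_diag hW id Function.injective_id (fun b x =>
      #{a | a ∈ x ∧ a < b} ≤ plw #(Set.Iio (kx k x))) (fun b => ?_)
  have h1 : ∀ᶠ x : Set (LL K) in (W : Filter (Set (LL K))), ∀ n : ℕ,
      #{y : {c | c < b ∧ i b c ≤ n} | y.1 ∈ x} ≤ pl #(Set.Iio (kx k x)) n := by
    refine nfu_all hW cc_nat (fun n x => #{y : {c | c < b ∧ i b c ≤ n} | y.1 ∈ x} ≤
      pl #(Set.Iio (kx k x)) n) (fun n => ?_)
    exact kx_card hW k hk n (Y := {c | c < b ∧ i b c ≤ n}) (g := fun y => y.1)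
      Subtype.val_injective (hi b n)
  filter_upwards [h1, kx_inac hW k hk] with x hx hin
  have hinf : ℵ₀ ≤ plw #(Set.Iio (kx k x)) := cb_aleph0_le_plw hin.unc.le
  have h2 : {a | a ∈ x ∧ a < b} ⊆ ⋃ n : ℕ, {a | a ∈ x ∧ a < b ∧ i b a ≤ n} := by
    intro a ha
    exact Set.mem_iUnion.2 ⟨i b a, ha.1, ha.2, le_rfl⟩
  refine (mk_le_mk_of_subset h2).trans ?_
  refine (mk_iUnion_le _).trans ?_
  have h3 : ∀ n : ℕ, #{a | a ∈ x ∧ a < b ∧ i b a ≤ n} ≤ plw #(Set.Iio (kx k x)) := by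
    intro n
    refine le_trans ?_ ((hx n).trans (cb_pl_le_plw _ n))
    refine mk_le_of_injective (f := fun a : {a | a ∈ x ∧ a < b ∧ i b a ≤ n} =>
      (⟨⟨a.1, a.2.2⟩, a.2.1⟩ : {y : {c | c < b ∧ i b c ≤ n} | y.1 ∈ x})) ?_
    intro a a' haa
    exact Subtype.ext (congrArg (fun z => z.1.1) haa)
  calc #ℕ * (⨆ n : ℕ, #{a | a ∈ x ∧ a < b ∧ i b a ≤ n})
      ≤ plw #(Set.Iio (kx k x)) * plw #(Set.Iio (kx k x)) := by
        refine mul_le_mul' ?_ (ciSup_le' h3)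
        rw [mk_nat]; exact hinf
    _ = plw #(Set.Iio (kx k x)) := mul_eq_self hinf

theorem cc_lo (hW : NFU #K (LL K) W) (k : K → LL K) (hk : KP k) :
    ∀ᶠ x : Set (LL K) in (W : Filter (Set (LL K))), ∀ n,
      pl #(Set.Iio (kx k x)) n ≤ #{a | a ∈ x ∧ Lv #K n a} := by
  have h1 : ∀ᶠ x : Set (LL K) in (W : Filter (Set (LL K))), ∀ n : ℕ,
      #{a | a ∈ x ∧ a ∈ {a : LL K | Lv #K n a}} < #{a | a ∈ x ∧ a ∈ {a : LL K | Lv #K (n + 1) a}} :=
    nfu_all hW cc_nat _ (fun n => nfu_lower hW _ _ (by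
      rw [mk_Lv, mk_Lv]; exact cb_pl_lt_succ _ n))
  filter_upwards [h1, kx_spec hW k hk.inj] with x hx1 hx2 n
  induction n with
  | zero =>
    rw [pl_zero]
    refine mk_le_of_injective (f := fun b : Set.Iio (kx k x) =>
      (⟨k b.1, (hx2 b.1).2 b.2, (hk.ran _).2 ⟨b.1, rfl⟩⟩ : {a | a ∈ x ∧ Lv #K 0 a})) ?_
    intro b b' hbb
    exact Subtype.ext (hk.inj (congrArg Subtype.val hbb))
  | succ n ih =>
    rw [pl_succ]
    exact Order.succ_le_of_lt (lt_of_le_of_lt ih (hx1 n))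

theorem cc_top (hW : NFU #K (LL K) W) (k : K → LL K) (hk : KP k) :
    ∀ᶠ x : Set (LL K) in (W : Filter (Set (LL K))), plw #(Set.Iio (kx k x)) < #x := by
  have h1 := nfu_lower hW {a : LL K | #(Set.Iio a) < plw #K} Set.univ (by
    rw [mk_lt_level le_rfl, mk_univ, mk_KK]
    exact Order.lt_succ _)
  filter_upwards [h1, cc_lo hW k hk] with x hx1 hx2
  have h2 : #{a | a ∈ x ∧ a ∈ (Set.univ : Set (LL K))} ≤ #x :=
    mk_le_mk_of_subset (fun a ha => ha.1)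
  refine lt_of_le_of_lt ?_ (hx1.trans_le h2)
  refine cb_plw_le (fun n => (hx2 n).trans (mk_le_mk_of_subset ?_))
  intro a ha
  exact ⟨ha.1, lt_of_lt_of_le ha.2 (cb_pl_le_plw _ n)⟩

theorem cc_dom (hW : NFU #K (LL K) W) (f : LL K → ℕ → LL K) (hf : Scale #K f) :
    ∀ᶠ x : Set (LL K) in (W : Filter (Set (LL K))),
      ∀ g : ℕ → LL K, (∀ n, g n ∈ x) → (∀ n, Lv #K n (g n)) →
        ∃ a0, a0 ∈ x ∧ ∀ a, a ∈ x → a0 ≤ a → ∃ n0, ∀ n ≥ n0, g n < f a n := by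
  classical
  by_contra hcon
  rw [← Ultrafilter.eventually_not] at hcon
  have h1 : ∀ x : Set (LL K), ∃ g : ℕ → LL K, (¬ ∀ g : ℕ → LL K, (∀ n, g n ∈ x) →
      (∀ n, Lv #K n (g n)) → ∃ a0, a0 ∈ x ∧ ∀ a, a ∈ x → a0 ≤ a → ∃ n0, ∀ n ≥ n0, g n < f a n) →
      (∀ n, g n ∈ x) ∧ (∀ n, Lv #K n (g n)) ∧
        ¬ ∃ a0, a0 ∈ x ∧ ∀ a, a ∈ x → a0 ≤ a → ∃ n0, ∀ n ≥ n0, g n < f a n := by
    intro x
    by_cases h : ∀ g : ℕ → LL K, (∀ n, g n ∈ x) →
      (∀ n, Lv #K n (g n)) → ∃ a0, a0 ∈ x ∧ ∀ a, a ∈ x → a0 ≤ a → ∃ n0, ∀ n ≥ n0, g n < f a n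
    · exact ⟨fun n => (Lv_nonempty (cc_reg (K := K)) n).choose, fun h' => absurd h h'⟩
    · rw [not_forall] at h
      obtain ⟨g, hg⟩ := h
      rw [Classical.not_imp, Classical.not_imp] at hg
      exact ⟨g, fun _ => hg⟩
  choose g hg using h1
  have h2 : ∀ᶠ x : Set (LL K) in (W : Filter (Set (LL K))), (∀ n, g x n ∈ x) ∧
      (∀ n, Lv #K n (g x n)) ∧
        ¬ ∃ a0, a0 ∈ x ∧ ∀ a, a ∈ x → a0 ≤ a → ∃ n0, ∀ n ≥ n0, g x n < f a n :=
    hcon.mono (fun x hx => hg x hx)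
  have h3 : ∀ n, ∃ t, ∀ᶠ x : Set (LL K) in (W : Filter (Set (LL K))), g x n = t := fun n =>
    hW.normal (fun x => g x n) (h2.mono (fun x hx => hx.1 n))
  choose t ht using h3
  have h4 := nfu_all hW (cc_nat (K := K)) (fun n x => g x n = t n) ht
  have h5 : ∀ n, Lv #K n (t n) := by
    intro n
    obtain ⟨x, hx1, hx2⟩ := (h2.and h4).exists
    rw [← hx2 n]
    exact hx1.2.1 n
  obtain ⟨a0, ha0⟩ := hf.dom t h5
  obtain ⟨x, hx1, hx2, hx3⟩ := (h2.and (h4.and (hW.fine a0))).exists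
  apply hx1.2.2
  refine ⟨a0, hx3, fun a _ haa => ?_⟩
  obtain ⟨n0, hn0⟩ := ha0 a haa
  exact ⟨n0, fun n hn => by rw [hx2 n]; exact hn0 n hn⟩

/-- Almost all sets are good. -/
theorem gd_ae (hW : NFU #K (LL K) W) (k : K → LL K) (hk : KP k) (E E' : LL K → LL K → LL K)
    (f : LL K → ℕ → LL K) (hf : Scale #K f) (nx : LL K → LL K) :
    ∀ᶠ x : Set (LL K) in (W : Filter (Set (LL K))), Gd k E E' f nx x := by
  have h1 : ∀ᶠ x : Set (LL K) in (W : Filter (Set (LL K))), ∀ a, a ∈ x → ∀ n : ℕ, f a n ∈ x :=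
    nfu_diag hW id Function.injective_id (fun a x => ∀ n : ℕ, f a n ∈ x)
      (fun a => nfu_all hW cc_nat _ (fun n => hW.fine (f a n)))
  filter_upwards [hW.small, kx_inac hW k hk.inj, kx_spec hW k hk.inj, cc_lo hW k hk,
    cc_hi hW k hk.inj, cc_top hW k hk, cc_seg hW k hk.inj, nfu_closed2 hW E, nfu_closed2 hW E', h1,
    nfu_closed hW nx, cc_dom hW f hf] with x g1 g2 g3 g4 g5 g6 g7 g8 g9 g10 g11 g12
  exact ⟨g1, g2, g3, g4, g5, g6, g7, g8, g9, g10, g11, g12⟩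

end Pool.Agent.TrI
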