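import Pool.Agent.TrI.CC

/-!
MP_33d970_lc, M1, V-level: intersections of good sets.
-/

set_option autoImplicit false

namespace Pool.Agent.TrI

open Cardinal Order Ordinal Set Pool.Agent.Transv Pool.Agent.SplK

variable {K : Type} [LinearOrder K] [Stp K]
  {k : K → LL K} {E E' : LL K → LL K → LL K} {f : LL K → ℕ → LL K} {nx : LL K → LL K}

theorem Gd.reg {x : Set (LL K)} (hx : Gd k E E' f nx x) : (#(Set.Iio (kx k x))).IsRegular :=
  (inac_card hx.inac).isRegular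

/-- a wellordered set all of whose proper initial segments are smaller than `c` has size `≤ c` -/
theorem seg_le {X : Type} [LinearOrder X] [WellFoundedLT X] {D : Set X} {c : Cardinal.{0}}
    (h : ∀ b ∈ D, #{a | a ∈ D ∧ a < b} < c) : #D ≤ c := by
  refine ik_le (fun a : D => ?_)
  refine lt_of_le_of_lt ?_ (h a.1 a.2)
  refine mk_le_of_injective (f := fun b : Set.Iio a => (⟨b.1.1, b.1.2, b.2⟩ :
    {b | b ∈ D ∧ b < a.1})) ?_
  intro b b' hbb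
  have h1 : b.1.1 = b'.1.1 := Subtype.mk.inj hbb
  exact Subtype.ext (Subtype.ext h1)

theorem Gd.card_le {x : Set (LL K)} (hx : Gd k E E' f nx x) (n : ℕ) :
    #{a | a ∈ x ∧ Lv #K n a} ≤ pl #(Set.Iio (kx k x)) n := by
  refine seg_le (fun b hb => ?_)
  refine lt_of_le_of_lt (mk_le_mk_of_subset ?_) (hx.hi b hb.1 n hb.2)
  intro a ha
  exact ⟨ha.1.1, ha.2⟩

/-- the traces below a point are images of the trace on a level -/
theorem Gd.img {x : Set (LL K)} (hx : Gd k E E' f nx x) (hE : BijP E E') {b : LL K} (hb : b ∈ x)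
    {n : ℕ} (hb1 : ¬ Lv #K n b) (hb2 : Lv #K (n + 1) b) :
    {a | a ∈ x ∧ a < b} = E b '' {a | a ∈ x ∧ Lv #K n a} := by
  ext a
  constructor
  · rintro ⟨ha, hab⟩
    have h1 := hE.inv b n hb1 hb2 a hab
    exact ⟨E' b a, ⟨hx.cE' b hb a ha, h1.1⟩, h1.2⟩
  · rintro ⟨c, ⟨hc, hc2⟩, rfl⟩
    exact ⟨hx.cE b hb c hc, (hE.fwd b n hb1 hb2 c hc2).1⟩

theorem lemA_aux {x y : Set (LL K)} (hx : Gd k E E' f nx x) (hy : Gd k E E' f nx y)
    (hE : BijP E E') (n : ℕ)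
    (ih : pl #(Set.Iio (kx k x)) n ≤ #{a | (a ∈ x ∧ a ∈ y) ∧ Lv #K n a} →
      ∀ a, Lv #K n a → (a ∈ x ↔ a ∈ y))
    (h : pl #(Set.Iio (kx k x)) (n + 1) ≤ #{a | (a ∈ x ∧ a ∈ y) ∧ Lv #K (n + 1) a}) :
    ∀ c, Lv #K (n + 1) c → c ∈ x → c ∈ y := by
  intro c hc hcx
  obtain ⟨lam, hlam⟩ : ∃ lam, lam = #(Set.Iio (kx k x)) := ⟨_, rfl⟩
  obtain ⟨I, hI⟩ : ∃ I : Set (LL K), I = {a | (a ∈ x ∧ a ∈ y) ∧ Lv #K (n + 1) a} := ⟨_, rfl⟩
  have hinf : ℵ₀ ≤ pl lam n := by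
    rw [hlam]; exact hx.inac.unc.le.trans (le_pl _ n)
  rw [← hlam, ← hI] at h
  -- the points of `I` which are too small
  have hs1 : #{a | a ∈ I ∧ a ≤ c} ≤ pl lam n := by
    have h1 : #{a | a ∈ x ∧ a < c} ≤ pl lam n := by
      have h2 := hx.hi c hcx (n + 1) hc
      rw [← hlam, pl_succ, Order.lt_succ_iff] at h2
      exact h2
    refine (mk_le_mk_of_subset (t := {a | a ∈ x ∧ a < c} ∪ {c}) ?_).trans ?_
    · intro a ha
      rcases lt_or_eq_of_le ha.2 with h3 | h3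
      · have h4 := ha.1
        rw [hI] at h4
        exact Or.inl ⟨h4.1.1, h3⟩
      · exact Or.inr h3
    · exact (mk_union_le _ _).trans ((add_le_add h1 (by
        rw [mk_singleton]; exact one_le_aleph0.trans hinf)).trans (add_eq_self hinf).le)
  have hs2 : #{a | a ∈ I ∧ #{a' | a' ∈ I ∧ a' < a} < pl lam n} ≤ pl lam n := by
    refine seg_le (fun b hb => ?_)
    refine lt_of_le_of_lt (mk_le_mk_of_subset ?_) hb.2
    intro a ha
    exact ⟨ha.1.1, ha.2⟩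
  obtain ⟨b, hbI, hb⟩ : ∃ b ∈ I, b ∉ {a | a ∈ I ∧ a ≤ c} ∪
      {a | a ∈ I ∧ #{a' | a' ∈ I ∧ a' < a} < pl lam n} := by
    by_contra hcon
    push Not at hcon
    have h1 : #I ≤ pl lam n := (mk_le_mk_of_subset hcon).trans ((mk_union_le _ _).trans
      ((add_le_add hs1 hs2).trans (add_eq_self hinf).le))
    exact absurd (h.trans h1) (not_le.2 (cb_pl_lt_succ _ n))
  rw [Set.mem_union, not_or] at hb
  obtain ⟨hb1, hb2⟩ := hb
  have hcb : c < b := by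
    by_contra h1
    exact hb1 ⟨hbI, not_lt.1 h1⟩
  have hbig : pl lam n ≤ #{a' | a' ∈ I ∧ a' < b} := by
    by_contra h1
    exact hb2 ⟨hbI, not_le.1 h1⟩
  have hbI' := hbI
  rw [hI] at hbI'
  obtain ⟨⟨hbx, hby⟩, hbL⟩ := hbI'
  have hbn : ¬ Lv #K n b := by
    intro h1
    have h2 := hx.hi b hbx n h1
    rw [← hlam] at h2
    refine absurd (hbig.trans (mk_le_mk_of_subset ?_)) (not_le.2 h2)
    intro a ha
    have h3 := ha.1
    rw [hI] at h3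
    exact ⟨h3.1.1, ha.2⟩
  have hix := hx.img hE hbx hbn hbL
  have hiy := hy.img hE hby hbn hbL
  -- the common trace on the level `n` is large
  have h1 : pl lam n ≤ #{a | (a ∈ x ∧ a ∈ y) ∧ Lv #K n a} := by
    refine hbig.trans ?_
    refine (mk_le_mk_of_subset (t := E b '' {a | (a ∈ x ∧ a ∈ y) ∧ Lv #K n a}) ?_).trans mk_image_le
    intro a ha
    have h3 := ha.1
    rw [hI] at h3
    have h4 : a ∈ {a | a ∈ x ∧ a < b} := ⟨h3.1.1, ha.2⟩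
    have h5 := hE.inv b n hbn hbL a ha.2
    exact ⟨E' b a, ⟨⟨hx.cE' b hbx a h3.1.1, hy.cE' b hby a h3.1.2⟩, h5.1⟩, h5.2⟩
  rw [hlam] at h1
  have h2 := ih h1
  have h3 : {a | a ∈ x ∧ Lv #K n a} = {a | a ∈ y ∧ Lv #K n a} := by
    ext a
    constructor
    · rintro ⟨h4, h5⟩; exact ⟨(h2 a h5).1 h4, h5⟩
    · rintro ⟨h4, h5⟩; exact ⟨(h2 a h5).2 h4, h5⟩
  have h4 : c ∈ {a | a ∈ x ∧ a < b} := ⟨hcx, hcb⟩
  rw [hix, h3, ← hiy] at h4
  exact h4.1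

/-- **Lemma A.** -/
theorem lemA {x y : Set (LL K)} (hx : Gd k E E' f nx x) (hy : Gd k E E' f nx y)
    (hE : BijP E E') (hk : KP k) (hxy : kx k x = kx k y) (n : ℕ)
    (h : pl #(Set.Iio (kx k x)) n ≤ #{a | (a ∈ x ∧ a ∈ y) ∧ Lv #K n a}) :
    ∀ a, Lv #K n a → (a ∈ x ↔ a ∈ y) := by
  induction n with
  | zero =>
    intro a ha
    obtain ⟨b, rfl⟩ := (hk.ran a).1 ha
    rw [hx.kk, hy.kk, hxy]
  | succ n ih =>
    intro c hc
    constructor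
    · exact lemA_aux hx hy hE n ih h c hc
    · have e1 : ∀ m, {a | (a ∈ y ∧ a ∈ x) ∧ Lv #K m a} = {a | (a ∈ x ∧ a ∈ y) ∧ Lv #K m a} := by
        intro m; ext a
        constructor
        · rintro ⟨⟨h1, h2⟩, h3⟩; exact ⟨⟨h2, h1⟩, h3⟩
        · rintro ⟨⟨h1, h2⟩, h3⟩; exact ⟨⟨h2, h1⟩, h3⟩
      refine lemA_aux hy hx hE n ?_ ?_ c hc
      · intro h1 a ha
        rw [← hxy, e1] at h1
        exact (ih h1 a ha).symm
      · rw [← hxy, e1]; exact h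

/-- **Lemma B.** -/
theorem lemB {x y : Set (LL K)} (hx : Gd k E E' f nx x) (hy : Gd k E E' f nx y)
    (hf : Scale #K f) {b : LL K} (hb : b ∈ y) (hbx : ∀ a ∈ x, a < b) :
    ∃ n a, Lv #K n a ∧ ¬ (a ∈ x ↔ a ∈ y) := by
  by_contra hcon
  push Not at hcon
  obtain ⟨a0, ha0, h1⟩ := hx.dom (fun n => f b n)
    (fun n => (hcon n _ (hf.lv b n)).2 (hy.cf b hb n)) (fun n => hf.lv b n)
  obtain ⟨n0, hn0⟩ := h1 a0 ha0 le_rfl
  obtain ⟨n1, hn1⟩ := hf.inc b a0 (hbx a0 ha0)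
  exact absurd ((hn0 (max n0 n1) (le_max_left _ _)).trans (hn1 (max n0 n1) (le_max_right _ _)))
    (lt_irrefl _)

/-- The intersection is bounded on almost all levels. -/
theorem lemT {x y : Set (LL K)} (hx : Gd k E E' f nx x) (hy : Gd k E E' f nx y)
    (hE : BijP E E') (hk : KP k) (hxy : kx k x = kx k y)
    (hne : ∃ n a, Lv #K n a ∧ ¬ (a ∈ x ↔ a ∈ y)) :
    ∃ (n0 : ℕ) (m : ℕ → LL K), (∀ n, m n ∈ x ∧ Lv #K n (m n)) ∧
      ∀ n ≥ n0, ∀ a, a ∈ x → a ∈ y → Lv #K n a → a ≤ m n := by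
  obtain ⟨n0, a0, ha0, hne0⟩ := hne
  have h0 : ∀ n, ∃ m, (m ∈ x ∧ Lv #K n m) ∧
      (n0 ≤ n → ∀ a, a ∈ x → a ∈ y → Lv #K n a → a ≤ m) := by
    intro n
    by_cases hn : n0 ≤ n
    · have h1 : #{a | (a ∈ x ∧ a ∈ y) ∧ Lv #K n a} < pl #(Set.Iio (kx k x)) n := by
        by_contra h2
        exact hne0 (lemA hx hy hE hk hxy n (not_lt.1 h2) a0 (ha0.mono hn))
      obtain ⟨m, hm, hm2⟩ := level_bound (cb_pl_reg hx.reg n) (D := {a | a ∈ x ∧ Lv #K n a})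
        (hx.lo n) (fun b hb => by
          refine (mk_le_mk_of_subset (t := {a | a ∈ x ∧ a < b}) ?_).trans_lt (hx.hi b hb.1 n hb.2)
          intro a ha; exact ⟨ha.1.1, ha.2⟩) h1 (fun a ha => ⟨ha.1.1, ha.2⟩)
      exact ⟨m, hm, fun _ a h3 h4 h5 => (hm2 a ⟨⟨h3, h4⟩, h5⟩).le⟩
    · have h1 : 0 < #{a | a ∈ x ∧ Lv #K n a} :=
        (cb_pl_reg hx.reg n).pos.trans_le (hx.lo n)
      obtain ⟨m⟩ := Cardinal.mk_ne_zero_iff.1 h1.ne'
      exact ⟨m.1, m.2, fun h => absurd h hn⟩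
  choose m hm hm2 using h0
  exact ⟨n0, m, hm, fun n hn => hm2 n hn⟩

end Pool.Agent.TrI
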