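import Pool.Agent.TrI.CD
import Pool.Agent.TrI.CA

/-!
MP_33d970_lc, M1, V-level: collapse, selection of a stationary set, output.
-/

set_option autoImplicit false

namespace Pool.Agent.TrI

open Cardinal Order Ordinal Set Pool.Agent.Transv Pool.Agent.SplK

variable {K : Type} [LinearOrder K] [Stp K]
  {k : K → LL K} {E E' : LL K → LL K → LL K} {f : LL K → ℕ → LL K} {nx : LL K → LL K}

/-- `d` is the (strict, limit) supremum of `x`. -/
def SSup {X : Type} [LinearOrder X] (d : X) (x : Set X) : Prop :=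
  (∀ a ∈ x, a < d) ∧ ∀ c < d, ∃ a ∈ x, c < a

theorem collapse {x : Set (LL K)} (hx : Gd k E E' f nx x) :
    ∃ j : KK (plw #(Set.Iio (kx k x))) → LL K, StrictMono j ∧ Set.range j = x := by
  obtain ⟨c, hc⟩ : ∃ c, c = plw #(Set.Iio (kx k x)) := ⟨_, rfl⟩
  have h1 : typeLT x = (Order.succ c).ord := by
    apply le_antisymm
    · by_contra h2
      rw [not_le] at h2
      obtain ⟨a, ha⟩ := Ordinal.typein_surj (α := x) (· < ·) h2
      have h3 := Ordinal.card_typein (r := ((· < ·) : x → x → Prop)) a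
      rw [ha, card_ord] at h3
      have h4 : #(Set.Iio a) ≤ c := by
        rw [hc]
        refine le_trans ?_ (hx.seg a.1 a.2)
        refine mk_le_of_injective (f := fun b : Set.Iio a => (⟨b.1.1, b.1.2, b.2⟩ :
          {b | b ∈ x ∧ b < a.1})) ?_
        intro b b' hbb
        have h5 : b.1.1 = b'.1.1 := Subtype.mk.inj hbb
        exact Subtype.ext (Subtype.ext h5)
      have h5 : #(Set.Iio a) = Order.succ c := h3.symm
      rw [h5] at h4
      exact absurd h4 (Order.lt_succ c).not_ge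
    · refine le_trans ?_ (Cardinal.ord_le_type (α := x) (· < ·))
      rw [Cardinal.ord_le_ord]
      apply Order.succ_le_of_lt
      rw [hc]
      exact hx.top
  have h2 : typeLT (KK c) = typeLT x := by
    rw [h1]
    exact Ordinal.type_toType _
  obtain ⟨e⟩ := Ordinal.type_eq.1 h2
  rw [← hc]
  refine ⟨fun z => (e z).1, fun z w hzw => ?_, ?_⟩
  · exact e.map_rel_iff.2 hzw
  · ext a
    constructor
    · rintro ⟨z, rfl⟩
      exact (e z).2
    · intro ha
      exact ⟨e.symm ⟨a, ha⟩, by simp⟩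

theorem coll_lv {x : Set (LL K)} (hx : Gd k E E' f nx x)
    {j : KK (plw #(Set.Iio (kx k x))) → LL K} (hj : StrictMono j) (hr : Set.range j = x)
    (z : KK (plw #(Set.Iio (kx k x)))) (n : ℕ) :
    Lv #(Set.Iio (kx k x)) n z ↔ Lv #K n (j z) := by
  have hm : ∀ w, j w ∈ x := by
    intro w
    have h0 : j w ∈ Set.range j := ⟨w, rfl⟩
    rw [hr] at h0
    exact h0
  have h1 : #(Set.Iio z) = #{a | a ∈ x ∧ a < j z} := by
    apply le_antisymm
    · refine mk_le_of_injective (f := fun b : Set.Iio z => (⟨j b.1, hm b.1, hj b.2⟩ :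
        {a | a ∈ x ∧ a < j z})) ?_
      intro b b' hbb
      exact Subtype.ext (hj.injective (Subtype.mk.inj hbb))
    · refine (mk_le_mk_of_subset (t := j '' Set.Iio z) ?_).trans mk_image_le
      rintro a ⟨ha, hab⟩
      have ha' : a ∈ Set.range j := by rw [hr]; exact ha
      obtain ⟨b, rfl⟩ := ha'
      exact ⟨b, hj.lt_iff_lt.1 hab, rfl⟩
  have hjx : j z ∈ x := hm z
  constructor
  · intro h
    by_contra hn
    have h2 : #(Set.Iio z) < pl #(Set.Iio (kx k x)) n := h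
    rw [h1] at h2
    refine absurd ((hx.lo n).trans (mk_le_mk_of_subset ?_)) (not_le.2 h2)
    rintro a ⟨ha, hal⟩
    refine ⟨ha, ?_⟩
    by_contra hlt
    exact hn (hal.down (not_lt.1 hlt))
  · intro h
    change #(Set.Iio z) < pl #(Set.Iio (kx k x)) n
    rw [h1]
    exact hx.hi _ hjx n h

/-- The points at which a good set with collapse `(a, F)` ends. -/
def SS (k : K → LL K) (E E' : LL K → LL K → LL K) (f : LL K → ℕ → LL K) (a : K)
    (F : KK (plw #(Set.Iio a)) → ℕ → KK (plw #(Set.Iio a))) : Set (LL K) :=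
  {d | ∃ (x : Set (LL K)) (j : KK (plw #(Set.Iio a)) → LL K), Gd k E E' f id x ∧ kx k x = a ∧
    SSup d x ∧ StrictMono j ∧ Set.range j = x ∧ ∀ z n, j (F z n) = f (j z) n}

theorem ce_hμ : ℵ₀ ≤ plw #K := cb_aleph0_le_plw (Stp.inac (K := K)).unc.le

theorem ce_small {a : K} : #(KK (plw #(Set.Iio a)) → ℕ → KK (plw #(Set.Iio a))) < #K := by
  have hI := inac_card (Stp.inac (K := K))
  have h1 : #(Set.Iio a) < #K := (Stp.inac (K := K)).seg a
  obtain ⟨y, hy, hy2⟩ := inac_pl_bdd hI h1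
  have h2 : plw #(Set.Iio a) < #K := (cb_plw_le hy2).trans_lt hy
  have h3 : #(KK (plw #(Set.Iio a))) < #K := by
    rw [mk_KK]
    exact lt_of_le_of_lt (Order.succ_le_of_lt (cantor _)) (hI.isStrongPrelimit h2)
  have h4 : #(ℕ → KK (plw #(Set.Iio a))) < #K := by
    rw [← Cardinal.power_def, mk_nat]
    exact inac_pow hI h3 hI.aleph0_lt
  rw [← Cardinal.power_def]
  exact inac_pow hI h4 h3

theorem exists_stat {W : Ultrafilter (Set (LL K))} (hW : NFU #K (LL K) W) (hk : KP k)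
    (hf : Scale #K f) :
    ∃ (a : K) (F : KK (plw #(Set.Iio a)) → ℕ → KK (plw #(Set.Iio a))),
      IsStationary (SS k E E' f a F) := by
  classical
  by_contra hcon
  push Not at hcon
  have h1 : ∀ p : (Σ a : K, (KK (plw #(Set.Iio a)) → ℕ → KK (plw #(Set.Iio a)))),
      ∃ t, IsClub t ∧ Disjoint (SS k E E' f p.1 p.2) t := fun p =>
    not_isStationary_iff.1 (hcon p.1 p.2)
  choose C hC1 hC2 using h1
  have hcard : #(Σ a : K, (KK (plw #(Set.Iio a)) → ℕ → KK (plw #(Set.Iio a)))) ≤ plw #K := by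
    rw [mk_sigma]
    calc Cardinal.sum (fun a : K => #(KK (plw #(Set.Iio a)) → ℕ → KK (plw #(Set.Iio a))))
        ≤ Cardinal.sum (fun _ : K => #K) := sum_le_sum _ _ (fun a => ce_small.le)
      _ = #K * #K := by rw [Cardinal.sum_const]; simp
      _ = #K := mul_eq_self (Stp.inac (K := K)).unc.le
      _ ≤ plw #K := cb_le_plw _
  have hCC : IsClub (⋂ p, C p) := iInter_club ce_hμ hcard C hC1
  have hnx : ∀ a : LL K, ∃ c, c ∈ (⋂ p, C p) ∧ a < c := by
    intro a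
    obtain ⟨b, hb⟩ := exists_bound ce_hμ (s := {a}) (mk_singleton_le ce_hμ a)
    obtain ⟨c, hc, hbc⟩ := hCC.isCofinal b
    exact ⟨c, hc, (hb a rfl).trans_le hbc⟩
  choose nC hnC1 hnC2 using hnx
  obtain ⟨x, hx, hx2, hx3⟩ := ((gd_ae hW k hk E E' f hf id).and ((nfu_closed hW nC).and
    hW.small)).exists
  -- the supremum
  have hbd : {d : LL K | ∀ a ∈ x, a < d}.Nonempty :=
    exists_bound ce_hμ (hx3.le.trans (cb_le_plw _))
  obtain ⟨d, hd1, hd2⟩ : ∃ d : LL K, (∀ a ∈ x, a < d) ∧ ∀ c < d, ∃ a ∈ x, c ≤ a := by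
    refine ⟨wellFounded_lt.min _ hbd, wellFounded_lt.min_mem _ hbd, fun c hc => ?_⟩
    by_contra hcon
    push Not at hcon
    exact wellFounded_lt.not_lt_min {d : LL K | ∀ a ∈ x, a < d} (x := c)
      (fun a ha => hcon a ha) hc
  have hss : SSup d x := by
    refine ⟨hd1, fun c hc => ?_⟩
    obtain ⟨a, ha, hca⟩ := hd2 c hc
    exact ⟨nC a, hx2 a ha, hca.trans_lt (hnC2 a)⟩
  have hdC : d ∈ ⋂ p, C p := by
    have hne : (nC '' x).Nonempty := by
      have h0 : (0 : Cardinal.{0}) < #x := lt_of_le_of_lt zero_le hx.top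
      obtain ⟨a⟩ := Cardinal.mk_ne_zero_iff.1 h0.ne'
      exact ⟨nC a.1, a.1, a.2, rfl⟩
    refine hCC.isLUB_mem ?_ hne ?_
    · rintro _ ⟨a, _, rfl⟩
      exact hnC1 a
    · constructor
      · rintro _ ⟨a, ha, rfl⟩
        exact (hd1 _ (hx2 a ha)).le
      · intro b hb
        by_contra hlt
        obtain ⟨a, ha, hba⟩ := hd2 b (not_le.1 hlt)
        have h4 := hb ⟨a, ha, rfl⟩
        exact absurd (hba.trans_lt (hnC2 a)) (not_lt.2 h4)
  -- the collapse
  obtain ⟨j, hj, hr⟩ := collapse hx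
  have hex : ∀ z n, ∃ w, j w = f (j z) n := by
    intro z n
    have h4 : f (j z) n ∈ x := hx.cf _ (by rw [← hr]; exact ⟨z, rfl⟩) n
    rw [← hr] at h4
    exact h4
  choose F hF using hex
  have h5 : d ∈ SS k E E' f (kx k x) F := ⟨x, j, hx, rfl, hss, hj, hr, hF⟩
  exact Set.disjoint_left.1 (hC2 ⟨kx k x, F⟩) h5 (Set.mem_iInter.1 hdC _)

/-- The ladder system with a collapsed scale: the V-level output. `L` is the wellordered set of order type
`κ^{+ω+1}`, `Lb` the wellordered set of order type `κb^{+ω+1}`. -/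
structure LadO (κ κb : Cardinal.{0}) (S : Set (KK (plw κ))) (j : KK (plw κ) → KK (plw κb) → KK (plw κ))
    (fb : KK (plw κb) → ℕ → KK (plw κb)) : Prop where
  stat : IsStationary S
  mono : ∀ d ∈ S, StrictMono (j d)
  below : ∀ d ∈ S, ∀ z, j d z < d
  cof : ∀ d ∈ S, ∀ c < d, ∃ z, c < j d z
  lv : ∀ z n, Lv κb n (fb z n)
  dom : ∀ g : ℕ → KK (plw κb), (∀ n, Lv κb n (g n)) →
    ∃ z0, ∀ z ≥ z0, ∃ n0, ∀ n ≥ n0, g n < fb z n
  disj : ∀ d ∈ S, ∀ e ∈ S, d ≠ e → ∃ (m : ℕ → KK (plw κb)) (n0 : ℕ), (∀ n, Lv κb n (m n)) ∧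
    ∀ z, (∃ w, j e w = j d z) → ∀ n ≥ n0, fb z n ≤ m n
  dia : ∀ Y : Type, Nonempty Y → #Y ≤ Order.succ (plw κ) →
    ∃ g : KK (plw κ) → KK (plw κ) → Y, ∀ y : KK (plw κ) → Y, ∀ C : Set (KK (plw κ)), IsClub C →
      ∃ d ∈ S, d ∈ C ∧ ∀ β < d, g d β = y β

theorem exists_ladO (hG : GCH0) {W : Ultrafilter (Set (LL K))} (hW : NFU #K (LL K) W) :
    ∃ a : K, Inac (Set.Iio a) ∧ ∃ S j fb, LadO #K #(Set.Iio a) S j fb := by
  classical
  obtain ⟨k, hk⟩ := exists_KP (K := K)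
  obtain ⟨E, E', hE⟩ := exists_bijP #K
  obtain ⟨f, hf⟩ := exists_scale hG (cc_reg (K := K))
  obtain ⟨a, F, hS⟩ := exists_stat (k := k) (E := E) (E' := E') (f := f) hW hk hf
  obtain ⟨S, hSd⟩ : ∃ S, S = SS k E E' f a F := ⟨_, rfl⟩
  rw [← hSd] at hS
  have hch : ∀ d : LL K, ∃ (x : Set (LL K)) (j : KK (plw #(Set.Iio a)) → LL K), d ∈ S →
      (Gd k E E' f id x ∧ kx k x = a ∧
        SSup d x ∧ StrictMono j ∧ Set.range j = x ∧ ∀ z n, j (F z n) = f (j z) n) := by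
    intro d
    by_cases hd : d ∈ S
    · have hd' := hd
      rw [hSd] at hd'
      obtain ⟨x, j, h⟩ := hd'
      exact ⟨x, j, fun _ => h⟩
    · have hL : Nonempty (LL K) := ⟨(Lv_nonempty (cc_reg (K := K)) 0).choose⟩
      exact ⟨∅, fun _ => Classical.arbitrary _, fun h => absurd h hd⟩
  choose x j hxj using hch
  have hne : S.Nonempty := by
    obtain ⟨b⟩ : Nonempty (LL K) := ⟨(Lv_nonempty (cc_reg (K := K)) 0).choose⟩
    obtain ⟨d, hd, _⟩ := IsStationary.unbounded ce_hμ hS b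
    exact ⟨d, hd⟩
  have hlvd : ∀ d ∈ S, ∀ z n, Lv #(Set.Iio a) n z ↔ Lv #K n (j d z) := by
    intro d hd z n
    obtain ⟨h1, h2, _, h4, h5, _⟩ := hxj d hd
    subst h2
    exact coll_lv h1 h4 h5 z n
  have hinac : Inac (Set.Iio a) := by
    obtain ⟨d, hd⟩ := hne
    obtain ⟨h1, h2, _⟩ := hxj d hd
    rw [← h2]
    exact h1.inac
  refine ⟨a, hinac, S, j, F, hS, ?_, ?_, ?_, ?_, ?_, ?_, ?_⟩
  · intro d hd; exact (hxj d hd).2.2.2.1
  · intro d hd z
    obtain ⟨_, _, h3, _, h5, _⟩ := hxj d hd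
    exact h3.1 _ (by rw [← h5]; exact ⟨z, rfl⟩)
  · intro d hd c hc
    obtain ⟨_, _, h3, _, h5, _⟩ := hxj d hd
    obtain ⟨b, hb, hcb⟩ := h3.2 c hc
    rw [← h5] at hb
    obtain ⟨z, rfl⟩ := hb
    exact ⟨z, hcb⟩
  · intro z n
    obtain ⟨d, hd⟩ := hne
    obtain ⟨_, _, _, _, _, h6⟩ := hxj d hd
    rw [hlvd d hd, h6]
    exact hf.lv _ _
  · intro g hg
    obtain ⟨d, hd⟩ := hne
    obtain ⟨h1, _, _, h4, h5, h6⟩ := hxj d hd
    obtain ⟨a0, ha0, ha1⟩ := h1.dom (fun n => j d (g n))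
      (fun n => by rw [← h5]; exact ⟨g n, rfl⟩) (fun n => (hlvd d hd _ _).1 (hg n))
    rw [← h5] at ha0
    obtain ⟨z0, rfl⟩ := ha0
    refine ⟨z0, fun z hz => ?_⟩
    obtain ⟨n0, hn0⟩ := ha1 (j d z) (by rw [← h5]; exact ⟨z, rfl⟩) (h4.monotone hz)
    refine ⟨n0, fun n hn => ?_⟩
    have h7 := hn0 n hn
    rw [← h6] at h7
    exact h4.lt_iff_lt.1 h7
  · intro d hd e he hde
    obtain ⟨h1, h2, h3, h4, h5, h6⟩ := hxj d hd
    obtain ⟨g1, g2, g3, g4, g5, g6⟩ := hxj e he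
    have hxy : kx k (x d) = kx k (x e) := h2.trans g2.symm
    have hdiff : ∃ n b, Lv #K n b ∧ ¬ (b ∈ x d ↔ b ∈ x e) := by
      rcases lt_or_gt_of_ne hde with h | h
      · obtain ⟨b, hb, hdb⟩ := g3.2 d h
        exact lemB h1 g1 hf hb (fun c hc => (h3.1 c hc).trans hdb)
      · obtain ⟨b, hb, hdb⟩ := h3.2 e h
        obtain ⟨n, b', hb1, hb2⟩ := lemB g1 h1 hf hb (fun c hc => (g3.1 c hc).trans hdb)
        exact ⟨n, b', hb1, fun h' => hb2 h'.symm⟩
    obtain ⟨n0, m, hm, hm2⟩ := lemT h1 g1 hE hk hxy hdiff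
    have hm3 : ∀ n, ∃ w, j d w = m n := by
      intro n
      have := (hm n).1
      rw [← h5] at this
      exact this
    choose mb hmb using hm3
    refine ⟨mb, n0, fun n => ?_, ?_⟩
    · rw [hlvd d hd, hmb]
      exact (hm n).2
    · rintro z ⟨w, hw⟩ n hn
      have hzx : j d z ∈ x d := by rw [← h5]; exact ⟨z, rfl⟩
      have hzy : j d z ∈ x e := by rw [← g5, ← hw]; exact ⟨w, rfl⟩
      have h7 := hm2 n hn (f (j d z) n) (h1.cf _ hzx n) (g1.cf _ hzy n) (hf.lv _ _)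
      rw [← h6, ← hmb] at h7
      exact h4.le_iff_le.1 h7
  · intro Y hY hYc
    obtain ⟨i, hi⟩ := exists_filt #K
    refine diamond_club ce_hμ (hG _ ce_hμ) (Y := Y) (J := ℕ) hYc (by
      rw [mk_nat]; exact ce_hμ) (fun d n => {c | c < d ∧ i d c ≤ n}) ?_ ?_ ?_ hS ?_
    · intro d m n hmn c hc
      exact ⟨hc.1, hc.2.trans hmn⟩
    · intro d c hc
      exact ⟨i d c, hc, le_rfl⟩
    · intro d n
      exact (hi d n).trans_lt (cb_pl_lt_plw _ n)
    · intro d hd u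
      obtain ⟨h1, h2, h3, h4, h5, h6⟩ := hxj d hd
      by_contra hcon
      push Not at hcon
      choose ε hε1 hε2 using hcon
      have hz : ∀ n, ∃ z, ε n < j d z := by
        intro n
        obtain ⟨b, hb, hcb⟩ := h3.2 (ε n) (hε1 n)
        rw [← h5] at hb
        obtain ⟨z, rfl⟩ := hb
        exact ⟨z, hcb⟩
      choose z hz using hz
      have hbb : ℵ₀ ≤ plw #(Set.Iio a) := cb_aleph0_le_plw hinac.unc.le
      obtain ⟨zz, hzz⟩ := exists_bound_fun hbb (ι := ℕ) (by rw [mk_nat]; exact hbb) z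
      have h7 : ∀ n, ε n < j d zz := fun n => (hz n).trans (h4 (hzz n))
      have h8 := hε2 (u (j d zz)) (j d zz)
        (h3.1 _ (by rw [← h5]; exact ⟨zz, rfl⟩)) (h7 _)
      exact absurd h8 (lt_irrefl _)

end Pool.Agent.TrI
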