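import Pool.Agent.TrI.CG

/-!
MP_33d970_lc, M1: from the V-level output (`LadP`, `DiaP`) to `BFrc`.
-/

set_option autoImplicit false

namespace Pool.Agent.TrI

open Cardinal Order Ordinal Set Pool.Agent.SplK Pool.Agent.H55.Lav

theorem OTyp.bound {L : Type} [LinearOrder L] {μ : Cardinal.{0}} (hμ : ℵ₀ ≤ μ)
    (hL : OTyp L (Order.succ μ)) {s : Set L} (hs : #s ≤ μ) : ∃ b, ∀ x ∈ s, x < b := by
  by_contra hcon
  push Not at hcon
  have h1 : (Set.univ : Set L) ⊆ ⋃ x : s, (Set.Iio x.1 ∪ {x.1}) := by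
    intro b _
    obtain ⟨x, hx, hbx⟩ := hcon b
    refine Set.mem_iUnion.2 ⟨⟨x, hx⟩, ?_⟩
    rcases lt_or_eq_of_le hbx with h | h
    · exact Or.inl h
    · exact Or.inr h
  have h2 : ∀ x : s, #(Set.Iio x.1 ∪ {x.1} : Set L) ≤ μ := by
    intro x
    refine (mk_union_le _ _).trans ((add_le_add (Order.lt_succ_iff.1 (hL.seg x.1)) ?_).trans
      (add_eq_self hμ).le)
    rw [mk_singleton]; exact one_le_aleph0.trans hμ
  have h3 : #(⋃ x : s, (Set.Iio x.1 ∪ {x.1}) : Set L) ≤ μ :=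
    (mk_iUnion_le _).trans ((mul_le_mul' hs (ciSup_le' h2)).trans (mul_eq_self hμ).le)
  have h4 := (mk_le_mk_of_subset h1).trans h3
  rw [mk_univ, hL.card] at h4
  exact absurd h4 (Order.lt_succ μ).not_ge

theorem OTyp.nonempty {L : Type} [LinearOrder L] {c : Cardinal.{0}} (hc : c ≠ 0) (hL : OTyp L c) :
    Nonempty L := by
  rw [← Cardinal.mk_ne_zero_iff, hL.card]; exact hc

/-- Guessing of names, for forcing notions with small antichains. -/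
theorem guess_of_dia {L : Type} [LinearOrder L] {μ : Cardinal.{0}} (hμ : ℵ₀ ≤ μ)
    (hL : OTyp L (Order.succ μ)) {S : Set L} (hD : DiaP L S) {Q : Type} [Preorder Q]
    (hQ : #(Set Q) ≤ Order.succ μ) (hcc : CcP Q (Order.succ μ)) :
    ∃ T : L → L → L → Set Q, ∀ X h : L → L → Set Q,
      ∃ d ∈ S, (∀ x < d, ∀ y E, BelQ (h x y) E → (∀ y', y' ≠ y → IncQ (h x y') E) → y < d) ∧
        ∀ x < d, ∀ y < d, X x y = T d x y := by
  classical
  have hμ' : ℵ₀ ≤ Order.succ μ := hμ.trans (Order.le_succ _)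
  have hne : Nonempty L := hL.nonempty (aleph0_pos.trans_le hμ').ne'
  -- pairing
  have hpair : #(L × L) ≤ #L := by
    rw [← Cardinal.mul_def, hL.card]
    exact (mul_eq_self hμ').le
  obtain ⟨e⟩ : Nonempty ((L × L) ↪ L) := hpair
  obtain ⟨g, hg⟩ := hD (Set Q) ⟨∅⟩ (by rw [hL.card]; exact hQ)
  refine ⟨fun d x y => g d (e (x, y)), fun X h => ?_⟩
  -- the bounds for h
  have hb : ∀ x, ∃ b, ∀ y E, BelQ (h x y) E → (∀ y', y' ≠ y → IncQ (h x y') E) → y < b := by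
    intro x
    obtain ⟨Y, hY⟩ : ∃ Y : Set L, Y = {y | ∃ E, BelQ (h x y) E ∧
      ∀ y', y' ≠ y → IncQ (h x y') E} := ⟨_, rfl⟩
    have h1 : ∀ y : Y, ∃ E, BelQ (h x y.1) E ∧ ∀ y', y' ≠ y.1 → IncQ (h x y') E := by
      rintro ⟨y, hy⟩
      rw [hY] at hy
      exact hy
    choose F hF1 hF2 using h1
    have hinc : ∀ y y' : Y, y ≠ y' → ∀ r, r ≤ F y → ¬ r ≤ F y' := by
      intro y y' hyy r hr1 hr2
      obtain ⟨C, hC, hEC⟩ := hF1 y
      exact hF2 y' y.1 (fun h' => hyy (Subtype.ext h')) r hr2 ⟨C, hC, hr1.trans hEC⟩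
    have hinj : Function.Injective F := by
      intro y y' hyy
      by_contra hne'
      exact hinc y y' hne' (F y) le_rfl hyy.le
    have hcard : #Y ≤ μ := by
      rw [← Cardinal.mk_range_eq F hinj, ← Order.lt_succ_iff]
      refine hcc _ ?_
      rintro _ ⟨y, rfl⟩ _ ⟨y', rfl⟩ hne' r hr1 hr2
      exact hinc y y' (fun h' => hne' (by rw [h'])) r hr1 hr2
    obtain ⟨b, hb⟩ := hL.bound hμ hcard
    refine ⟨b, fun y E hE1 hE2 => hb y ?_⟩
    rw [hY]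
    exact ⟨E, hE1, hE2⟩
  choose b hb using hb
  -- one function for closure under b and the pairing
  have hIic : ∀ m : L, #(Set.Iic m) ≤ μ := by
    intro m
    have : Set.Iic m = Set.Iio m ∪ {m} := by
      ext x; simp [le_iff_lt_or_eq]
    rw [this]
    refine (mk_union_le _ _).trans ((add_le_add (Order.lt_succ_iff.1 (hL.seg m)) ?_).trans
      (add_eq_self hμ).le)
    rw [mk_singleton]; exact one_le_aleph0.trans hμ
  have hh : ∀ m, ∃ u, (∀ a ≤ m, b a < u) ∧ ∀ a ≤ m, ∀ c ≤ m, e (a, c) < u := by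
    intro m
    obtain ⟨u, hu⟩ := hL.bound hμ (s := b '' Set.Iic m ∪ e '' (Set.Iic m ×ˢ Set.Iic m)) (by
      refine (mk_union_le _ _).trans ((add_le_add (mk_image_le.trans (hIic m))
        (mk_image_le.trans ?_)).trans (add_eq_self hμ).le)
      rw [mk_setProd]
      exact (mul_le_mul' (hIic m) (hIic m)).trans (mul_eq_self hμ).le)
    exact ⟨u, fun a ha => hu _ (Or.inl ⟨a, ha, rfl⟩), fun a ha c hc => hu _ (Or.inr ⟨(a, c),
      ⟨ha, hc⟩, rfl⟩)⟩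
  choose u hu1 hu2 using hh
  obtain ⟨d, hdS, hdC, hd⟩ := hg (fun w => if hw : ∃ p : L × L, e p = w then
    X hw.choose.1 hw.choose.2 else ∅) u
  refine ⟨d, hdS, fun x hx y E hE1 hE2 => (hb x y E hE1 hE2).trans
    ((hu1 x x le_rfl).trans (hdC x hx)), fun x hx y hy => ?_⟩
  have h1 := hd (e (x, y)) ((hu2 (max x y) x (le_max_left _ _) y (le_max_right _ _)).trans
    (hdC _ (max_lt hx hy)))
  dsimp only
  rw [h1]
  have hw : ∃ p : L × L, e p = e (x, y) := ⟨_, rfl⟩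
  rw [dif_pos hw]
  have h2 := e.injective hw.choose_spec
  rw [h2]

theorem nat_cover {L : Type} [LinearOrder L] (D : NDat L) {X : Type} (F : Finset X) (u : X → L) :
    ∃ (n : ℕ) (s : L → L), ∀ z ∈ F, ∃ i < D.nL n, s i = u z := by
  classical
  have hinj : Function.Injective D.nL := by
    intro m n hmn
    rcases lt_trichotomy m n with h | h | h
    · exact absurd hmn (D.nL_lt m n h).ne
    · exact h
    · exact absurd hmn (D.nL_lt n m h).ne'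
  obtain ⟨l, hl⟩ : ∃ l : List X, l = F.toList := ⟨_, rfl⟩
  refine ⟨l.length, fun x => if h : ∃ i : Fin l.length, D.nL i = x then u (l.get h.choose) else x, ?_⟩
  intro z hz
  have hz' : z ∈ l := by rw [hl]; exact Finset.mem_toList.2 hz
  obtain ⟨i, hi⟩ := List.mem_iff_get.1 hz'
  refine ⟨D.nL i, D.nL_lt _ _ i.2, ?_⟩
  have hex : ∃ i' : Fin l.length, D.nL i' = D.nL i := ⟨i, rfl⟩
  dsimp only
  rw [dif_pos hex]
  have h2 : hex.choose = i := Fin.ext (hinj hex.choose_spec)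
  rw [h2, hi]

/-- **BFrc from the V-level data.** `Q` is any forcing notion with antichains of size `≤ κ⁺ʷ` and few subsets, and
`B z` the conditions which force that `z` belongs to a generic subset of `A`, as in `AdP`. -/
theorem bfrc_of_lad {κ c : Cardinal.{0}} {L A : Type} [LinearOrder L] [LinearOrder A] {S : Set L} {j : L → A → L}
    {b : ℕ → A} {f : A → ℕ → A} {W : L → Set L} (hκ : ℵ₀ ≤ κ) (hLad : LadP κ c L A S j b f W) (hD : DiaP L S)
    {Q : Type} [Preorder Q] (hQ : #(Set Q) ≤ Order.succ (plw κ)) (hcc : CcP Q (Order.succ (plw κ)))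
    {B : A → Set Q} (B_down : ∀ z p q, p ∈ B z → q ≤ p → q ∈ B z)
    (unb : ∀ (z : A) (p : Q), ∃ q ≤ p, ∃ z' > z, q ∈ B z')
    (fin : ∀ (m : ℕ → A) (n₀ : ℕ), (∀ n, m n < b n) → ∀ p : Q, ∃ q ≤ p, ∃ F : Finset A, ∀ z,
      (∀ n ≥ n₀, f z n ≤ m n) → ∀ r ≤ q, r ∈ B z → z ∈ F)
    {M : Type} [LinearOrder M] (D : ADat M) (e : L → M) (he : StrictMono e)
    (her : ∀ x, x < D.l ↔ ∃ a, e a = x) (eb : A → M) (heb : StrictMono eb)
    (hebr : ∀ x, x < D.al 1 ↔ ∃ a, eb a = x) :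
    ∃ Bd g T, BFrc Q D (e '' S) Bd g T := by
  classical
  have hμ : ℵ₀ ≤ plw κ := cb_aleph0_le_plw hκ
  obtain ⟨T0, hT0⟩ := guess_of_dia hμ hLad.otL hD hQ hcc
  -- inverse of e
  have hne : Nonempty L := hLad.otL.nonempty
    (aleph0_pos.trans_le (hμ.trans (Order.le_succ _))).ne'
  obtain ⟨r, hr⟩ : ∃ r : M → L, ∀ a, r (e a) = a :=
    ⟨Function.invFun e, Function.leftInverse_invFun he.injective⟩
  obtain ⟨Bd, hBd⟩ : ∃ Bd : M → M → Set Q, Bd = fun d' x => {q | ∃ z, e (j (r d') z) = x ∧ q ∈ B z} :=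
    ⟨_, rfl⟩
  obtain ⟨g, hg⟩ : ∃ g : M → M → M, g = fun d' x => if h : ∃ z, e (j (r d') z) = x then
    eb h.choose else x := ⟨_, rfl⟩
  have hgz : ∀ d ∈ S, ∀ z, g (e d) (e (j d z)) = eb z := by
    intro d hd z
    rw [hg]
    dsimp only
    rw [hr]
    have hex : ∃ z', e (j d z') = e (j d z) := ⟨z, rfl⟩
    rw [dif_pos hex]
    have h1 := (hLad.mono d hd).injective (he.injective hex.choose_spec)
    rw [h1]
  have hmem : ∀ d ∈ S, ∀ x q, q ∈ Bd (e d) x ↔ ∃ z, e (j d z) = x ∧ q ∈ B z := by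
    intro d _ x q
    rw [hBd]
    dsimp only
    rw [hr]
    rfl
  refine ⟨Bd, g, fun d' x y => T0 (r d') (r x) (r y), ?_, ?_, ?_, ?_, ?_, ?_, ?_⟩
  · rintro _ ⟨d, hd, rfl⟩
    exact (her _).2 ⟨d, rfl⟩
  · rintro _ ⟨d, hd, rfl⟩ x q hq
    obtain ⟨z, rfl, _⟩ := (hmem d hd x q).1 hq
    exact he (hLad.j_lt d hd z)
  · rintro _ ⟨d, hd, rfl⟩ x x' q q' hq hq' hgg
    obtain ⟨z, rfl, _⟩ := (hmem d hd x q).1 hq
    obtain ⟨z', rfl, _⟩ := (hmem d hd x' q').1 hq'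
    rw [hgz d hd, hgz d hd] at hgg
    rw [heb.injective hgg]
  · rintro _ ⟨d, hd, rfl⟩ x q hq
    obtain ⟨z, rfl, _⟩ := (hmem d hd x q).1 hq
    rw [hgz d hd]
    exact (hebr _).2 ⟨z, rfl⟩
  · rintro _ ⟨d, hd, rfl⟩ y hy p
    obtain ⟨z0, rfl⟩ := (hebr y).1 hy
    obtain ⟨q, hq, z, hz, hqz⟩ := unb z0 p
    refine ⟨q, hq, e (j d z), ?_, (hmem d hd _ q).2 ⟨z, rfl, hqz⟩⟩
    rw [hgz d hd]
    exact heb hz
  · rintro _ ⟨d, hd, rfl⟩ _ ⟨d', hd', rfl⟩ hne p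
    have hne' : d ≠ d' := fun h => hne (by rw [h])
    obtain ⟨m, n0, hm, hm2⟩ := hLad.dj d hd d' hd' hne'
    obtain ⟨q, hq, F, hF⟩ := fin m n0 hm p
    obtain ⟨n, s, hs⟩ := nat_cover D.toNDat F (fun z => e (j d z))
    refine ⟨q, hq, n, s, fun x E hE h1 h2 => ?_⟩
    obtain ⟨C, hC, hEC⟩ := h1
    obtain ⟨C', hC', _⟩ := h2
    obtain ⟨z, hz, hCz⟩ := (hmem d hd x C).1 hC
    obtain ⟨z', hz', _⟩ := (hmem d' hd' x C').1 hC'
    have h3 : z ∈ F := by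
      refine hF z (hm2 z ⟨z', he.injective (hz'.trans hz.symm)⟩) E hE (B_down z C E hCz hEC)
    obtain ⟨i, hi, hsi⟩ := hs z h3
    exact ⟨i, hi, hsi.trans hz⟩
  · intro X h
    obtain ⟨d, hd, h1, h2⟩ := hT0 (fun x y => X (e x) (e y)) (fun x y => h (e x) (e y))
    refine ⟨e d, ⟨d, hd, rfl⟩, ?_, ?_⟩
    · intro x hx y hy E hE1 hE2
      obtain ⟨x, rfl⟩ := (her x).1 (hx.trans ((her _).2 ⟨d, rfl⟩))
      obtain ⟨y, rfl⟩ := (her y).1 hy
      refine he (h1 x (he.lt_iff_lt.1 hx) y E hE1 (fun y' hy' => ?_))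
      exact hE2 (e y') ((her _).2 ⟨y', rfl⟩) (fun h' => hy' (he.injective h'))
    · intro x hx y hy E
      obtain ⟨x, rfl⟩ := (her x).1 (hx.trans ((her _).2 ⟨d, rfl⟩))
      obtain ⟨y, rfl⟩ := (her y).1 (hy.trans ((her _).2 ⟨d, rfl⟩))
      have h3 := h2 x (he.lt_iff_lt.1 hx) y (he.lt_iff_lt.1 hy)
      rw [hr, hr, hr, ← h3]

end Pool.Agent.TrI
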