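import Pool.Agent.TrI.CE
import Pool.Agent.SplK.Kc

/-!
MP_33d970_lc, M1: the V-level output in the form `LadP`, with a guessing sequence for functions (`DiaP`).
-/

set_option autoImplicit false

namespace Pool.Agent.TrI

open Cardinal Order Ordinal Set Pool.Agent.Transv Pool.Agent.SplK

/-- Guessing of functions on `L`, at points of `S` which are closed under a given function. -/
def DiaP (L : Type) [LinearOrder L] (S : Set L) : Prop :=
  ∀ Y : Type, Nonempty Y → #Y ≤ #L → ∃ g : L → L → Y, ∀ (y : L → Y) (h : L → L),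
    ∃ d ∈ S, (∀ x < d, h x < d) ∧ ∀ x < d, g d x = y x

theorem oTyp_KK (μ : Cardinal.{0}) : OTyp (KK μ) (Order.succ μ) :=
  ⟨inferInstance, mk_KK, fun a => Order.lt_succ_of_le (mk_Iio_le a)⟩

theorem exists_pt {μ c : Cardinal.{0}} (hc : c ≤ μ) :
    ∃ q : KK μ, OTyp (Set.Iio q) c ∧ ∀ z, z < q ↔ #(Set.Iio z) < c := by
  have hne : {a : KK μ | ¬ #(Set.Iio a) < c}.Nonempty := by
    obtain ⟨q, hq⟩ := exists_mk_Iio (c := c) (lam := Order.succ μ) (Order.lt_succ_of_le hc)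
    exact ⟨q, by
      change ¬ #(Set.Iio q) < c
      rw [hq]; exact lt_irrefl c⟩
  obtain ⟨p, hp, hmin⟩ : ∃ p : KK μ, ¬ #(Set.Iio p) < c ∧ ∀ a < p, #(Set.Iio a) < c := by
    refine ⟨wellFounded_lt.min _ hne, wellFounded_lt.min_mem _ hne, fun a ha => ?_⟩
    by_contra hcon
    exact wellFounded_lt.not_lt_min _ (x := a) hcon ha
  have hiff : ∀ z, z < p ↔ #(Set.Iio z) < c := by
    intro z
    refine ⟨fun h => hmin z h, fun h => ?_⟩
    by_contra hz
    exact hp ((mk_le_mk_of_subset (Set.Iio_subset_Iio (not_lt.1 hz))).trans_lt h)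
  have hset : Set.Iio p = {a : KK μ | #(Set.Iio a) < c} := by
    ext z; exact hiff z
  refine ⟨p, ⟨inferInstance, ?_, ?_⟩, hiff⟩
  · rw [hset]; exact mk_lt_level hc
  · intro a
    rw [ik_iio]
    exact (hiff a.1).1 a.2

theorem exists_lad (gch : GCH0) {κ : Cardinal.{0}} (hκ : κ.IsInaccessible)
    (sc : ∀ Θ : Type, ∃ W : Ultrafilter (Set Θ), NFU κ Θ W) :
    ∃ (c : Cardinal.{0}) (L : Type) (_ : LinearOrder L) (A : Type) (_ : LinearOrder A) (S : Set L)
      (j : L → A → L) (b : ℕ → A) (f : A → ℕ → A) (W : L → Set L),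
      LadP κ c L A S j b f W ∧ DiaP L S := by
  classical
  have hI : Inac κ.ord.ToType := inac_ord hκ
  obtain ⟨stp⟩ := stp_of_inac κ.ord.ToType hI
  have hK : #κ.ord.ToType = κ := mk_ord_toType κ
  obtain ⟨W, hW⟩ := sc (LL κ.ord.ToType)
  have hW' : NFU #κ.ord.ToType (LL κ.ord.ToType) W := by
    rw [hK]; exact hW
  obtain ⟨a, ha, S, j, fb, hL⟩ := exists_ladO (K := κ.ord.ToType) gch hW'
  have hb : ∀ n, ∃ q : KK (plw #(Set.Iio a)), OTyp (Set.Iio q) (pl #(Set.Iio a) n) ∧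
      ∀ z, z < q ↔ #(Set.Iio z) < pl #(Set.Iio a) n := fun n => exists_pt (cb_pl_le_plw _ n)
  choose b hb1 hb2 using hb
  have hlv : ∀ n z, z < b n ↔ Lv #(Set.Iio a) n z := hb2
  have hdia : DiaP (LL κ.ord.ToType) S := by
    intro Y hY hYc
    rw [mk_KK] at hYc
    obtain ⟨g, hg⟩ := hL.dia Y hY hYc
    refine ⟨g, fun y h => ?_⟩
    exact hg y _ (isClub_closure (ce_hμ (K := κ.ord.ToType)) h)
  obtain ⟨g, hg⟩ := hdia (ULift Bool) ⟨⟨true⟩⟩ (by
    rw [mk_KK]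
    exact (Cardinal.mk_le_aleph0).trans ((ce_hμ (K := κ.ord.ToType)).trans (Order.le_succ _)))
  refine ⟨#(Set.Iio a), LL κ.ord.ToType, inferInstance, KK (plw #(Set.Iio a)), inferInstance, S, j,
    b, fb, fun d => {x | g d x = ⟨true⟩}, ⟨?_, oTyp_KK _, inac_card ha, ?_, hb1, ?_, hL.mono,
      hL.below, ?_, ?_, ?_⟩, hdia⟩
  · have h1 : plw #κ.ord.ToType = plw κ := by rw [hK]
    rw [← h1]
    exact oTyp_KK _
  · have h1 := hI.seg a
    rwa [hK] at h1
  · intro z n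
    rw [hlv]; exact hL.lv z n
  · intro g' hg'
    exact hL.dom g' (fun n => (hlv n _).1 (hg' n))
  · intro d hd e he hde
    obtain ⟨m, n0, hm, hm2⟩ := hL.disj d hd e he hde
    exact ⟨m, n0, fun n => (hlv n _).2 (hm n), hm2⟩
  · intro X h
    obtain ⟨d, hd, h1, h2⟩ := hg (fun x => if x ∈ X then ⟨true⟩ else ⟨false⟩) h
    refine ⟨d, hd, h1, fun x hx => ?_⟩
    have h3 := h2 x hx
    change x ∈ X ↔ g d x = ⟨true⟩
    rw [h3]
    by_cases hxX : x ∈ X
    · simp [hxX]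
    · simp [hxX]

end Pool.Agent.TrI
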