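import Pool.Agent.TrI.VDefs2
import Pool.Agent.SplK.Ic
import Pool.Agent.SplK.Kx

/-!
MP_33d970_lc, M1: the Levy collapse `Col(A, < K)`.
-/

set_option autoImplicit false

namespace Pool.Agent.TrI

open Cardinal Order Ordinal Set Pool.Agent.SplK

/-- The Levy collapse: partial functions from `K × A` to `K` with small support and regressive values. -/
structure LCol (K A : Type) [LinearOrder K] where
  fn : K × A → Option K
  small : #{p | fn p ≠ none} < #A
  lt : ∀ a x y, fn (a, x) = some y → y < a

namespace LCol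

variable {K A : Type} [LinearOrder K]

instance : Preorder (LCol K A) where
  le q p := ∀ u y, p.fn u = some y → q.fn u = some y
  le_refl p := fun _ _ h => h
  le_trans p q r h1 h2 := fun u y h => h1 u y (h2 u y h)

theorem le_def {q p : LCol K A} : q ≤ p ↔ ∀ u y, p.fn u = some y → q.fn u = some y := Iff.rfl

theorem ext {q p : LCol K A} (h : q.fn = p.fn) : q = p := by
  cases q; cases p; cases h; rfl

/-- the union of two compatible conditions -/
theorem union_ex [LinearOrder A] {q p : LCol K A} (hA : ℵ₀ ≤ #A)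
    (h : ∀ u y y', p.fn u = some y → q.fn u = some y' → y = y') : ∃ r, r ≤ p ∧ r ≤ q := by
  classical
  refine ⟨⟨fun u => if p.fn u = none then q.fn u else p.fn u, ?_, ?_⟩, ?_, ?_⟩
  · refine lt_of_le_of_lt (mk_le_mk_of_subset (t := {u | p.fn u ≠ none} ∪ {u | q.fn u ≠ none}) ?_) ?_
    · intro u hu
      by_cases hp : p.fn u = none
      · right
        change (if p.fn u = none then q.fn u else p.fn u) ≠ none at hu
        rw [if_pos hp] at hu
        exact hu
      · exact Or.inl hp
    · exact (mk_union_le _ _).trans_lt (add_lt_of_lt hA p.small q.small)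
  · intro a x y hy
    by_cases hp : p.fn (a, x) = none
    · rw [if_pos hp] at hy; exact q.lt a x y hy
    · rw [if_neg hp] at hy; exact p.lt a x y hy
  · intro u y hy
    have hp : ¬ p.fn u = none := by rw [hy]; exact Option.some_ne_none y
    change (if p.fn u = none then q.fn u else p.fn u) = some y
    rw [if_neg hp]; exact hy
  · intro u y hy
    change (if p.fn u = none then q.fn u else p.fn u) = some y
    by_cases hp : p.fn u = none
    · rw [if_pos hp]; exact hy
    · rw [if_neg hp]
      obtain ⟨y', hy'⟩ := Option.ne_none_iff_exists'.1 hp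
      rw [hy', h u y' y hy' hy]

/-- The conditions with support below `b`. -/
def below (b : K) : Set (LCol K A) := {p | ∀ a x, p.fn (a, x) ≠ none → a < b}

/-- restriction -/
noncomputable def res (b : K) (p : LCol K A) : LCol K A := by
  classical
  exact ⟨fun u => if u.1 < b then p.fn u else none, by
    refine lt_of_le_of_lt (mk_le_mk_of_subset ?_) p.small
    intro u hu hn
    apply hu
    split_ifs
    · exact hn
    · rfl, by
    intro a x y hy
    split_ifs at hy
    exact p.lt a x y hy⟩

theorem res_fn (b : K) (p : LCol K A) (u : K × A) [Decidable (u.1 < b)] :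
    (res b p).fn u = if u.1 < b then p.fn u else none := by
  unfold res
  by_cases h : u.1 < b
  · rw [if_pos h]; exact if_pos h
  · rw [if_neg h]; exact if_neg h

theorem le_res (b : K) (p : LCol K A) : p ≤ res b p := by
  classical
  intro u y hy
  rw [res_fn] at hy
  split_ifs at hy
  exact hy

theorem mk_below_lt (hK : Inac K) (hlt : #A < #K) (b : K) : #(below (A := A) b) < #K := by
  classical
  have hI := inac_card hK
  have h1 : #(Set.Iio b × A → Option (Set.Iio b)) < #K := by
    rw [← Cardinal.power_def]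
    refine inac_pow hI ?_ ?_
    · rw [Cardinal.mk_option]
      exact add_lt_of_lt hI.aleph0_lt.le (hK.seg b) (one_lt_aleph0.trans hI.aleph0_lt)
    · rw [← Cardinal.mul_def]
      exact mul_lt_of_lt hI.aleph0_lt.le (hK.seg b) hlt
  refine lt_of_le_of_lt ?_ h1
  refine mk_le_of_injective (f := fun p : below (A := A) b => fun u : Set.Iio b × A =>
    match h : p.1.fn (u.1.1, u.2) with
    | none => none
    | some y => some ⟨y, (p.1.lt _ _ _ h).trans u.1.2⟩) ?_
  intro p q hpq
  apply Subtype.ext
  apply ext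
  funext u
  obtain ⟨a, x⟩ := u
  by_cases ha : a < b
  · have h2 := congrFun hpq (⟨a, ha⟩, x)
    dsimp only at h2
    split at h2
    · rename_i h3
      split at h2
      · rename_i h4
        rw [h3, h4]
      · cases h2
    · rename_i y h3
      split at h2
      · cases h2
      · rename_i y' h4
        rw [h3, h4]
        have h5 := Option.some.inj h2
        rw [Subtype.mk.inj h5]
  · have h3 : p.1.fn (a, x) = none := by
      by_contra h; exact ha (p.2 a x h)
    have h4 : q.1.fn (a, x) = none := by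
      by_contra h; exact ha (q.2 a x h)
    rw [h3, h4]

theorem exists_below (hK : Inac K) (hlt : #A < #K) (p : LCol K A) : ∃ b, p ∈ below b := by
  obtain ⟨b, hb⟩ := hK.reg (Prod.fst '' {u | p.fn u ≠ none})
    (mk_image_le.trans_lt (p.small.trans hlt))
  exact ⟨b, fun a x h => hb a ⟨(a, x), h, rfl⟩⟩

theorem mk_le (hK : Inac K) (hlt : #A < #K) : #(LCol K A) ≤ #K := by
  have h1 : (Set.univ : Set (LCol K A)) ⊆ ⋃ b : K, below b := by
    intro p _
    obtain ⟨b, hb⟩ := exists_below hK hlt p
    exact Set.mem_iUnion.2 ⟨b, hb⟩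
  rw [← mk_univ]
  refine (mk_le_mk_of_subset h1).trans ((mk_iUnion_le _).trans ?_)
  exact (mul_le_mul' le_rfl (ciSup_le' (fun b => (mk_below_lt hK hlt b).le))).trans
    (mul_eq_self hK.unc.le).le

/-- The chain condition. -/
theorem cc [LinearOrder A] (hK : Inac K) (hA : (#A).IsRegular) (hAseg : ∀ a : A, #(Set.Iio a) < #A)
    (hAwf : WellFoundedLT A) (hlt : #A < #K) : CcP (LCol K A) #K := by
  classical
  intro X hX
  have := hK.wf
  have hI := inac_card hK
  have hKne : Nonempty K := by
    rw [← Cardinal.mk_ne_zero_iff]; exact (aleph0_pos.trans hK.unc).ne'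
  have hANe : Nonempty A := by
    rw [← Cardinal.mk_ne_zero_iff]; exact hA.pos.ne'
  -- choice of compatible members of X
  have h1 : ∀ p : LCol K A, ∃ q : LCol K A, (∃ q' ∈ X, ∃ r, r ≤ p ∧ r ≤ q') →
      q ∈ X ∧ ∃ r, r ≤ p ∧ r ≤ q := by
    intro p
    by_cases h : ∃ q' ∈ X, ∃ r, r ≤ p ∧ r ≤ q'
    · obtain ⟨q', h2, h3⟩ := h
      exact ⟨q', fun _ => ⟨h2, h3⟩⟩
    · exact ⟨p, fun h' => absurd h' h⟩
  choose F hF using h1
  -- closure
  have h2 : ∀ b : K, ∃ d, ∀ p ∈ below (A := A) b, F p ∈ below d := by
    intro b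
    choose e he using fun p : LCol K A => exists_below hK hlt (F p)
    obtain ⟨d, hd⟩ := hK.reg (e '' below b) (mk_image_le.trans_lt (mk_below_lt hK hlt b))
    refine ⟨d, fun p hp a x h => ?_⟩
    exact (he p a x h).trans (hd _ ⟨p, hp, rfl⟩)
  choose h hh using h2
  -- a chain of length A
  have h3 : ∀ (i : A) (G : (k : A) → k < i → K), ∃ d, ∀ k (hk : k < i), G k hk < d ∧
      h (G k hk) < d := by
    intro i G
    obtain ⟨d, hd⟩ := hK.reg (Set.range (fun k : Set.Iio i => G k.1 k.2) ∪
      Set.range (fun k : Set.Iio i => h (G k.1 k.2))) (by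
        refine (mk_union_le _ _).trans_lt (add_lt_of_lt hI.aleph0_lt.le ?_ ?_)
        · exact mk_range_le.trans_lt ((hAseg i).trans hlt)
        · exact mk_range_le.trans_lt ((hAseg i).trans hlt))
    exact ⟨d, fun k hk => ⟨hd _ (Or.inl ⟨⟨k, hk⟩, rfl⟩), hd _ (Or.inr ⟨⟨k, hk⟩, rfl⟩)⟩⟩
  choose D hD using h3
  obtain ⟨B, hB⟩ : ∃ B : A → K, ∀ i, B i = D i (fun k _ => B k) :=
    ⟨(wellFounded_lt (α := A)).fix (fun i G => D i G), fun i =>
      (wellFounded_lt (α := A)).fix_eq (fun i G => D i G) i⟩
  have hB2 : ∀ k i, k < i → B k < B i ∧ h (B k) < B i := by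
    intro k i hki
    rw [hB i]
    exact hD i (fun k _ => B k) k hki
  obtain ⟨d0, hd0⟩ := hK.reg (Set.range B) (mk_range_le.trans_lt hlt)
  -- the supremum of the chain
  obtain ⟨b, hb1, hb2⟩ : ∃ b : K, (∀ i, B i < b) ∧ ∀ c < b, ∃ i, c ≤ B i := by
    have hne : {d : K | ∀ i, B i < d}.Nonempty := ⟨d0, fun i => hd0 _ ⟨i, rfl⟩⟩
    refine ⟨wellFounded_lt.min _ hne, wellFounded_lt.min_mem _ hne, fun c hc => ?_⟩
    by_contra hcon
    push Not at hcon
    exact wellFounded_lt.not_lt_min {d : K | ∀ i, B i < d} (x := c) (fun i => hcon i) hc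
  have hAb : ∀ s : Set A, #s < #A → ∃ i, ∀ x ∈ s, x < i := by
    intro s hs
    by_contra hcon
    push Not at hcon
    have h5 : (Set.univ : Set A) ⊆ ⋃ x : s, (Set.Iio x.1 ∪ {x.1}) := by
      intro i _
      obtain ⟨x, hx, hix⟩ := hcon i
      refine Set.mem_iUnion.2 ⟨⟨x, hx⟩, ?_⟩
      rcases lt_or_eq_of_le hix with h6 | h6
      · exact Or.inl h6
      · exact Or.inr h6
    have h6 : #(⋃ x : s, (Set.Iio x.1 ∪ {x.1}) : Set A) < #A := by
      refine (Cardinal.card_iUnion_lt_iff_forall_of_isRegular hA hs).mpr (fun x => ?_)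
      refine (mk_union_le _ _).trans_lt (add_lt_of_lt hA.aleph0_le (hAseg _) ?_)
      rw [mk_singleton]
      exact one_lt_aleph0.trans_le hA.aleph0_le
    have h7 := (mk_le_mk_of_subset h5).trans_lt h6
    rw [mk_univ] at h7
    exact lt_irrefl _ h7
  have hXb : X ⊆ below b := by
    intro q hq
    -- the restriction has support below some `B i`
    obtain ⟨i, hi⟩ : ∃ i, res b q ∈ below (B i) := by
      have h4 : ∀ u : {u : K × A | q.fn u ≠ none}, ∃ i, u.1.1 < b → u.1.1 ≤ B i := by
        intro u
        by_cases hu : u.1.1 < b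
        · obtain ⟨i, hi⟩ := hb2 _ hu
          exact ⟨i, fun _ => hi⟩
        · exact ⟨Classical.arbitrary A, fun h => absurd h hu⟩
      choose g hg using h4
      obtain ⟨i, hi⟩ := hAb (Set.range g) (mk_range_le.trans_lt q.small)
      refine ⟨i, fun a x hax => ?_⟩
      rw [res_fn] at hax
      by_cases hab : a < b
      · rw [if_pos hab] at hax
        exact (hg ⟨(a, x), hax⟩ hab).trans_lt (hB2 _ _ (hi _ ⟨⟨(a, x), hax⟩, rfl⟩)).1
      · rw [if_neg hab] at hax
        exact absurd rfl hax
    have h5 := hF (res b q) ⟨q, hq, q, le_res b q, le_rfl⟩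
    obtain ⟨h6, r, hr1, hr2⟩ := h5
    have h7 : F (res b q) ∈ below b := by
      intro a x hax
      have h8 := hh (B i) (res b q) hi a x hax
      obtain ⟨i', hi'⟩ := hAb {i} (by
        rw [mk_singleton]; exact one_lt_aleph0.trans_le hA.aleph0_le)
      exact (h8.trans (hB2 i i' (hi' i rfl)).2).trans (hb1 i')
    have h8 : F (res b q) = q := by
      by_contra hne
      obtain ⟨r', hr'1, hr'2⟩ := union_ex (q := F (res b q)) (p := q) hA.aleph0_le (by
        intro u y y' hy hy'
        have hu : u.1 < b := h7 u.1 u.2 (by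
          rw [show ((u.1, u.2) : K × A) = u from rfl, hy']; exact Option.some_ne_none _)
        have h9 : (res b q).fn u = some y := by
          rw [res_fn, if_pos hu]; exact hy
        have h10 := hr1 u y h9
        have h11 := hr2 u y' hy'
        rw [h10] at h11
        exact Option.some.inj h11)
      exact hX _ h6 q hq hne r' hr'2 hr'1
    rw [h8] at h7
    exact h7
  exact (mk_le_mk_of_subset hXb).trans_lt (mk_below_lt hK hlt b)

theorem closed (hA : (#A).IsRegular) (ι : Type) (f : ι → LCol K A) (hι : #ι < #A)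
    (hf : ∀ i j, f i ≤ f j ∨ f j ≤ f i) : ∃ m, ∀ i, m ≤ f i := by
  classical
  have hun : ∀ i j u y y', (f i).fn u = some y → (f j).fn u = some y' → y = y' := by
    intro i j u y y' h1 h2
    rcases hf i j with h | h
    · have h3 := h u y' h2
      rw [h1] at h3
      exact Option.some.inj h3
    · have h3 := h u y h1
      rw [h2] at h3
      exact (Option.some.inj h3).symm
  refine ⟨⟨fun u => if h : ∃ i, (f i).fn u ≠ none then (f h.choose).fn u else none, ?_, ?_⟩, ?_⟩
  · refine lt_of_le_of_lt (mk_le_mk_of_subset (t := ⋃ i, {u | (f i).fn u ≠ none}) ?_) ?_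
    · intro u hu
      by_contra hcon
      rw [Set.mem_iUnion] at hcon
      apply hu
      rw [dif_neg]
      exact hcon
    · exact (Cardinal.card_iUnion_lt_iff_forall_of_isRegular hA hι).mpr (fun i => (f i).small)
  · intro a x y hy
    split_ifs at hy with h
    exact (f h.choose).lt a x y hy
  · intro i u y hy
    have h : ∃ i, (f i).fn u ≠ none := ⟨i, by rw [hy]; exact Option.some_ne_none y⟩
    change (if h : ∃ i, (f i).fn u ≠ none then (f h.choose).fn u else none) = some y
    rw [dif_pos h]
    obtain ⟨y', hy'⟩ := Option.ne_none_iff_exists'.1 h.choose_spec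
    rw [hy', hun _ _ u y' y hy' hy]

theorem dense (hA : ℵ₀ ≤ #A) (a : K) (y : K) (hy : y < a) (p : LCol K A) :
    ∃ q ≤ p, ∃ x, q.fn (a, x) = some y := by
  classical
  obtain ⟨x, hx⟩ : ∃ x, p.fn (a, x) = none := by
    by_contra hcon
    push Not at hcon
    have h1 : #A ≤ #{u | p.fn u ≠ none} :=
      mk_le_of_injective (f := fun x => (⟨(a, x), hcon x⟩ : {u | p.fn u ≠ none})) (by
        intro x x' hxx
        have := Subtype.mk.inj hxx
        exact (Prod.mk.inj this).2)
    exact absurd p.small (not_lt.2 h1)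
  refine ⟨⟨fun u => if u = (a, x) then some y else p.fn u, ?_, ?_⟩, ?_, x, ?_⟩
  · refine lt_of_le_of_lt (mk_le_mk_of_subset (t := {u | p.fn u ≠ none} ∪ {(a, x)}) ?_) ?_
    · intro u hu
      by_cases h : u = (a, x)
      · exact Or.inr h
      · left
        change (if u = (a, x) then some y else p.fn u) ≠ none at hu
        rw [if_neg h] at hu
        exact hu
    · refine (mk_union_le _ _).trans_lt (add_lt_of_lt hA p.small ?_)
      rw [mk_singleton]; exact one_lt_aleph0.trans_le hA
  · intro a' x' y' h'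
    split_ifs at h' with h
    · have h1 := (Prod.mk.inj h).1
      rw [h1, ← Option.some.inj h']
      exact hy
    · exact p.lt a' x' y' h'
  · intro u y' hu
    have h1 : u ≠ (a, x) := by
      intro h; rw [h, hx] at hu; cases hu
    change (if u = (a, x) then some y else p.fn u) = some y'
    rw [if_neg h1]; exact hu
  · exact if_pos rfl

end LCol

/-- **The Levy collapse.** -/
theorem colP_LCol {K A : Type} [LinearOrder K] [LinearOrder A] (hK : Inac K) {μ : Cardinal.{0}} (hμ : ℵ₀ ≤ μ)
    (hA : OTyp A (Order.succ μ)) (hlt : #A < #K) : ColP K A (LCol K A) := by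
  have := hA.wf
  have hreg : (#A).IsRegular := by rw [hA.card]; exact Cardinal.isRegular_succ hμ
  have hseg : ∀ a : A, #(Set.Iio a) < #A := fun a => by rw [hA.card]; exact hA.seg a
  refine ⟨LCol.mk_le hK hlt, LCol.cc hK hreg hseg hA.wf hlt, LCol.closed hreg,
    fun a x y => {p | p.fn (a, x) = some y}, ?_, ?_, ?_⟩
  · intro a x y y' r h1 h2
    have h1' : r.fn (a, x) = some y := h1
    have h2' : r.fn (a, x) = some y' := h2
    rw [h1'] at h2'
    exact Option.some.inj h2'
  · intro a x y p q hp hq
    exact hq _ _ hp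
  · intro a y hy p
    exact LCol.dense hreg.aleph0_le a y hy p

noncomputable instance {K A : Type} [LinearOrder K] [Nonempty A] : OrderTop (LCol K A) where
  top := ⟨fun _ => none, by
    have h1 : #{p : K × A | (none : Option K) ≠ none} = 0 := by
      simp
    change #{p : K × A | (none : Option K) ≠ none} < #A
    rw [h1]
    exact (Cardinal.mk_ne_zero_iff.2 ‹_›).bot_lt, fun a x y h => by cases h⟩
  le_top p := fun u y h => by cases h

end Pool.Agent.TrI
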