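import Pool.Agent.H55.Def

set_option autoImplicit false
set_option linter.all false
universe u

/-!
# Composition of definable relations and functions of several variables
-/

namespace Pool.Agent.TrI

open FirstOrder FirstOrder.Language Pool.Agent.H55.ZFU

variable {M : Type u} [DSys M]

theorem dfn_finAll {ι : Type} {n : ℕ} (φ : Fin n → (ι → M) → Prop) (h : ∀ i, Dfn (φ i)) : Dfn (fun v => ∀ i, φ i v) := by
  refine ⟨?_⟩
  have h1 : {v : ι → M | ∀ i, φ i v} = ⋂ i ∈ (Finset.univ : Finset (Fin n)), {v | φ i v} := by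
    ext v
    simp
  rw [h1]
  exact Set.definable_biInter_finset (fun i => (h i).out) _

theorem dfn_compN {ι : Type} {n : ℕ} {φ : (Fin n → M) → Prop} (h : Dfn φ) (t : Fin n → (ι → M) → M) (ht : ∀ i, DFun (t i)) :
    Dfn (fun v => φ (fun i => t i v)) := by
  have h1 : Dfn (fun w : (ι ⊕ Fin n) → M => φ (fun i => w (Sum.inr i))) := Dfn.rename Sum.inr h
  have h2 : Dfn (fun w : (ι ⊕ Fin n) → M => ∀ i : Fin n, w (Sum.inr i) = t i (fun j => w (Sum.inl j))) := by
    refine dfn_finAll _ (fun i => ?_)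
    exact Dfn.rename (fun o : Option ι => o.elim (Sum.inr i) Sum.inl) (ht i).out
  have h3 : Dfn (fun w : (ι ⊕ Fin n) → M => φ (fun i => w (Sum.inr i)) ∧ ∀ i : Fin n, w (Sum.inr i) = t i (fun j => w (Sum.inl j))) :=
    inferInstance
  have h4 := h3.out.image_comp_sumInl_fin n
  refine ⟨?_⟩
  convert h4 using 1
  ext v
  simp only [Set.mem_ofPred_eq, Set.mem_image]
  constructor
  · intro hv
    refine ⟨Sum.elim v (fun i => t i v), ⟨?_, ?_⟩, ?_⟩
    · simpa using hv
    · intro i; simp
    · ext i; simp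
  · rintro ⟨w, ⟨hw1, hw2⟩, rfl⟩
    have : (fun i => t i (w ∘ Sum.inl)) = fun i => w (Sum.inr i) := by
      funext i
      exact (hw2 i).symm
    rw [this]
    exact hw1

theorem dfun_compN {ι : Type} {n : ℕ} {F : (Fin n → M) → M} (h : DFun F) (t : Fin n → (ι → M) → M) (ht : ∀ i, DFun (t i)) :
    DFun (fun v => F (fun i => t i v)) := by
  refine ⟨?_⟩
  have h1 : Dfn (fun v : Fin (n + 1) → M => v 0 = F (fun i => v i.succ)) :=
    Dfn.rename (fun o : Option (Fin n) => o.elim 0 Fin.succ) h.out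
  have h2 := dfn_compN (ι := Option ι) h1 (Fin.cons (fun v => v none) (fun i v => t i (fun j => v (some j)))) (by
    intro i
    refine Fin.cases ?_ (fun i => ?_) i
    · simp only [Fin.cons_zero]; infer_instance
    · simp only [Fin.cons_succ]; exact DFun.rename some (ht i))
  simpa using h2

theorem dfun_comp4 {F : M → M → M → M → M} (h : DFun (fun v : Fin 4 → M => F (v 0) (v 1) (v 2) (v 3))) {ι : Type}
    (a b c d : (ι → M) → M) [ha : DFun a] [hb : DFun b] [hc : DFun c] [hd : DFun d] :
    DFun (fun v => F (a v) (b v) (c v) (d v)) :=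
  dfun_compN h ![a, b, c, d] (by intro i; fin_cases i <;> assumption)

theorem dfun_comp5 {F : M → M → M → M → M → M} (h : DFun (fun v : Fin 5 → M => F (v 0) (v 1) (v 2) (v 3) (v 4))) {ι : Type}
    (a b c d e : (ι → M) → M) [ha : DFun a] [hb : DFun b] [hc : DFun c] [hd : DFun d] [he : DFun e] :
    DFun (fun v => F (a v) (b v) (c v) (d v) (e v)) :=
  dfun_compN h ![a, b, c, d, e] (by intro i; fin_cases i <;> assumption)

theorem dfun_comp6 {F : M → M → M → M → M → M → M}
    (h : DFun (fun v : Fin 6 → M => F (v 0) (v 1) (v 2) (v 3) (v 4) (v 5))) {ι : Type}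
    (a b c d e g : (ι → M) → M) [ha : DFun a] [hb : DFun b] [hc : DFun c] [hd : DFun d] [he : DFun e] [hg : DFun g] :
    DFun (fun v => F (a v) (b v) (c v) (d v) (e v) (g v)) :=
  dfun_compN h ![a, b, c, d, e, g] (by intro i; fin_cases i <;> assumption)

end Pool.Agent.TrI
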