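import Pool.Agent.SplC.FDefs

set_option autoImplicit false
set_option linter.all false

/-!
# Transversals of families of sets, inside a model

All notions are relativized to a structure `(M, E)`: all quantifiers range over `M` and `E` is the membership
relation of the model.
-/

namespace Pool.Agent.TrI

open Pool.Agent.H55.SC Pool.Agent.H55.CS
open Pool.Agent.SplC (IsBij IsCard)

universe u

variable {M : Type u} (E : M → M → Prop)

/-- In the model, `b` is the least cardinal greater than `a`. -/
def IsSuccCard (a b : M) : Prop := IsCard E b ∧ E a b ∧ ∀ c, IsCard E c → E a c → Sub E b c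

/-- In the model, the generalized continuum hypothesis holds, where `w` is the set of natural numbers: the power set of
every infinite cardinal `a` has the cardinality of the least cardinal greater than `a`. -/
def IsGCH (w : M) : Prop := ∀ a b p, IsCard E a → Sub E w a → IsSuccCard E a b → (∀ x, E x p ↔ Sub E x a) →
  ∃ f, IsBij E f b p

/-- In the model, `l` is the cardinal `ℵ_{ω+1}`, where `w` is the set of natural numbers: there is a function `f` on `w`
with `f 0 = w`, `f (n + 1)` the least cardinal greater than `f n`, and `l` is the least cardinal greater than the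
union of the cardinals `f n`. -/
def IsAlephOmegaSucc (w l : M) : Prop := ∃ f b u, IsFun E f w b ∧
  (∀ e y, (∀ z, ¬ E z e) → Rel E f e y → y = w) ∧
  (∀ n m y z, E n w → IsSucc E m n → Rel E f n y → Rel E f m z → IsSuccCard E y z) ∧
  (∀ x, E x u ↔ ∃ n y, Rel E f n y ∧ E x y) ∧ IsSuccCard E u l

/-- In the model, the cardinality of `a` is less than the cardinal `c`. -/
def IsSmaller (a c : M) : Prop := ∃ α f, E α c ∧ IsBij E f α a

/-- In the model, any two distinct members of `F` share fewer than `d` points. -/
def IsDisjBelow (F d : M) : Prop := ∀ a b c, E a F → E b F → a ≠ b → (∀ x, E x c ↔ E x a ∧ E x b) → IsSmaller E c d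

/-- In the model, `d` is the degree of disjunction of `F`: the least cardinal such that any two distinct members of `F`
share fewer than `d` points. -/
def IsDegree (F d : M) : Prop := IsCard E d ∧ IsDisjBelow E F d ∧ ∀ e, IsCard E e → E e d → ¬ IsDisjBelow E F e

/-- In the model, `t` is a `c`-transversal of `F`: it meets each member of `F` in a nonempty set of cardinality less than
`c`. -/
def IsTransversal (F c t : M) : Prop := ∀ a i, E a F → (∀ x, E x i ↔ E x a ∧ E x t) → (∃ x, E x i) ∧ IsSmaller E i c

/-- In the model, the cardinal `m` is good for `(k, d)`: every family of `m` sets, each of cardinality `k`, with degree of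
disjunction `d`, has a `d⁺`-transversal. -/
def IsGoodFor (k d m : M) : Prop := ∀ F f, IsBij E f m F → (∀ a, E a F → ∃ g, IsBij E g k a) → IsDegree E F d →
  ∀ c, IsSuccCard E d c → ∃ t, IsTransversal E F c t

end Pool.Agent.TrI
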