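import Pool.Agent.TrI.UDefs

set_option autoImplicit false
set_option linter.all false

/-!
# G1: natural numbers and pairing functions of a wellordered type
-/

namespace Pool.Agent.TrI

open Cardinal

section
variable (L : Type) [LinearOrder L] [WellFoundedLT L]

/-- The element with index `o`. -/
noncomputable def elG (o : Ordinal.{0}) (h : o < Ordinal.type (α := L) (· < ·)) : L :=
  Ordinal.enum (α := L) (· < ·) ⟨o, h⟩

variable {L}

theorem elG_lt {o o' : Ordinal.{0}} (h : o < Ordinal.type (α := L) (· < ·)) (h' : o' < Ordinal.type (α := L) (· < ·)) :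
    elG L o h < elG L o' h' ↔ o < o' :=
  Ordinal.enum_lt_enum (r := ((· < ·) : L → L → Prop)) (o₁ := ⟨o, h⟩) (o₂ := ⟨o', h'⟩)

theorem elG_surj (x : L) : ∃ o h, elG L o h = x :=
  ⟨Ordinal.typein (α := L) (· < ·) x, Ordinal.typein_lt_type _ x, Ordinal.enum_typein (α := L) (· < ·) x⟩

end

theorem exists_ndat0 {L : Type} [LinearOrder L] [WellFoundedLT L] (h : ℵ₀ < #L) : Nonempty (NDat L) := by
  have h0 : Ordinal.omega0 < Ordinal.type (α := L) (· < ·) := by
    have h1 : (#L).ord ≤ Ordinal.type (α := L) (· < ·) := Cardinal.ord_le_type _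
    refine lt_of_lt_of_le ?_ h1
    rw [Cardinal.lt_ord, Ordinal.card_omega0]
    exact h
  have h1 : ∀ n : ℕ, (n : Ordinal.{0}) < Ordinal.type (α := L) (· < ·) := fun n => (Ordinal.nat_lt_omega0 n).trans h0
  refine ⟨⟨fun n => elG L n (h1 n), elG L _ h0, fun m n hmn => ?_, fun x => ?_⟩⟩
  · rw [elG_lt]
    exact_mod_cast hmn
  · obtain ⟨o, ho, rfl⟩ := elG_surj x
    rw [elG_lt]
    constructor
    · intro h2
      obtain ⟨n, rfl⟩ := Ordinal.lt_omega0.mp h2
      exact ⟨n, rfl⟩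
    · rintro ⟨n, hn⟩
      by_contra h2
      have h3 : (n : Ordinal.{0}) < o := (Ordinal.nat_lt_omega0 n).trans_le (not_lt.mp h2)
      have h4 := (elG_lt (L := L) (h1 n) ho).mpr h3
      rw [hn] at h4
      exact lt_irrefl _ h4

/-- Pairing functions. -/
theorem exists_pairing (L : Type) [LinearOrder L] : ∃ p1 p2 : L → L → L, ∀ i : L, ℵ₀ ≤ #(Set.Iio i) →
    ∀ a < i, ∀ b < i, ∃ x < i, p1 i x = a ∧ p2 i x = b := by
  have h : ∀ i : L, ∃ q1 q2 : L → L, ℵ₀ ≤ #(Set.Iio i) → ∀ a < i, ∀ b < i, ∃ x < i, q1 x = a ∧ q2 x = b := by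
    intro i
    by_cases hi : ℵ₀ ≤ #(Set.Iio i)
    · have h1 : #(Set.Iio i × Set.Iio i) = #(Set.Iio i) := by
        rw [Cardinal.mk_prod, Cardinal.lift_id, Cardinal.mul_eq_self hi]
      obtain ⟨e⟩ := Cardinal.eq.mp h1
      classical
      refine ⟨fun x => if h : x < i then (e.symm ⟨x, h⟩).1.1 else i, fun x => if h : x < i then (e.symm ⟨x, h⟩).2.1 else i,
        fun _ a ha b hb => ?_⟩
      refine ⟨(e (⟨a, ha⟩, ⟨b, hb⟩)).1, (e (⟨a, ha⟩, ⟨b, hb⟩)).2, ?_, ?_⟩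
      · have h2 : (e (⟨a, ha⟩, ⟨b, hb⟩)).1 < i := (e (⟨a, ha⟩, ⟨b, hb⟩)).2
        simp only [h2, dif_pos]
        simp
      · have h2 : (e (⟨a, ha⟩, ⟨b, hb⟩)).1 < i := (e (⟨a, ha⟩, ⟨b, hb⟩)).2
        simp only [h2, dif_pos]
        simp
    · exact ⟨fun _ => i, fun _ => i, fun h => (hi h).elim⟩
  choose p1 p2 hp using h
  exact ⟨p1, p2, hp⟩

end Pool.Agent.TrI
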