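import Pool.Agent.TrI.UDefs

set_option autoImplicit false
set_option linter.all false

/-!
# T3: `PowP` in the model
-/

namespace Pool.Agent.TrI

open FirstOrder FirstOrder.Language Pool.Agent.H55.SC Pool.Agent.H55.ZFU Pool.Agent.H55.Lav Pool.Agent.SplH

variable {Q : Type} [Preorder Q] [OrderTop Q] {L : Type} [LinearOrder L] [WellFoundedLT L]

/-- `q` forces that `X` is the set `z i`. -/
def T3E (a : L) (z : L → L → Set Q) (X : L → Set Q) (q : Q) (i : L) : Prop :=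
  ∀ x < a, ∀ E ≤ q, (FoQ (X x) E ↔ FoQ (z i x) E)

/-- `z` is a name of an enumeration of the power set of `a` by `b`. -/
def T3P (a b : L) (q : Q) (z : L → L → Set Q) : Prop :=
  ∀ (X : L → Set Q), ∀ q' ≤ q, ∃ q'' ≤ q', ∃ i < b, T3E a z X q'' i

theorem fo_of_ht {U : Set Q} {q r : Q} (h : q ∈ U) (hr : r ≤ q) : FoQ U r :=
  fun E' hE' => ⟨E', le_rfl, q, h, hE'.trans hr⟩

theorem tpow_club : ∀ᶠ N in club (Un Q), ∀ (G : Set Q) [Env N G] [LEnv N L] (a b : LN N L), PowP Q a.1 b.1 →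
    Img (lv G b) (pow (lv G a)) := by
  have h0 : ∀ᶠ N in club (Un Q), ∀ a : L, InT N a → ∀ b : L, InT N b → InT N {q : Q | ∃ z, T3P a b q z} :=
    diagT (fun a => diagT (fun b => club_inT _))
  have h1 : ∀ᶠ N in club (Un Q), ∀ a : L, InT N a → ∀ b : L, InT N b → ∀ q : Q, InT N q →
      (∃ z, T3P a b q z) → ∃ z, T3P a b q z ∧ InT N z :=
    diagT (fun a => diagT (fun b => diagT (fun q => u_wit _)))
  have h2 : ∀ᶠ N in club (Un Q), ∀ a : L, InT N a → ∀ b : L, InT N b → ∀ z : L → L → Set Q, InT N z →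
      ∀ X : L → Set Q, InT N X → InT N {q : Q | ∃ i, i < b ∧ T3E a z X q i} :=
    diagT (fun a => diagT (fun b => diagT (fun z => diagT (fun X => club_inT _))))
  have h3 : ∀ᶠ N in club (Un Q), ∀ a : L, InT N a → ∀ b : L, InT N b → ∀ z : L → L → Set Q, InT N z →
      ∀ X : L → Set Q, InT N X → ∀ q : Q, InT N q → (∃ i, i < b ∧ T3E a z X q i) → ∃ i, (i < b ∧ T3E a z X q i) ∧ InT N i :=
    diagT (fun a => diagT (fun b => diagT (fun z => diagT (fun X => diagT (fun q => u_wit _)))))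
  filter_upwards [h0, h1, h2, h3] with N h0 h1 h2 h3 G _ _ a b hab
  have gen : GenF N G := Env.gen
  have qok : QOk N := Env.qok (N := N) (G := G)
  obtain ⟨q, hq, hqc⟩ := gen.gen _ (h0 a.1 a.2 b.1 b.2) (fun p => by
    obtain ⟨q, hq, z, h⟩ := hab p
    exact ⟨q, ⟨z, h⟩, hq⟩)
  obtain ⟨z, hz, hzN⟩ := h1 a.1 a.2 b.1 b.2 q (gen.sub q hq) hqc
  obtain ⟨f, hf⟩ := exists_fam (N := N) (G := G) hzN
  refine ⟨lam (lv G b) (fun x => inter (app f x) (lv G a)), fun Y hY => ?_⟩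
  rw [mem_pow'] at hY
  obtain ⟨S, hS, hdec⟩ := dec1 (N := N) (G := G) (L := L) (fun x => x ∈ Y)
  obtain ⟨q2, hq2, hq2c⟩ := ht_u (h2 a.1 a.2 b.1 b.2 z hzN S hS) hq (fun q' hq' => by
    obtain ⟨q'', h, i, hi, hT⟩ := hz S q' hq'
    exact ⟨q'', h, i, hi, hT⟩)
  obtain ⟨i, ⟨hi, hT⟩, hiN⟩ := h3 a.1 a.2 b.1 b.2 z hzN S hS q2 (gen.sub q2 hq2) hq2c
  have happ : ∀ x : LN N L, InT N (z i x.1) := fun x =>
    (LEnv.iok (N := N) (L := L)).app (z i) (LEnv.sec z hzN i hiN) x.1 x.2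
  have happS : ∀ x : LN N L, InT N (S x.1) := fun x =>
    (LEnv.iok (N := N) (L := L)).app S hS x.1 x.2
  have key : ∀ x : LN N L, x < a → (Ht G (S x.1) ↔ Ht G (z i x.1)) := by
    intro x hx
    constructor
    · rintro ⟨q3, hq3, h4⟩
      obtain ⟨r, hr, hr2, hr3⟩ := gen.dir q2 hq2 q3 hq3
      exact ht_of_fo qok gen (happ x) hr ((hT x.1 hx r hr2).mp (fo_of_ht h4 hr3))
    · rintro ⟨q3, hq3, h4⟩
      obtain ⟨r, hr, hr2, hr3⟩ := gen.dir q2 hq2 q3 hq3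
      exact ht_of_fo qok gen (happS x) hr ((hT x.1 hx r hr2).mpr (fo_of_ht h4 hr3))
  refine ⟨lv G ⟨i, hiN⟩, lv_lt.mpr hi, ?_⟩
  rw [app_lam (lv_lt.mpr hi)]
  apply Pool.Agent.H55.ZFU.ext
  intro w
  rw [mem_inter, hf]
  constructor
  · rintro ⟨⟨k, rfl, hk⟩, h5⟩
    exact (hdec k).mpr ((key k (lv_lt.mp h5)).mpr hk)
  · intro hw
    obtain ⟨k, hk, rfl⟩ := mem_lv.mp (hY w hw)
    exact ⟨⟨k, rfl, (key k hk).mp ((hdec k).mp hw)⟩, hY _ hw⟩

end Pool.Agent.TrI
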