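import Pool.Agent.TrI.G1
import Pool.Agent.TrI.T2
import Pool.Agent.TrI.T3

set_option autoImplicit false
set_option linter.all false

/-!
# G2: cardinal arithmetic of the model for the ordinals of a big type `L`
-/

namespace Pool.Agent.TrI

open Cardinal
open FirstOrder FirstOrder.Language Pool.Agent.H55.SC Pool.Agent.H55.ZFU Pool.Agent.H55.Lav Pool.Agent.SplH

variable {Q : Type} [Preorder Q] [OrderTop Q] {L : Type} [LinearOrder L] [WellFoundedLT L]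

theorem g2_inf (D : NDat L) {i : L} (h : D.om ≤ i) : ℵ₀ ≤ #(Set.Iio i) := by
  rw [Cardinal.aleph0_le_mk_iff, Set.infinite_coe_iff]
  refine (Set.infinite_range_of_injective (f := D.nL) (fun m n h => D.nL_inj h)).mono ?_
  rintro x ⟨n, rfl⟩
  exact (u_lt_om D n).trans_le h

/-- Cardinal arithmetic for one ordinal of the model. -/
def G2P {N : Set (Un Q)} {G : Set Q} [Env N G] (x : MM N G) : Prop :=
  (∃ y, IsOrd y ∧ (∀ c, c ∈ y → Img x c) ∧ Img y (pow x)) ∧ Img x (prod x x)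

theorem g2_club (hL : BigL Q L) (hQ : GchP Q) : ∀ᶠ N in club (Un Q), LEnv N L ∧
    ∀ (G : Set Q) [Env N G] [LEnv N L] (i : LN N L), (omega : MM N G) ⊆ lv G i → G2P (lv G i) := by
  obtain ⟨D⟩ := exists_ndat0 (L := L) hL.inf
  obtain ⟨p1, p2, hp⟩ := exists_pairing L
  have h1 : ∀ᶠ N in club (Un Q), ∀ i : L, InT N i → (∃ j : L, (∀ c < j, ImgP Q i c) ∧ PowP Q i j) →
      ∃ j : L, ((∀ c < j, ImgP Q i c) ∧ PowP Q i j) ∧ InT N j := diagT (fun i => u_wit _)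
  have h2 : ∀ᶠ N in club (Un Q), ∀ i : L, InT N i → ∀ a : L, InT N a → ∀ b : L, InT N b →
      (∃ x, x < i ∧ p1 i x = a ∧ p2 i x = b) → ∃ x, (x < i ∧ p1 i x = a ∧ p2 i x = b) ∧ InT N x :=
    diagT (fun i => diagT (fun a => diagT (fun b => u_wit _)))
  filter_upwards [lenv_club (Q := Q) (L := L), nenv_club (Q := Q) D, timg_club (Q := Q) (L := L), tpow_club (Q := Q) (L := L),
    f4Ok_club (Q := Q) (fun a b _ _ => p1 a b), f4Ok_club (Q := Q) (fun a b _ _ => p2 a b), h1, h2] with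
    N hN hD ht hpw hf1 hf2 h1 h2
  refine ⟨hN, fun G _ _ i hi => ?_⟩
  haveI := hD
  have hom : D.om ≤ i.1 := by
    by_contra h
    have h3 : i < D.omN (N := N) := not_le.mp h
    have h4 : lv G i ∈ (omega : MM N G) := by rw [omega_eq D]; exact lv_lt.mpr h3
    exact (ee_irrefl _ (hi _ h4)).elim
  have hinf := g2_inf D hom
  constructor
  · obtain ⟨j, ⟨hj1, hj2⟩, hjN⟩ := h1 i.1 i.2 (hQ L hL i.1 hinf)
    refine ⟨lv G ⟨j, hjN⟩, lv_ord _, fun c hc => ?_, hpw G i ⟨j, hjN⟩ hj2⟩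
    obtain ⟨c, hc', rfl⟩ := mem_lv.mp hc
    exact ht G i c (hj1 c.1 hc')
  · obtain ⟨g1, hg1⟩ := exists_fn2 (G := G) hf1
    obtain ⟨g2, hg2⟩ := exists_fn2 (G := G) hf2
    refine ⟨lam (lv G i) (fun x => opair (app g1 (opair (lv G i) x)) (app g2 (opair (lv G i) x))), fun y hy => ?_⟩
    obtain ⟨a, ha, b, hb, rfl⟩ := mem_prod.mp hy
    obtain ⟨a, ha', rfl⟩ := mem_lv.mp ha
    obtain ⟨b, hb', rfl⟩ := mem_lv.mp hb
    obtain ⟨x, ⟨hx1, hx2, hx3⟩, hxN⟩ := h2 i.1 i.2 a.1 a.2 b.1 b.2 (hp i.1 hinf a.1 ha' b.1 hb')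
    refine ⟨lv G ⟨x, hxN⟩, lv_lt.mpr hx1, ?_⟩
    rw [app_lam (lv_lt.mpr hx1), hg1, hg2]
    congr 2
    · exact Subtype.ext hx2
    · exact Subtype.ext hx3

end Pool.Agent.TrI
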