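import Pool.Agent.SplH.F1
import Pool.Agent.TrI.FDefs

set_option autoImplicit false
set_option linter.all false
universe u

/-!
# Definitions inside a model of ZFC

`M` is a model (`Model`, `Pure`, `Choice` of Pool/Agent/H55). `Img a b`: `b` is covered by the image of `a` (SplH/IDefs).
-/

namespace Pool.Agent.TrI

open Pool.Agent.H55.ZFU
open Pool.Agent.SplH (Img)

variable {M : Type u} [Model M]

/-- `b` is the least cardinal greater than the ordinal `a`. -/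
structure SuccI (a b : M) : Prop where
  ord : IsOrd b
  mem : a ∈ b
  img : ∀ c, c ∈ b → Img a c
  nimg : ¬ Img a b

variable (M) in
/-- Cardinal arithmetic of the model. -/
structure CArith : Prop where
  gch : ∀ x : M, IsOrd x → omega ⊆ x → ∃ y, IsOrd y ∧ (∀ c, c ∈ y → Img x c) ∧ Img y (pow x)
  pair : ∀ x : M, IsOrd x → omega ⊆ x → Img x (prod x x)

/-- `f` is the sequence of the cardinals `ω_n`, `u = ω_ω`, `l = ω_{ω+1}`. -/
structure UA (f u l : M) : Prop where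
  fn : FnOn f omega
  zero : app f ∅ = omega
  succ : ∀ n, n ∈ (omega : M) → SuccI (app f n) (app f (suc n))
  u_iff : ∀ x, x ∈ u ↔ ∃ n, n ∈ (omega : M) ∧ x ∈ app f n
  u_ord : IsOrd u
  ul : SuccI u l

/-- The function `r` on pairs of ordinals below `l`. -/
structure UR (f l r : M) : Prop where
  mem : ∀ a b, a ∈ b → b ∈ l → app r (opair a b) ∈ (omega : M)
  sub : ∀ a b c n, a ∈ b → b ∈ c → c ∈ l → n ∈ (omega : M) → app r (opair a c) ∈ suc n → app r (opair b c) ∈ suc n →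
    app r (opair a b) ∈ suc n
  size : ∀ b n, b ∈ l → n ∈ (omega : M) → ∃ s : M, ∀ a, a ∈ b → app r (opair a b) ∈ suc n → ∃ x, x ∈ app f n ∧ app s x = a

/-- The sets `B_d` and the guessing sequence `T`; `w1 = ω_1`. -/
structure UB (w1 l S B T : M) : Prop where
  sub : S ⊆ l
  b_sub : ∀ d, d ∈ S → app B d ⊆ d
  inj : ∀ d, d ∈ S → ∃ h : M, (∀ x, x ∈ app B d → app h x ∈ w1) ∧
    (∀ x x', x ∈ app B d → x' ∈ app B d → app h x = app h x' → x = x') ∧ ∀ b, b ∈ w1 → ∃ x, x ∈ app B d ∧ b ∈ app h x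
  fin : ∀ d e, d ∈ S → e ∈ S → d ≠ e → ∃ n, n ∈ (omega : M) ∧ Img n (inter (app B d) (app B e))
  guess : ∀ X h : M, ∃ d, d ∈ S ∧ (∀ x, x ∈ d → app h x ∈ l → app h x ∈ d) ∧
    ∀ x y, x ∈ d → y ∈ d → (opair x y ∈ X ↔ opair x y ∈ app T d)

theorem succI_iff {a b : M} : SuccI a b ↔ IsOrd b ∧ a ∈ b ∧ (∀ c, c ∈ b → Img a c) ∧ ¬ Img a b :=
  ⟨fun h => ⟨h.1, h.2, h.3, h.4⟩, fun h => ⟨h.1, h.2.1, h.2.2.1, h.2.2.2⟩⟩

instance succI_dfn {ι : Type} (t s : (ι → M) → M) [DFun t] [DFun s] : Dfn (fun v => SuccI (t v) (s v)) :=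
  Dfn.comp2 (P := fun a b : M => SuccI a b) (by simp only [succI_iff]; infer_instance) t s

end Pool.Agent.TrI
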