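import Pool.Agent.TrI.IDefs

set_option autoImplicit false
set_option linter.all false
universe u

/-!
# Ia (difficulty 1): the relation `Img`

`Img a b := ∃ s, ∀ y, y ∈ b → ∃ x, x ∈ a ∧ app s x = y` (SplH/IDefs). `img_fn`: `s = lam a F` (`app_lam`; the instance `Fn1` from `inferInstance`). `img_rel`: `s = sep (prod a b) (fun p => R (fst p) (snd p))`: `app s x = y` by `app_eq`
(Func.lean) if `x ∈ a`, `y ∈ b`, `R x y`. `img_inj`: `img_rel` with `R x y := y ∈ b ∧ F y = x`. `img_refl`: `img_fn` with the identity. `img_trans`: `img_fn` with `fun x => app s' (app s x)`. `img_dom`: the same `s`. `img_prod`: `img_fn` on `prod a c` with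
`fun p => opair (app s (fst p)) (app s' (snd p))` (`fst_opair`, `snd_opair`, `mem_prod`). `img_un`: by `img_trans` with `hp` it is enough to cover `un b c` by `prod a a`: `fun p => iteM (fst p = x) (app s (snd p)) (app s' (snd p))`.
-/

namespace Pool.Agent.TrI

open Pool.Agent.H55.SC Pool.Agent.H55.CS Pool.Agent.H55.ZFU
open Pool.Agent.SplH (Img)

variable {M : Type u} [Model M] [Pool.Agent.H55.ZFU.Pure M]

theorem img_mono {a b b' : M} (h : Img a b) (hb : ∀ x, x ∈ b' → x ∈ b) : Img a b' := by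
  obtain ⟨s, hs⟩ := h
  exact ⟨s, fun y hy => hs y (hb y hy)⟩

theorem img_dom {a a' b : M} (h : Img a b) (ha : ∀ x, x ∈ a → x ∈ a') : Img a' b := by
  obtain ⟨s, hs⟩ := h
  refine ⟨s, fun y hy => ?_⟩
  obtain ⟨x, hx, he⟩ := hs y hy
  exact ⟨x, ha x hx, he⟩

theorem img_fn {a b : M} (F : M → M) [Fn1 F] (h : ∀ y, y ∈ b → ∃ x, x ∈ a ∧ F x = y) : Img a b := by
  refine ⟨lam a F, fun y hy => ?_⟩
  obtain ⟨x, hx, he⟩ := h y hy
  exact ⟨x, hx, by rw [app_lam hx, he]⟩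

theorem img_rel {a b : M} (R : M → M → Prop) [Dfn2 R] (hu : ∀ x y y', x ∈ a → y ∈ b → y' ∈ b → R x y → R x y' → y = y')
    (h : ∀ y, y ∈ b → ∃ x, x ∈ a ∧ R x y) : Img a b := by
  have iR : ∀ {ι : Type} (t s : (ι → M) → M) [DFun t] [DFun s], Dfn (fun v => R (t v) (s v)) :=
    fun t s _ _ => Dfn.comp2 (P := R) inferInstance t s
  have i1 : Dfn1 (fun p : M => R (fst p) (snd p)) := iR (fun v : Fin 1 → M => fst (v 0)) (fun v : Fin 1 → M => snd (v 0))
  refine ⟨sep (prod a b) (fun p => R (fst p) (snd p)), fun y hy => ?_⟩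
  obtain ⟨x, hx, hxy⟩ := h y hy
  have hm : ∀ z : M, opair x z ∈ sep (prod a b) (fun p => R (fst p) (snd p)) ↔ z ∈ b ∧ R x z := by
    intro z
    rw [mem_sep, opair_mem_prod, fst_opair, snd_opair]
    exact ⟨fun h => ⟨h.1.2, h.2⟩, fun h => ⟨⟨hx, h.1⟩, h.2⟩⟩
  refine ⟨x, hx, app_eq ⟨y, (hm y).2 ⟨hy, hxy⟩, fun z hz => ?_⟩ ((hm y).2 ⟨hy, hxy⟩)⟩
  exact hu x z y hx ((hm z).1 hz).1 hy ((hm z).1 hz).2 hxy

theorem img_inj {a b : M} (F : M → M) [Fn1 F] (h : ∀ y, y ∈ b → F y ∈ a)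
    (hi : ∀ y y', y ∈ b → y' ∈ b → F y = F y' → y = y') : Img a b := by
  have iF : ∀ {ι : Type} (t : (ι → M) → M) [DFun t], DFun (fun v => F (t v)) := fun t _ => DFun.comp1 (F := F) inferInstance t
  have i1 : Dfn2 (fun x y : M => F y = x) := inferInstance
  refine img_rel (fun x y : M => F y = x) ?_ (fun y hy => ⟨F y, h y hy, rfl⟩)
  intro x y y' _ hy hy' h1 h2
  exact hi y y' hy hy' (h1.trans h2.symm)

theorem img_refl (a : M) : Img a a := by
  exact img_fn (fun x => x) (fun y hy => ⟨y, hy, rfl⟩)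

theorem img_trans {a b c : M} (h : Img a b) (h' : Img b c) : Img a c := by
  obtain ⟨s, hs⟩ := h
  obtain ⟨s', hs'⟩ := h'
  have i1 : Fn1 (fun x : M => app s' (app s x)) := inferInstance
  refine img_fn (fun x : M => app s' (app s x)) (fun y hy => ?_)
  obtain ⟨z, hz, he⟩ := hs' y hy
  obtain ⟨x, hx, he'⟩ := hs z hz
  exact ⟨x, hx, by rw [he', he]⟩

theorem img_img {a b : M} (F : M → M) [Fn1 F] (h : Img a b) : Img a (img b F) := by
  refine img_trans h (img_fn F (fun y hy => ?_))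
  rw [mem_img] at hy
  obtain ⟨x, hx, he⟩ := hy
  exact ⟨x, hx, he.symm⟩

theorem img_prod {a b c d : M} (h : Img a b) (h' : Img c d) : Img (prod a c) (prod b d) := by
  obtain ⟨s, hs⟩ := h
  obtain ⟨s', hs'⟩ := h'
  have i1 : Fn1 (fun p : M => opair (app s (fst p)) (app s' (snd p))) := inferInstance
  refine img_fn (fun p : M => opair (app s (fst p)) (app s' (snd p))) (fun y hy => ?_)
  rw [mem_prod] at hy
  obtain ⟨u, hu, v, hv, rfl⟩ := hy
  obtain ⟨x, hx, he⟩ := hs u hu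
  obtain ⟨x', hx', he'⟩ := hs' v hv
  refine ⟨opair x x', opair_mem_prod.2 ⟨hx, hx'⟩, ?_⟩
  rw [fst_opair, snd_opair, he, he']

theorem img_un {a b c x y : M} (hp : Img a (prod a a)) (hx : x ∈ a) (hy : y ∈ a) (hxy : x ≠ y) (h : Img a b) (h' : Img a c) :
    Img a (un b c) := by
  obtain ⟨s, hs⟩ := h
  obtain ⟨s', hs'⟩ := h'
  refine img_trans hp ?_
  have i1 : Fn1 (fun p : M => iteM (fst p = x) (app s (snd p)) (app s' (snd p))) := inferInstance
  refine img_fn (fun p : M => iteM (fst p = x) (app s (snd p)) (app s' (snd p))) (fun z hz => ?_)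
  rw [mem_un] at hz
  rcases hz with hz | hz
  · obtain ⟨w, hw, he⟩ := hs z hz
    refine ⟨opair x w, opair_mem_prod.2 ⟨hx, hw⟩, ?_⟩
    rw [fst_opair, snd_opair, iteM_pos rfl, he]
  · obtain ⟨w, hw, he⟩ := hs' z hz
    refine ⟨opair y w, opair_mem_prod.2 ⟨hy, hw⟩, ?_⟩
    rw [fst_opair, snd_opair, iteM_neg (fun h => hxy h.symm), he]

end Pool.Agent.TrI
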