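import Pool.Agent.TrI.Ia

set_option autoImplicit false
set_option linter.all false
universe u

/-!
# Ib (difficulty 2): unions of small families

For `x ∈ b` let `Σ x = sep (pow (prod a (F x))) (fun s => ∀ y, y ∈ F x → ∃ z, z ∈ a ∧ app s z = y)`; it is nonempty: if `s` covers `F x` then so does `sep (prod a (F x)) (fun p => app s (fst p) = snd p)`. Choice (`Choice.ac`, H55/Ord) for the set
`img b (fun x => Σ x)` gives `c` with `app c (Σ x) ∈ Σ x`. Let `e` cover `b` from `a`. Then `prod a a` covers the union by `fun p => app (app c (Σ (app e (fst p)))) (snd p)`; `img_trans hp`.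
-/

namespace Pool.Agent.TrI

open Pool.Agent.H55.SC Pool.Agent.H55.CS Pool.Agent.H55.ZFU
open Pool.Agent.SplH (Img)

variable {M : Type u} [Model M] [Pool.Agent.H55.ZFU.Pure M] [Choice M]

theorem img_bigU {a b : M} (F : M → M) [hF : Fn1 F] (hp : Img a (prod a a)) (hb : Img a b) (h : ∀ x, x ∈ b → Img a (F x)) :
    Img a (bigU (img b F)) := by
  have iF : ∀ {ι : Type} (t : (ι → M) → M) [DFun t], DFun (fun v => F (t v)) := fun t _ => DFun.comp1 (F := F) hF t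
  obtain ⟨G, hG⟩ : ∃ G : M → M, G = fun x => sep (pow (prod a (F x))) (fun s => ∀ y, y ∈ F x → ∃ z, z ∈ a ∧ app s z = y) :=
    ⟨_, rfl⟩
  have iG : Fn1 G := by rw [hG]; infer_instance
  have iG' : ∀ {ι : Type} (t : (ι → M) → M) [DFun t], DFun (fun v => G (t v)) := fun t _ => DFun.comp1 (F := G) iG t
  have hGm : ∀ x s : M, s ∈ G x ↔ s ⊆ prod a (F x) ∧ ∀ y, y ∈ F x → ∃ z, z ∈ a ∧ app s z = y := by
    intro x s
    rw [hG]
    show s ∈ sep (pow (prod a (F x))) (fun s => ∀ y, y ∈ F x → ∃ z, z ∈ a ∧ app s z = y) ↔ _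
    rw [mem_sep, mem_pow']
  have hne : ∀ x, x ∈ b → ∃ s, s ∈ G x := by
    intro x hx
    obtain ⟨s, hs⟩ := h x hx
    have i2 : Dfn1 (fun p : M => app s (fst p) = snd p) := inferInstance
    have hm : ∀ z y : M, opair z y ∈ sep (prod a (F x)) (fun p => app s (fst p) = snd p) ↔ (z ∈ a ∧ y ∈ F x) ∧ app s z = y := by
      intro z y
      rw [mem_sep, opair_mem_prod, fst_opair, snd_opair]
    refine ⟨sep (prod a (F x)) (fun p => app s (fst p) = snd p), (hGm x _).2 ⟨fun p hp => (mem_sep.1 hp).1, fun y hy => ?_⟩⟩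
    obtain ⟨z, hz, he⟩ := hs y hy
    refine ⟨z, hz, app_eq ⟨y, (hm z y).2 ⟨⟨hz, hy⟩, he⟩, fun w hw => ?_⟩ ((hm z y).2 ⟨⟨hz, hy⟩, he⟩)⟩
    exact ((hm z w).1 hw).2.symm.trans he
  obtain ⟨c, hc⟩ := Choice.ac (img b G)
  obtain ⟨e, he⟩ := hb
  refine img_trans hp ?_
  have i3 : Fn1 (fun p : M => app (app c (G (app e (fst p)))) (snd p)) := inferInstance
  refine img_fn (fun p : M => app (app c (G (app e (fst p)))) (snd p)) (fun y hy => ?_)
  rw [mem_bigU] at hy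
  obtain ⟨u, hu, hyu⟩ := hy
  rw [mem_img] at hu
  obtain ⟨x, hx, rfl⟩ := hu
  obtain ⟨z, hz, hzx⟩ := he x hx
  have h1 : app c (G x) ∈ G x := hc (G x) (mem_img.2 ⟨x, hx, rfl⟩) (hne x hx)
  obtain ⟨w, hw, hwy⟩ := ((hGm x _).1 h1).2 y hyu
  refine ⟨opair z w, opair_mem_prod.2 ⟨hz, hw⟩, ?_⟩
  rw [fst_opair, snd_opair, hzx, hwy]

end Pool.Agent.TrI
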