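import Pool.Agent.TrI.Ia

set_option autoImplicit false
set_option linter.all false
universe u

/-!
# Ic (difficulty 2): natural numbers of the model

`nat_nimg` (pigeonhole): by `omega_induction` on `n` the statement `∀ m, m ∈ n → ¬ Img m n` (definable: state it with `Dfn1` instance by `inferInstance`). Step: `m ∈ suc n`, `s` covers `suc n` from `m`. `m = ∅`: impossible. `m = suc m'` (`omega_cases`), `m' ∈ n`. Let
`z ∈ suc m'` with `app s z = n`. The function `x ↦ iteM (app s x = n) (app s m') (app s x)` on `m'` covers `n`: for `y ∈ n` take `x ∈ suc m'` with `app s x = y`; if `x ∈ m'` it works; if `x = m'` then `app s m' = y ≠ n`, so `z ∈ m'` and `z` works. Contradiction to the induction hypothesis.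
`omega_nimg`: `Img m omega` gives `Img m (suc m)` (`img_mono`), against `nat_nimg` for `n = suc m`.
`card_omega`, `card_nat`: from these (`surj_img`, `isOrdinal_iff` of SplH/F1). `fin_sing`, `fin_un`: if `Img m x`, `Img n y` (`m n ∈ omega`) then some natural number covers `un x y`: by `omega_induction` on `n` (for fixed `m`, `x`: for all `y`): if `Img (suc n) y` by `s`, then with
`y' = img n (app s)` we have `y ⊆ un y' (sing (app s n))`; so it is enough to add one point: if `Img k z` then `Img (suc k) (un z (sing p))`: `img_fn` with `fun x => iteM (x = k) p (app s x)`.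
-/

namespace Pool.Agent.TrI

open Pool.Agent.H55.SC Pool.Agent.H55.CS Pool.Agent.H55.ZFU
open Pool.Agent.SplH (Img isOrdinal_iff isSurj_iff isBij_iff surj_img)
open Pool.Agent.SplC (IsBij IsCard)

variable {M : Type u} [Model M] [Pool.Agent.H55.ZFU.Pure M]

theorem nat_nimg {n : M} (hn : n ∈ (omega : M)) : ∀ m, m ∈ n → ¬ Img m n := by
  refine omega_induction (fun n : M => ∀ m, m ∈ n → ¬ Img m n) ?_ ?_ n hn
  · intro m hm; simp at hm
  · intro n hn ih m hm himg
    have hsn : suc n ∈ (omega : M) := suc_mem_omega hn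
    have hmo : m ∈ (omega : M) := omega_trans _ hsn m hm
    obtain ⟨s, hs⟩ := himg
    rcases omega_cases hmo with rfl | ⟨m', hm', rfl⟩
    · obtain ⟨x, hx, _⟩ := hs n (by simp)
      simp at hx
    · have hm'n : m' ∈ n := by
        rw [mem_suc] at hm
        rcases hm with h1 | h1
        · exact nat_trans hn _ h1 m' (by simp)
        · rw [← h1]; simp
      obtain ⟨z, hz, hzn⟩ := hs n (by simp)
      apply ih m' hm'n
      have i1 : Fn1 (fun x : M => iteM (app s x = n) (app s m') (app s x)) := inferInstance
      refine img_fn (fun x : M => iteM (app s x = n) (app s m') (app s x)) (fun y hy => ?_)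
      have hyn : y ≠ n := by
        rintro rfl
        exact not_mem_self _ hy
      obtain ⟨x, hx, hxy⟩ := hs y (by rw [mem_suc]; exact Or.inl hy)
      rw [mem_suc] at hx
      rcases hx with hx | rfl
      · exact ⟨x, hx, by rw [iteM_neg (by rw [hxy]; exact hyn), hxy]⟩
      · rw [mem_suc] at hz
        rcases hz with hz | rfl
        · exact ⟨z, hz, by rw [iteM_pos hzn, hxy]⟩
        · exact absurd (hxy.symm.trans hzn) hyn

theorem omega_nimg {m : M} (hm : m ∈ (omega : M)) : ¬ Img m (omega : M) := by
  intro h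
  refine nat_nimg (suc_mem_omega hm) m (by simp) (img_mono h (fun x hx => ?_))
  exact omega_trans _ (suc_mem_omega hm) x hx

theorem card_nat {n : M} (hn : n ∈ (omega : M)) : IsCard Model.E n := by
  refine ⟨isOrdinal_iff.2 (nat_ord hn), fun α f hα hf => ?_⟩
  exact nat_nimg hn α hα (surj_img hf)

theorem card_omega : IsCard Model.E (omega : M) := by
  refine ⟨isOrdinal_iff.2 omega_ord, fun α f hα hf => ?_⟩
  exact omega_nimg hα (surj_img hf)

theorem img_add {k z p : M} (hk : k ∈ (omega : M)) (h : Img k z) : Img (suc k) (un z (sing p)) := by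
  obtain ⟨s, hs⟩ := h
  have i1 : Fn1 (fun x : M => iteM (x = k) p (app s x)) := inferInstance
  refine img_fn (fun x : M => iteM (x = k) p (app s x)) (fun y hy => ?_)
  rw [mem_un, mem_sing] at hy
  rcases hy with hy | rfl
  · obtain ⟨x, hx, he⟩ := hs y hy
    refine ⟨x, by rw [mem_suc]; exact Or.inl hx, ?_⟩
    rw [iteM_neg, he]
    rintro rfl
    exact not_mem_self _ hx
  · exact ⟨k, by simp, iteM_pos rfl _ _⟩

theorem fin_un {m n x y : M} (hm : m ∈ (omega : M)) (hn : n ∈ (omega : M)) (h : Img m x) (h' : Img n y) :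
    ∃ k, k ∈ (omega : M) ∧ Img k (un x y) := by
  have key : ∀ n, n ∈ (omega : M) → ∀ y, Img n y → ∃ k, k ∈ (omega : M) ∧ Img k (un x y) := by
    refine omega_induction (fun n : M => ∀ y, Img n y → ∃ k, k ∈ (omega : M) ∧ Img k (un x y)) ?_ ?_
    · intro y hy
      refine ⟨m, hm, img_mono h (fun z hz => ?_)⟩
      rw [mem_un] at hz
      rcases hz with hz | hz
      · exact hz
      · obtain ⟨s, hs⟩ := hy
        obtain ⟨t, ht, _⟩ := hs z hz
        simp at ht
    · intro n hn ih y hy
      obtain ⟨s, hs⟩ := hy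
      have i1 : Fn1 (fun t : M => app s t) := inferInstance
      obtain ⟨k, hk, hk'⟩ := ih (img n (fun t : M => app s t)) (img_fn (fun t : M => app s t) (fun y hy => by
        rw [mem_img] at hy
        obtain ⟨t, ht, he⟩ := hy
        exact ⟨t, ht, he.symm⟩))
      refine ⟨suc k, suc_mem_omega hk, img_mono (img_add (p := app s n) hk hk') (fun z hz => ?_)⟩
      rw [mem_un] at hz
      rw [mem_un, mem_un, mem_sing, mem_img]
      rcases hz with hz | hz
      · exact Or.inl (Or.inl hz)
      · obtain ⟨t, ht, he⟩ := hs z hz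
        rw [mem_suc] at ht
        rcases ht with ht | rfl
        · exact Or.inl (Or.inr ⟨t, ht, he.symm⟩)
        · exact Or.inr he.symm
  exact key n hn y h'

/-- A finite set of natural numbers is bounded. -/
theorem fin_bdd {m x : M} (hm : m ∈ (omega : M)) (h : Img m x) (hx : x ⊆ (omega : M)) :
    ∃ k, k ∈ (omega : M) ∧ ∀ y, y ∈ x → y ∈ k := by
  have key : ∀ m, m ∈ (omega : M) → ∀ x, Img m x → x ⊆ (omega : M) → ∃ k, k ∈ (omega : M) ∧ ∀ y, y ∈ x → y ∈ k := by
    refine omega_induction (fun m : M => ∀ x, Img m x → x ⊆ (omega : M) → ∃ k, k ∈ (omega : M) ∧ ∀ y, y ∈ x → y ∈ k) ?_ ?_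
    · intro x hx _
      refine ⟨∅, by simp, fun y hy => ?_⟩
      obtain ⟨s, hs⟩ := hx
      obtain ⟨t, ht, _⟩ := hs y hy
      simp at ht
    · intro m hm ih x hx hxo
      obtain ⟨s, hs⟩ := hx
      have i1 : Dfn1 (fun y : M => ∃ t, t ∈ m ∧ app s t = y) := inferInstance
      obtain ⟨k, hk, hk'⟩ := ih (sep x (fun y : M => ∃ t, t ∈ m ∧ app s t = y)) ⟨s, fun y hy => (mem_sep.1 hy).2⟩
        (fun y hy => hxo y (mem_sep.1 hy).1)
      have hcase : ∀ y, y ∈ x → y ∈ k ∨ y = app s m := by
        intro y hy
        obtain ⟨t, ht, he⟩ := hs y hy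
        rw [mem_suc] at ht
        rcases ht with ht | rfl
        · exact Or.inl (hk' y (mem_sep.2 ⟨hy, t, ht, he⟩))
        · exact Or.inr he.symm
      by_cases hq : app s m ∈ (omega : M)
      · have hsq : suc (app s m) ∈ (omega : M) := suc_mem_omega hq
        rcases ord_tri k (nat_ord hk) (suc (app s m)) (nat_ord hsq) with h1 | h1 | h1
        · refine ⟨suc (app s m), hsq, fun y hy => ?_⟩
          rcases hcase y hy with h2 | rfl
          · exact nat_trans hsq k h1 y h2
          · simp
        · refine ⟨suc (app s m), hsq, fun y hy => ?_⟩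
          rcases hcase y hy with h2 | rfl
          · rw [← h1]; exact h2
          · simp
        · refine ⟨k, hk, fun y hy => ?_⟩
          rcases hcase y hy with h2 | rfl
          · exact h2
          · exact nat_trans hk _ h1 _ (by simp)
      · refine ⟨k, hk, fun y hy => ?_⟩
        rcases hcase y hy with h2 | rfl
        · exact h2
        · exact absurd (hxo _ hy) hq
  exact key m hm x h hx

end Pool.Agent.TrI
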