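import Pool.Agent.TrI.Ic

set_option autoImplicit false
set_option linter.all false
universe u

/-!
# Id (difficulty 2): cardinals of the model

`exists_card`: `wellorder x` (H55/Ord) gives an ordinal `θ` and a bijection `θ → x`. Let `c` be the least ordinal (`least_ord`) with `∃ f, FnOn f c ∧ (∀ i, i ∈ c → app f i ∈ x) ∧ injective ∧ onto`. `IsCard c`: if `α ∈ c` and `f : α → c` is onto, then `Img α x`; choose the least preimages:
`x' = {i ∈ α | ∀ j ∈ i, app g j ≠ app g i}` is mapped bijectively to `x`; a subset `x'` of the ordinal `α` has a wellorder with an ordinal `θ' ⊆ α`?? Simpler: from `Img α c` (`α ∈ c`) get an injection `c → α`: `y ↦ mu (fun i => i ∈ α ∧ app s i = y)`, and the inclusion `α → c` is injective,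
so by `csb` (SplH/F1) there is a bijection `α → c`; compose with the bijection `c → x`: contradiction to the minimality of `c`.
`bij_of_inj`: `Img a b` with an ordinal `a` and an injection `G` from `a` to `b` give a bijection: `csb` with `lam a G` and `y ↦ mu (fun x => x ∈ a ∧ app s x = y)` (`mu_spec`, Seq.lean; see SplH/F3 for the same argument).
`succCard_iff`: `→`: for `c ∈ b` take the cardinal `c0` of `c` (`exists_card`); not `a ∈ c0` (else `b ⊆ c0`, so `Img`.. `c ∈ c0`; but there is a bijection of `c0` with `c ∈ c0`, against `IsCard c0`: a surjection from `c` to `c0`); so `c0 ⊆ a` (`ord_not_mem`), `Img a c0` and `Img c0 c`.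
`¬ Img a b`: `IsCard b` with `img_surj` (SplH/F1). `←`: `IsCard b`: if `α ∈ b` and `f : α → b` onto then `Img a α`, `Img α b`, so `Img a b`. Minimality: if `IsCard c`, `a ∈ c` and not `b ⊆ c` then `c ∈ b`, `Img a c`, against `IsCard c`.
`smaller_succ`: `→`: trivial. `←`: cardinal `c0` of `x` (`exists_card`); `c0 ∈ c`: else `c ⊆ c0`, `Img c0 x` and `Img a x` give (with the bijection) `Img a c0`, `Img a c`. `smaller_omega` in the same way with `omega_nimg`. `smaller_nat`.
-/

namespace Pool.Agent.TrI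

open Pool.Agent.H55.SC Pool.Agent.H55.CS Pool.Agent.H55.ZFU
open Pool.Agent.SplH (Img isOrdinal_iff isSurj_iff isBij_iff surj_img img_surj csb)
open Pool.Agent.SplC (IsBij IsCard)

variable {M : Type u} [Model M] [Pool.Agent.H55.ZFU.Pure M] [Choice M]

theorem id_bij {a b : M} (ha : IsOrd a) (h : Img a b) (g : M) (hg : ∀ x, x ∈ a → app g x ∈ b)
    (hi : ∀ x x', x ∈ a → x' ∈ a → app g x = app g x' → x = x') : ∃ f : M, IsBij Model.E f a b := by
  obtain ⟨s, hs⟩ := h
  have i1 : Fn1 (fun y : M => mu (fun x : M => x ∈ a ∧ app s x = y)) := inferInstance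
  have key : ∀ y : M, y ∈ b → mu (fun x : M => x ∈ a ∧ app s x = y) ∈ a ∧
      app s (mu (fun x : M => x ∈ a ∧ app s x = y)) = y := by
    intro y hy
    obtain ⟨x, hx, hxy⟩ := hs y hy
    exact (mu_spec (fun x : M => x ∈ a ∧ app s x = y) ⟨x, ha.mem hx, hx, hxy⟩).2.1
  refine csb (f := g) (g := lam b (fun y : M => mu (fun x : M => x ∈ a ∧ app s x = y))) hg hi ?_ ?_
  · intro y hy
    rw [app_lam hy]
    exact (key y hy).1
  · intro y y' hy hy' he
    rw [app_lam hy, app_lam hy'] at he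
    rw [← (key y hy).2, he, (key y' hy').2]

theorem id_inv {a b f : M} (h : IsBij Model.E f a b) : Img b a := by
  have h1 := isBij_iff.1 h
  exact img_inj (fun x : M => app f x) h1.2.1 h1.2.2.2

theorem id_img {a b f : M} (h : IsBij Model.E f a b) : Img a b := ⟨f, (isBij_iff.1 h).2.2.1⟩

theorem exists_card (x : M) : ∃ c f : M, IsCard Model.E c ∧ IsBij Model.E f c x := by
  obtain ⟨θ, f, hθ, hf, h1, h2, h3⟩ := wellorder x
  have i1 : Dfn1 (fun c : M => ∃ f : M, FnOn f c ∧ (∀ i : M, i ∈ c → app f i ∈ x) ∧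
      (∀ y : M, y ∈ x → ∃ i : M, i ∈ c ∧ app f i = y) ∧
      ∀ i j : M, i ∈ c → j ∈ c → app f i = app f j → i = j) := inferInstance
  obtain ⟨c, hc, ⟨f', hf'⟩, hmin⟩ := least_ord (fun c : M => ∃ f : M, FnOn f c ∧ (∀ i : M, i ∈ c → app f i ∈ x) ∧
      (∀ y : M, y ∈ x → ∃ i : M, i ∈ c ∧ app f i = y) ∧
      ∀ i j : M, i ∈ c → j ∈ c → app f i = app f j → i = j) ⟨θ, hθ, f, hf, h1, h3, h2⟩
  refine ⟨c, f', ⟨isOrdinal_iff.2 hc, fun α s hα hs => ?_⟩, isBij_iff.2 hf'⟩
  have hα' : α ∈ c := hα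
  have h4 : Img α c := surj_img hs
  obtain ⟨e, he⟩ := id_bij (hc.mem hα') h4 (lam α (fun x : M => x)) (by
    intro y hy
    rw [app_lam hy]
    exact hc.sub hα' y hy) (by
    intro y y' hy hy' h5
    rw [app_lam hy, app_lam hy'] at h5
    exact h5)
  have he' := isBij_iff.1 he
  have i2 : Fn1 (fun i : M => app f' (app e i)) := inferInstance
  have h6 : c ⊆ α := by
    refine hmin α (hc.mem hα') ⟨lam α (fun i : M => app f' (app e i)), lam_fnOn _ _, ?_, ?_, ?_⟩
    · intro i hi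
      rw [app_lam hi]
      exact hf'.2.1 _ (he'.2.1 i hi)
    · intro y hy
      obtain ⟨j, hj, hjy⟩ := hf'.2.2.1 y hy
      obtain ⟨i, hi, hij⟩ := he'.2.2.1 j hj
      exact ⟨i, hi, by rw [app_lam hi, hij, hjy]⟩
    · intro i j hi hj h7
      rw [app_lam hi, app_lam hj] at h7
      exact he'.2.2.2 i j hi hj (hf'.2.2.2 _ _ (he'.2.1 i hi) (he'.2.1 j hj) h7)
  exact not_mem_self α (h6 α hα')

theorem card_nimg {c : M} (h : IsCard Model.E c) : IsOrd c ∧ ∀ α, α ∈ c → ¬ Img α c := by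
  refine ⟨isOrdinal_iff.1 h.1, fun α hα h1 => ?_⟩
  obtain ⟨f, hf⟩ := img_surj h1 hα
  exact h.2 α f hα hf

theorem bij_of_inj {a b : M} (ha : IsOrd a) (h : Img a b) (G : M → M) [Fn1 G] (hG : ∀ x, x ∈ a → G x ∈ b)
    (hi : ∀ x x', x ∈ a → x' ∈ a → G x = G x' → x = x') : ∃ f : M, IsBij Model.E f a b := by
  refine id_bij ha h (lam a G) ?_ ?_
  · intro x hx
    rw [app_lam hx]
    exact hG x hx
  · intro x x' hx hx' he
    rw [app_lam hx, app_lam hx'] at he
    exact hi x x' hx hx' he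

theorem succCard_iff {a b : M} : IsSuccCard Model.E a b ↔ SuccI a b := by
  constructor
  · rintro ⟨hb, hab, hmin⟩
    obtain ⟨hbo, hbn⟩ := card_nimg hb
    refine ⟨hbo, hab, fun c hc => ?_, hbn a hab⟩
    obtain ⟨c0, f, hc0, hf⟩ := exists_card c
    obtain ⟨hc0o, hc0n⟩ := card_nimg hc0
    by_cases h1 : a ∈ c0
    · have h2 : c ∈ c0 := hmin c0 hc0 h1 c hc
      exact absurd (id_inv hf) (hc0n c h2)
    · have h2 : c0 ⊆ a := ord_not_mem (hbo.mem hab) hc0o h1
      exact img_trans (img_mono (img_refl a) h2) (id_img hf)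
  · intro h
    refine ⟨⟨isOrdinal_iff.2 h.ord, fun α f hα hf => h.nimg (img_trans (h.img α hα) (surj_img hf))⟩, h.mem, ?_⟩
    intro c hc hac
    obtain ⟨hco, hcn⟩ := card_nimg hc
    have h1 : c ∉ b := fun h2 => hcn a hac (h.img c h2)
    exact ord_not_mem hco h.ord h1

theorem smaller_succ {a c x : M} (h : SuccI a c) : IsSmaller Model.E x c ↔ Img a x := by
  constructor
  · rintro ⟨α, f, hα, hf⟩
    exact img_trans (h.img α hα) (id_img hf)
  · intro h1
    obtain ⟨c0, f, hc0, hf⟩ := exists_card x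
    refine ⟨c0, f, ?_, hf⟩
    by_contra h2
    have h3 : c ⊆ c0 := ord_not_mem (card_nimg hc0).1 h.ord h2
    exact h.nimg (img_trans h1 (img_mono (id_inv hf) h3))

theorem smaller_omega {x : M} : IsSmaller Model.E x (omega : M) ↔ ∃ n, n ∈ (omega : M) ∧ Img n x := by
  constructor
  · rintro ⟨α, f, hα, hf⟩
    exact ⟨α, hα, id_img hf⟩
  · rintro ⟨n, hn, h1⟩
    obtain ⟨c0, f, hc0, hf⟩ := exists_card x
    refine ⟨c0, f, ?_, hf⟩
    by_contra h2
    have h3 : (omega : M) ⊆ c0 := ord_not_mem (card_nimg hc0).1 omega_ord h2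
    exact omega_nimg hn (img_trans h1 (img_mono (id_inv hf) h3))

theorem smaller_nat {n x : M} (hn : n ∈ (omega : M)) (h : IsSmaller Model.E x n) : ∃ m, m ∈ n ∧ Img m x := by
  obtain ⟨α, f, hα, hf⟩ := h
  exact ⟨α, hα, id_img hf⟩

end Pool.Agent.TrI
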