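import Pool.Agent.TrI.Ib
import Pool.Agent.TrI.Id

set_option autoImplicit false
set_option linter.all false
universe u

/-!
# Ie (difficulty 2): regularity of successor cardinals; the cardinals `ω_n`

`reg_succ`: let `β = bigU (img a (fun x => suc (app s x)))`: an ordinal (`ord_bigU`, `ord_suc`), `app s x ∈ β` for `x ∈ a`. All elements of `β` belong to `b` (`app s x ∈ b`, `b` transitive). So `β ∈ b` or `β = b` (`ord_tri`, `not_mem_mem`). If `β = b` then `Img a b` by `img_bigU`
(`Img a (suc (app s x))`: `app s x ∈ b`, so `Img a (app s x)`, and `suc (app s x) = un (app s x) (sing (app s x))`: `img_un`, or: `suc (app s x) ∈ b ∨ suc (app s x) = b`...): contradiction to `SuccI.nimg`. Here `x0 ≠ y0` are two elements of `a` (`∅`, `suc ∅` of `omega ⊆ a`).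
The lemmas on `UA f u l`: by `omega_induction` on `n`: `IsOrd (app f n)`, `omega ⊆ app f n`; `fn_mem`: `m ∈ n → app f m ∈ app f n` (induction on `n`). `fn_u`: `app f n ∈ u`: `app f n ∈ app f (suc n) ⊆ u`. `pow_fn`: `hC.gch (app f n)` gives `y` with `∀ c ∈ y, Img (app f n) c`, `Img y (pow (app f n))`; `y ⊆ app f (suc n)`, since
otherwise `app f (suc n) ∈ y` or `= y`.. (`ord_tri`): `app f (suc n) ∈ y` contradicts `nimg`; `img_dom`. `reg_l`: `reg_succ` for `u`, extended to domains `a ⊆ u`: the function `lam u (fun x => iteM (x ∈ a) (app s x) ∅)`.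
-/

namespace Pool.Agent.TrI

open Pool.Agent.H55.SC Pool.Agent.H55.CS Pool.Agent.H55.ZFU
open Pool.Agent.SplH (Img)

variable {M : Type u} [Model M] [Pool.Agent.H55.ZFU.Pure M] [Choice M]

theorem reg_succ {a b : M} (hω : (omega : M) ⊆ a) (hp : Img a (prod a a)) (h : SuccI a b) (s : M) (hs : ∀ x, x ∈ a → app s x ∈ b) :
    ∃ β, β ∈ b ∧ ∀ x, x ∈ a → app s x ∈ β := by
  have i1 : Fn1 (fun x : M => suc (app s x)) := inferInstance
  have h0 : (∅ : M) ∈ a := hω _ empty_mem_omega
  have h1 : suc (∅ : M) ∈ a := hω _ (suc_mem_omega empty_mem_omega)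
  have hβ : IsOrd (bigU (img a (fun x : M => suc (app s x)))) := by
    apply ord_bigU
    intro c hc
    rw [mem_img] at hc
    obtain ⟨x, hx, rfl⟩ := hc
    exact ord_suc (h.ord.mem (hs x hx))
  have hmem : ∀ x : M, x ∈ a → app s x ∈ bigU (img a (fun x : M => suc (app s x))) := by
    intro x hx
    rw [mem_bigU]
    exact ⟨suc (app s x), mem_img.2 ⟨x, hx, rfl⟩, by rw [mem_suc]; exact Or.inr rfl⟩
  have hsub : ∀ y : M, y ∈ bigU (img a (fun x : M => suc (app s x))) → y ∈ b := by
    intro y hy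
    rw [mem_bigU] at hy
    obtain ⟨c, hc, hyc⟩ := hy
    rw [mem_img] at hc
    obtain ⟨x, hx, rfl⟩ := hc
    rw [mem_suc] at hyc
    rcases hyc with hyc | rfl
    · exact h.ord.sub (hs x hx) y hyc
    · exact hs x hx
  rcases ord_tri _ hβ b h.ord with h2 | h2 | h2
  · exact ⟨_, h2, hmem⟩
  · exfalso
    apply h.nimg
    rw [← h2]
    refine img_bigU (fun x : M => suc (app s x)) hp (img_refl a) ?_
    intro x hx
    have h3 : Img a (sing (app s x)) := by
      have i2 : Fn1 (fun _ : M => app s x) := inferInstance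
      refine img_fn (fun _ : M => app s x) ?_
      intro y hy
      rw [mem_sing] at hy
      exact ⟨∅, h0, hy.symm⟩
    have h4 : Img a (un (app s x) (sing (app s x))) :=
      img_un hp h1 h0 (suc_ne_empty ∅) (h.img _ (hs x hx)) h3
    exact h4
  · exact absurd (hsub b h2) (not_mem_self b)

variable {f u l : M}

theorem fn_ord (hA : UA f u l) {n : M} (hn : n ∈ (omega : M)) : IsOrd (app f n) := by
  refine omega_induction (fun n : M => IsOrd (app f n)) ?_ ?_ n hn
  · show IsOrd (app f ∅)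
    rw [hA.zero]
    exact omega_ord
  · intro n hn _
    exact (hA.succ n hn).ord

theorem fn_om (hA : UA f u l) {n : M} (hn : n ∈ (omega : M)) : (omega : M) ⊆ app f n := by
  refine omega_induction (fun n : M => (omega : M) ⊆ app f n) ?_ ?_ n hn
  · show (omega : M) ⊆ app f ∅
    rw [hA.zero]
    exact Sub.refl _
  · intro n hn ih
    exact Sub.trans ih ((hA.succ n hn).ord.sub (hA.succ n hn).mem)

theorem fn_mem (hA : UA f u l) {m n : M} (hn : n ∈ (omega : M)) (hm : m ∈ n) : app f m ∈ app f n := by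
  have h1 : ∀ m : M, m ∈ n → app f m ∈ app f n := by
    refine omega_induction (fun n : M => ∀ m : M, m ∈ n → app f m ∈ app f n) ?_ ?_ n hn
    · intro m hm
      exact (not_mem_empty m hm).elim
    · intro n hn ih m hm
      rw [mem_suc] at hm
      rcases hm with hm | rfl
      · exact (hA.succ n hn).ord.sub (hA.succ n hn).mem _ (ih m hm)
      · exact (hA.succ m hn).mem
  exact h1 m hm

theorem fn_u (hA : UA f u l) {n : M} (hn : n ∈ (omega : M)) : app f n ∈ u :=
  (hA.u_iff _).2 ⟨suc n, suc_mem_omega hn, (hA.succ n hn).mem⟩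

theorem om_u (hA : UA f u l) : (omega : M) ∈ u := by
  have h1 := fn_u hA (empty_mem_omega (M := M))
  rw [hA.zero] at h1
  exact h1

theorem pair_u (hC : CArith M) (hA : UA f u l) : Img u (prod u u) :=
  hC.pair u hA.u_ord (hA.u_ord.sub (om_u hA))

theorem pow_fn (hC : CArith M) (hA : UA f u l) {n : M} (hn : n ∈ (omega : M)) : Img (app f (suc n)) (pow (app f n)) := by
  obtain ⟨y, hy, h1, h2⟩ := hC.gch (app f n) (fn_ord hA hn) (fn_om hA hn)
  have h3 : app f (suc n) ∉ y := fun h4 => (hA.succ n hn).nimg (h1 _ h4)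
  exact img_dom h2 (ord_not_mem (hA.succ n hn).ord hy h3)

theorem reg_l (hC : CArith M) (hA : UA f u l) {a : M} (ha : a ⊆ u) (s : M) (hs : ∀ x, x ∈ a → app s x ∈ l) :
    ∃ β, β ∈ l ∧ ∀ x, x ∈ a → app s x ∈ β := by
  have hωu : (omega : M) ⊆ u := hA.u_ord.sub (om_u hA)
  have h0 : (∅ : M) ∈ l := hA.ul.ord.sub hA.ul.mem _ (hωu _ empty_mem_omega)
  have i1 : Fn1 (fun x : M => iteM (x ∈ a) (app s x) ∅) := inferInstance
  obtain ⟨β, hβ, h1⟩ := reg_succ hωu (pair_u hC hA) hA.ul (lam u (fun x : M => iteM (x ∈ a) (app s x) ∅)) (by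
    intro x hx
    rw [app_lam hx]
    by_cases h2 : x ∈ a
    · rw [iteM_pos h2]
      exact hs x h2
    · rw [iteM_neg h2]
      exact h0)
  refine ⟨β, hβ, fun x hx => ?_⟩
  have h2 := h1 x (ha x hx)
  rw [app_lam (ha x hx), iteM_pos hx] at h2
  exact h2

/-- `ω` does not map onto an unbounded subset of `ω_1`. -/
theorem reg_one (hC : CArith M) (hA : UA f u l) (s : M) (hs : ∀ x, x ∈ (omega : M) → app s x ∈ app f (suc ∅)) :
    ∃ β, β ∈ app f (suc ∅) ∧ ∀ x, x ∈ (omega : M) → app s x ∈ β := by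
  have h1 := hA.succ ∅ empty_mem_omega
  rw [hA.zero] at h1
  exact reg_succ (Sub.refl _) (hC.pair omega omega_ord (Sub.refl _)) h1 s hs

end Pool.Agent.TrI
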