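import Pool.Agent.TrI.Ie

set_option autoImplicit false
set_option linter.all false
universe u

/-!
# R1 (difficulty 3): uncountable sets of ordinals below `l`

`two_pts`: by recursion (`exists_rec`, H55/Rec, as in the proof of `wellorder`) there is `Gf : M → M`, `Fn1`, with `Gf i = mu (fun x => x ∈ I ∧ ∀ j, j ∈ i → Gf j ∈ x)` for all `i`. Claim, by `omega_induction` on `i` (`i ∈ omega`): (a) `∀ x ∈ I, (∀ j ∈ i, Gf j ∈ x) ∨ ∃ j ∈ i, x = Gf j`; hence
(b) there is `x ∈ I` with `∀ j ∈ i, Gf j ∈ x` (otherwise `Img i I`, so `Img omega I`), so `Gf i ∈ I`, `∀ j ∈ i, Gf j ∈ Gf i` and `Gf i` is the least such element (`mu_spec`). Step for (a): if `∀ j ∈ i, Gf j ∈ x` then `Gf i ⊆ x`, so `Gf i ∈ x` or `x = Gf i`.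
`K = img omega Gf`. `I` is not covered by `un K (un (sing η) (sing g1))` (it would be countable: `img_un`, `hC.pair`), so there are different `g1, g2 ∈ I`, not in `K`, different from `η`; by (a) all `Gf i` belong to `g1` and to `g2`. Let `g` be the smaller and `ξ` the larger one
(`ord_tri`). If `Img m (inter I g)` then (`Gf` is injective on `omega`, with values in `inter I g`; `img_inj`..) `Img m omega`, against `omega_nimg`.
`exists_delta`: `wellorder I`: ordinal `θ`, bijection `e : θ → I`; `app f (suc ∅) ⊆ θ` (otherwise `θ ∈ app f (suc ∅)`, `Img omega θ`, `Img omega I`); `reg_l` for `a = app f (suc ∅) ⊆ u` and `e` gives `δ ∈ l` with `app e i ∈ δ` for `i ∈ app f (suc ∅)`; if `Img omega (inter I δ)` then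
`Img omega (app f (suc ∅))` (`img_inj` with `app e`, `img_trans`), against `SuccI.nimg` (`hA.succ ∅`, `hA.zero`).
`exists_level`: `I` is the union of `I_n = sep I (fun x => app r (opair x δ) ∈ suc n)`, `n ∈ omega` (`hR.mem`, `x ∈ δ`): if all are countable then so is `I` (`img_bigU` for `a = b = omega`).
-/

namespace Pool.Agent.TrI

open Pool.Agent.H55.SC Pool.Agent.H55.CS Pool.Agent.H55.ZFU
open Pool.Agent.SplH (Img)

variable {M : Type u} [Model M] [Pool.Agent.H55.ZFU.Pure M] [Choice M]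

theorem two_pts (hC : CArith M) {I η : M} (hI : ∀ x, x ∈ I → IsOrd x) (hu : ¬ Img (omega : M) I) :
    ∃ g ξ, g ∈ I ∧ ξ ∈ I ∧ g ∈ ξ ∧ ξ ≠ η ∧ ∀ m, m ∈ (omega : M) → ¬ Img m (inter I g) := by
  obtain ⟨F0, hF0, hF0'⟩ := exists_rec (M := M) (fun p x g => mu (fun y => y ∈ I ∧ ∀ j, j ∈ x → app g j ∈ y))
  have h1 : Fn1 (fun y => F0 ∅ y) := DFun.comp2 hF0 (fun _ => ∅) (fun v => v 0)
  obtain ⟨F, hF⟩ : ∃ F : M → M, F = fun y => F0 ∅ y := ⟨_, rfl⟩
  have iF : Fn1 F := by rw [hF]; exact h1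
  have iF' : ∀ {ι : Type} (t : (ι → M) → M) [DFun t], DFun (fun v => F (t v)) := fun t => DFun.comp1 iF t
  have hFeq : ∀ x, F x = mu (fun y => y ∈ I ∧ ∀ j, j ∈ x → F j ∈ y) := by
    intro x
    have h2 : F x = mu (fun y => y ∈ I ∧ ∀ j, j ∈ x → app (lam x F) j ∈ y) := by
      rw [hF]
      exact hF0' ∅ x
    rw [h2]
    congr 1
    funext y
    apply propext
    constructor
    · rintro ⟨h3, h4⟩
      exact ⟨h3, fun j hj => by have := h4 j hj; rwa [app_lam hj] at this⟩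
    · rintro ⟨h3, h4⟩
      exact ⟨h3, fun j hj => by rw [app_lam hj]; exact h4 j hj⟩
  have hspec : ∀ i, (∃ x, x ∈ I ∧ ∀ j, j ∈ i → F j ∈ x) →
      F i ∈ I ∧ (∀ j, j ∈ i → F j ∈ F i) ∧ ∀ x, x ∈ I → (∀ j, j ∈ i → F j ∈ x) → F i ⊆ x := by
    rintro i ⟨x, hx, hx'⟩
    have h2 := mu_spec (fun y => y ∈ I ∧ ∀ j, j ∈ i → F j ∈ y) ⟨x, hI x hx, hx, hx'⟩
    rw [← hFeq i] at h2
    exact ⟨h2.2.1.1, h2.2.1.2, fun x hx hx' => h2.2.2 x (hI x hx) ⟨hx, hx'⟩⟩
  have hA : ∀ i, i ∈ (omega : M) → ∀ x, x ∈ I → (∀ j, j ∈ i → F j ∈ x) ∨ ∃ j, j ∈ i ∧ x = F j := by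
    refine omega_induction (fun i => ∀ x, x ∈ I → (∀ j, j ∈ i → F j ∈ x) ∨ ∃ j, j ∈ i ∧ x = F j) ?_ ?_
    · intro x _
      exact Or.inl (fun j hj => by simp at hj)
    · intro i hi ih x hx
      rcases ih x hx with h2 | ⟨j, hj, he⟩
      · obtain ⟨h3, _, h5⟩ := hspec i ⟨x, hx, h2⟩
        rcases (ord_sub_iff (hI _ h3) (hI _ hx)).1 (h5 x hx h2) with h6 | h6
        · left
          intro j hj
          rcases mem_suc.1 hj with hj | rfl
          · exact h2 j hj
          · exact h6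
        · exact Or.inr ⟨i, mem_suc.2 (Or.inr rfl), h6.symm⟩
      · exact Or.inr ⟨j, mem_suc.2 (Or.inl hj), he⟩
  have hB : ∀ i, i ∈ (omega : M) → ∃ x, x ∈ I ∧ ∀ j, j ∈ i → F j ∈ x := by
    intro i hi
    by_contra hcon
    apply hu
    have h2 : Img i I := by
      refine img_fn F ?_
      intro y hy
      rcases hA i hi y hy with h3 | ⟨j, hj, he⟩
      · exact absurd ⟨y, hy, h3⟩ hcon
      · exact ⟨j, hj, he.symm⟩
    exact img_dom h2 (fun x hx => nat_mem_omega hi hx)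
  have hpair : Img (omega : M) (prod (omega : M) omega) := hC.pair omega omega_ord (Sub.refl _)
  have h01 : (∅ : M) ≠ suc ∅ := (suc_ne_empty _).symm
  have h0 : (∅ : M) ∈ (omega : M) := empty_mem_omega
  have h1o : (suc ∅ : M) ∈ (omega : M) := suc_mem_omega empty_mem_omega
  have hK : Img (omega : M) (img (omega : M) F) := by
    refine img_fn F ?_
    intro y hy
    rw [mem_img] at hy
    obtain ⟨x, hx, he⟩ := hy
    exact ⟨x, hx, he.symm⟩
  have hsing : ∀ p : M, Img (omega : M) (sing p) := by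
    intro p
    refine img_fn (fun _ => p) ?_
    intro y hy
    exact ⟨∅, h0, (mem_sing.1 hy).symm⟩
  have hex : ∀ p q : M, ∃ x, x ∈ I ∧ x ∉ img (omega : M) F ∧ x ≠ p ∧ x ≠ q := by
    intro p q
    by_contra hcon
    push Not at hcon
    apply hu
    refine img_mono (img_un hpair h0 h1o h01 hK (img_un hpair h0 h1o h01 (hsing p) (hsing q))) ?_
    intro x hx
    rw [mem_un, mem_un, mem_sing, mem_sing]
    by_cases h2 : x ∈ img (omega : M) F
    · exact Or.inl h2
    · by_cases h3 : x = p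
      · exact Or.inr (Or.inl h3)
      · exact Or.inr (Or.inr (hcon x hx h2 h3))
  have habove : ∀ g, g ∈ I → g ∉ img (omega : M) F → ∀ m, m ∈ (omega : M) → ¬ Img m (inter I g) := by
    intro g hg hgK m hm hcon
    have h2 : ∀ i, i ∈ (omega : M) → F i ∈ g := by
      intro i hi
      rcases hA (suc i) (suc_mem_omega hi) g hg with h3 | ⟨j, hj, he⟩
      · exact h3 i (mem_suc.2 (Or.inr rfl))
      · exact absurd (mem_img.2 ⟨j, nat_mem_omega (suc_mem_omega hi) hj, he⟩) hgK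
    apply omega_nimg hm
    refine img_trans hcon ?_
    refine img_inj F ?_ ?_
    · intro i hi
      exact mem_inter.2 ⟨(hspec i (hB i hi)).1, h2 i hi⟩
    · intro i j hi hj he
      rcases nat_tri hi hj with h3 | h3 | h3
      · have h4 := (hspec j (hB j hj)).2.1 i h3
        rw [he] at h4
        exact (not_mem_self _ h4).elim
      · exact h3
      · have h4 := (hspec i (hB i hi)).2.1 j h3
        rw [he] at h4
        exact (not_mem_self _ h4).elim
  obtain ⟨g1, hg1, hg1K, hg1η, _⟩ := hex η η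
  obtain ⟨g2, hg2, hg2K, hg2η, hg21⟩ := hex η g1
  rcases ord_tri g1 (hI _ hg1) g2 (hI _ hg2) with h2 | h2 | h2
  · exact ⟨g1, g2, hg1, hg2, h2, hg2η, habove g1 hg1 hg1K⟩
  · exact absurd h2.symm hg21
  · exact ⟨g2, g1, hg2, hg1, h2, hg1η, habove g2 hg2 hg2K⟩

variable {f u l r : M}

theorem exists_delta (hC : CArith M) (hA : UA f u l) {I : M} (hI : I ⊆ l) (hu : ¬ Img (omega : M) I) :
    ∃ δ, δ ∈ l ∧ ¬ Img (omega : M) (inter I δ) := by
  obtain ⟨θ, e, hθ, hfn, he1, he2, he3⟩ := wellorder I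
  have hs := hA.succ ∅ empty_mem_omega
  rw [hA.zero] at hs
  have h1 : app f (suc ∅) ⊆ θ := by
    apply ord_not_mem hθ hs.ord
    intro h2
    exact hu (img_trans (hs.img θ h2) ⟨e, he3⟩)
  have h2 : app f (suc ∅) ⊆ u := by
    intro x hx
    exact (hA.u_iff x).2 ⟨suc ∅, suc_mem_omega empty_mem_omega, hx⟩
  obtain ⟨δ, hδ, hδ'⟩ := reg_l hC hA h2 e (fun x hx => hI _ (he1 x (h1 x hx)))
  refine ⟨δ, hδ, ?_⟩
  intro hcon
  apply hs.nimg
  refine img_trans hcon ?_
  refine img_inj (fun x => app e x) ?_ ?_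
  · intro y hy
    exact mem_inter.2 ⟨he1 y (h1 y hy), hδ' y hy⟩
  · intro y y' hy hy' hyy
    exact he2 y y' (h1 y hy) (h1 y' hy') hyy

theorem exists_level (hC : CArith M) (hR : UR f l r) {I δ : M} (hδ : δ ∈ l) (hI : I ⊆ δ) (hu : ¬ Img (omega : M) I) :
    ∃ n, n ∈ (omega : M) ∧ ¬ Img (omega : M) (sep I (fun x => app r (opair x δ) ∈ suc n)) := by
  by_contra hcon
  push Not at hcon
  apply hu
  have h1 : Img (omega : M) (bigU (img (omega : M) (fun n => sep I (fun x => app r (opair x δ) ∈ suc n)))) := by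
    refine img_bigU (fun n => sep I (fun x => app r (opair x δ) ∈ suc n)) (hC.pair omega omega_ord (Sub.refl _)) (img_refl _) ?_
    intro n hn
    exact hcon n hn
  refine img_mono h1 ?_
  intro x hx
  have h2 := hR.mem x δ (hI x hx) hδ
  rw [mem_bigU]
  refine ⟨_, mem_img.2 ⟨_, h2, rfl⟩, ?_⟩
  exact mem_sep.2 ⟨hx, mem_suc.2 (Or.inr rfl)⟩

end Pool.Agent.TrI
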