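import Pool.Agent.TrI.R3
import Pool.Agent.TrI.R1

set_option autoImplicit false
set_option linter.all false
universe u

/-!
# K1 (difficulty 2): bounds for the family

Block K: `ℵ_{ω+1}` is good for `(k, ℵ_0)`, `ω < k ≤ ℵ_ω`. `A` is a function on `l`, `app A ξ ⊆ l`. `Yd ξ`: the dead indices at stage `suc ξ` for the identity function (`R3`), and the points of `app A ζ`, `ζ ∈ suc ξ`. `Clsd c`: `Yd ξ ⊆ c` for all `ξ ∈ c`.
`idF_app`: `app_lam`. `bdd_l`: let `s` cover `X` from `u`; `∅ ∈ l` (`hA`: `omega ∈ u ∈ l`); the function `lam u (fun x => iteM (app s x ∈ X) (app s x) ∅)` maps `u` into `l`; `reg_l` (Ie) with `a = u`. `yd_sub`: `mem_dead`, `hsub` (`x ∈ suc ξ → x ∈ l`, `hA.ul.ord`). `suc_l`: `suc ξ ∈ l` for `ξ ∈ l`: otherwise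
`l = suc ξ` (`ord_suc`, `ord_tri`), but `Img u ξ`, so `Img u (suc ξ)` (`img_un`, `pair_u`, as in Ie), against `hA.ul.nimg`. `yd_img`: `dead_img` (R3) for `suc ξ ∈ l`, and `img_bigU` (Ib) with `Img u (suc ξ)` (`hA.ul.img`); `img_un` with `∅ ≠ suc ∅` in `u`. `yd_mono`: `mem_dead` is monotone in `ξ`
(`g ∈ suc ξ → g ∈ suc ξ'` if `ξ ∈ ξ'` and `ξ'` is an ordinal).
-/

namespace Pool.Agent.TrI

open Pool.Agent.H55.SC Pool.Agent.H55.CS Pool.Agent.H55.ZFU
open Pool.Agent.SplH (Img)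
open Pool.Agent.SplC (IsBij IsCard)

variable {M : Type u} [Model M]

/-- The transversals which exist for short families of sets of cardinality `k`. -/
structure UK (l k : M) : Prop where
  tr : ∀ c I A : M, c ∈ l → I ⊆ c → (∀ e, e ∈ I → app A e ⊆ c ∧ ∃ g, IsBij Model.E g k (app A e)) →
    (∀ e e', e ∈ I → e' ∈ I → e ≠ e' → ∃ n, n ∈ (omega : M) ∧ Img n (inter (app A e) (app A e'))) →
    ∃ T : M, ∀ e, e ∈ I → (∃ y, y ∈ app A e ∧ y ∈ T) ∧ Img (omega : M) (inter (app A e) T)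

/-- The identity function on `l`. -/
noncomputable def idF (l : M) : M := lam l (fun x => x)

instance idF_dfun {ι : Type} (l : (ι → M) → M) [DFun l] : DFun (fun v => idF (l v)) :=
  DFun.comp1 (F := idF) (by unfold idF; infer_instance) l

/-- The ordinals by which `ξ` has to be closed. -/
noncomputable def Yd (l r A ξ : M) : M := un (Dead l r A (idF l) (suc ξ)) (bigU (img (suc ξ) (fun x => app A x)))

instance yd_dfun {ι : Type} (l r A ξ : (ι → M) → M) [DFun l] [DFun r] [DFun A] [DFun ξ] :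
    DFun (fun v => Yd (l v) (r v) (A v) (ξ v)) :=
  dfun_comp4 (F := Yd) (by unfold Yd; infer_instance) l r A ξ

/-- `c` is closed. -/
def Clsd (l r A c : M) : Prop := ∀ ξ, ξ ∈ c → ∀ x, x ∈ Yd l r A ξ → x ∈ c

instance clsd_dfn {ι : Type} (l r A c : (ι → M) → M) [DFun l] [DFun r] [DFun A] [DFun c] :
    Dfn (fun v => Clsd (l v) (r v) (A v) (c v)) :=
  dfn_compN (φ := fun w : Fin 4 → M => Clsd (w 0) (w 1) (w 2) (w 3)) (by unfold Clsd; infer_instance) ![l, r, A, c]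
    (by intro i; fin_cases i <;> assumption)

theorem mem_yd {l r A ξ x : M} : x ∈ Yd l r A ξ ↔ x ∈ Dead l r A (idF l) (suc ξ) ∨ ∃ ζ, ζ ∈ suc ξ ∧ x ∈ app A ζ := by
  have i1 : Fn1 (fun x : M => app A x) := inferInstance
  unfold Yd
  rw [mem_un, mem_bigU]
  constructor
  · rintro (h | ⟨y, hy, hx⟩)
    · exact Or.inl h
    · rw [mem_img] at hy
      obtain ⟨ζ, hζ, rfl⟩ := hy
      exact Or.inr ⟨ζ, hζ, hx⟩
  · rintro (h | ⟨ζ, hζ, hx⟩)
    · exact Or.inl h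
    · exact Or.inr ⟨app A ζ, mem_img.2 ⟨ζ, hζ, rfl⟩, hx⟩

theorem idF_app {l x : M} (hx : x ∈ l) : app (idF l) x = x := by
  have i1 : Fn1 (fun x : M => x) := inferInstance
  unfold idF
  exact app_lam hx

variable [Pool.Agent.H55.ZFU.Pure M] [Choice M] {f u l r A : M}

theorem zero_l (hA : UA f u l) : (∅ : M) ∈ l :=
  hA.ul.ord.sub (hA.ul.ord.sub hA.ul.mem _ (om_u hA)) _ empty_mem_omega

theorem suc_l (hC : CArith M) (hA : UA f u l) {ξ : M} (hξ : ξ ∈ l) : suc ξ ∈ l := by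
  have hωu : (omega : M) ⊆ u := hA.u_ord.sub (om_u hA)
  have h0 : (∅ : M) ∈ u := hωu _ empty_mem_omega
  have h1 : suc (∅ : M) ∈ u := hωu _ (suc_mem_omega empty_mem_omega)
  rcases ord_tri _ (ord_suc (hA.ul.ord.mem hξ)) l hA.ul.ord with h2 | h2 | h2
  · exact h2
  · exfalso
    apply hA.ul.nimg
    rw [← h2]
    have h3 : Img u (sing ξ) := by
      have i2 : Fn1 (fun _ : M => ξ) := inferInstance
      refine img_fn (fun _ : M => ξ) ?_
      intro y hy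
      rw [mem_sing] at hy
      exact ⟨∅, h0, hy.symm⟩
    have h4 : Img u (un ξ (sing ξ)) := img_un (pair_u hC hA) h1 h0 (suc_ne_empty ∅) (hA.ul.img _ hξ) h3
    exact h4
  · exfalso
    rw [mem_suc] at h2
    rcases h2 with h2 | h2
    · exact not_mem_self l (hA.ul.ord.sub hξ l h2)
    · rw [← h2] at hξ
      exact not_mem_self l hξ

theorem bdd_l (hC : CArith M) (hA : UA f u l) {X : M} (hX : X ⊆ l) (h : Img u X) : ∃ β, β ∈ l ∧ ∀ x, x ∈ X → x ∈ β := by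
  obtain ⟨s, hs⟩ := h
  have i1 : Fn1 (fun x : M => iteM (app s x ∈ X) (app s x) ∅) := inferInstance
  obtain ⟨β, hβ, h1⟩ := reg_l hC hA (Sub.refl u) (lam u (fun x : M => iteM (app s x ∈ X) (app s x) ∅)) (by
    intro x hx
    rw [app_lam hx]
    by_cases h2 : app s x ∈ X
    · rw [iteM_pos h2]
      exact hX _ h2
    · rw [iteM_neg h2]
      exact zero_l hA)
  refine ⟨β, hβ, fun y hy => ?_⟩
  obtain ⟨x, hx, hxy⟩ := hs y hy
  have h2 := h1 x hx
  rw [app_lam hx] at h2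
  have h3 : app s x ∈ X := by rw [hxy]; exact hy
  rw [iteM_pos h3, hxy] at h2
  exact h2

theorem yd_sub (hC : CArith M) (hA : UA f u l) (hsub : ∀ ξ, ξ ∈ l → app A ξ ⊆ l) {ξ : M} (hξ : ξ ∈ l) : Yd l r A ξ ⊆ l := by
  intro x hx
  rw [mem_yd] at hx
  rcases hx with hx | ⟨ζ, hζ, hx⟩
  · exact (mem_dead.1 hx).1
  · have hζl : ζ ∈ l := hA.ul.ord.sub (suc_l hC hA hξ) _ hζ
    exact hsub ζ hζl _ hx

theorem yd_mono {ξ ξ' : M} (hξ' : IsOrd ξ') (h : ξ ∈ ξ') : ∀ x, x ∈ Yd l r A ξ → x ∈ Yd l r A ξ' := by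
  have hs : ∀ z, z ∈ suc ξ → z ∈ suc ξ' := by
    intro z hz
    rw [mem_suc] at hz ⊢
    rcases hz with hz | rfl
    · exact Or.inl (hξ'.sub h z hz)
    · exact Or.inl h
  intro x hx
  rw [mem_yd] at hx ⊢
  rcases hx with hx | ⟨ζ, hζ, hx⟩
  · left
    rw [mem_dead] at hx ⊢
    obtain ⟨h1, g, hg, h2⟩ := hx
    exact ⟨h1, g, hs g hg, h2⟩
  · exact Or.inr ⟨ζ, hs ζ hζ, hx⟩

theorem yd_img (hC : CArith M) (hA : UA f u l) (hR : UR f l r)
    (hfin : ∀ ξ η, ξ ∈ l → η ∈ l → ξ ≠ η → ∃ n, n ∈ (omega : M) ∧ Img n (inter (app A ξ) (app A η)))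
    (hsm : ∀ ξ, ξ ∈ l → Img u (app A ξ)) {ξ : M} (hξ : ξ ∈ l) : Img u (Yd l r A ξ) := by
  have hωu : (omega : M) ⊆ u := hA.u_ord.sub (om_u hA)
  have h0 : (∅ : M) ∈ u := hωu _ empty_mem_omega
  have h1 : suc (∅ : M) ∈ u := hωu _ (suc_mem_omega empty_mem_omega)
  have hξ' := suc_l hC hA hξ
  have i1 : Fn1 (fun x : M => app A x) := inferInstance
  have h2 : Img u (Dead l r A (idF l) (suc ξ)) := dead_img hC hA hR hfin (idF l) hξ'
  have h3 : Img u (bigU (img (suc ξ) (fun x : M => app A x))) :=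
    img_bigU (fun x : M => app A x) (pair_u hC hA) (hA.ul.img _ hξ') (fun x hx => hsm x (hA.ul.ord.sub hξ' x hx))
  exact img_un (pair_u hC hA) h1 h0 (suc_ne_empty ∅) h2 h3

end Pool.Agent.TrI
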