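import Pool.Agent.TrI.K1

set_option autoImplicit false
set_option linter.all false
universe u

/-!
# K2 (difficulty 3): closed ordinals below `l`

`nxt`: for `ξ ∈ l` there is `β ∈ l` with `ξ ∈ β` and `Yd ξ ⊆ β`: `bdd_l` (K1) for `Yd ξ` (`yd_sub`, `yd_img`) gives `β0`; take `β = un β0 (suc ξ)` (an ordinal, equal to `β0` or to `suc ξ`, `ord_tri`).
`closed_above`: let `N ξ = mu (fun β => β ∈ l ∧ ξ ∈ β ∧ ∀ x, x ∈ Yd ξ → x ∈ β)` (`mu_spec`, Seq.lean). By `exists_rec` (H55/Rec, as in the proof of `wellorder`, H55/Ord, or `two_pts`, R1) there is `Gf : M → M`, `Fn1`, with `Gf i = un (suc δ) (bigU (img i (fun j => N (Gf j))))` for all `i`. By `omega_induction` (strong form: all `j ∈ suc i`)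
`Gf i ∈ l` and `IsOrd (Gf i)`: `img i (fun j => N (Gf j))` is a subset of `l` which is covered by `i ∈ omega` (so by `u`, `img_dom`), so all `N (Gf j) ∈ β` for some `β ∈ l` (`bdd_l`) and the union is an ordinal `⊆ β` (`ord_bigU`). Also `N (Gf j) ⊆ Gf i` for `j ∈ i`, so `Gf j ∈ N (Gf j) ⊆ Gf i`.
Let `c = bigU (img omega Gf)`: an ordinal in `l` (`bdd_l` again: `Img u (img omega Gf)`, `omega ⊆ u`), `δ ∈ c` (`δ ∈ Gf ∅`). If `ξ ∈ c` then `ξ ∈ Gf i`, `i ∈ omega`, and `Yd ξ ⊆ Yd (Gf i) ⊆ N (Gf i) ⊆ Gf (suc i) ⊆ c` (`yd_mono`).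
`cO_spec`: `cO e` is the union of all closed `c ∈ suc e`: an ordinal (`ord_bigU`), `⊆ e`, so `cO e ∈ suc e`; closed since each `ξ ∈ cO e` belongs to a closed `c ⊆ cO e`.
`cN_spec`: `cN e` is the least closed ordinal `c ∈ l` with `e ∈ c` (`mu_spec`, `closed_above`). `cO_eq`: if `x ∉ cO e` and `x ∈ cN e`, `x ∈ l`, then `cO x = cO e`: `cO e ⊆ x` (ordinals), so `cO e ∈ suc x`, `cO e ⊆ cO x`; if `cO x ≠ cO e` then `cO e ∈ cO x` (`ord_tri`), `cO x` is closed, `cO x ∉ suc e` (else `cO x ⊆ cO e`), so `e ∈ cO x`,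
so `cN e ⊆ cO x`, but `cO x ⊆ x ∈ cN e`: contradiction.
-/

namespace Pool.Agent.TrI

open Pool.Agent.H55.SC Pool.Agent.H55.CS Pool.Agent.H55.ZFU
open Pool.Agent.SplH (Img)
open Pool.Agent.SplC (IsBij IsCard)

variable {M : Type u} [Model M]

/-- The largest closed ordinal `≤ e`. -/
noncomputable def cO (l r A e : M) : M := bigU (sep (suc e) (fun c => Clsd l r A c))

instance cO_dfun {ι : Type} (l r A e : (ι → M) → M) [DFun l] [DFun r] [DFun A] [DFun e] :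
    DFun (fun v => cO (l v) (r v) (A v) (e v)) :=
  dfun_comp4 (F := cO) (by unfold cO; infer_instance) l r A e

/-- The least closed ordinal `> e`. -/
noncomputable def cN (l r A e : M) : M := mu (fun c => c ∈ l ∧ e ∈ c ∧ Clsd l r A c)

instance cN_dfun {ι : Type} (l r A e : (ι → M) → M) [DFun l] [DFun r] [DFun A] [DFun e] :
    DFun (fun v => cN (l v) (r v) (A v) (e v)) :=
  dfun_comp4 (F := cN) (by unfold cN; infer_instance) l r A e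

variable [Pool.Agent.H55.ZFU.Pure M] [Choice M] {f u l r A : M}

theorem k2_nxt (hC : CArith M) (hA : UA f u l) (hR : UR f l r)
    (hfin : ∀ ξ η, ξ ∈ l → η ∈ l → ξ ≠ η → ∃ n, n ∈ (omega : M) ∧ Img n (inter (app A ξ) (app A η)))
    (hsub : ∀ ξ, ξ ∈ l → app A ξ ⊆ l) (hsm : ∀ ξ, ξ ∈ l → Img u (app A ξ)) {ξ : M} (hξ : ξ ∈ l) :
    ∃ β, IsOrd β ∧ β ∈ l ∧ ξ ∈ β ∧ ∀ x, x ∈ Yd l r A ξ → x ∈ β := by
  obtain ⟨β, hβ, h1⟩ := bdd_l hC hA (yd_sub (r := r) hC hA hsub hξ) (yd_img hC hA hR hfin hsm hξ)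
  have hβo : IsOrd β := hA.ul.ord.mem hβ
  have hs : suc ξ ∈ l := suc_l hC hA hξ
  have hso : IsOrd (suc ξ) := hA.ul.ord.mem hs
  have hξs : ξ ∈ suc ξ := mem_suc.2 (Or.inr rfl)
  rcases ord_tri β hβo (suc ξ) hso with h2 | h2 | h2
  · exact ⟨suc ξ, hso, hs, hξs, fun x hx => hso.sub h2 x (h1 x hx)⟩
  · exact ⟨suc ξ, hso, hs, hξs, fun x hx => by rw [← h2]; exact h1 x hx⟩
  · exact ⟨β, hβo, hβ, hβo.sub h2 ξ hξs, h1⟩

theorem closed_above (hC : CArith M) (hA : UA f u l) (hR : UR f l r)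
    (hfin : ∀ ξ η, ξ ∈ l → η ∈ l → ξ ≠ η → ∃ n, n ∈ (omega : M) ∧ Img n (inter (app A ξ) (app A η)))
    (hsub : ∀ ξ, ξ ∈ l → app A ξ ⊆ l) (hsm : ∀ ξ, ξ ∈ l → Img u (app A ξ)) {δ : M} (hδ : δ ∈ l) :
    ∃ c, c ∈ l ∧ δ ∈ c ∧ Clsd l r A c := by
  have iN : Fn1 (fun x : M => mu (fun β => β ∈ l ∧ x ∈ β ∧ ∀ z, z ∈ Yd l r A x → z ∈ β)) := inferInstance
  obtain ⟨N, hN⟩ : ∃ N : M → M, N = fun x : M => mu (fun β => β ∈ l ∧ x ∈ β ∧ ∀ z, z ∈ Yd l r A x → z ∈ β) := ⟨_, rfl⟩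
  have iN' : Fn1 N := by rw [hN]; exact iN
  have hNs : ∀ x, x ∈ l → IsOrd (N x) ∧ N x ∈ l ∧ x ∈ N x ∧ ∀ z, z ∈ Yd l r A x → z ∈ N x := by
    intro x hx
    obtain ⟨β, h1, h2⟩ := k2_nxt hC hA hR hfin hsub hsm hx
    have h3 := mu_spec (fun β => β ∈ l ∧ x ∈ β ∧ ∀ z, z ∈ Yd l r A x → z ∈ β) ⟨β, h1, h2⟩
    have h4 : N x = mu (fun β => β ∈ l ∧ x ∈ β ∧ ∀ z, z ∈ Yd l r A x → z ∈ β) := by rw [hN]
    rw [← h4] at h3
    exact ⟨h3.1, h3.2.1⟩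
  have i0 : Fn1 (fun _ : M => suc δ) := inferInstance
  have i3 : Fn3 (fun (_ _ x : M) => N x) := DFun.comp1 iN' (fun v : Fin 3 → M => v 2)
  obtain ⟨F0, hF0, hFz, hFs⟩ := exists_nrec (M := M) (fun _ => suc δ) (fun _ _ x => N x)
  obtain ⟨F, hF⟩ : ∃ F : M → M, F = fun y => F0 ∅ y := ⟨_, rfl⟩
  have iF : Fn1 F := by rw [hF]; exact DFun.comp2 hF0 (fun _ => (∅ : M)) (fun v => v 0)
  have iF' : ∀ {ι : Type} (t : (ι → M) → M) [DFun t], DFun (fun v => F (t v)) := fun t => DFun.comp1 iF t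
  have hz : F ∅ = suc δ := by rw [hF]; exact hFz ∅
  have hs : ∀ n, n ∈ (omega : M) → F (suc n) = N (F n) := by
    intro n hn
    rw [hF]
    exact hFs ∅ n hn
  have hFl : ∀ n, n ∈ (omega : M) → F n ∈ l := by
    refine omega_induction (fun n => F n ∈ l) ?_ ?_
    · rw [hz]; exact suc_l hC hA hδ
    · intro n hn ih
      rw [hs n hn]
      exact (hNs _ ih).2.1
  have hord : IsOrd (bigU (img (omega : M) F)) := by
    refine ord_bigU ?_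
    intro a ha
    obtain ⟨n, hn, rfl⟩ := mem_img.1 ha
    exact hA.ul.ord.mem (hFl n hn)
  have hωu : (omega : M) ⊆ u := hA.u_ord.sub (om_u hA)
  have himg : Img u (img (omega : M) F) := by
    refine img_dom (a := (omega : M)) (img_fn F ?_) hωu
    intro y hy
    obtain ⟨n, hn, rfl⟩ := mem_img.1 hy
    exact ⟨n, hn, rfl⟩
  obtain ⟨β, hβ, hb⟩ := bdd_l hC hA (X := img (omega : M) F) (by
    intro y hy
    obtain ⟨n, hn, rfl⟩ := mem_img.1 hy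
    exact hFl n hn) himg
  have hβo : IsOrd β := hA.ul.ord.mem hβ
  have hsubβ : bigU (img (omega : M) F) ⊆ β := by
    intro x hx
    obtain ⟨y, hy, hxy⟩ := mem_bigU.1 hx
    exact hβo.sub (hb y hy) x hxy
  refine ⟨bigU (img (omega : M) F), ?_, ?_, ?_⟩
  · rcases (ord_sub_iff hord hβo).1 hsubβ with h | h
    · exact hA.ul.ord.sub hβ _ h
    · rw [h]; exact hβ
  · refine mem_bigU.2 ⟨F ∅, mem_img.2 ⟨∅, empty_mem_omega, rfl⟩, ?_⟩
    rw [hz]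
    exact mem_suc.2 (Or.inr rfl)
  · intro ξ hξ x hx
    obtain ⟨y, hy, hxy⟩ := mem_bigU.1 hξ
    obtain ⟨n, hn, rfl⟩ := mem_img.1 hy
    refine mem_bigU.2 ⟨F (suc n), mem_img.2 ⟨suc n, suc_mem_omega hn, rfl⟩, ?_⟩
    rw [hs n hn]
    exact (hNs _ (hFl n hn)).2.2.2 x (yd_mono (hA.ul.ord.mem (hFl n hn)) hxy x hx)

theorem cO_spec (hA : UA f u l) {e : M} (he : e ∈ l) : cO l r A e ∈ suc e ∧ IsOrd (cO l r A e) ∧ Clsd l r A (cO l r A e) ∧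
    ∀ c, c ∈ suc e → Clsd l r A c → c ⊆ cO l r A e := by
  have heo : IsOrd e := hA.ul.ord.mem he
  have hso : IsOrd (suc e) := ord_suc heo
  have hm : ∀ x, x ∈ cO l r A e ↔ ∃ c, (c ∈ suc e ∧ Clsd l r A c) ∧ x ∈ c := by
    intro x
    unfold cO
    rw [mem_bigU]
    constructor
    · rintro ⟨c, hc, hx⟩
      exact ⟨c, mem_sep.1 hc, hx⟩
    · rintro ⟨c, hc, hx⟩
      exact ⟨c, mem_sep.2 hc, hx⟩
  have hord : IsOrd (cO l r A e) := by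
    unfold cO
    refine ord_bigU ?_
    intro a ha
    exact hso.mem (mem_sep.1 ha).1
  have hsub : cO l r A e ⊆ e := by
    intro x hx
    obtain ⟨c, ⟨hc, _⟩, hxc⟩ := (hm x).1 hx
    rcases mem_suc.1 hc with h | rfl
    · exact heo.sub h x hxc
    · exact hxc
  refine ⟨mem_suc.2 ((ord_sub_iff hord heo).1 hsub), hord, ?_, ?_⟩
  · intro ξ hξ x hx
    obtain ⟨c, ⟨hc, hcl⟩, hξc⟩ := (hm ξ).1 hξ
    exact (hm x).2 ⟨c, ⟨hc, hcl⟩, hcl ξ hξc x hx⟩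
  · intro c hc hcl x hx
    exact (hm x).2 ⟨c, ⟨hc, hcl⟩, hx⟩

theorem cN_spec (hC : CArith M) (hA : UA f u l) (hR : UR f l r)
    (hfin : ∀ ξ η, ξ ∈ l → η ∈ l → ξ ≠ η → ∃ n, n ∈ (omega : M) ∧ Img n (inter (app A ξ) (app A η)))
    (hsub : ∀ ξ, ξ ∈ l → app A ξ ⊆ l) (hsm : ∀ ξ, ξ ∈ l → Img u (app A ξ)) {e : M} (he : e ∈ l) :
    cN l r A e ∈ l ∧ e ∈ cN l r A e ∧ Clsd l r A (cN l r A e) ∧
      ∀ c, c ∈ l → e ∈ c → Clsd l r A c → cN l r A e ⊆ c := by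
  obtain ⟨c, h1, h2, h3⟩ := closed_above hC hA hR hfin hsub hsm he
  have h4 := mu_spec (fun c => c ∈ l ∧ e ∈ c ∧ Clsd l r A c) ⟨c, hA.ul.ord.mem h1, h1, h2, h3⟩
  exact ⟨h4.2.1.1, h4.2.1.2.1, h4.2.1.2.2, fun c' hc' he' hcl' => h4.2.2 c' (hA.ul.ord.mem hc') ⟨hc', he', hcl'⟩⟩

theorem cO_eq (hC : CArith M) (hA : UA f u l) (hR : UR f l r)
    (hfin : ∀ ξ η, ξ ∈ l → η ∈ l → ξ ≠ η → ∃ n, n ∈ (omega : M) ∧ Img n (inter (app A ξ) (app A η)))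
    (hsub : ∀ ξ, ξ ∈ l → app A ξ ⊆ l) (hsm : ∀ ξ, ξ ∈ l → Img u (app A ξ)) {e x : M} (he : e ∈ l)
    (h1 : x ∉ cO l r A e) (h2 : x ∈ cN l r A e) : cO l r A x = cO l r A e := by
  obtain ⟨n1, n2, n3, n4⟩ := cN_spec hC hA hR hfin hsub hsm he
  have hx : x ∈ l := hA.ul.ord.sub n1 x h2
  have hxo : IsOrd x := hA.ul.ord.mem hx
  have heo : IsOrd e := hA.ul.ord.mem he
  obtain ⟨e1, e2, e3, e4⟩ := cO_spec (r := r) (A := A) hA he
  obtain ⟨x1, x2, x3, x4⟩ := cO_spec (r := r) (A := A) hA hx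
  have h3 : cO l r A e ⊆ x := ord_not_mem hxo e2 h1
  have h4 : cO l r A e ∈ suc x := mem_suc.2 ((ord_sub_iff e2 hxo).1 h3)
  have h5 : cO l r A e ⊆ cO l r A x := x4 _ h4 e3
  rcases (ord_sub_iff e2 x2).1 h5 with h6 | h6
  · exfalso
    have h7 : cO l r A x ∉ suc e := by
      intro h
      exact not_mem_self _ (e4 _ h x3 _ h6)
    have h8 : suc e ⊆ cO l r A x := ord_not_mem x2 (ord_suc heo) h7
    have h9 : e ∈ cO l r A x := h8 e (mem_suc.2 (Or.inr rfl))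
    have h10 : cO l r A x ∈ l := by
      rcases mem_suc.1 x1 with h | h
      · exact hA.ul.ord.sub hx _ h
      · rw [h]; exact hx
    have h11 : x ∈ cO l r A x := n4 _ h10 h9 x3 x h2
    rcases mem_suc.1 x1 with h | h
    · exact not_mem_mem h h11
    · rw [h] at h11
      exact not_mem_self _ h11
  · exact h6.symm

end Pool.Agent.TrI
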