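import Pool.Agent.TrI.K1

set_option autoImplicit false
set_option linter.all false
universe u

/-!
# K3 (difficulty 2): a closed ordinal contains only countably many points of the later sets

Suppose `¬ Img omega I`, `I = inter (app A e) c`. `exists_level` (R1) for `δ = c` gives `n` and `In = sep I (fun x => app r (opair x c) ∈ suc n)`, uncountable; `two_pts` (R1, any `η`) gives `g ∈ In` with `inter In g` infinite. For `a ∈ inter In g`: `app r (opair a g) ∈ suc n` (`hR.sub a g c n`), `a ∈ app A e`, `app (idF l) a = a`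
(`a ∈ l`): so `inter In g ⊆ Zs r A (idF l) g n e`, and `e ∈ Dead l r A (idF l) (suc g) ⊆ Yd l r A g ⊆ c` (`hc`), contradiction to `e ∉ c`.
`bij_diff`: `exists_card (sep X (fun x => x ∉ Z))` (Id) gives a cardinal `c0` with a bijection `c0 → X \ Z`. `c0 ⊆ k`: otherwise `k ∈ c0` (ordinals): but `Img k X`, so `Img k (X \ Z)`, `Img k c0` (inverse of the bijection), against `card_nimg`. If `c0 ∈ k`: let `m = un c0 omega` (one of them, an ordinal in `k` which contains `omega`):
`Img m (prod m m)` (`hC.pair`), `Img m Z`, `Img m (X \ Z)`, so `Img m X` (`img_un`, `∅ ≠ suc ∅`), `Img m k`, against `card_nimg hk`. So `c0 = k`.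
-/

namespace Pool.Agent.TrI

open Pool.Agent.H55.SC Pool.Agent.H55.CS Pool.Agent.H55.ZFU
open Pool.Agent.SplH (Img isOrdinal_iff isSurj_iff isBij_iff surj_img img_surj)
open Pool.Agent.SplC (IsBij IsCard)

variable {M : Type u} [Model M] [Pool.Agent.H55.ZFU.Pure M] [Choice M] {f u l r A : M}

theorem inter_ctbl (hC : CArith M) (hA : UA f u l) (hR : UR f l r) {c e : M} (hc : c ∈ l) (hcl : Clsd l r A c)
    (he : e ∈ l) (hec : e ∉ c) : Img (omega : M) (inter (app A e) c) := by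
  by_contra hu
  have hI : inter (app A e) c ⊆ c := fun x hx => (mem_inter.1 hx).2
  obtain ⟨n, hn, hn'⟩ := exists_level hC hR hc hI hu
  have hco : IsOrd c := hA.ul.ord.mem hc
  have i1 : Dfn1 (fun x : M => app r (opair x c) ∈ suc n) := inferInstance
  have hmem : ∀ x, x ∈ sep (inter (app A e) c) (fun x => app r (opair x c) ∈ suc n) →
      x ∈ app A e ∧ x ∈ c ∧ app r (opair x c) ∈ suc n := by
    intro x hx
    have h1 := mem_sep.1 hx
    have h2 := mem_inter.1 h1.1
    exact ⟨h2.1, h2.2, h1.2⟩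
  obtain ⟨g, ξ, hg, hξ, hgξ, _, hinf⟩ := two_pts hC (η := (∅ : M)) (fun x hx => hco.mem (hmem x hx).2.1) hn'
  obtain ⟨hg1, hg2, hg3⟩ := hmem g hg
  apply hec
  apply hcl g hg2 e
  rw [mem_yd]
  left
  rw [mem_dead]
  refine ⟨he, g, mem_suc.2 (Or.inr rfl), n, hn, ?_⟩
  intro m hm h
  apply hinf m hm
  refine img_mono h ?_
  intro x hx
  obtain ⟨hx1, hx2⟩ := mem_inter.1 hx
  obtain ⟨h3, h4, h5⟩ := hmem x hx1
  rw [mem_zs]
  exact ⟨h3, x, hx2, hR.sub x g c n hx2 hg2 hc hn h5 hg3, idF_app (hA.ul.ord.sub hc x h4)⟩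

theorem bij_diff (hC : CArith M) {k X Z : M} (hk : IsCard Model.E k) (hok : (omega : M) ∈ k)
    (hX : ∃ g, IsBij Model.E g k X) (hZ : Img (omega : M) (inter X Z)) :
    ∃ g, IsBij Model.E g k (sep X (fun x => x ∉ Z)) := by
  obtain ⟨g, hg⟩ := hX
  have i1 : Dfn1 (fun x : M => x ∉ Z) := inferInstance
  obtain ⟨c0, f0, hc0, hf0⟩ := exists_card (sep X (fun x => x ∉ Z))
  have h1 := card_nimg hc0
  have h2 := card_nimg hk
  rcases ord_tri c0 h1.1 k h2.1 with h | h | h
  · exfalso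
    obtain ⟨m, hm1, hm2, hm3, hm4⟩ : ∃ m : M, m ∈ k ∧ IsOrd m ∧ (omega : M) ⊆ m ∧ c0 ⊆ m := by
      rcases ord_tri c0 h1.1 (omega : M) omega_ord with h3 | h3 | h3
      · exact ⟨omega, hok, omega_ord, Sub.refl _, omega_ord.sub h3⟩
      · exact ⟨omega, hok, omega_ord, Sub.refl _, fun x hx => by rw [h3] at hx; exact hx⟩
      · exact ⟨c0, h, h1.1, h1.1.sub h3, Sub.refl _⟩
    have h4 : Img m (inter X Z) := img_dom hZ hm3
    have h5 : Img m (sep X (fun x => x ∉ Z)) := img_dom (id_img hf0) hm4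
    have h6 : Img m (un (inter X Z) (sep X (fun x => x ∉ Z))) := by
      refine img_un (hC.pair m hm2 hm3) (x := (∅ : M)) (y := suc (∅ : M)) (hm3 _ empty_mem_omega)
        (hm3 _ (suc_mem_omega empty_mem_omega)) ?_ h4 h5
      intro h7
      have h8 : (∅ : M) ∈ suc (∅ : M) := mem_suc.2 (Or.inr rfl)
      rw [← h7] at h8
      simp at h8
    have h7 : Img m X := by
      refine img_mono h6 ?_
      intro x hx
      rw [mem_un]
      by_cases hxZ : x ∈ Z
      · exact Or.inl (mem_inter.2 ⟨hx, hxZ⟩)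
      · exact Or.inr (mem_sep.2 ⟨hx, hxZ⟩)
    exact h2.2 m hm1 (img_trans h7 (id_inv hg))
  · rw [← h]
    exact ⟨f0, hf0⟩
  · exfalso
    have h3 : Img k (sep X (fun x => x ∉ Z)) := img_mono (id_img hg) (fun x hx => (mem_sep.1 hx).1)
    exact h1.2 k h (img_trans h3 (id_inv hf0))

end Pool.Agent.TrI
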