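import Pool.Agent.TrI.VDefs
import Pool.Agent.TrI.IDefs
import Pool.Agent.SplH.T1
import Pool.Agent.SplH.T4

set_option autoImplicit false
set_option linter.all false

/-!
# The data `NDat`, `ADat` in the model `MM N G`
-/

namespace Pool.Agent.TrI

open FirstOrder FirstOrder.Language Pool.Agent.H55.SC Pool.Agent.H55.ZFU Pool.Agent.H55.Lav Pool.Agent.SplH

variable {Q : Type} [Preorder Q] [OrderTop Q] {L : Type} [LinearOrder L] [WellFoundedLT L]

/-- Closure properties of `N` for `NDat`. -/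
class NEnv (N : Set (Un Q)) (D : NDat L) : Prop where
  nL : ∀ n : ℕ, InT N (D.nL n)
  om : InT N D.om

/-- The function `n ↦ ω_n` on `L`. -/
noncomputable def ADat.alF (D : ADat L) (x : L) : L := by
  classical
  exact if h : ∃ n, D.nL n = x then D.al h.choose else D.om

omit [WellFoundedLT L] in
theorem NDat.nL_inj (D : NDat L) {m n : ℕ} (h : D.nL m = D.nL n) : m = n := by
  rcases lt_trichotomy m n with h1 | h1 | h1
  · exact (lt_irrefl _ (h ▸ D.nL_lt _ _ h1)).elim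
  · exact h1
  · exact (lt_irrefl _ (h ▸ D.nL_lt _ _ h1)).elim

omit [WellFoundedLT L] in
theorem ADat.alF_nL (D : ADat L) (n : ℕ) : D.alF (D.nL n) = D.al n := by
  unfold ADat.alF
  have h : ∃ m, D.nL m = D.nL n := ⟨n, rfl⟩
  rw [dif_pos h, D.toNDat.nL_inj h.choose_spec]

/-- Closure properties of `N` for `ADat`. -/
class AEnv (N : Set (Un Q)) (D : ADat L) : Prop where
  nd : NEnv N D.toNDat
  al : ∀ n : ℕ, InT N (D.al n)
  u : InT N D.u
  l : InT N D.l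
  alf : F4Ok N (fun a _ _ _ => D.alF a)

instance aenv_nenv {N : Set (Un Q)} {D : ADat L} [h : AEnv N D] : NEnv N D.toNDat := h.nd

/-- `n` -/
def NDat.nN {N : Set (Un Q)} (D : NDat L) [NEnv N D] (n : ℕ) : LN N L := ⟨D.nL n, NEnv.nL n⟩
/-- `ω` -/
def NDat.omN {N : Set (Un Q)} (D : NDat L) [NEnv N D] : LN N L := ⟨D.om, NEnv.om⟩
/-- `ω_n` -/
def ADat.alN {N : Set (Un Q)} (D : ADat L) [AEnv N D] (n : ℕ) : LN N L := ⟨D.al n, AEnv.al n⟩
/-- `ω_ω` -/
def ADat.uN {N : Set (Un Q)} (D : ADat L) [AEnv N D] : LN N L := ⟨D.u, AEnv.u⟩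
/-- `ω_{ω+1}` -/
def ADat.lN {N : Set (Un Q)} (D : ADat L) [AEnv N D] : LN N L := ⟨D.l, AEnv.l⟩

theorem nenv_club (D : NDat L) : ∀ᶠ N in club (Un Q), NEnv N D := by
  have h1 : ∀ᶠ N in club (Un Q), ∀ n : ℕ, InT N (D.nL n) := club_all (fun n => club_inT _)
  filter_upwards [h1, club_inT D.om] with N h1 h2
  exact ⟨h1, h2⟩

theorem aenv_club (D : ADat L) : ∀ᶠ N in club (Un Q), AEnv N D := by
  have h1 : ∀ᶠ N in club (Un Q), ∀ n : ℕ, InT N (D.al n) := club_all (fun n => club_inT _)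
  filter_upwards [nenv_club D.toNDat, h1, club_inT D.u, club_inT D.l, f4Ok_club (Q := Q) (fun a _ _ _ => D.alF a)]
    with N h0 h1 h2 h3 h4
  exact ⟨h0, h1, h2, h3, h4⟩

/-- A witness in `N`. -/
theorem u_wit {α : Type} (P : α → Prop) : ∀ᶠ N in club (Un Q), (∃ a, P a) → ∃ a, P a ∧ InT N a := by
  by_cases h : ∃ a, P a
  · obtain ⟨a, ha⟩ := h
    exact (club_inT a).mono (fun N hN _ => ⟨a, ha, hN⟩)
  · exact Filter.Eventually.of_forall (fun N h' => (h h').elim)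

section
variable {N : Set (Un Q)} {G : Set Q} [Env N G] [LEnv N L] (D : NDat L) [NEnv N D]

theorem u_lt_om (n : ℕ) : D.nL n < D.om := (D.om_iff _).mpr ⟨n, rfl⟩

theorem u_nlt {m n : ℕ} : D.nL m < D.nL n ↔ m < n := by
  constructor
  · intro h
    by_contra h'
    rcases (not_lt.mp h').eq_or_lt with h1 | h1
    · rw [h1] at h
      exact lt_irrefl _ h
    · exact lt_asymm h (D.nL_lt _ _ h1)
  · exact D.nL_lt m n

theorem u_below {n : ℕ} {j : LN N L} (h : j < D.nN (N := N) n) : ∃ m, m < n ∧ j = D.nN (N := N) m := by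
  have h1 : j.1 < D.nL n := h
  obtain ⟨m, hm⟩ := (D.om_iff _).mp (h1.trans (u_lt_om D n))
  refine ⟨m, ?_, Subtype.ext hm.symm⟩
  rw [← hm] at h1
  exact (u_nlt D).mp h1

theorem u_lt {m n : ℕ} (h : m < n) : D.nN (N := N) m < D.nN (N := N) n := D.nL_lt m n h

theorem lv_zero : lv G (D.nN (N := N) 0) = ∅ := by
  rw [eq_empty_iff]
  intro x hx
  obtain ⟨j, hj, _⟩ := mem_lv.mp hx
  obtain ⟨m, hm, _⟩ := u_below D hj
  omega

theorem suc_nN (n : ℕ) : suc (lv G (D.nN (N := N) n)) = lv G (D.nN (N := N) (n + 1)) := by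
  apply Pool.Agent.H55.ZFU.ext
  intro x
  rw [mem_suc, mem_lv, mem_lv]
  constructor
  · rintro (⟨j, hj, rfl⟩ | rfl)
    · exact ⟨j, hj.trans (u_lt D (Nat.lt_succ_self n)), rfl⟩
    · exact ⟨_, u_lt D (Nat.lt_succ_self n), rfl⟩
  · rintro ⟨j, hj, rfl⟩
    obtain ⟨m, hm, rfl⟩ := u_below D hj
    rcases Nat.lt_succ_iff_lt_or_eq.mp hm with h | h
    · exact Or.inl ⟨_, u_lt D h, rfl⟩
    · exact Or.inr (by rw [h])

theorem mem_om {x : MM N G} : x ∈ (omega : MM N G) ↔ ∃ n : ℕ, x = lv G (D.nN (N := N) n) := by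
  have hom : ∀ j : LN N L, j < D.omN (N := N) → ∃ n, j = D.nN (N := N) n := by
    intro j hj
    obtain ⟨n, hn⟩ := (D.om_iff _).mp (show j.1 < D.om from hj)
    exact ⟨n, Subtype.ext hn.symm⟩
  constructor
  · intro hx
    have hI : Inductive' (lv G (D.omN (N := N))) := by
      constructor
      · rw [← lv_zero D, lv_lt]
        exact u_lt_om D 0
      · intro y hy
        obtain ⟨j, hj, rfl⟩ := mem_lv.mp hy
        obtain ⟨n, rfl⟩ := hom j hj
        rw [suc_nN, lv_lt]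
        exact u_lt_om D (n + 1)
    obtain ⟨j, hj, rfl⟩ := mem_lv.mp (mem_omega.mp hx _ hI)
    obtain ⟨n, rfl⟩ := hom j hj
    exact ⟨n, rfl⟩
  · rintro ⟨n, rfl⟩
    induction n with
    | zero =>
      rw [lv_zero]
      exact empty_mem_omega
    | succ n ih =>
      rw [← suc_nN]
      exact suc_mem_omega ih

theorem omega_eq : (omega : MM N G) = lv G (D.omN (N := N)) := by
  apply Pool.Agent.H55.ZFU.ext
  intro x
  rw [mem_om D, mem_lv]
  constructor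
  · rintro ⟨n, rfl⟩
    exact ⟨_, u_lt_om D n, rfl⟩
  · rintro ⟨j, hj, rfl⟩
    obtain ⟨n, hn⟩ := (D.om_iff _).mp (show j.1 < D.om from hj)
    refine ⟨n, ?_⟩
    have h1 : j = D.nN (N := N) n := Subtype.ext hn.symm
    rw [h1]

end

section
variable {N : Set (Un Q)} {G : Set Q} [Env N G] [LEnv N L]

theorem u_op {τ σ : Nm Q} (hτ : InN N τ) (hσ : InN N σ) :
    vl G (inN_op (Env.zok (N := N) (G := G)) hτ hσ) = opair (vl G hτ) (vl G hσ) :=
  pair_iff.1 (op_pair (Env.ok (N := N) (G := G)) (Env.zok (N := N) (G := G)) (Env.gen (N := N) (G := G)) hτ hσ)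

theorem u_f4 {F : L → L → L → L → L} (h : F4Ok N F) (x : L × L × L × L) (hx : InT N x) :
    vl G (h.fn.fn x hx) = opair (opair (opair (lv G ⟨x.1, (h.pr x hx).1⟩) (lv G ⟨x.2.1, (h.pr x hx).2.1⟩))
      (opair (lv G ⟨x.2.2.1, (h.pr x hx).2.2.1⟩) (lv G ⟨x.2.2.2, (h.pr x hx).2.2.2⟩)))
      (lv G ⟨F x.1 x.2.1 x.2.2.1 x.2.2.2, h.cl _ _ _ _ (h.pr x hx).1 (h.pr x hx).2.1 (h.pr x hx).2.2.1 (h.pr x hx).2.2.2⟩) := by
  have zok := Env.zok (N := N) (G := G)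
  have i1 := LEnv.ckn (N := N) x.1 (h.pr x hx).1
  have i2 := LEnv.ckn (N := N) x.2.1 (h.pr x hx).2.1
  have i3 := LEnv.ckn (N := N) x.2.2.1 (h.pr x hx).2.2.1
  have i4 := LEnv.ckn (N := N) x.2.2.2 (h.pr x hx).2.2.2
  have i5 := LEnv.ckn (N := N) _ (h.cl _ _ _ _ (h.pr x hx).1 (h.pr x hx).2.1 (h.pr x hx).2.2.1 (h.pr x hx).2.2.2)
  have e1 := u_op (G := G) i1 i2
  have e2 := u_op (G := G) i3 i4
  have e3 := u_op (G := G) (inN_op zok i1 i2) (inN_op zok i3 i4)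
  have e4 := u_op (G := G) (inN_op zok (inN_op zok i1 i2) (inN_op zok i3 i4)) i5
  rw [e1, e2] at e3
  rw [e3] at e4
  exact e4

theorem exists_fn4 {F : L → L → L → L → L} (h : F4Ok N F) : ∃ f : MM N G, ∀ a b c d : LN N L,
    app f (opair (opair (lv G a) (lv G b)) (opair (lv G c) (lv G d))) =
      lv G ⟨F a.1 b.1 c.1 d.1, h.cl a.1 b.1 c.1 d.1 a.2 b.2 c.2 d.2⟩ := by
  have htop : (⊤ : Q) ∈ G := top_mem (Env.ok (N := N) (G := G)) (Env.gen (N := N) (G := G))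
  refine ⟨vl G h.fn.rg, fun a b c d => ?_⟩
  have hmem : ∀ z : MM N G, z ∈ vl G h.fn.rg ↔ ∃ x, ∃ hx : InT N x, z = vl G (h.fn.fn x hx) :=
    fun z => mem_rg htop h.fn
  have hin : opair (opair (opair (lv G a) (lv G b)) (opair (lv G c) (lv G d)))
      (lv G ⟨F a.1 b.1 c.1 d.1, h.cl a.1 b.1 c.1 d.1 a.2 b.2 c.2 d.2⟩) ∈ vl G h.fn.rg := by
    rw [hmem]
    have hx : InT N (a.1, b.1, c.1, d.1) := h.tup _ _ _ _ a.2 b.2 c.2 d.2
    exact ⟨(a.1, b.1, c.1, d.1), hx, (u_f4 (G := G) h (a.1, b.1, c.1, d.1) hx).symm⟩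
  refine app_eq ⟨_, hin, ?_⟩ hin
  intro y hy
  obtain ⟨x, hx, he⟩ := (hmem _).1 hy
  rw [u_f4 h x hx, opair_inj, opair_inj, opair_inj, opair_inj] at he
  obtain ⟨⟨⟨h1, h2⟩, h3, h4⟩, h5⟩ := he
  have k1 : a.1 = x.1 := congrArg Subtype.val (lv_inj h1)
  have k2 : b.1 = x.2.1 := congrArg Subtype.val (lv_inj h2)
  have k3 : c.1 = x.2.2.1 := congrArg Subtype.val (lv_inj h3)
  have k4 : d.1 = x.2.2.2 := congrArg Subtype.val (lv_inj h4)
  rw [h5]
  congr 1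
  apply Subtype.ext
  change F x.1 x.2.1 x.2.2.1 x.2.2.2 = F a.1 b.1 c.1 d.1
  rw [k1, k2, k3, k4]

theorem exists_fn2 {F : L → L → L} (h : F4Ok N (fun a b _ _ => F a b)) : ∃ f : MM N G, ∀ a b : LN N L,
    app f (opair (lv G a) (lv G b)) = lv G ⟨F a.1 b.1, h.cl a.1 b.1 a.1 a.1 a.2 b.2 a.2 a.2⟩ := by
  obtain ⟨f, hf⟩ := exists_fn4 (G := G) h
  refine ⟨lam (prod (ll G N L) (ll G N L)) (fun p => app f (opair p p)), fun a b => ?_⟩
  have hmem : opair (lv G a) (lv G b) ∈ prod (ll G N L) (ll G N L) :=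
    opair_mem_prod.2 ⟨mem_ll.2 ⟨a, rfl⟩, mem_ll.2 ⟨b, rfl⟩⟩
  rw [app_lam hmem]
  exact hf a b a b

theorem exists_fn1 {F : L → L} (h : F4Ok N (fun a _ _ _ => F a)) : ∃ f : MM N G, ∀ a : LN N L,
    app f (lv G a) = lv G ⟨F a.1, h.cl a.1 a.1 a.1 a.1 a.2 a.2 a.2 a.2⟩ := by
  obtain ⟨f, hf⟩ := exists_fn4 (G := G) h
  refine ⟨lam (ll G N L) (fun x => app f (opair (opair x x) (opair x x))), fun a => ?_⟩
  have hmem : lv G a ∈ ll G N L := mem_ll.2 ⟨a, rfl⟩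
  rw [app_lam hmem]
  exact hf a a a a

/-- The function `n ↦ ω_n` in the model. -/
theorem exists_alf (D : ADat L) [AEnv N D] : ∃ f : MM N G, FnOn f omega ∧
    ∀ n : ℕ, app f (lv G (D.toNDat.nN (N := N) n)) = lv G (D.alN (N := N) n) := by
  obtain ⟨f, hf⟩ := exists_fn1 (G := G) (AEnv.alf (N := N) (D := D))
  refine ⟨lam omega (fun x => app f x), lam_fnOn _ _, fun n => ?_⟩
  rw [app_lam ((mem_om D.toNDat).2 ⟨n, rfl⟩), hf]
  congr 1
  apply Subtype.ext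
  exact D.alF_nL n

/-- Closure properties of `N` for a family of subsets of `L` indexed by pairs. -/
structure P2Ok (N : Set (Un Q)) (z : L → L → L → Set Q) : Prop where
  sb : ∀ a b : L, InT N a → InT N b → InN N (sbN (z a b))
  tup : ∀ a b : L, InT N a → InT N b → InT N (a, b)
  pr : ∀ x : L × L, InT N x → InT N x.1 ∧ InT N x.2
  fn : FnOk N (fun x : L × L => opN (opN (ck Q x.1) (ck Q x.2)) (sbN (z x.1 x.2)))

theorem exists_fam2 {z : L → L → L → Set Q} (h : P2Ok N z) : ∃ f : MM N G, ∀ (i j : LN N L) (x : MM N G),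
    x ∈ app f (opair (lv G i) (lv G j)) ↔ ∃ k : LN N L, x = lv G k ∧ Ht G (z i.1 j.1 k.1) := by
  have he : Env N G := inferInstance
  have hs : ∀ x : L × L, InT N x → InN N (opN (ck Q x.1) (ck Q x.2)) := fun x hx =>
    inN_op he.zok (LEnv.ckn _ (h.pr x hx).1) (LEnv.ckn _ (h.pr x hx).2)
  have ht : ∀ x : L × L, InT N x → InN N (sbN (z x.1 x.2)) := fun x hx => h.sb _ _ (h.pr x hx).1 (h.pr x hx).2
  refine ⟨vl G h.fn.rg, fun i j x => ?_⟩
  have key : ∀ y : MM N G, opair (opair (lv G i) (lv G j)) y ∈ (vl G h.fn.rg : MM N G) ↔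
      y = vl G (h.sb i.1 j.1 i.2 j.2) := by
    intro y
    rw [← rel_iff]
    refine (rel_rg he.ok he.fok he.zok he.gen hs ht h.fn).trans ⟨?_, ?_⟩
    · rintro ⟨w, hw, h1, h2⟩
      have h3 : opair (lv G i) (lv G j) = opair (lv G (⟨w.1, (h.pr w hw).1⟩ : LN N L)) (lv G (⟨w.2, (h.pr w hw).2⟩ : LN N L)) := by
        rw [h1]
        exact u_op _ _
      obtain ⟨h4, h5⟩ := opair_inj.1 h3
      have h6 : i.1 = w.1 := congrArg Subtype.val (lv_inj h4)
      have h7 : j.1 = w.2 := congrArg Subtype.val (lv_inj h5)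
      obtain ⟨i, hi⟩ := i
      obtain ⟨j, hj⟩ := j
      obtain ⟨w1, w2⟩ := w
      simp only at h6 h7
      subst h6 h7
      exact h2
    · intro hy
      refine ⟨(i.1, j.1), h.tup _ _ i.2 j.2, (u_op _ _).symm, hy⟩
  have happ : app (vl G h.fn.rg : MM N G) (opair (lv G i) (lv G j)) = vl G (h.sb i.1 j.1 i.2 j.2) :=
    app_eq ⟨_, (key _).2 rfl, fun y hy => (key y).1 hy⟩ ((key _).2 rfl)
  rw [happ]
  exact t4_mem_sb _ x

end

omit [WellFoundedLT L] in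
theorem p2ok_club [WellFoundedLT L] (z : L → L → L → Set Q) : ∀ᶠ N in club (Un Q), P2Ok N z := by
  have h1 : ∀ᶠ N in club (Un Q), ∀ a : L, InT N a → ∀ b : L, InT N b → InN N (sbN (z a b)) :=
    diagT (fun a => diagT (fun b => club_inN _))
  have h2 : ∀ᶠ N in club (Un Q), ∀ a : L, InT N a → ∀ b : L, InT N b → InT N (a, b) :=
    diagT (fun a => diagT (fun b => club_inT _))
  have h3 : ∀ᶠ N in club (Un Q), ∀ x : L × L, InT N x → InT N x.1 ∧ InT N x.2 :=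
    diagT (fun x => (club_inT x.1).and (club_inT x.2))
  filter_upwards [h1, h2, h3, fnOk_club (Q := Q) (fun x : L × L => opN (opN (ck Q x.1) (ck Q x.2)) (sbN (z x.1 x.2)))]
    with N h1 h2 h3 h4
  exact ⟨fun a b ha hb => h1 a ha b hb, fun a b ha hb => h2 a ha b hb, h3, h4⟩

end Pool.Agent.TrI
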