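import Pool.Agent.TrI.VDefs3
import Pool.Agent.TrI.K1
import Pool.Agent.TrI.UDefs

set_option autoImplicit false
set_option linter.all false

/-!
# K4: the property `UK` in the model
-/

namespace Pool.Agent.TrI

open Cardinal
open FirstOrder FirstOrder.Language Pool.Agent.H55.SC Pool.Agent.H55.ZFU Pool.Agent.H55.Lav Pool.Agent.SplH
open Pool.Agent.SplC (IsBij IsCard)

variable {Q : Type} [Preorder Q] [OrderTop Q] {L : Type} [LinearOrder L] [WellFoundedLT L]

theorem u_all1 {α : Type} (P : α → Prop) : ∀ᶠ N in club (Un Q), (∀ x, InT N x → P x) → ∀ x, P x := by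
  filter_upwards [u_wit (Q := Q) (fun x => ¬ P x)] with N h h1 x
  by_contra h2
  obtain ⟨a, ha, ha'⟩ := h ⟨x, h2⟩
  exact ha (h1 a ha')

theorem u_all2 {α β : Type} (P : α → β → Prop) : ∀ᶠ N in club (Un Q), (∀ x y, InT N x → InT N y → P x y) → ∀ x y, P x y := by
  have h1 : ∀ᶠ N in club (Un Q), ∀ x : α, InT N x → (∀ y, InT N y → P x y) → ∀ y, P x y := diagT (fun x => u_all1 (P x))
  filter_upwards [u_all1 (Q := Q) (fun x => ∀ y, P x y), h1] with N h h1 h2
  exact h (fun x hx => h1 x hx (fun y hy => h2 x y hx hy))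

theorem u_all3 {α β γ : Type} (P : α → β → γ → Prop) :
    ∀ᶠ N in club (Un Q), (∀ x y z, InT N x → InT N y → InT N z → P x y z) → ∀ x y z, P x y z := by
  have h1 : ∀ᶠ N in club (Un Q), ∀ x : α, InT N x → (∀ y z, InT N y → InT N z → P x y z) → ∀ y z, P x y z :=
    diagT (fun x => u_all2 (P x))
  filter_upwards [u_all1 (Q := Q) (fun x => ∀ y z, P x y z), h1] with N h h1 h2
  exact h (fun x hx => h1 x hx (fun y z hy hz => h2 x y z hx hy hz))

/-! ### Sequences -/

/-- The sequence `s` as a function on `L`. -/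
noncomputable def sqF (D : NDat L) (s : ℕ → L) (x : L) : L := by
  classical
  exact if h : ∃ n, D.nL n = x then s h.choose else D.om

omit [WellFoundedLT L] in
theorem sqF_nL (D : NDat L) (s : ℕ → L) (n : ℕ) : sqF D s (D.nL n) = s n := by
  unfold sqF
  have h : ∃ m, D.nL m = D.nL n := ⟨n, rfl⟩
  rw [dif_pos h, D.nL_inj h.choose_spec]

/-- Closure of `N` under sequences. -/
def SqOk (N : Set (Un Q)) (D : NDat L) : Prop := ∀ s : ℕ → L, InT N s → (∀ n, InT N (s n)) ∧ F4Ok N (fun a _ _ _ => sqF D s a)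

theorem sqOk_club (D : NDat L) : ∀ᶠ N in club (Un Q), SqOk N D := by
  refine diagT (fun s => ?_)
  have h1 : ∀ᶠ N in club (Un Q), ∀ n, InT N (s n) := club_all (fun n => club_inT _)
  filter_upwards [h1, f4Ok_club (Q := Q) (fun a _ _ _ => sqF D s a)] with N h1 h2
  exact ⟨h1, h2⟩

theorem exists_sq {N : Set (Un Q)} {G : Set Q} [Env N G] [LEnv N L] (D : NDat L) [NEnv N D] (h : SqOk N D) {s : ℕ → L}
    (hs : InT N s) : ∃ f : MM N G, ∀ n : ℕ, app f (lv G (D.nN (N := N) n)) = lv G ⟨s n, (h s hs).1 n⟩ := by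
  obtain ⟨f, hf⟩ := exists_fn1 (G := G) (h s hs).2
  refine ⟨f, fun n => ?_⟩
  rw [hf]
  congr 1
  exact Subtype.ext (sqF_nL D s n)

/-! ### Relations of the ground model -/

/-- Closure properties of `N` for the decision of relations. -/
structure DcOk (N : Set (Un Q)) (L : Type) [LinearOrder L] : Prop where
  d : ∀ S : L → L → Set Q, InT N S → ∀ c : L, InT N c → InT N {q | ∃ R : L → L → Prop, DecQ S c q R}
  w : ∀ S : L → L → Set Q, InT N S → ∀ c : L, InT N c → ∀ q : Q, InT N q → (∃ R : L → L → Prop, DecQ S c q R) →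
    ∃ R : L → L → Prop, DecQ S c q R ∧ InT N R

theorem dcOk_club : ∀ᶠ N in club (Un Q), DcOk (Q := Q) N L := by
  have h1 : ∀ᶠ N in club (Un Q), ∀ S : L → L → Set Q, InT N S → ∀ c : L, InT N c → InT N {q | ∃ R : L → L → Prop, DecQ S c q R} :=
    diagT (fun S => diagT (fun c => club_inT _))
  have h2 : ∀ᶠ N in club (Un Q), ∀ S : L → L → Set Q, InT N S → ∀ c : L, InT N c → ∀ q : Q, InT N q →
      (∃ R : L → L → Prop, DecQ S c q R) → ∃ R : L → L → Prop, DecQ S c q R ∧ InT N R :=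
    diagT (fun S => diagT (fun c => diagT (fun q => u_wit _)))
  filter_upwards [h1, h2] with N h1 h2
  exact ⟨h1, h2⟩

/-- A relation of the model on the ordinals below `c` belongs to the ground model. -/
theorem exists_rel {N : Set (Un Q)} {G : Set Q} [Env N G] [LEnv N L] (hd : DcOk (Q := Q) N L) {l : L} (hD : DecP Q l)
    (P : MM N G → MM N G → Prop) [Dfn2 P] (c : LN N L) (hc : c.1 < l) :
    ∃ R : L → L → Prop, InT N R ∧ ∀ i j : LN N L, i < c → j < c → (P (lv G i) (lv G j) ↔ R i.1 j.1) := by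
  have gen : GenF N G := Env.gen
  have qok : QOk N := Env.qok (N := N) (G := G)
  obtain ⟨S, hS, hdec⟩ := dec2 (N := N) (G := G) (L := L) P
  obtain ⟨q, hq, hqc⟩ := gen.gen _ (hd.d S hS c.1 c.2) (fun p => by
    obtain ⟨q, hq, R, hR⟩ := hD S c.1 hc p
    exact ⟨q, ⟨R, hR⟩, hq⟩)
  obtain ⟨R, hR, hRN⟩ := hd.w S hS c.1 c.2 q (gen.sub q hq) hqc
  refine ⟨R, hRN, fun i j hi hj => ?_⟩
  rw [hdec]
  have hSN : InT N (S i.1 j.1) :=
    (LEnv.iok (N := N) (L := L)).app (S i.1) (LEnv.sec S hS i.1 i.2) j.1 j.2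
  constructor
  · intro h
    by_contra h1
    exact not_ht gen hq ((hR i.1 hi j.1 hj).2 h1) h
  · intro h
    exact ht_of_fo qok gen hSN hq ((hR i.1 hi j.1 hj).1 h)

end Pool.Agent.TrI
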