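import Pool.Agent.TrI.K2
import Pool.Agent.TrI.K3

set_option autoImplicit false
set_option linter.all false
universe u

/-!
# K5 (difficulty 3): the transversal is glued together

`Bk c = sep l (fun e => cO e = c)` (the block of `c`), `OkT c T`: for all `e ∈ Bk c`: `T` meets `app A e` minus `c` and `Img omega (inter (app A e minus c) T)`, `app A e minus c = sep (app A e) (fun x => x ∉ c)`.
`block`: for `e0 ∈ l` and `c = cO e0` there is `T` with `OkT c T`: take `c' = cN e0`, `I = Bk c ⊆ c'` (if `e ∈ Bk c` then `e ∈ c'`: otherwise `c' ∈ suc e` is closed, so `c' ⊆ cO e = c = cO e0 ⊆ e0 ∈ c'`), `A' = lam l (fun e => sep (app A e) (fun x => x ∉ c))`; for `e ∈ I`: `app A' e ⊆ c'` (`e ∈ c'`, `Clsd c'`, `app A e ⊆ Yd e`), a bijection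
from `k` by `bij_diff` with `Z = c` and `inter_ctbl` (`c = cO e ∈ suc e`, so `e ∉ c`; `c ∈ l`); finite intersections by `img_mono`. `hK.tr c' I A'`. One may take `T ⊆ l` (intersect with `l`).
`core_k`: choice (`Choice.ac`, H55/Ord, see Ib): a function `τ` with `app τ c ∈ pow l` and `OkT c (app τ c)` for all `c` of the form `cO e`, `e ∈ l` (choose from the nonempty sets `sep (pow l) (fun T => OkT c T)`, `c ∈ img l cO`). `T = sep l (fun y => y ∉ cO y... )`: precisely `T = sep l (fun y => y ∈ app τ (cO y))`.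
For `e ∈ l`, `c = cO e`: a point `y ∈ app A e`, `y ∉ c`, `y ∈ app τ c`: `y ∈ cN e` (`Clsd`), so `cO y = c` (`cO_eq`), `y ∈ T`. `inter (app A e) T ⊆ un (inter (app A e) c) (inter (app A e minus c) (app τ c))` (if `y ∉ c` then `cO y = c`): countable by `inter_ctbl` and `OkT` (`img_un` for `a = omega`, `hC.pair omega`).
-/

namespace Pool.Agent.TrI

open Pool.Agent.H55.SC Pool.Agent.H55.CS Pool.Agent.H55.ZFU
open Pool.Agent.SplH (Img)
open Pool.Agent.SplC (IsBij IsCard)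

variable {M : Type u} [Model M] [Pool.Agent.H55.ZFU.Pure M] [Choice M] {f u l r k A : M}

private theorem K5_mem_cN (hC : CArith M) (hA : UA f u l) (hR : UR f l r)
    (hfin : ∀ ξ η, ξ ∈ l → η ∈ l → ξ ≠ η → ∃ n, n ∈ (omega : M) ∧ Img n (inter (app A ξ) (app A η)))
    (hsub : ∀ ξ, ξ ∈ l → app A ξ ⊆ l) (hsm : ∀ ξ, ξ ∈ l → Img u (app A ξ)) {e y : M} (he : e ∈ l) (hy : y ∈ app A e) :
    y ∈ cN l r A e := by
  obtain ⟨_, h2, h3, _⟩ := cN_spec hC hA hR hfin hsub hsm he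
  exact h3 e h2 y (mem_yd.2 (Or.inr ⟨e, by rw [mem_suc]; exact Or.inr rfl, hy⟩))

private theorem K5_cO_mem (hA : UA f u l) {e : M} (he : e ∈ l) : cO l r A e ∈ l := by
  obtain ⟨h1, _, _, _⟩ := cO_spec (r := r) (A := A) hA he
  rw [mem_suc] at h1
  rcases h1 with h1 | h1
  · exact hA.ul.ord.2.1 e he _ h1
  · rw [h1]; exact he

private theorem K5_not_mem (hA : UA f u l) {e : M} (he : e ∈ l) : e ∉ cO l r A e := by
  intro h
  obtain ⟨h1, _, _, _⟩ := cO_spec (r := r) (A := A) hA he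
  rw [mem_suc] at h1
  rcases h1 with h1 | h1
  · exact not_mem_mem h h1
  · rw [h1] at h; exact not_mem_self _ h

private theorem K5_block (hC : CArith M) (hA : UA f u l) (hR : UR f l r) (hk : IsCard Model.E k) (hok : (omega : M) ∈ k) (hK : UK l k)
    (hfin : ∀ ξ η, ξ ∈ l → η ∈ l → ξ ≠ η → ∃ n, n ∈ (omega : M) ∧ Img n (inter (app A ξ) (app A η)))
    (hsub : ∀ ξ, ξ ∈ l → app A ξ ⊆ l) (hsm : ∀ ξ, ξ ∈ l → Img u (app A ξ)) (hbij : ∀ ξ, ξ ∈ l → ∃ g, IsBij Model.E g k (app A ξ))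
    {e0 : M} (he0 : e0 ∈ l) : ∃ T : M, T ⊆ l ∧ ∀ e, e ∈ l → cO l r A e = cO l r A e0 →
      (∃ y, y ∈ app A e ∧ y ∉ cO l r A e0 ∧ y ∈ T) ∧
        Img (omega : M) (inter (sep (app A e) (fun x => x ∉ cO l r A e0)) T) := by
  have hl : IsOrd l := hA.ul.ord
  obtain ⟨a1, a2, a3, a4⟩ := cO_spec (r := r) (A := A) hA he0
  obtain ⟨b1, b2, b3, b4⟩ := cN_spec hC hA hR hfin hsub hsm he0
  have hcl : cO l r A e0 ∈ l := K5_cO_mem hA he0
  have he0c : e0 ∉ cO l r A e0 := K5_not_mem hA he0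
  obtain ⟨c, hc⟩ : ∃ c : M, c = cO l r A e0 := ⟨_, rfl⟩
  obtain ⟨c', hc'⟩ : ∃ c' : M, c' = cN l r A e0 := ⟨_, rfl⟩
  rw [← hc] at a1 a2 a3 a4 hcl he0c ⊢
  rw [← hc'] at b1 b2 b3 b4
  have hc'o : IsOrd c' := hl.mem b1
  have hI : ∀ e, e ∈ l → cO l r A e = c → e ∈ c' := by
    intro e he hec
    by_contra hn
    have h1 : c' ⊆ e := ord_not_mem (hl.mem he) hc'o hn
    have h2 : c' ∈ suc e := by
      rw [mem_suc]
      exact (ord_sub_iff hc'o (hl.mem he)).1 h1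
    obtain ⟨_, _, _, d4⟩ := cO_spec (r := r) (A := A) hA he
    have h3 := d4 c' h2 b3
    rw [hec] at h3
    exact he0c (h3 e0 b2)
  have i1 : Fn1 (fun e : M => sep (app A e) (fun x => x ∉ c)) := inferInstance
  have i2 : Dfn1 (fun e : M => cO l r A e = c) := inferInstance
  obtain ⟨A', hA'⟩ : ∃ A' : M, A' = lam l (fun e : M => sep (app A e) (fun x => x ∉ c)) := ⟨_, rfl⟩
  obtain ⟨I, hIe⟩ : ∃ I : M, I = sep l (fun e : M => cO l r A e = c) := ⟨_, rfl⟩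
  have hIm : ∀ e, e ∈ I ↔ e ∈ l ∧ cO l r A e = c := by
    intro e
    rw [hIe, mem_sep]
  have hApp : ∀ e, e ∈ l → app A' e = sep (app A e) (fun x => x ∉ c) := by
    intro e he
    rw [hA', app_lam he]
  have i3 : Dfn1 (fun x : M => x ∉ c) := inferInstance
  obtain ⟨T0, hT0⟩ := hK.tr c' I A' b1 (fun e he => hI e ((hIm e).1 he).1 ((hIm e).1 he).2) (by
    intro e he
    rw [hIm] at he
    rw [hApp e he.1]
    constructor
    · intro y hy
      rw [mem_sep] at hy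
      exact b3 e (hI e he.1 he.2) y (mem_yd.2 (Or.inr ⟨e, by rw [mem_suc]; exact Or.inr rfl, hy.1⟩))
    · refine bij_diff hC hk hok (hbij e he.1) ?_
      have hec : e ∉ c := by
        have h := K5_not_mem (r := r) (A := A) hA he.1
        rw [he.2] at h
        exact h
      exact inter_ctbl hC hA hR hcl a3 he.1 hec) (by
    intro e e' he he' hne
    rw [hIm] at he he'
    rw [hApp e he.1, hApp e' he'.1]
    obtain ⟨n, hn, hn'⟩ := hfin e e' he.1 he'.1 hne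
    refine ⟨n, hn, img_mono hn' ?_⟩
    intro y hy
    rw [mem_inter, mem_sep, mem_sep] at hy
    rw [mem_inter]
    exact ⟨hy.1.1, hy.2.1⟩)
  refine ⟨inter T0 l, fun y hy => (mem_inter.1 hy).2, ?_⟩
  intro e he hec
  obtain ⟨⟨y, hy1, hy2⟩, h2⟩ := hT0 e ((hIm e).2 ⟨he, hec⟩)
  rw [hApp e he] at hy1 h2
  rw [mem_sep] at hy1
  refine ⟨⟨y, hy1.1, hy1.2, ?_⟩, img_mono h2 ?_⟩
  · rw [mem_inter]
    exact ⟨hy2, hsub e he y hy1.1⟩
  · intro x hx
    rw [mem_inter, mem_inter] at hx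
    rw [mem_inter]
    exact ⟨hx.1, hx.2.1⟩

theorem core_k (hC : CArith M) (hA : UA f u l) (hR : UR f l r) (hk : IsCard Model.E k) (hok : (omega : M) ∈ k) (hK : UK l k)
    (hfin : ∀ ξ η, ξ ∈ l → η ∈ l → ξ ≠ η → ∃ n, n ∈ (omega : M) ∧ Img n (inter (app A ξ) (app A η)))
    (hsub : ∀ ξ, ξ ∈ l → app A ξ ⊆ l) (hsm : ∀ ξ, ξ ∈ l → Img u (app A ξ)) (hbij : ∀ ξ, ξ ∈ l → ∃ g, IsBij Model.E g k (app A ξ)) :
    ∃ T : M, ∀ ξ, ξ ∈ l → (∃ y, y ∈ app A ξ ∧ y ∈ T) ∧ Img (omega : M) (inter (app A ξ) T) := by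
  obtain ⟨G, hG⟩ : ∃ G : M → M, G = fun c => sep (pow l) (fun T => ∀ e, e ∈ l → cO l r A e = c →
      (∃ y, y ∈ app A e ∧ y ∉ c ∧ y ∈ T) ∧ Img (omega : M) (inter (sep (app A e) (fun x => x ∉ c)) T)) := ⟨_, rfl⟩
  have iG : Fn1 G := by rw [hG]; infer_instance
  have iG' : ∀ {ι : Type} (t : (ι → M) → M) [DFun t], DFun (fun v => G (t v)) := fun t _ => DFun.comp1 (F := G) iG t
  have hGm : ∀ c T : M, T ∈ G c ↔ T ⊆ l ∧ ∀ e, e ∈ l → cO l r A e = c →
      (∃ y, y ∈ app A e ∧ y ∉ c ∧ y ∈ T) ∧ Img (omega : M) (inter (sep (app A e) (fun x => x ∉ c)) T) := by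
    intro c T
    rw [hG]
    show T ∈ sep (pow l) (fun T => ∀ e, e ∈ l → cO l r A e = c →
      (∃ y, y ∈ app A e ∧ y ∉ c ∧ y ∈ T) ∧ Img (omega : M) (inter (sep (app A e) (fun x => x ∉ c)) T)) ↔ _
    rw [mem_sep, mem_pow']
  have hne : ∀ e, e ∈ l → ∃ T, T ∈ G (cO l r A e) := by
    intro e he
    obtain ⟨T, h1, h2⟩ := K5_block hC hA hR hk hok hK hfin hsub hsm hbij he
    exact ⟨T, (hGm _ _).2 ⟨h1, h2⟩⟩
  have i1 : Fn1 (fun e : M => G (cO l r A e)) := inferInstance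
  obtain ⟨c0, hc0⟩ := Choice.ac (img l (fun e : M => G (cO l r A e)))
  have hτ : ∀ e, e ∈ l → app c0 (G (cO l r A e)) ∈ G (cO l r A e) := by
    intro e he
    exact hc0 _ (mem_img.2 ⟨e, he, rfl⟩) (hne e he)
  have i2 : Dfn1 (fun y : M => y ∈ app c0 (G (cO l r A y))) := inferInstance
  refine ⟨sep l (fun y : M => y ∈ app c0 (G (cO l r A y))), ?_⟩
  intro e he
  have h1 := (hGm _ _).1 (hτ e he)
  obtain ⟨⟨y, hy1, hy2, hy3⟩, hct⟩ := h1.2 e he rfl
  have hkey : ∀ x, x ∈ app A e → x ∉ cO l r A e → cO l r A x = cO l r A e := by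
    intro x hx hxc
    exact cO_eq hC hA hR hfin hsub hsm he hxc (K5_mem_cN hC hA hR hfin hsub hsm he hx)
  constructor
  · refine ⟨y, hy1, ?_⟩
    rw [mem_sep]
    refine ⟨hsub e he y hy1, ?_⟩
    rw [hkey y hy1 hy2]
    exact hy3
  · have hp : Img (omega : M) (prod omega omega) := hC.pair omega omega_ord (Sub.refl _)
    have hic : Img (omega : M) (inter (app A e) (cO l r A e)) :=
      inter_ctbl hC hA hR (K5_cO_mem hA he) (cO_spec (r := r) (A := A) hA he).2.2.1 he (K5_not_mem hA he)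
    refine img_mono (img_un hp empty_mem_omega (suc_mem_omega empty_mem_omega) (fun h => suc_ne_empty ∅ h.symm) hic hct) ?_
    intro x hx
    rw [mem_inter, mem_sep] at hx
    rw [mem_un]
    by_cases hxc : x ∈ cO l r A e
    · left
      rw [mem_inter]
      exact ⟨hx.1, hxc⟩
    · right
      have h2 := hx.2.2
      rw [hkey x hx.1 hxc] at h2
      have i3 : Dfn1 (fun x : M => x ∉ cO l r A e) := inferInstance
      rw [mem_inter, mem_sep]
      exact ⟨⟨hx.1, hxc⟩, h2⟩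

end Pool.Agent.TrI
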