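import Pool.Agent.TrI.K5

set_option autoImplicit false
set_option linter.all false
universe u

/-!
# K6 (difficulty 3): `ℵ_{ω+1}` is good for `(k, ℵ_0)`, `ω < k ≤ ℵ_ω`

`core_k'`: the same without `hsub`: `U = bigU (img l (fun ξ => app A ξ))`; `Img l U` (`img_bigU` for `a = b = l`, `hC.pair l`, `Img u (app A ξ)`, `u ⊆ l`); let `s` cover `U` from `l`; `j y = mu (fun x => x ∈ l ∧ app s x = y)` is an injection from `U` to `l` (`app s (j y) = y`). `A' = lam l (fun ξ => img (app A ξ) j)`. `core_k` for `A'`: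
bijections: compose with `j` (`isBij_iff`), finite intersections: `inter (img a j) (img b j) = img (inter a b) j` (`img_img`). `T = sep U (fun y => j y ∈ T')`; `Img omega (inter (app A ξ) T)` by `img_inj` with `j` and `img_trans`.
`good_k`: as `good_int` (R5): `F`, `f0` with `IsBij f0 l F`, `A = f0`; `hsm` from the bijection and `k ⊆ u`.
-/

namespace Pool.Agent.TrI

open Pool.Agent.H55.SC Pool.Agent.H55.CS Pool.Agent.H55.ZFU
open Pool.Agent.SplH (Img isOrdinal_iff isSurj_iff isBij_iff surj_img img_surj)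
open Pool.Agent.SplC (IsBij IsCard)

variable {M : Type u} [Model M] [Pool.Agent.H55.ZFU.Pure M] [Choice M] {f u l r k A : M}


theorem core_k' (hC : CArith M) (hA : UA f u l) (hR : UR f l r) (hk : IsCard Model.E k) (hok : (omega : M) ∈ k) (hK : UK l k)
    (hfin : ∀ ξ η, ξ ∈ l → η ∈ l → ξ ≠ η → ∃ n, n ∈ (omega : M) ∧ Img n (inter (app A ξ) (app A η)))
    (hsm : ∀ ξ, ξ ∈ l → Img u (app A ξ)) (hbij : ∀ ξ, ξ ∈ l → ∃ g, IsBij Model.E g k (app A ξ)) :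
    ∃ T : M, ∀ ξ, ξ ∈ l → (∃ y, y ∈ app A ξ ∧ y ∈ T) ∧ Img (omega : M) (inter (app A ξ) T) := by
  have hl : IsOrd l := hA.ul.ord
  have hul : u ⊆ l := hl.sub hA.ul.mem
  have hωl : (omega : M) ⊆ l := Sub.trans (hA.u_ord.sub (om_u hA)) hul
  have hpl : Img l (prod l l) := hC.pair l hl hωl
  have i0 : Fn1 (fun ξ : M => app A ξ) := inferInstance
  obtain ⟨U, hU⟩ : ∃ U : M, U = bigU (img l (fun ξ : M => app A ξ)) := ⟨_, rfl⟩
  have hUm : ∀ y : M, y ∈ U ↔ ∃ ξ, ξ ∈ l ∧ y ∈ app A ξ := by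
    intro y
    rw [hU, mem_bigU]
    constructor
    · rintro ⟨z, hz, hy⟩
      rw [mem_img] at hz
      obtain ⟨ξ, hξ, rfl⟩ := hz
      exact ⟨ξ, hξ, hy⟩
    · rintro ⟨ξ, hξ, hy⟩
      exact ⟨app A ξ, mem_img.2 ⟨ξ, hξ, rfl⟩, hy⟩
  have hUi : Img l U := by
    rw [hU]
    exact img_bigU (fun ξ : M => app A ξ) hpl (img_refl l) (fun ξ hξ => img_dom (hsm ξ hξ) hul)
  obtain ⟨s, hs⟩ := hUi
  obtain ⟨j, hj⟩ : ∃ j : M → M, j = fun y => mu (fun x => x ∈ l ∧ app s x = y) := ⟨_, rfl⟩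
  have ij : Fn1 j := by rw [hj]; infer_instance
  have ij' : ∀ {ι : Type} (t : (ι → M) → M) [DFun t], DFun (fun v => j (t v)) := fun t _ => DFun.comp1 (F := j) ij t
  have hjs : ∀ y, y ∈ U → j y ∈ l ∧ app s (j y) = y := by
    intro y hy
    obtain ⟨x, hx, hxy⟩ := hs y hy
    have i1 : Dfn1 (fun x : M => x ∈ l ∧ app s x = y) := inferInstance
    obtain ⟨_, h2, _⟩ := mu_spec (fun x : M => x ∈ l ∧ app s x = y) ⟨x, hl.mem hx, hx, hxy⟩
    rw [hj]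
    exact h2
  have hjinj : ∀ y y', y ∈ U → y' ∈ U → j y = j y' → y = y' := by
    intro y y' hy hy' he
    rw [← (hjs y hy).2, he, (hjs y' hy').2]
  have i2 : Fn1 (fun ξ : M => img (app A ξ) j) := inferInstance
  obtain ⟨A', hA'⟩ : ∃ A' : M, A' = lam l (fun ξ : M => img (app A ξ) j) := ⟨_, rfl⟩
  have hApp : ∀ ξ, ξ ∈ l → app A' ξ = img (app A ξ) j := by
    intro ξ hξ
    rw [hA', app_lam hξ]
  have hAU : ∀ ξ, ξ ∈ l → ∀ y, y ∈ app A ξ → y ∈ U := fun ξ hξ y hy => (hUm y).2 ⟨ξ, hξ, hy⟩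
  obtain ⟨T', hT'⟩ := core_k (A := A') hC hA hR hk hok hK (by
    intro ξ η hξ hη hne
    rw [hApp ξ hξ, hApp η hη]
    obtain ⟨n, hn, hn'⟩ := hfin ξ η hξ hη hne
    refine ⟨n, hn, img_mono (img_img j hn') ?_⟩
    intro x hx
    rw [mem_inter, mem_img, mem_img] at hx
    obtain ⟨⟨y, hy, rfl⟩, y', hy', he⟩ := hx
    rw [mem_img]
    have hyy : y = y' := hjinj y y' (hAU ξ hξ y hy) (hAU η hη y' hy') he
    refine ⟨y, ?_, rfl⟩
    rw [mem_inter]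
    refine ⟨hy, ?_⟩
    rw [hyy]
    exact hy') (by
    intro ξ hξ x hx
    rw [hApp ξ hξ, mem_img] at hx
    obtain ⟨y, hy, rfl⟩ := hx
    exact (hjs y (hAU ξ hξ y hy)).1) (by
    intro ξ hξ
    rw [hApp ξ hξ]
    exact img_img j (hsm ξ hξ)) (by
    intro ξ hξ
    rw [hApp ξ hξ]
    obtain ⟨g, hg⟩ := hbij ξ hξ
    rw [isBij_iff] at hg
    obtain ⟨g1, g2, g3, g4⟩ := hg
    have i3 : Fn1 (fun x : M => j (app g x)) := inferInstance
    refine ⟨lam k (fun x : M => j (app g x)), isBij_iff.2 ⟨lam_fnOn _ _, ?_, ?_, ?_⟩⟩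
    · intro x hx
      rw [app_lam hx, mem_img]
      exact ⟨app g x, g2 x hx, rfl⟩
    · intro z hz
      rw [mem_img] at hz
      obtain ⟨y, hy, rfl⟩ := hz
      obtain ⟨x, hx, rfl⟩ := g3 y hy
      exact ⟨x, hx, by rw [app_lam hx]⟩
    · intro x x' hx hx' he
      rw [app_lam hx, app_lam hx'] at he
      exact g4 x x' hx hx' (hjinj _ _ (hAU ξ hξ _ (g2 x hx)) (hAU ξ hξ _ (g2 x' hx')) he))
  have i4 : Dfn1 (fun y : M => j y ∈ T') := inferInstance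
  refine ⟨sep U (fun y : M => j y ∈ T'), ?_⟩
  intro ξ hξ
  obtain ⟨⟨z, hz1, hz2⟩, hct⟩ := hT' ξ hξ
  rw [hApp ξ hξ] at hz1 hct
  constructor
  · rw [mem_img] at hz1
    obtain ⟨y, hy, rfl⟩ := hz1
    refine ⟨y, hy, ?_⟩
    rw [mem_sep]
    exact ⟨hAU ξ hξ y hy, hz2⟩
  · refine img_trans hct (img_inj j ?_ ?_)
    · intro y hy
      rw [mem_inter, mem_sep] at hy
      rw [mem_inter, mem_img]
      exact ⟨⟨y, hy.1, rfl⟩, hy.2.2⟩
    · intro y y' hy hy' he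
      rw [mem_inter, mem_sep] at hy hy'
      exact hjinj y y' hy.2.1 hy'.2.1 he

theorem good_k (hC : CArith M) (hA : UA f u l) (hR : UR f l r) (hk : IsCard Model.E k) (hok : (omega : M) ∈ k) (hku : k ⊆ u)
    (hK : UK l k) : IsGoodFor Model.E k (omega : M) l := by
  intro F f0 hf0 hbij hdeg c hc
  rw [isBij_iff] at hf0
  obtain ⟨f1, f2, f3, f4⟩ := hf0
  rw [succCard_iff] at hc
  have hfin : ∀ ξ η, ξ ∈ l → η ∈ l → ξ ≠ η → ∃ n, n ∈ (omega : M) ∧ Img n (inter (app f0 ξ) (app f0 η)) := by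
    intro ξ η hξ hη hne
    rw [← smaller_omega]
    exact hdeg.2.1 (app f0 ξ) (app f0 η) _ (f2 ξ hξ) (f2 η hη) (fun he => hne (f4 ξ η hξ hη he)) (fun x => mem_inter)
  have hsm : ∀ ξ, ξ ∈ l → Img u (app f0 ξ) := by
    intro ξ hξ
    obtain ⟨g, hg⟩ := hbij _ (f2 ξ hξ)
    rw [isBij_iff] at hg
    exact img_dom ⟨g, fun y hy => hg.2.2.1 y hy⟩ hku
  obtain ⟨T, hT⟩ := core_k' hC hA hR hk hok hK hfin hsm (fun ξ hξ => hbij _ (f2 ξ hξ))
  refine ⟨T, ?_⟩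
  intro a i ha hi
  obtain ⟨ξ, hξ, rfl⟩ := f3 a ha
  obtain ⟨⟨y, hy1, hy2⟩, h2⟩ := hT ξ hξ
  have hie : i = inter (app f0 ξ) T := by
    apply Pool.Agent.H55.ZFU.ext
    intro x
    rw [mem_inter]
    exact hi x
  constructor
  · exact ⟨y, (hi y).2 ⟨hy1, hy2⟩⟩
  · rw [smaller_succ hc, hie]
    exact h2

end Pool.Agent.TrI
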