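import Pool.Agent.TrI.K4

set_option autoImplicit false
set_option linter.all false

/-!
# K7: the property `UK` in the model
-/

namespace Pool.Agent.TrI

open Cardinal
open FirstOrder FirstOrder.Language Pool.Agent.H55.SC Pool.Agent.H55.ZFU Pool.Agent.H55.Lav Pool.Agent.SplH
open Pool.Agent.SplC (IsBij IsCard)

variable {Q : Type} [Preorder Q] [OrderTop Q] {L : Type} [LinearOrder L] [WellFoundedLT L]

/-- `B` is a bijection between the elements below `k` and the elements `x < c` with `V x`. -/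
structure BjR (k c : L) (V : L → Prop) (B : L → L → Prop) : Prop where
  ja : ∀ y, y < k → ∃ x, x < c ∧ V x ∧ B y x
  jb : ∀ y x x', y < k → (x < c ∧ V x) → (x' < c ∧ V x') → B y x → B y x' → x = x'
  jc : ∀ x y y', (x < c ∧ V x) → y < k → y' < k → B y x → B y' x → y = y'
  jd : ∀ x, x < c ∧ V x → ∃ y, y < k ∧ B y x

omit [WellFoundedLT L] in
theorem bjr_card {k c : L} {V : L → Prop} {B : L → L → Prop} (h : BjR k c V B) : #{x | x < c ∧ V x} = #(Set.Iio k) := by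
  apply le_antisymm
  · choose g hg using fun x : {x | x < c ∧ V x} => h.jd x.1 x.2
    refine Cardinal.mk_le_of_injective (f := fun x => (⟨g x, (hg x).1⟩ : Set.Iio k)) (fun x x' hxx => ?_)
    have h1 : g x = g x' := congrArg Subtype.val hxx
    have h2 := (hg x).2
    rw [h1] at h2
    exact Subtype.ext (h.jb (g x') x.1 x'.1 (hg x').1 x.2 x'.2 h2 (hg x').2)
  · choose g hg using fun y : Set.Iio k => h.ja y.1 y.2
    refine Cardinal.mk_le_of_injective (f := fun y => (⟨g y, (hg y).1, (hg y).2.1⟩ : {x | x < c ∧ V x})) (fun y y' hyy => ?_)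
    have h1 : g y = g y' := congrArg Subtype.val hyy
    have h2 := (hg y).2.2
    rw [h1] at h2
    exact Subtype.ext (h.jc (g y') y.1 y'.1 ⟨(hg y').1, (hg y').2.1⟩ y.2 y'.2 h2 (hg y').2.2)

/-- The version of `BjR` in `N`. -/
structure BjN (N : Set (Un Q)) (k c : L) (V : L → Prop) (B : L → L → Prop) : Prop where
  ja : ∀ y, InT N y → y < k → ∃ x, x < c ∧ V x ∧ B y x
  jb : ∀ y x x', InT N y → InT N x → InT N x' → y < k → (x < c ∧ V x) → (x' < c ∧ V x') → B y x → B y x' → x = x'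
  jc : ∀ x y y', InT N x → InT N y → InT N y' → (x < c ∧ V x) → y < k → y' < k → B y x → B y' x → y = y'
  jd : ∀ x, InT N x → x < c ∧ V x → ∃ y, y < k ∧ B y x

theorem bjn_club (k c : L) (V : L → Prop) (B : L → L → Prop) : ∀ᶠ N in club (Un Q), BjN N k c V B → BjR k c V B := by
  filter_upwards [u_all1 (Q := Q) (fun y => y < k → ∃ x, x < c ∧ V x ∧ B y x),
    u_all3 (Q := Q) (fun y x x' => y < k → (x < c ∧ V x) → (x' < c ∧ V x') → B y x → B y x' → x = x'),
    u_all3 (Q := Q) (fun x y y' => (x < c ∧ V x) → y < k → y' < k → B y x → B y' x → y = y'),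
    u_all1 (Q := Q) (fun x => x < c ∧ V x → ∃ y, y < k ∧ B y x)] with N h1 h2 h3 h4 h
  exact ⟨h1 h.ja, h2 h.jb, h3 h.jc, h4 h.jd⟩

/-- The first hypothesis of `TrC` at `e`. -/
def TrA (k c : L) (R : L → L → Prop) (e : L) : Prop := #{x | x < c ∧ R e x} = #(Set.Iio k)

/-- The second hypothesis of `TrC` at `e`, `e'`, `s`. -/
def TrB (c : L) (R : L → L → Prop) (e e' : L) (s : ℕ → L) : Prop :=
  ¬ (Function.Injective s ∧ ∀ n, s n < c ∧ R e (s n) ∧ R e' (s n))

/-- The index set given by a relation. -/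
def ix (c : L) (RI : L → L → Prop) : Set L := {e | e < c ∧ RI e e}

/-- The conclusion of `TrC`. -/
def TrT (c : L) (I : Set L) (R : L → L → Prop) (T : Set L) : Prop :=
  ∀ e ∈ I, (∃ x ∈ T, x < c ∧ R e x) ∧ ∃ s : ℕ → L, ∀ x ∈ T, x < c → R e x → ∃ n, s n = x

/-- Closure properties for `TrC`. -/
structure TcOk (N : Set (Un Q)) (L : Type) [LinearOrder L] : Prop where
  bj : ∀ R : L → L → Prop, InT N R → ∀ e : L, InT N e → ∀ B : L → L → Prop, InT N B → ∀ k : L, InT N k → ∀ c : L, InT N c →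
    BjN N k c (R e) B → BjR k c (R e) B
  ta : ∀ R : L → L → Prop, InT N R → ∀ k : L, InT N k → ∀ c : L, InT N c → ∀ RI : L → L → Prop, InT N RI →
    (∀ e, InT N e → e ∈ ix c RI → TrA k c R e) → ∀ e, e ∈ ix c RI → TrA k c R e
  tb : ∀ R : L → L → Prop, InT N R → ∀ c : L, InT N c → ∀ RI : L → L → Prop, InT N RI →
    (∀ (e e' : L) (s : ℕ → L), InT N e → InT N e' → InT N s → e ∈ ix c RI → e' ∈ ix c RI → e ≠ e' → TrB c R e e' s) →
      ∀ (e e' : L) (s : ℕ → L), e ∈ ix c RI → e' ∈ ix c RI → e ≠ e' → TrB c R e e' s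
  tt : ∀ R : L → L → Prop, InT N R → ∀ c : L, InT N c → ∀ RI : L → L → Prop, InT N RI →
    (∃ T, TrT c (ix c RI) R T) → ∃ T, TrT c (ix c RI) R T ∧ InT N T
  sN : ∀ T : Set L, InT N T → InT N (fun i : L => {q : Q | i ∈ T})
  tx : ∀ R : L → L → Prop, InT N R → ∀ c : L, InT N c → ∀ T : Set L, InT N T → ∀ e : L, InT N e →
    (∃ x, x ∈ T ∧ x < c ∧ R e x) → ∃ x, (x ∈ T ∧ x < c ∧ R e x) ∧ InT N x
  ts : ∀ R : L → L → Prop, InT N R → ∀ c : L, InT N c → ∀ T : Set L, InT N T → ∀ e : L, InT N e →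
    (∃ s : ℕ → L, ∀ x ∈ T, x < c → R e x → ∃ n, s n = x) → ∃ s : ℕ → L, (∀ x ∈ T, x < c → R e x → ∃ n, s n = x) ∧ InT N s

theorem tcOk_club : ∀ᶠ N in club (Un Q), TcOk (Q := Q) N L := by
  have h1 : ∀ᶠ N in club (Un Q), ∀ R : L → L → Prop, InT N R → ∀ e : L, InT N e → ∀ B : L → L → Prop, InT N B → ∀ k : L, InT N k →
      ∀ c : L, InT N c → BjN N k c (R e) B → BjR k c (R e) B :=
    diagT (fun R => diagT (fun e => diagT (fun B => diagT (fun k => diagT (fun c => bjn_club _ _ _ _)))))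
  have h2 : ∀ᶠ N in club (Un Q), ∀ R : L → L → Prop, InT N R → ∀ k : L, InT N k → ∀ c : L, InT N c →
      ∀ RI : L → L → Prop, InT N RI → (∀ e, InT N e → e ∈ ix c RI → TrA k c R e) → ∀ e, e ∈ ix c RI → TrA k c R e :=
    diagT (fun R => diagT (fun k => diagT (fun c => diagT (fun RI => u_all1 _))))
  have h3 : ∀ᶠ N in club (Un Q), ∀ R : L → L → Prop, InT N R → ∀ c : L, InT N c → ∀ RI : L → L → Prop, InT N RI →
      (∀ (e e' : L) (s : ℕ → L), InT N e → InT N e' → InT N s → e ∈ ix c RI → e' ∈ ix c RI → e ≠ e' → TrB c R e e' s) →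
        ∀ (e e' : L) (s : ℕ → L), e ∈ ix c RI → e' ∈ ix c RI → e ≠ e' → TrB c R e e' s :=
    diagT (fun R => diagT (fun c => diagT (fun RI => u_all3 _)))
  have h4 : ∀ᶠ N in club (Un Q), ∀ R : L → L → Prop, InT N R → ∀ c : L, InT N c → ∀ RI : L → L → Prop, InT N RI →
      (∃ T, TrT c (ix c RI) R T) → ∃ T, TrT c (ix c RI) R T ∧ InT N T :=
    diagT (fun R => diagT (fun c => diagT (fun RI => u_wit _)))
  have h5 : ∀ᶠ N in club (Un Q), ∀ T : Set L, InT N T → InT N (fun i : L => {q : Q | i ∈ T}) :=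
    diagT (fun T => club_inT _)
  have h6 : ∀ᶠ N in club (Un Q), ∀ R : L → L → Prop, InT N R → ∀ c : L, InT N c → ∀ T : Set L, InT N T → ∀ e : L, InT N e →
      (∃ x, x ∈ T ∧ x < c ∧ R e x) → ∃ x, (x ∈ T ∧ x < c ∧ R e x) ∧ InT N x :=
    diagT (fun R => diagT (fun c => diagT (fun T => diagT (fun e => u_wit _))))
  have h7 : ∀ᶠ N in club (Un Q), ∀ R : L → L → Prop, InT N R → ∀ c : L, InT N c → ∀ T : Set L, InT N T → ∀ e : L, InT N e →
      (∃ s : ℕ → L, ∀ x ∈ T, x < c → R e x → ∃ n, s n = x) →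
        ∃ s : ℕ → L, (∀ x ∈ T, x < c → R e x → ∃ n, s n = x) ∧ InT N s :=
    diagT (fun R => diagT (fun c => diagT (fun T => diagT (fun e => u_wit _))))
  filter_upwards [h1, h2, h3, h4, h5, h6, h7] with N h1 h2 h3 h4 h5 h6 h7
  exact ⟨h1, h2, h3, h4, h5, h6, h7⟩

end Pool.Agent.TrI
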