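import Pool.Agent.TrI.K7
import Pool.Agent.TrI.Ic

set_option autoImplicit false
set_option linter.all false

/-!
# K8: the property `UK` in the model
-/

namespace Pool.Agent.TrI

open Cardinal
open FirstOrder FirstOrder.Language Pool.Agent.H55.SC Pool.Agent.H55.ZFU Pool.Agent.H55.Lav Pool.Agent.SplH
open Pool.Agent.SplC (IsBij IsCard)

variable {Q : Type} [Preorder Q] [OrderTop Q] {L : Type} [LinearOrder L] [WellFoundedLT L]

theorem uk_club {D : ADat L} (hdec : DecP Q D.l) (htr : ∀ k : L, D.al 1 ≤ k → k ≤ D.u → TrP k D.l) :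
    ∀ᶠ N in club (Un Q), ∀ (G : Set Q) [Env N G] [LEnv N L] [AEnv N D] (k : LN N L), D.al 1 ≤ k.1 → k.1 ≤ D.u →
      UK (lv G (D.lN (N := N))) (lv G k) := by
  filter_upwards [sqOk_club (Q := Q) D.toNDat, dcOk_club (Q := Q) (L := L), tcOk_club (Q := Q) (L := L)] with
    N hsq hd ht G _ _ _ k hk1 hku
  have gen : GenF N G := Env.gen
  have htop : (⊤ : Q) ∈ G := top_mem (Env.ok (N := N) (G := G)) gen
  refine ⟨fun c I A hc hIc hA hfin => ?_⟩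
  obtain ⟨c, hcl, rfl⟩ := mem_lv.mp hc
  -- the bound for the decision of relations
  obtain ⟨m, hml, hkm, hcm⟩ : ∃ m : LN N L, m.1 < D.l ∧ (∀ i : LN N L, i < k → i < m) ∧ (∀ i : LN N L, i < c → i < m) := by
    rcases le_total k c with h | h
    · exact ⟨c, hcl, fun i hi => hi.trans_le h, fun i hi => hi⟩
    · exact ⟨k, lt_of_le_of_lt hku D.u_lt, fun i hi => hi, fun i hi => hi.trans_le h⟩
  obtain ⟨RA, hRA, hRA'⟩ := exists_rel (N := N) (G := G) hd hdec (fun e x : MM N G => x ∈ app A e) m hml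
  obtain ⟨RI, hRI, hRI'⟩ := exists_rel (N := N) (G := G) hd hdec (fun e x : MM N G => e ∈ I) m hml
  have hix : ∀ e : LN N L, e.1 ∈ ix c.1 RI → lv G e ∈ I ∧ e < c := by
    rintro e ⟨h1, h2⟩
    exact ⟨(hRI' e e (hcm e h1) (hcm e h1)).mpr h2, h1⟩
  have hix' : ∀ e : MM N G, e ∈ I → ∃ e' : LN N L, e = lv G e' ∧ e'.1 ∈ ix c.1 RI ∧ e' < c := by
    intro e he
    obtain ⟨e', he', rfl⟩ := mem_lv.mp (hIc e he)
    exact ⟨e', rfl, ⟨he', (hRI' e' e' (hcm e' he') (hcm e' he')).mp he⟩, he'⟩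
  have hAx : ∀ e x : LN N L, e < c → x < c → (lv G x ∈ app A (lv G e) ↔ RA e.1 x.1) := fun e x he hx =>
    hRA' e x (hcm e he) (hcm x hx)
  -- first hypothesis
  have hTA : ∀ e, e ∈ ix c.1 RI → TrA k.1 c.1 RA e := by
    refine ht.ta RA hRA k.1 k.2 c.1 c.2 RI hRI (fun e heN he => ?_)
    obtain ⟨heI, hec⟩ := hix ⟨e, heN⟩ he
    obtain ⟨hAc, g, hg⟩ := hA _ heI
    have hg' := isBij_iff.1 hg
    obtain ⟨B, hB, hB'⟩ := exists_rel (N := N) (G := G) hd hdec (fun y x : MM N G => app g y = x) m hml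
    refine bjr_card (ht.bj RA hRA e heN B hB k.1 k.2 c.1 c.2 ⟨?_, ?_, ?_, ?_⟩)
    · intro y hyN hy
      have h1 := hg'.2.1 _ (show lv G ⟨y, hyN⟩ ∈ lv G k from lv_lt.mpr hy)
      obtain ⟨x, hx, hx'⟩ := mem_lv.mp (hAc _ h1)
      refine ⟨x.1, hx, ?_, ?_⟩
      · rw [hx'] at h1
        exact (hAx ⟨e, heN⟩ x hec hx).mp h1
      · exact (hB' ⟨y, hyN⟩ x (hkm _ hy) (hcm _ hx)).mp hx'
    · intro y x x' hyN hxN hxN' hy hx hx' h1 h2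
      have h3 := (hB' ⟨y, hyN⟩ ⟨x, hxN⟩ (hkm _ hy) (hcm _ hx.1)).mpr h1
      have h4 := (hB' ⟨y, hyN⟩ ⟨x', hxN'⟩ (hkm _ hy) (hcm _ hx'.1)).mpr h2
      exact congrArg Subtype.val (lv_inj (h3.symm.trans h4))
    · intro x y y' hxN hyN hyN' hx hy hy' h1 h2
      have h3 := (hB' ⟨y, hyN⟩ ⟨x, hxN⟩ (hkm _ hy) (hcm _ hx.1)).mpr h1
      have h4 := (hB' ⟨y', hyN'⟩ ⟨x, hxN⟩ (hkm _ hy') (hcm _ hx.1)).mpr h2
      have h5 := hg'.2.2.2 _ _ (show lv G ⟨y, hyN⟩ ∈ lv G k from lv_lt.mpr hy)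
        (show lv G ⟨y', hyN'⟩ ∈ lv G k from lv_lt.mpr hy') (h3.trans h4.symm)
      exact congrArg Subtype.val (lv_inj h5)
    · intro x hxN hx
      have h1 := (hAx ⟨e, heN⟩ ⟨x, hxN⟩ hec hx.1).mpr hx.2
      obtain ⟨y, hy, hy'⟩ := hg'.2.2.1 _ h1
      obtain ⟨y, hyk, rfl⟩ := mem_lv.mp hy
      exact ⟨y.1, hyk, (hB' y ⟨x, hxN⟩ (hkm _ hyk) (hcm _ hx.1)).mp hy'⟩
  -- second hypothesis
  have hTB : ∀ (e e' : L) (s : ℕ → L), e ∈ ix c.1 RI → e' ∈ ix c.1 RI → e ≠ e' → TrB c.1 RA e e' s := by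
    refine ht.tb RA hRA c.1 c.2 RI hRI (fun e e' s heN heN' hsN he he' hne => ?_)
    rintro ⟨hinj, hs⟩
    obtain ⟨heI, hec⟩ := hix ⟨e, heN⟩ he
    obtain ⟨heI', hec'⟩ := hix ⟨e', heN'⟩ he'
    obtain ⟨n, hn, him⟩ := hfin _ _ heI heI' (fun h => hne (congrArg Subtype.val (lv_inj h)))
    obtain ⟨w, hw⟩ := exists_sq (G := G) D.toNDat hsq hsN
    refine omega_nimg hn (img_trans him (img_inj (fun x : MM N G => app w x) ?_ ?_))
    · intro y hy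
      obtain ⟨j, rfl⟩ := (mem_om D.toNDat).mp hy
      show app w _ ∈ _
      rw [hw, mem_inter]
      exact ⟨(hAx ⟨e, heN⟩ ⟨s j, _⟩ hec (hs j).1).mpr (hs j).2.1, (hAx ⟨e', heN'⟩ ⟨s j, _⟩ hec' (hs j).1).mpr (hs j).2.2⟩
    · intro y y' hy hy' h
      obtain ⟨j, rfl⟩ := (mem_om D.toNDat).mp hy
      obtain ⟨j', rfl⟩ := (mem_om D.toNDat).mp hy'
      have h' : app w (lv G (D.toNDat.nN (N := N) j)) = app w (lv G (D.toNDat.nN (N := N) j')) := h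
      rw [hw, hw] at h'
      have h1 : s j = s j' := congrArg Subtype.val (lv_inj h')
      rw [hinj h1]
  obtain ⟨T, hT, hTN⟩ := ht.tt RA hRA c.1 c.2 RI hRI
    (htr k.1 hk1 hku c.1 hcl (ix c.1 RI) RA (fun e he => he.1) (fun e he => hTA e he)
      (fun e he e' he' hne s => hTB e e' s he he' hne))
  obtain ⟨t, ht'⟩ := exists_set (N := N) (G := G) (ht.sN T hTN)
  have htm : ∀ x : LN N L, lv G x ∈ t ↔ x.1 ∈ T := by
    intro x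
    rw [ht']
    constructor
    · rintro ⟨i, hi, q, hq, hq'⟩
      rw [lv_inj hi]
      exact hq'
    · intro hx
      exact ⟨x, rfl, ⊤, htop, hx⟩
  refine ⟨t, fun e he => ?_⟩
  obtain ⟨e, rfl, hei, hec⟩ := hix' e he
  obtain ⟨hAc, _⟩ := hA _ he
  constructor
  · obtain ⟨x, hxT, hxc, hRx⟩ := (hT e.1 hei).1
    obtain ⟨x, ⟨hxT, hxc, hRx⟩, hxN⟩ := ht.tx RA hRA c.1 c.2 T hTN e.1 e.2 ⟨x, hxT, hxc, hRx⟩
    exact ⟨lv G ⟨x, hxN⟩, (hAx e ⟨x, hxN⟩ hec hxc).mpr hRx, (htm ⟨x, hxN⟩).mpr hxT⟩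
  · obtain ⟨s, hs, hsN⟩ := ht.ts RA hRA c.1 c.2 T hTN e.1 e.2 (hT e.1 hei).2
    obtain ⟨w, hw⟩ := exists_sq (G := G) D.toNDat hsq hsN
    refine ⟨w, fun y hy => ?_⟩
    rw [mem_inter] at hy
    obtain ⟨x, hxc, rfl⟩ := mem_lv.mp (hAc _ hy.1)
    obtain ⟨n, hn⟩ := hs x.1 ((htm x).mp hy.2) hxc ((hAx e x hec hxc).mp hy.1)
    refine ⟨lv G (D.toNDat.nN (N := N) n), (mem_om D.toNDat).mpr ⟨n, rfl⟩, ?_⟩
    rw [hw]
    congr 1
    exact Subtype.ext hn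

end Pool.Agent.TrI
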