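import Pool.Agent.TrI.R3

set_option autoImplicit false
set_option linter.all false
universe u

/-!
# R4 (difficulty 3): the greedy choice of the transversal

`Cand l r A h ξ`: if some earlier point `app h a`, `a ∈ ξ`, belongs to `app A ξ`, the set of these points, otherwise the points of `app A ξ` which belong to no `app A η` with a dead `η ≠ ξ`.
`cand_ne`: in the second case, if there is no such point then `app A ξ` is the union of the finite sets `inter (app A η) (app A ξ)`, `η ∈ Dead` minus `ξ`, so `Img u (app A ξ)` (`img_bigU`, `dead_img`, `pair_u`), contradiction.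
`cand_congr`: `Cand` depends only on the values `app h a` for `a ∈ ξ` (`g ∈ ξ`, `a ∈ g` imply `a ∈ ξ`, `ξ` is an ordinal).
`exists_t`: choice function `c` for `pow X`, `X = bigU (img l (app A))` (`Choice.ac`): by `exists_rec` (as in the proof of `wellorder`, H55/Ord) there is `Tf : M → M`, `Fn1`, with `Tf ξ = app c (Cand l r A (lam ξ Tf) ξ)`. Let `t = lam l Tf`; for `ξ ∈ l`: `Cand l r A (lam ξ Tf) ξ = Cand l r A t ξ` by `cand_congr`; it is a
nonempty subset of `X`.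
-/

namespace Pool.Agent.TrI

open Pool.Agent.H55.SC Pool.Agent.H55.CS Pool.Agent.H55.ZFU
open Pool.Agent.SplH (Img)

variable {M : Type u} [Model M]

/-- The candidates for the point chosen at stage `ξ`. -/
noncomputable def Cand (l r A h ξ : M) : M :=
  sep (app A ξ) (fun y => (∃ a, a ∈ ξ ∧ app h a = y) ∨
    ((¬ ∃ a, a ∈ ξ ∧ app h a ∈ app A ξ) ∧ ∀ η, η ∈ Dead l r A h ξ → η ≠ ξ → y ∉ app A η))

theorem mem_cand {l r A h ξ y : M} : y ∈ Cand l r A h ξ ↔ y ∈ app A ξ ∧ ((∃ a, a ∈ ξ ∧ app h a = y) ∨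
    ((¬ ∃ a, a ∈ ξ ∧ app h a ∈ app A ξ) ∧ ∀ η, η ∈ Dead l r A h ξ → η ≠ ξ → y ∉ app A η)) := by
  unfold Cand
  rw [mem_sep]

instance cand_dfun {ι : Type} (l r A h ξ : (ι → M) → M) [DFun l] [DFun r] [DFun A] [DFun h] [DFun ξ] :
    DFun (fun v => Cand (l v) (r v) (A v) (h v) (ξ v)) :=
  dfun_comp5 (F := Cand) (by unfold Cand; infer_instance) l r A h ξ

variable [Pool.Agent.H55.ZFU.Pure M] [Choice M] {f u l r A : M}

theorem cand_ne (hC : CArith M) (hA : UA f u l) (hR : UR f l r)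
    (hfin : ∀ ξ η, ξ ∈ l → η ∈ l → ξ ≠ η → ∃ n, n ∈ (omega : M) ∧ Img n (inter (app A ξ) (app A η)))
    (hbig : ∀ ξ, ξ ∈ l → ¬ Img u (app A ξ)) (h : M) {ξ : M} (hξ : ξ ∈ l) : ∃ y, y ∈ Cand l r A h ξ := by
  by_cases hq : ∃ a, a ∈ ξ ∧ app h a ∈ app A ξ
  · obtain ⟨a, ha, haA⟩ := hq
    exact ⟨app h a, mem_cand.2 ⟨haA, Or.inl ⟨a, ha, rfl⟩⟩⟩
  · by_contra hcon
    apply hbig ξ hξ
    have h1 : Img u (sep (Dead l r A h ξ) (fun η => η ≠ ξ)) :=
      img_mono (dead_img hC hA hR hfin h hξ) (fun x hx => (mem_sep.1 hx).1)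
    have h2 : Img u (bigU (img (sep (Dead l r A h ξ) (fun η => η ≠ ξ)) (fun η => inter (app A η) (app A ξ)))) := by
      refine img_bigU (fun η => inter (app A η) (app A ξ)) (pair_u hC hA) h1 ?_
      intro η hη
      rw [mem_sep, mem_dead] at hη
      obtain ⟨n, hn, hi⟩ := hfin η ξ hη.1.1 hξ hη.2
      exact img_dom hi (fun x hx => hA.u_ord.sub (om_u hA) x (nat_mem_omega hn hx))
    refine img_mono h2 ?_
    intro y hy
    have h3 : ∃ η, η ∈ Dead l r A h ξ ∧ η ≠ ξ ∧ y ∈ app A η := by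
      by_contra hc
      push Not at hc
      exact hcon ⟨y, mem_cand.2 ⟨hy, Or.inr ⟨hq, fun η hη hne => hc η hη hne⟩⟩⟩
    obtain ⟨η, hη, hne, hyη⟩ := h3
    rw [mem_bigU]
    refine ⟨inter (app A η) (app A ξ), ?_, mem_inter.2 ⟨hyη, hy⟩⟩
    rw [mem_img]
    exact ⟨η, mem_sep.2 ⟨hη, hne⟩, rfl⟩

theorem cand_congr {h h' ξ : M} (hξ : IsOrd ξ) (hh : ∀ a, a ∈ ξ → app h a = app h' a) : Cand l r A h ξ = Cand l r A h' ξ := by
  have hD : Dead l r A h ξ = Dead l r A h' ξ := by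
    apply Pool.Agent.H55.ZFU.ext
    intro η
    rw [mem_dead, mem_dead]
    have key : ∀ g, g ∈ ξ → ∀ n, Zs r A h g n η = Zs r A h' g n η := by
      intro g hg n
      apply Pool.Agent.H55.ZFU.ext
      intro y
      rw [mem_zs, mem_zs]
      constructor
      · rintro ⟨hy, a, ha, hr, he⟩
        exact ⟨hy, a, ha, hr, by rw [← hh a (hξ.2.1 g hg a ha)]; exact he⟩
      · rintro ⟨hy, a, ha, hr, he⟩
        exact ⟨hy, a, ha, hr, by rw [hh a (hξ.2.1 g hg a ha)]; exact he⟩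
    constructor
    · rintro ⟨hη, g, hg, n, hn, hi⟩
      exact ⟨hη, g, hg, n, hn, by rw [← key g hg n]; exact hi⟩
    · rintro ⟨hη, g, hg, n, hn, hi⟩
      exact ⟨hη, g, hg, n, hn, by rw [key g hg n]; exact hi⟩
  apply Pool.Agent.H55.ZFU.ext
  intro y
  rw [mem_cand, mem_cand, hD]
  have e1 : (∃ a, a ∈ ξ ∧ app h a = y) ↔ ∃ a, a ∈ ξ ∧ app h' a = y := by
    constructor
    · rintro ⟨a, ha, he⟩
      exact ⟨a, ha, by rw [← hh a ha]; exact he⟩
    · rintro ⟨a, ha, he⟩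
      exact ⟨a, ha, by rw [hh a ha]; exact he⟩
  have e2 : (∃ a, a ∈ ξ ∧ app h a ∈ app A ξ) ↔ ∃ a, a ∈ ξ ∧ app h' a ∈ app A ξ := by
    constructor
    · rintro ⟨a, ha, he⟩
      exact ⟨a, ha, by rw [← hh a ha]; exact he⟩
    · rintro ⟨a, ha, he⟩
      exact ⟨a, ha, by rw [hh a ha]; exact he⟩
  rw [e1, e2]

theorem exists_t (hC : CArith M) (hA : UA f u l) (hR : UR f l r)
    (hfin : ∀ ξ η, ξ ∈ l → η ∈ l → ξ ≠ η → ∃ n, n ∈ (omega : M) ∧ Img n (inter (app A ξ) (app A η)))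
    (hbig : ∀ ξ, ξ ∈ l → ¬ Img u (app A ξ)) : ∃ t : M, ∀ ξ, ξ ∈ l → app t ξ ∈ Cand l r A t ξ := by
  obtain ⟨c, hc⟩ := Choice.ac (pow (bigU (img l (fun ξ => app A ξ))))
  obtain ⟨F0, hF0, hF0'⟩ := exists_rec (M := M) (fun p x g => app c (Cand l r A g x))
  have h1 : Fn1 (fun y => F0 ∅ y) := DFun.comp2 hF0 (fun _ => ∅) (fun v => v 0)
  obtain ⟨F, hF⟩ : ∃ F : M → M, F = fun y => F0 ∅ y := ⟨_, rfl⟩
  have iF : Fn1 F := by rw [hF]; exact h1
  have hFeq : ∀ x, F x = app c (Cand l r A (lam x F) x) := by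
    intro x
    rw [hF]
    exact hF0' ∅ x
  refine ⟨lam l F, ?_⟩
  intro ξ hξ
  have hl : IsOrd l := hA.ul.ord
  rw [app_lam hξ, hFeq ξ, cand_congr (h := lam ξ F) (h' := lam l F) (hl.mem hξ) (fun a ha => by
    rw [app_lam ha, app_lam (hl.2.1 ξ hξ a ha)])]
  apply hc
  · rw [mem_pow']
    intro y hy
    rw [mem_bigU]
    refine ⟨app A ξ, ?_, (mem_cand.1 hy).1⟩
    rw [mem_img]
    exact ⟨ξ, hξ, rfl⟩
  · exact cand_ne hC hA hR hfin hbig _ hξ

end Pool.Agent.TrI
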