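import Pool.Agent.TrI.R1
import Pool.Agent.TrI.R4

set_option autoImplicit false
set_option linter.all false
universe u

/-!
# R5 (difficulty 3): `ℵ_{ω+1}` is good for `(ℵ_{ω+1}, ℵ_0)` in the model

`core_good`: `t` from `exists_t`, `T = img l (fun ξ => app t ξ)`. `T` meets `app A ξ` in `app t ξ`. Suppose `¬ Img omega (inter (app A η) T)`. `I = sep l (fun ξ => app t ξ ∈ app A η ∧ ∀ a, a ∈ ξ → app t a ≠ app t ξ)`; every point of `inter (app A η) T` is `app t ξ` with `ξ ∈ I` (take the least `ξ` with this value,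
`least_ord`), so `¬ Img omega I`. `exists_delta` gives `δ`, `exists_level` for `inter I δ` gives `n` and `In = sep (inter I δ) (fun x => app r (opair x δ) ∈ suc n)`, uncountable; `two_pts` gives `g ∈ ξ` in `In`, `ξ ≠ η`, `inter In g` infinite.
For `a ∈ inter In g`: `app r (opair a g) ∈ suc n` (`hR.sub a g δ n`), `app t a ∈ app A η`; `t` is injective on `I`; so `Zs r A t g n η` is infinite (if `Img m (Zs ..)` then `Img m (inter In g)` by `img_inj` with `app t` and `img_trans`). So `η ∈ Dead l r A t ξ`. `app t ξ ∈ Cand l r A t ξ`: the first case is excluded by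
`ξ ∈ I`; so `app t ξ ∉ app A η` (`η ≠ ξ`), contradiction to `ξ ∈ I`.
`good_int`: unfold `IsGoodFor`: `F`, `f0` with `IsBij f0 l F` (`isBij_iff`): the enumeration `A = f0`; for `a = app A ξ ∈ F` there is a bijection from `l` to `a`, so `¬ Img u a` (else `Img u l`). `IsDegree F omega`: `IsDisjBelow F omega` and `smaller_omega` give `hfin` (`inter` for `c`; `app A ξ ≠ app A η` by injectivity).
`c` with `IsSuccCard omega c` (`succCard_iff`); `smaller_succ`. The set `i` in `IsTransversal` equals `inter a t` (`ZFU.ext`).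
-/

namespace Pool.Agent.TrI

open Pool.Agent.H55.SC Pool.Agent.H55.CS Pool.Agent.H55.ZFU
open Pool.Agent.SplH (Img isOrdinal_iff isSurj_iff isBij_iff surj_img img_surj)
open Pool.Agent.SplC (IsBij IsCard)

variable {M : Type u} [Model M] [Pool.Agent.H55.ZFU.Pure M] [Choice M] {f u l r A : M}

theorem core_good (hC : CArith M) (hA : UA f u l) (hR : UR f l r)
    (hfin : ∀ ξ η, ξ ∈ l → η ∈ l → ξ ≠ η → ∃ n, n ∈ (omega : M) ∧ Img n (inter (app A ξ) (app A η)))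
    (hbig : ∀ ξ, ξ ∈ l → ¬ Img u (app A ξ)) :
    ∃ T : M, ∀ ξ, ξ ∈ l → (∃ y, y ∈ app A ξ ∧ y ∈ T) ∧ Img (omega : M) (inter (app A ξ) T) := by
  obtain ⟨t, ht⟩ := exists_t hC hA hR hfin hbig
  have hl : IsOrd l := hA.ul.ord
  have hTm : ∀ y, y ∈ img l (fun ξ => app t ξ) ↔ ∃ ξ, ξ ∈ l ∧ y = app t ξ := fun y => mem_img
  refine ⟨img l (fun ξ => app t ξ), ?_⟩
  intro η hη
  refine ⟨⟨app t η, (mem_cand.1 (ht η hη)).1, (hTm _).2 ⟨η, hη, rfl⟩⟩, ?_⟩
  by_contra hcon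
  have hID : Dfn1 (fun ξ : M => app t ξ ∈ app A η ∧ ∀ a, a ∈ ξ → app t a ≠ app t ξ) := inferInstance
  obtain ⟨I, hI⟩ : ∃ I : M, I = sep l (fun ξ => app t ξ ∈ app A η ∧ ∀ a, a ∈ ξ → app t a ≠ app t ξ) := ⟨_, rfl⟩
  have hIm : ∀ ξ, ξ ∈ I ↔ ξ ∈ l ∧ app t ξ ∈ app A η ∧ ∀ a, a ∈ ξ → app t a ≠ app t ξ := by
    intro ξ
    rw [hI, mem_sep]
  have hIl : I ⊆ l := fun x hx => ((hIm x).1 hx).1
  have hIu : ¬ Img (omega : M) I := by
    intro h
    apply hcon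
    refine img_mono (img_img (fun ξ => app t ξ) h) ?_
    intro y hy
    rw [mem_inter, hTm] at hy
    obtain ⟨hyA, ξ, hξ, rfl⟩ := hy
    obtain ⟨c, hco, ⟨hcl, hce⟩, hcm⟩ := least_ord (fun c : M => c ∈ l ∧ app t c = app t ξ) ⟨ξ, hl.mem hξ, hξ, rfl⟩
    rw [mem_img]
    refine ⟨c, (hIm c).2 ⟨hcl, by rw [hce]; exact hyA, fun a ha he => ?_⟩, hce.symm⟩
    exact not_mem_self a (hcm a (hco.mem ha) ⟨hl.2.1 c hcl a ha, he.trans hce⟩ a ha)
  obtain ⟨δ, hδ, hδu⟩ := exists_delta hC hA hIl hIu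
  obtain ⟨n, hn, hnu⟩ := exists_level hC hR hδ (I := inter I δ) (fun x hx => (mem_inter.1 hx).2) hδu
  obtain ⟨In, hIn⟩ : ∃ In : M, In = sep (inter I δ) (fun x => app r (opair x δ) ∈ suc n) := ⟨_, rfl⟩
  rw [← hIn] at hnu
  have hInm : ∀ x, x ∈ In ↔ (x ∈ I ∧ x ∈ δ) ∧ app r (opair x δ) ∈ suc n := by
    intro x
    rw [hIn, mem_sep, mem_inter]
  obtain ⟨g, ξ, hg, hξ, hgξ, hξη, hinf⟩ :=
    two_pts hC (I := In) (η := η) (fun x hx => hl.mem (hIl x ((hInm x).1 hx).1.1)) hnu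
  have hξI : ξ ∈ I := ((hInm ξ).1 hξ).1.1
  have hξl : ξ ∈ l := hIl ξ hξI
  have hZ : InfI (Zs r A t g n η) := by
    intro m hm hi
    apply hinf m hm
    refine img_trans hi (img_inj (fun a => app t a) ?_ ?_)
    · intro a ha
      rw [mem_inter] at ha
      rw [mem_zs]
      have ha1 := (hInm a).1 ha.1
      refine ⟨((hIm a).1 ha1.1.1).2.1, a, ha.2, ?_, rfl⟩
      exact hR.sub a g δ n ha.2 ((hInm g).1 hg).1.2 hδ hn ha1.2 ((hInm g).1 hg).2
    · intro a a' ha ha' he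
      rw [mem_inter] at ha ha'
      have h1 : a ∈ I := ((hInm a).1 ha.1).1.1
      have h2 : a' ∈ I := ((hInm a').1 ha'.1).1.1
      rcases ord_tri a (hl.mem (hIl a h1)) a' (hl.mem (hIl a' h2)) with h3 | h3 | h3
      · exact absurd he (((hIm a').1 h2).2.2 a h3)
      · exact h3
      · exact absurd he.symm (((hIm a).1 h1).2.2 a' h3)
  have hdead : η ∈ Dead l r A t ξ := mem_dead.2 ⟨hη, g, hgξ, n, hn, hZ⟩
  rcases (mem_cand.1 (ht ξ hξl)).2 with ⟨a, ha, he⟩ | ⟨_, h2⟩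
  · exact ((hIm ξ).1 hξI).2.2 a ha he
  · exact h2 η hdead (Ne.symm hξη) ((hIm ξ).1 hξI).2.1

theorem good_int (hC : CArith M) (hA : UA f u l) (hR : UR f l r) : IsGoodFor Model.E l (omega : M) l := by
  intro F f0 hf0 hmem hdeg c hc
  rw [isBij_iff] at hf0
  obtain ⟨hf1, hf2, hf3, hf4⟩ := hf0
  obtain ⟨T, hT⟩ := core_good (A := f0) hC hA hR (by
    intro ξ η hξ hη hne
    have h1 := hdeg.2.1 (app f0 ξ) (app f0 η) (inter (app f0 ξ) (app f0 η)) (hf2 ξ hξ) (hf2 η hη)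
      (fun he => hne (hf4 ξ η hξ hη he)) (fun x => mem_inter)
    exact smaller_omega.1 h1) (by
    intro ξ hξ hi
    obtain ⟨g, hg⟩ := hmem (app f0 ξ) (hf2 ξ hξ)
    rw [isBij_iff] at hg
    exact hA.ul.nimg (img_trans hi (img_inj (fun a => app g a) (fun y hy => hg.2.1 y hy)
      (fun y y' hy hy' he => hg.2.2.2 y y' hy hy' he))))
  refine ⟨T, ?_⟩
  intro a i ha hi
  obtain ⟨ξ, hξ, rfl⟩ := hf3 a ha
  have h2 : i = inter (app f0 ξ) T := by
    apply Pool.Agent.H55.ZFU.ext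
    intro x
    rw [mem_inter]
    exact hi x
  obtain ⟨⟨y, hy, hyT⟩, h3⟩ := hT ξ hξ
  refine ⟨⟨y, (hi y).2 ⟨hy, hyT⟩⟩, ?_⟩
  rw [smaller_succ (succCard_iff.1 hc), h2]
  exact h3

end Pool.Agent.TrI
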