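import Pool.Agent.TrI.UDefs

set_option autoImplicit false
set_option linter.all false

/-!
# U1: the function `ρ` in the model
-/

namespace Pool.Agent.TrI

open FirstOrder FirstOrder.Language Pool.Agent.H55.SC Pool.Agent.H55.ZFU Pool.Agent.H55.Lav Pool.Agent.SplH

variable {Q : Type} [Preorder Q] [OrderTop Q] {L : Type} [LinearOrder L] [WellFoundedLT L]

/-- The name of the relation `k < ρ(α, β)`. -/
def u1_z (D : NDat L) (R : L → L → ℕ → Set Q) (α β k : L) : Set Q :=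
  {q | ∃ m n : ℕ, D.nL m = k ∧ m < n ∧ q ∈ R α β n}

/-- `s` enumerates the set of the `α < β` with `ρ(α, β) ≤ n`. -/
def u1_P (D : ADat L) (R : L → L → ℕ → Set Q) (β : L) (n : ℕ) (s : L → L) (q : Q) : Prop :=
  ∀ α < β, ∀ m ≤ n, ∀ E ≤ q, BelQ (R α β m) E → ∃ x < D.al n, s x = α

theorem ur_club {D : ADat L} {R : L → L → ℕ → Set Q} (hR : RFrc Q D R) :
    ∀ᶠ N in club (Un Q), ∀ (G : Set Q) [Env N G] [LEnv N L] [AEnv N D], ∃ r : MM N G, ∀ f : MM N G,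
      (∀ n : ℕ, app f (lv G (D.toNDat.nN (N := N) n)) = lv G (D.alN (N := N) n)) → UR f (lv G (D.lN (N := N))) r := by
  have h1 : ∀ᶠ N in club (Un Q), ∀ α : L, InT N α → ∀ β : L, InT N β → InT N {q : Q | ∃ n, q ∈ R α β n} :=
    diagT (fun α => diagT (fun β => club_inT _))
  have h2 : ∀ᶠ N in club (Un Q), ∀ β : L, InT N β → ∀ n : ℕ, InT N {q : Q | ∃ s, u1_P D R β n s q} :=
    diagT (fun β => club_all (fun n => club_inT _))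
  have h3 : ∀ᶠ N in club (Un Q), ∀ β : L, InT N β → ∀ n : ℕ, ∀ q : Q, InT N q → (∃ s, u1_P D R β n s q) →
      ∃ s, u1_P D R β n s q ∧ InT N s :=
    diagT (fun β => club_all (fun n => diagT (fun q => u_wit _)))
  have h4 : ∀ᶠ N in club (Un Q), ∀ s : L → L, InT N s → F4Ok N (fun a _ _ _ => s a) := diagT (fun s => f4Ok_club _)
  have h5 : ∀ᶠ N in club (Un Q), ∀ s : L → L, InT N s → ∀ α : L, InT N α → ∀ n : ℕ, (∃ x, x < D.al n ∧ s x = α) →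
      ∃ x, (x < D.al n ∧ s x = α) ∧ InT N x :=
    diagT (fun s => diagT (fun α => club_all (fun n => u_wit _)))
  filter_upwards [h1, h2, h3, h4, h5, p2ok_club (Q := Q) (u1_z D.toNDat R)] with N h1 h2 h3 h4 h5 h6 G hE hL hA
  obtain ⟨r, hr⟩ := exists_fam2 (G := G) h6
  refine ⟨r, fun f hf => ?_⟩
  have hval : ∀ (α β : LN N L) (q : Q) (n : ℕ), q ∈ G → q ∈ R α.1 β.1 n →
      app r (opair (lv G α) (lv G β)) = lv G (D.toNDat.nN (N := N) n) := by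
    intro α β q n hq hqn
    apply Pool.Agent.H55.ZFU.ext
    intro x
    rw [hr, mem_lv]
    constructor
    · rintro ⟨k, rfl, q', hq', m, n', hk, hmn, hqn'⟩
      obtain ⟨E, hE', hEq, hEq'⟩ := hE.gen.dir q hq q' hq'
      have hn := hR.uniq α.1 β.1 n n' E ⟨q, hqn, hEq⟩ ⟨q', hqn', hEq'⟩
      subst hn
      refine ⟨D.toNDat.nN (N := N) m, u_lt _ hmn, ?_⟩
      congr 1
      exact Subtype.ext hk.symm
    · rintro ⟨j, hj, rfl⟩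
      obtain ⟨m, hm, rfl⟩ := u_below _ hj
      exact ⟨_, rfl, q, hq, m, n, rfl, hm, hqn⟩
  have hex : ∀ (α β : LN N L), α < β → β < D.lN (N := N) → ∃ q ∈ G, ∃ n, q ∈ R α.1 β.1 n := by
    intro α β hαβ hβ
    obtain ⟨q, hq, hq'⟩ := hE.gen.gen _ (h1 α.1 α.2 β.1 β.2) (fun p => by
      obtain ⟨q, hqp, n, hn⟩ := hR.dec α.1 β.1 hαβ hβ p
      exact ⟨q, ⟨n, hn⟩, hqp⟩)
    exact ⟨q, hq, hq'⟩
  have hlt : ∀ m n : ℕ, lv G (D.toNDat.nN (N := N) m) ∈ lv G (D.toNDat.nN (N := N) n) ↔ m < n := by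
    intro m n
    rw [lv_lt]
    exact u_nlt D.toNDat
  constructor
  · intro a b hab hb
    obtain ⟨β, hβ, rfl⟩ := mem_lv.1 hb
    obtain ⟨α, hα, rfl⟩ := mem_lv.1 hab
    obtain ⟨q, hq, n, hn⟩ := hex α β hα hβ
    rw [hval α β q n hq hn]
    exact (mem_om D.toNDat).2 ⟨n, rfl⟩
  · intro a b c n hab hbc hc hn h7 h8
    obtain ⟨γ, hγ, rfl⟩ := mem_lv.1 hc
    obtain ⟨β, hβ, rfl⟩ := mem_lv.1 hbc
    obtain ⟨α, hα, rfl⟩ := mem_lv.1 hab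
    obtain ⟨n, rfl⟩ := (mem_om D.toNDat).1 hn
    obtain ⟨q1, hq1, n1, hn1⟩ := hex α γ (hα.trans hβ) hγ
    obtain ⟨q2, hq2, n2, hn2⟩ := hex β γ hβ hγ
    obtain ⟨q3, hq3, n3, hn3⟩ := hex α β hα (hβ.trans hγ)
    rw [hval _ _ q1 n1 hq1 hn1, suc_nN, hlt] at h7
    rw [hval _ _ q2 n2 hq2 hn2, suc_nN, hlt] at h8
    rw [hval _ _ q3 n3 hq3 hn3, suc_nN, hlt]
    obtain ⟨E1, hE1, h9, h10⟩ := hE.gen.dir q1 hq1 q2 hq2
    obtain ⟨E, hE2, h11, h12⟩ := hE.gen.dir E1 hE1 q3 hq3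
    have h13 := hR.sub α.1 β.1 γ.1 n3 n1 n2 E hα hβ hγ ⟨q3, hn3, h12⟩ ⟨q1, hn1, h11.trans h9⟩ ⟨q2, hn2, h11.trans h10⟩
    omega
  · intro b n hb hn
    obtain ⟨β, hβ, rfl⟩ := mem_lv.1 hb
    obtain ⟨n, rfl⟩ := (mem_om D.toNDat).1 hn
    obtain ⟨q, hq, hqs⟩ := hE.gen.gen _ (h2 β.1 β.2 n) (fun p => by
      obtain ⟨q, hqp, s, hs⟩ := hR.size β.1 n p hβ
      exact ⟨q, ⟨s, hs⟩, hqp⟩)
    obtain ⟨s, hs, hsN⟩ := h3 β.1 β.2 n q (hE.gen.sub q hq) hqs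
    obtain ⟨sM, hsM⟩ := exists_fn1 (G := G) (h4 s hsN)
    refine ⟨sM, fun a ha h7 => ?_⟩
    obtain ⟨α, hα, rfl⟩ := mem_lv.1 ha
    obtain ⟨q1, hq1, m, hm⟩ := hex α β hα hβ
    rw [hval _ _ q1 m hq1 hm, suc_nN, hlt] at h7
    obtain ⟨E, hE1, h8, h9⟩ := hE.gen.dir q hq q1 hq1
    have h10 := hs α.1 hα m (by omega) E h8 ⟨q1, hm, h9⟩
    obtain ⟨x, ⟨hx, hsx⟩, hxN⟩ := h5 s hsN α.1 α.2 n h10
    refine ⟨lv G ⟨x, hxN⟩, ?_, ?_⟩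
    · rw [hf, lv_lt]
      exact hx
    · rw [hsM]
      congr 1
      exact Subtype.ext hsx

end Pool.Agent.TrI
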