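import Pool.Agent.TrI.K6
import Pool.Agent.TrI.K8
import Pool.Agent.TrI.R5
import Pool.Agent.TrI.If
import Pool.Agent.TrI.Ig
import Pool.Agent.TrI.T4
import Pool.Agent.TrI.G3
import Pool.Agent.TrI.U1
import Pool.Agent.SplH.V6

set_option autoImplicit false
set_option linter.all false

/-!
# K9: the first model
-/

namespace Pool.Agent.TrI

open Cardinal
open FirstOrder FirstOrder.Language Pool.Agent.H55.SC Pool.Agent.H55.CS Pool.Agent.H55.ZFU Pool.Agent.H55.Lav Pool.Agent.SplH
open Pool.Agent.SplC (IsBij IsCard)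

/-- There is a countable wellfounded model of `ZFC` and the generalized continuum hypothesis in which `ℵ_{ω+1}` is good for
`(k, ℵ₀)` for every cardinal `k` with `ℵ₀ < k ≤ ℵ_{ω+1}`. -/
def GoodModel : Prop := ∃ (M : Type 1) (E : M → M → Prop), Countable M ∧ WellFounded E ∧ ZFC E ∧ ∃ w l : M,
  IsOmega E w ∧ IsGCH E w ∧ IsAlephOmegaSucc E w l ∧ ∀ k : M, IsCard E k → E w k → Sub E k l → IsGoodFor E k w l

variable {Q : Type} [Preorder Q] [OrderTop Q] {L : Type} [LinearOrder L] [WellFoundedLT L]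

theorem goodModel_of {D : ADat L} {R : L → L → ℕ → Set Q} (hQ : GchP Q) (hA : AFrc Q D) (hR : RFrc Q D R)
    (hdec : DecP Q D.l) (htr : ∀ k : L, D.al 1 ≤ k → k ≤ D.u → TrP k D.l) : GoodModel := by
  obtain ⟨N, hcount, h1, h2, h3, ⟨G, gen⟩, h4, h5, h6, h7⟩ := ((club_countable (Ω := Un Q)).and
    ((env_club (Q := Q)).and ((lenv_club (Q := Q) (L := L)).and ((aenv_club (Q := Q) D).and ((exists_genF_all Q).and
      ((carith_club hQ).and ((ua_club hA).and ((ur_club hR).and (uk_club hdec htr))))))))).exists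
  have i1 : Env N G := h1 G gen
  have hC := h4 G
  obtain ⟨f, hf, hU⟩ := h5 G
  obtain ⟨r, hr⟩ := h6 G
  have hRr := hr f hf
  refine ⟨MM N G, EE, ?_, ?_, choice_ax i1.ok i1.fok i1.zok i1.aok i1.gen, (omega : MM N G), lv G (D.lN (N := N)),
    omega_iff.mpr rfl, gch_int hC, aleph_int hU, fun k hk hok hkl => ?_⟩
  · have h7 : {τ : Nm Q | InN N τ}.Countable := hcount.preimage_of_injOn uN_inj.injOn
    have h8 : Countable {τ : Nm Q | InN N τ} := h7.to_subtype
    refine Function.Surjective.countable (f := fun τ : {τ : Nm Q | InN N τ} => (vl G τ.2 : MM N G)) ?_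
    rintro ⟨x, τ, hτ, rfl⟩
    exact ⟨⟨τ, hτ⟩, rfl⟩
  · exact InvImage.wf Subtype.val ZFSet.mem_wf
  · have hk' := card_nimg hk
    rcases ord_tri k hk'.1 _ hU.ul.ord with h8 | h8 | h8
    · obtain ⟨k0, hk0, rfl⟩ := mem_lv.mp h8
      have hk1 : D.al 1 ≤ k0.1 := by
        by_contra h9
        have h10 : k0 < D.alN (N := N) 1 := not_le.mp h9
        have h11 := hU.succ ∅ empty_mem_omega
        rw [hU.zero] at h11
        have h12 : app f (suc ∅) = lv G (D.alN (N := N) 1) := by
          rw [← lv_zero D.toNDat, suc_nN, hf]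
        rw [h12] at h11
        exact hk'.2 _ hok (h11.img _ (lv_lt.mpr h10))
      have hku : k0.1 ≤ D.u := by
        by_contra h9
        have h10 : D.uN (N := N) < k0 := not_le.mp h9
        exact hk'.2 _ (lv_lt.mpr h10) (hU.ul.img _ h8)
      have hku' : lv G k0 ⊆ lv G (D.uN (N := N)) := by
        intro x hx
        obtain ⟨i, hi, rfl⟩ := mem_lv.mp hx
        exact lv_lt.mpr (lt_of_lt_of_le (show i.1 < k0.1 from hi) hku)
      exact good_k hC hU hRr hk hok hku' (h7 G k0 hk1 hku)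
    · rw [h8]
      exact good_int hC hU hRr
    · exact (ee_irrefl _ (hkl _ h8)).elim

end Pool.Agent.TrI
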