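import Pool.Agent.TrI.VDefs2

set_option autoImplicit false
set_option linter.all false

/-!
# The forcing notion `P_T × Fn(ω, c⁺ʷ)`
-/

namespace Pool.Agent.TrI

open Cardinal Pool.Agent.SplK

namespace PAd

/-! ### Cardinals -/

lemma pl_le_plw (c : Cardinal.{0}) (n : ℕ) : pl c n ≤ plw c :=
  le_ciSup (Cardinal.bddAbove_range _) n

lemma le_plw (c : Cardinal.{0}) : c ≤ plw c := pl_le_plw c 0

/-! ### Conditions -/

/-- `f z` is bounded by `t`. -/
def Bnd {A : Type} [LinearOrder A] {b : ℕ → A} (f : A → ℕ → A) (t : {m : ℕ → A // ∀ n, m n < b n} × ℕ) (z : A) : Prop :=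
  ∀ n ≥ t.2, f z n ≤ t.1.1 n

/-- The conditions. -/
structure Cnd (A : Type) [LinearOrder A] (b : ℕ → A) (f : A → ℕ → A) (K : Type) where
  s : Finset A
  T : Finset ({m : ℕ → A // ∀ n, m n < b n} × ℕ)
  φ : Finset (ℕ × K)
  fn : ∀ n k k', (n, k) ∈ φ → (n, k') ∈ φ → k = k'

section

variable {A : Type} [LinearOrder A] {b : ℕ → A} {f : A → ℕ → A} {K : Type}

lemma Cnd.ext' {p q : Cnd A b f K} (h1 : p.s = q.s) (h2 : p.T = q.T) (h3 : p.φ = q.φ) : p = q := by
  cases p; cases q; simp_all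

instance : Preorder (Cnd A b f K) where
  le q p := p.s ⊆ q.s ∧ p.T ⊆ q.T ∧ p.φ ⊆ q.φ ∧ ∀ z ∈ q.s, z ∉ p.s → ∀ t ∈ p.T, ¬ Bnd f t z
  le_refl p := ⟨subset_rfl, subset_rfl, subset_rfl, fun z h1 h2 => absurd h1 h2⟩
  le_trans x y z h1 h2 := by
    refine ⟨h2.1.trans h1.1, h2.2.1.trans h1.2.1, h2.2.2.1.trans h1.2.2.1, ?_⟩
    intro w hw hw' t ht
    by_cases h : w ∈ y.s
    · exact h2.2.2.2 w h hw' t ht
    · exact h1.2.2.2 w hw h t (h2.2.1 ht)

lemma le_def {p q : Cnd A b f K} : q ≤ p ↔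
    p.s ⊆ q.s ∧ p.T ⊆ q.T ∧ p.φ ⊆ q.φ ∧ ∀ z ∈ q.s, z ∉ p.s → ∀ t ∈ p.T, ¬ Bnd f t z := Iff.rfl

instance : OrderTop (Cnd A b f K) where
  top := ⟨∅, ∅, ∅, by simp⟩
  le_top p := ⟨by simp, by simp, by simp, by simp⟩

/-- A finite set of bounds is bounded. -/
lemma join (f : A → ℕ → A) (hf : ∀ z n, f z n < b n) (z₀ : A) (T : Finset ({m : ℕ → A // ∀ n, m n < b n} × ℕ)) :
    ∃ u : {m : ℕ → A // ∀ n, m n < b n} × ℕ, ∀ t ∈ T, ∀ z, Bnd f t z → Bnd f u z := by
  classical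
  induction T using Finset.induction_on with
  | empty => exact ⟨(⟨f z₀, hf z₀⟩, 0), by simp⟩
  | insert t T _ ih =>
    obtain ⟨u, hu⟩ := ih
    refine ⟨(⟨fun n => max (t.1.1 n) (u.1.1 n), fun n => max_lt (t.1.2 n) (u.1.2 n)⟩, max t.2 u.2), ?_⟩
    intro t' ht' z hz
    rcases Finset.mem_insert.mp ht' with rfl | h
    · intro n hn
      exact le_max_of_le_left (hz n (le_trans (le_max_left _ _) hn))
    · intro n hn
      exact le_max_of_le_right (hu t' h z hz n (le_trans (le_max_right _ _) hn))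

/-- Delta system. -/
lemma delta {P : Type} (l : Cardinal.{0}) (hl : l.IsRegular) (seg : ∀ a : A, #(Set.Iic a) < l) :
    ∀ (n : ℕ) (s : P → Finset A) (J : Set P), l ≤ #J → (∀ p ∈ J, (s p).card = n) →
      ∃ (r : Finset A) (J' : Set P), J' ⊆ J ∧ l ≤ #J' ∧ (∀ p ∈ J', r ⊆ s p) ∧
        ∀ a : A, #{p : P | p ∈ J' ∧ ∃ z ∈ s p, z ∉ r ∧ z ≤ a} < l := by
  classical
  intro n
  induction n with
  | zero =>
    intro s J hJ hc
    refine ⟨∅, J, subset_rfl, hJ, by simp, ?_⟩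
    intro a
    have : {p : P | p ∈ J ∧ ∃ z ∈ s p, z ∉ (∅ : Finset A) ∧ z ≤ a} = ∅ := by
      ext p
      simp only [Set.mem_setOf_eq, Set.mem_empty_iff_false, iff_false]
      rintro ⟨hp, z, hz, _⟩
      rw [Finset.card_eq_zero.mp (hc p hp)] at hz
      simp at hz
    rw [this]
    simpa using hl.pos
  | succ n ih =>
    intro s J hJ hc
    by_cases h : ∀ a : A, #{p : P | p ∈ J ∧ ∃ z ∈ s p, z ∉ (∅ : Finset A) ∧ z ≤ a} < l
    · exact ⟨∅, J, subset_rfl, hJ, by simp, h⟩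
    · push Not at h
      obtain ⟨a, ha⟩ := h
      have hch : ∀ p : {p : P | p ∈ J ∧ ∃ z ∈ s p, z ∉ (∅ : Finset A) ∧ z ≤ a}, ∃ z : Set.Iic a, z.1 ∈ s p.1 := by
        rintro ⟨p, hp, z, hz, _, hza⟩
        exact ⟨⟨z, hza⟩, hz⟩
      choose g hg using hch
      obtain ⟨x, J₁, hJ₁, hJ₁l, hx⟩ := Cardinal.infinite_pigeonhole_set g l ha hl.aleph0_le
        (by rw [hl.cof_ord]; exact seg a)
      have hx' : ∀ p ∈ J₁, x.1 ∈ s p := by
        intro p hp
        have := hg ⟨p, hJ₁ hp⟩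
        rwa [hx hp] at this
      obtain ⟨r, J', hJ', hJ'l, hr, hb⟩ := ih (fun p => (s p).erase x.1) J₁ hJ₁l (by
        intro p hp
        rw [Finset.card_erase_of_mem (hx' p hp), hc p (hJ₁ hp).1]
        rfl)
      refine ⟨insert x.1 r, J', hJ'.trans (fun p hp => (hJ₁ hp).1), hJ'l, ?_, ?_⟩
      · intro p hp
        rw [Finset.insert_subset_iff]
        exact ⟨hx' p (hJ' hp), (hr p hp).trans (Finset.erase_subset _ _)⟩
      · intro a'
        refine lt_of_le_of_lt (Cardinal.mk_le_mk_of_subset ?_) (hb a')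
        rintro p ⟨hp, z, hz, hzr, hza⟩
        rw [Finset.mem_insert, not_or] at hzr
        exact ⟨hp, z, Finset.mem_erase.mpr ⟨hzr.1, hz⟩, hzr.2, hza⟩

end

end PAd

open PAd in
/-- The forcing notion `P_T × Fn(ω, c⁺ʷ)`. -/
theorem exists_ad (gch : GCH0) {c : Cardinal.{0}} (hc : c.IsInaccessible) {A : Type} [LinearOrder A]
    (otA : OTyp A (Order.succ (plw c))) {b : ℕ → A} (b_ot : ∀ n, OTyp (Set.Iio (b n)) (pl c n)) {f : A → ℕ → A}
    (f_lt : ∀ z n, f z n < b n)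
    (sc : ∀ g : ℕ → A, (∀ n, g n < b n) → ∃ z₀, ∀ z ≥ z₀, ∃ n₀, ∀ n ≥ n₀, g n < f z n) :
    ∃ (P : Type) (_ : Preorder P) (_ : OrderTop P) (B : A → Set P), AdP c A b f P B := by
  classical
  -- cardinals
  have hc0 : ℵ₀ < c := hc.aleph0_lt
  have hmu : ℵ₀ ≤ plw c := hc0.le.trans (le_plw c)
  set K : Type := (plw c).out with hK
  have hKc : #K = plw c := Cardinal.mk_out _
  have hreg : (Order.succ (plw c)).IsRegular := Cardinal.isRegular_succ hmu
  have hAl : ℵ₀ ≤ #A := by rw [otA.card]; exact hreg.aleph0_le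
  haveI : Infinite A := Cardinal.infinite_iff.mpr hAl
  haveI : Infinite K := Cardinal.infinite_iff.mpr (by rw [hKc]; exact hmu)
  obtain ⟨z₀⟩ : Nonempty A := inferInstance
  have seg : ∀ a : A, #(Set.Iic a) < Order.succ (plw c) := by
    intro a
    have h1 : Set.Iic a ⊆ Set.Iio a ∪ {a} := by
      intro x hx
      rcases lt_or_eq_of_le hx with h | h
      · exact Or.inl h
      · exact Or.inr h
    refine lt_of_le_of_lt (Cardinal.mk_le_mk_of_subset h1) (lt_of_le_of_lt (Cardinal.mk_union_le _ _) ?_)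
    exact Cardinal.add_lt_of_lt hreg.aleph0_le (otA.seg a) (by
      rw [Cardinal.mk_singleton]
      exact Cardinal.one_lt_aleph0.trans_le hreg.aleph0_le)
  have nomax : ∀ a : A, ∃ a', a < a' := by
    intro a
    by_contra h
    push Not at h
    have : (Set.univ : Set A) ⊆ Set.Iic a := fun x _ => h x
    have h2 := Cardinal.mk_le_mk_of_subset this
    rw [Cardinal.mk_univ, otA.card] at h2
    exact absurd (seg a) (not_lt.mpr h2)
  -- bounded sets
  have bndd : ∀ t : {m : ℕ → A // ∀ n, m n < b n} × ℕ, ∃ z₁, ∀ z ≥ z₁, ¬ Bnd f t z := by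
    intro t
    obtain ⟨z₁, h1⟩ := sc t.1.1 t.1.2
    refine ⟨z₁, fun z hz hb => ?_⟩
    obtain ⟨n₀, h2⟩ := h1 z hz
    exact absurd (hb (max n₀ t.2) (le_max_right _ _)) (not_le.mpr (h2 _ (le_max_left _ _)))
  refine ⟨Cnd A b f K, inferInstance, inferInstance, fun z => {p | z ∈ p.s}, ?_, ?_, ?_, ?_, ?_, ?_⟩
  · -- size
    rw [otA.card]
    have hM : #({m : ℕ → A // ∀ n, m n < b n} × ℕ) ≤ Order.succ (plw c) := by
      have h1 : ∀ n, Nonempty (Set.Iio (b n) ↪ K) := by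
        intro n
        rw [← Cardinal.le_def, (b_ot n).card, hKc]
        exact pl_le_plw c n
      let e := fun n => (h1 n).some
      have h2 : #({m : ℕ → A // ∀ n, m n < b n}) ≤ #(ℕ → K) := by
        refine Cardinal.mk_le_of_injective (f := fun m n => e n ⟨m.1 n, m.2 n⟩) ?_
        intro m m' h
        apply Subtype.ext
        funext n
        have := congrFun h n
        exact congrArg Subtype.val ((e n).injective this)
      have h3 : #(ℕ → K) ≤ Order.succ (plw c) := by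
        rw [← gch _ hmu, ← Cardinal.power_def, hKc, Cardinal.mk_nat]
        calc (plw c) ^ ℵ₀ ≤ (2 ^ plw c) ^ ℵ₀ := Cardinal.power_le_power_right (Cardinal.cantor _).le
          _ = 2 ^ (plw c * ℵ₀) := by rw [Cardinal.power_mul]
          _ = 2 ^ plw c := by rw [Cardinal.mul_aleph0_eq hmu]
      rw [Cardinal.mk_prod, Cardinal.lift_id, Cardinal.lift_id, Cardinal.mk_nat]
      exact Cardinal.mul_le_of_le hreg.aleph0_le (h2.trans h3) hreg.aleph0_le
    have h4 : #(Cnd A b f K) ≤ #(Finset A × Finset ({m : ℕ → A // ∀ n, m n < b n} × ℕ) × Finset (ℕ × K)) := by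
      refine Cardinal.mk_le_of_injective (f := fun p => (p.s, p.T, p.φ)) ?_
      intro p q h
      simp only [Prod.mk.injEq] at h
      exact Cnd.ext' h.1 h.2.1 h.2.2
    refine h4.trans ?_
    haveI : Nonempty {m : ℕ → A // ∀ n, m n < b n} := ⟨⟨f z₀, f_lt z₀⟩⟩
    rw [Cardinal.mk_prod, Cardinal.mk_prod, Cardinal.lift_id, Cardinal.lift_id, Cardinal.lift_id, Cardinal.lift_id,
      Cardinal.mk_finset_of_infinite, Cardinal.mk_finset_of_infinite, Cardinal.mk_finset_of_infinite]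
    refine Cardinal.mul_le_of_le hreg.aleph0_le otA.card.le (Cardinal.mul_le_of_le hreg.aleph0_le hM ?_)
    rw [Cardinal.mk_prod, Cardinal.lift_id, Cardinal.lift_id, Cardinal.mk_nat, hKc]
    exact (Cardinal.mul_le_of_le hmu hmu le_rfl).trans (Order.le_succ _)
  · -- chain condition
    intro X hX
    rw [otA.card]
    by_contra hlt
    push Not at hlt
    -- the same third coordinate
    have hφ : #(Finset (ℕ × K)) < Order.succ (plw c) := by
      rw [Cardinal.mk_finset_of_infinite, Cardinal.mk_prod, Cardinal.lift_id, Cardinal.lift_id, Cardinal.mk_nat, hKc]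
      exact lt_of_le_of_lt (Cardinal.mul_le_of_le hmu hmu le_rfl) (Order.lt_succ _)
    obtain ⟨φ, J₀, hJ₀, hJ₀l, hJ₀φ⟩ := Cardinal.infinite_pigeonhole_set (fun p : X => p.1.φ) _ hlt hreg.aleph0_le
      (by rw [hreg.cof_ord]; exact hφ)
    -- the same number of points
    obtain ⟨N, J₁, hJ₁, hJ₁l, hJ₁N⟩ := Cardinal.infinite_pigeonhole_set (fun p : J₀ => p.1.s.card) _ hJ₀l hreg.aleph0_le
      (by rw [hreg.cof_ord, Cardinal.mk_nat]; exact lt_of_le_of_lt hmu (Order.lt_succ _))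
    obtain ⟨r, J', hJ', hJ'l, hr, htl⟩ := delta (P := Cnd A b f K) _ hreg seg N (fun p => p.s) J₁ hJ₁l (fun p hp => hJ₁N hp)
    -- bounds
    choose u hu using fun p : Cnd A b f K => join f f_lt z₀ p.T
    have hJX : ∀ p ∈ J', p ∈ X := fun p hp => hJ₀ (hJ₁ (hJ' hp))
    have hJφ : ∀ p ∈ J', p.φ = φ := fun p hp => hJ₀φ (hJ₁ (hJ' hp))
    -- incompatibility
    have hinc : ∀ p ∈ J', ∀ q ∈ J', p ≠ q →
        (∃ z ∈ q.s, z ∉ r ∧ Bnd f (u p) z) ∨ ∃ z ∈ p.s, z ∉ r ∧ Bnd f (u q) z := by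
      intro p hp q hq hpq
      by_contra h
      push Not at h
      obtain ⟨h1, h2⟩ := h
      refine hX p (hJX p hp) q (hJX q hq) hpq ⟨p.s ∪ q.s, p.T ∪ q.T, p.φ, p.fn⟩ ?_ ?_
      · refine ⟨Finset.subset_union_left, Finset.subset_union_left, subset_rfl, ?_⟩
        intro z hz hzp t ht hb
        rcases Finset.mem_union.mp hz with h | h
        · exact hzp h
        · exact h1 z h (fun hzr => hzp (hr p hp hzr)) (hu p t ht z hb)
      · refine ⟨Finset.subset_union_right, Finset.subset_union_right, ?_, ?_⟩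
        · show q.φ ⊆ p.φ
          rw [hJφ p hp, hJφ q hq]
        · intro z hz hzq t ht hb
          rcases Finset.mem_union.mp hz with h | h
          · exact h2 z h (fun hzr => hzq (hr q hq hzr)) (hu q t ht z hb)
          · exact hzq h
    -- for fixed `p` the first alternative holds for few `q`
    have hfew : ∀ p : Cnd A b f K, #{q : Cnd A b f K | q ∈ J' ∧ ∃ z ∈ q.s, z ∉ r ∧ Bnd f (u p) z} < Order.succ (plw c) := by
      intro p
      obtain ⟨z₁, hz₁⟩ := bndd (u p)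
      refine lt_of_le_of_lt (Cardinal.mk_le_mk_of_subset ?_) (htl z₁)
      rintro q ⟨hq, z, hz, hzr, hb⟩
      refine ⟨hq, z, hz, hzr, ?_⟩
      by_contra hlt
      exact hz₁ z (not_le.mp hlt).le hb
    -- the same `n₀`
    obtain ⟨n₁, J₂, hJ₂, hJ₂l, hJ₂n⟩ := Cardinal.infinite_pigeonhole_set (fun p : J' => (u p.1).2) _ hJ'l hreg.aleph0_le
      (by rw [hreg.cof_ord, Cardinal.mk_nat]; exact lt_of_le_of_lt hmu (Order.lt_succ _))
    -- the function `g`
    have hg : ∀ n : ℕ, ∃ v < b n, Order.succ (plw c) ≤ #{p : Cnd A b f K | p ∈ J₂ ∧ (u p).1.1 n = v} := by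
      intro n
      obtain ⟨v, J₃, hJ₃, hJ₃l, hJ₃v⟩ := Cardinal.infinite_pigeonhole_set
        (fun p : J₂ => (⟨(u p.1).1.1 n, (u p.1).1.2 n⟩ : Set.Iio (b n))) _ hJ₂l hreg.aleph0_le
        (by
          rw [hreg.cof_ord, (b_ot n).card]
          exact lt_of_le_of_lt (pl_le_plw c n) (Order.lt_succ _))
      refine ⟨v.1, v.2, hJ₃l.trans (Cardinal.mk_le_mk_of_subset ?_)⟩
      intro p hp
      exact ⟨hJ₃ hp, congrArg Subtype.val (hJ₃v hp)⟩
    choose g hgb hgl using hg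
    -- all `p ∈ J'` are bounded by `g`
    have hkey : ∀ p ∈ J', ∀ n ≥ n₁, ∃ z ∈ p.s, z ∉ r ∧ f z n ≤ g n := by
      intro p hp n hn
      have h1 : ∃ q, (q ∈ J₂ ∧ (u q).1.1 n = g n) ∧ ¬ (q ∈ J' ∧ ∃ z ∈ q.s, z ∉ r ∧ Bnd f (u p) z) ∧ q ≠ p := by
        by_contra h
        push Not at h
        have h2 : {q : Cnd A b f K | q ∈ J₂ ∧ (u q).1.1 n = g n} ⊆
            {q : Cnd A b f K | q ∈ J' ∧ ∃ z ∈ q.s, z ∉ r ∧ Bnd f (u p) z} ∪ {p} := by
          intro q hq
          by_cases h3 : q ∈ J' ∧ ∃ z ∈ q.s, z ∉ r ∧ Bnd f (u p) z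
          · exact Or.inl h3
          · right
            have := h q hq (by
              intro h4 z hz hzr hb
              exact h3 ⟨h4, z, hz, hzr, hb⟩)
            exact this
        have h3 : #{q : Cnd A b f K | q ∈ J₂ ∧ (u q).1.1 n = g n} < Order.succ (plw c) := by
          refine lt_of_le_of_lt (Cardinal.mk_le_mk_of_subset h2) (lt_of_le_of_lt (Cardinal.mk_union_le _ _) ?_)
          exact Cardinal.add_lt_of_lt hreg.aleph0_le (hfew p) (by
            rw [Cardinal.mk_singleton]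
            exact Cardinal.one_lt_aleph0.trans_le hreg.aleph0_le)
        exact absurd h3 (not_lt.mpr (hgl n))
      obtain ⟨q, ⟨hq2, hqg⟩, hq3, hqp⟩ := h1
      have hq' : q ∈ J' := hJ₂ hq2
      rcases hinc p hp q hq' (Ne.symm hqp) with h | ⟨z, hz, hzr, hb⟩
      · exact absurd ⟨hq', h⟩ hq3
      · refine ⟨z, hz, hzr, ?_⟩
        rw [← hqg]
        apply hb n
        have : (u q).2 = n₁ := hJ₂n hq2
        rw [this]
        exact hn
    -- contradiction
    obtain ⟨z₁, hz₁⟩ := sc g hgb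
    have h1 : ∃ p ∈ J', ∀ z ∈ p.s, z ∉ r → z₁ < z := by
      by_contra h
      push Not at h
      have h2 : J' ⊆ {p : Cnd A b f K | p ∈ J' ∧ ∃ z ∈ p.s, z ∉ r ∧ z ≤ z₁} := fun p hp => ⟨hp, h p hp⟩
      exact absurd (lt_of_le_of_lt (Cardinal.mk_le_mk_of_subset h2) (htl z₁)) (not_lt.mpr hJ'l)
    obtain ⟨p, hp, hpz⟩ := h1
    have h2 : ∃ n₂, ∀ z ∈ p.s, z ∉ r → ∀ n ≥ n₂, g n < f z n := by
      have h3 : ∀ z : A, ∃ n₂, z₁ < z → ∀ n ≥ n₂, g n < f z n := by
        intro z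
        by_cases h : z₁ < z
        · obtain ⟨n₂, h4⟩ := hz₁ z h.le
          exact ⟨n₂, fun _ => h4⟩
        · exact ⟨0, fun h' => absurd h' h⟩
      choose N' hN' using h3
      refine ⟨p.s.sup N', fun z hz hzr n hn => ?_⟩
      exact hN' z (hpz z hz hzr) n ((Finset.le_sup hz).trans hn)
    obtain ⟨n₂, h2⟩ := h2
    obtain ⟨z, hz, hzr, hle⟩ := hkey p hp (max n₁ n₂) (le_max_left _ _)
    exact absurd hle (not_le.mpr (h2 z hz hzr _ (le_max_right _ _)))
  · -- B_down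
    intro z p q hp hq
    exact hq.1 hp
  · -- unb
    intro z p
    obtain ⟨v, hv⟩ := join f f_lt z₀ p.T
    obtain ⟨z₁, hz₁⟩ := bndd v
    obtain ⟨z', hz'⟩ := nomax (max z z₁)
    refine ⟨⟨insert z' p.s, p.T, p.φ, p.fn⟩, ?_, z', lt_of_le_of_lt (le_max_left _ _) hz', ?_⟩
    · refine ⟨Finset.subset_insert _ _, subset_rfl, subset_rfl, ?_⟩
      intro w hw hwp t ht hb
      rcases Finset.mem_insert.mp hw with rfl | h
      · exact hz₁ w (lt_of_le_of_lt (le_max_right _ _) hz').le (hv t ht w hb)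
      · exact hwp h
    · exact Finset.mem_insert_self _ _
  · -- fin
    intro m n₀ hm p
    refine ⟨⟨p.s, insert (⟨m, hm⟩, n₀) p.T, p.φ, p.fn⟩, ?_, p.s, ?_⟩
    · exact ⟨subset_rfl, Finset.subset_insert _ _, subset_rfl, fun z h1 h2 => absurd h1 h2⟩
    · intro z hz r hr hzr
      by_contra h
      exact hr.2.2.2 z hzr h (⟨m, hm⟩, n₀) (Finset.mem_insert_self _ _) hz
  · -- col
    intro a
    have h1 : Nonempty (Set.Iio a ↪ K) := by
      rw [← Cardinal.le_def, hKc]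
      exact Order.lt_succ_iff.mp (otA.seg a)
    obtain ⟨e⟩ := h1
    refine ⟨fun n x => {p | ∃ h : x < a, (n, e ⟨x, h⟩) ∈ p.φ}, ?_, ?_, ?_⟩
    · rintro n x y r ⟨hx, h1⟩ ⟨hy, h2⟩
      have := e.injective (r.fn n _ _ h1 h2)
      exact congrArg Subtype.val this
    · rintro n x p q ⟨hx, h1⟩ hq
      exact ⟨hx, hq.2.2.1 h1⟩
    · intro z hz p
      obtain ⟨n, hn⟩ := Infinite.exists_notMem_finset (p.φ.image Prod.fst)
      have hn' : ∀ k, (n, k) ∉ p.φ := fun k hk => hn (Finset.mem_image.mpr ⟨(n, k), hk, rfl⟩)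
      refine ⟨⟨p.s, p.T, insert (n, e ⟨z, hz⟩) p.φ, ?_⟩, ?_, n, hz, Finset.mem_insert_self _ _⟩
      · intro n' k k' h1 h2
        rcases Finset.mem_insert.mp h1 with h3 | h3 <;> rcases Finset.mem_insert.mp h2 with h4 | h4
        · exact (congrArg Prod.snd h3).trans (congrArg Prod.snd h4).symm
        · have h5 : n' = n := congrArg Prod.fst h3
          rw [h5] at h4
          exact absurd h4 (hn' _)
        · have h5 : n' = n := congrArg Prod.fst h4
          rw [h5] at h3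
          exact absurd h3 (hn' _)
        · exact p.fn n' k k' h3 h4
      · exact ⟨subset_rfl, subset_rfl, Finset.subset_insert _ _, fun z h1 h2 => absurd h1 h2⟩

end Pool.Agent.TrI
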