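import Pool.Agent.TrI.Q0Dense

set_option autoImplicit false
set_option linter.unusedSectionVars false

/-!
# MP_33d970_lc, V level: cardinality of `Q0`, the generic colouring
-/

namespace Pool.Agent.TrI

open Cardinal

variable {L : Type} [LinearOrder L] [WellFoundedLT L] [hL : Lam L]

/-- Under GCH the forcing notion has at most `ℵ_{ω+1}` elements. -/
theorem card_Q0 (gch : (2 : Cardinal.{0}) ^ (ℵ_ Ordinal.omega0) = Order.succ (ℵ_ Ordinal.omega0)) :
    #(Q0 L) ≤ Order.succ (ℵ_ Ordinal.omega0) := by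
  have hal : ℵ₀ ≤ ℵ_ Ordinal.omega0 := aleph0_le_aleph _
  have hal' : ℵ₀ ≤ Order.succ (ℵ_ Ordinal.omega0) := hal.trans (Order.le_succ _)
  have h1 : #(Cnd L) ≤ Order.succ (ℵ_ Ordinal.omega0) := by
    let F : Cnd L → Σ g : L, (Set.Iic g × Set.Iic g → ℕ) := fun c => ⟨c.top, fun x => c.p x.1 x.2⟩
    have hF : Function.Injective F := by
      intro c d h
      have htop : c.top = d.top := congrArg Sigma.fst h
      obtain ⟨ct, cp, cnf, c1, c2, c3⟩ := c
      obtain ⟨dt, dp, dnf, d1, d2, d3⟩ := d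
      simp only at htop
      subst htop
      have h2 := eq_of_heq (Sigma.mk.inj h).2
      congr 1
      funext a b
      by_cases hab : a < b ∧ b ≤ ct
      · exact congrFun h2 (⟨a, hab.1.le.trans hab.2⟩, ⟨b, hab.2⟩)
      · rw [cnf a b hab, dnf a b hab]
    refine (mk_le_of_injective hF).trans ?_
    rw [mk_sigma]
    refine (sum_le_mk_mul_iSup _).trans ?_
    calc #L * ⨆ g : L, #(Set.Iic g × Set.Iic g → ℕ)
        ≤ (Order.succ (ℵ_ Ordinal.omega0)) * (Order.succ (ℵ_ Ordinal.omega0)) := by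
          apply mul_le_mul' hL.card.le
          apply ciSup_le'
          intro g
          have h3 : #(Set.Iic g × Set.Iic g) ≤ ℵ_ Ordinal.omega0 := by
            rw [mk_prod, lift_id]
            exact (mul_le_mul' (mk_Iic_le _ hal hL.seg g) (mk_Iic_le _ hal hL.seg g)).trans (mul_eq_self hal).le
          rw [← power_def, mk_nat, ← gch]
          calc ℵ₀ ^ #(Set.Iic g × Set.Iic g) ≤ ℵ₀ ^ (ℵ_ Ordinal.omega0) := power_le_power_left aleph0_ne_zero h3
            _ ≤ 2 ^ (ℵ_ Ordinal.omega0) := by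
                rw [power_eq_two_power hal (ofNat_lt_aleph0 (n := 2)).le hal]
      _ = _ := mul_eq_self hal'
  calc #(Q0 L) = #(Cnd L) + 1 := by rw [show #(Q0 L) = #(Option (Cnd L)) from rfl, mk_option]
    _ ≤ _ := (add_le_add_left h1 1).trans (add_one_eq hal').le

/-- The conditions which decide that the value of the generic colouring at `(a, b)` is `n`. -/
def rN (a b : L) (n : ℕ) : Set (Q0 L) := {q | ∃ c : Cnd L, q = (c : Q0 L) ∧ a < b ∧ b ≤ c.top ∧ c.p a b = n}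

lemma rN_down {a b : L} {n : ℕ} {p q : Q0 L} (hp : p ∈ rN a b n) (hq : q ≤ p) : q ∈ rN a b n := by
  obtain ⟨c, rfl, h1, h2, h3⟩ := hp
  obtain ⟨d, rfl, hd⟩ := le_coe hq
  exact ⟨d, rfl, h1, h2.trans hd.1, (hd.2 a b h2).trans h3⟩

lemma rN_dense {a b : L} (hab : a < b) (p : Q0 L) : ∃ q ≤ p, ∃ n, q ∈ rN a b n := by
  obtain ⟨c, hc, hb⟩ := dense_top b p
  exact ⟨c, hc, _, c, rfl, hab, hb, rfl⟩

lemma rN_unique {a b : L} {n m : ℕ} {p : Q0 L} (h1 : p ∈ rN a b n) (h2 : p ∈ rN a b m) : n = m := by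
  obtain ⟨c, rfl, _, _, h⟩ := h1
  obtain ⟨d, h', _, _, h''⟩ := h2
  rw [← WithTop.coe_injective h'] at h''
  exact h.symm.trans h''

lemma rN_coe {a b : L} (hab : a < b) (c : Cnd L) (hb : b ≤ c.top) : (c : Q0 L) ∈ rN a b (c.p a b) :=
  ⟨c, rfl, hab, hb, rfl⟩

lemma rN_eq {a b : L} {n : ℕ} {c : Cnd L} (hab : a < b) (hb : b ≤ c.top) (h : (c : Q0 L) ∈ rN a b n) : c.p a b = n :=
  rN_unique (rN_coe hab c hb) h

/-- A condition whose top is at least `c` decides the values of the generic colouring at the pairs below `c`, and they satisfy r2, r3. -/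
theorem rN_dec (c : L) (p : Q0 L) : ∃ q ≤ p, ∃ r : L → L → ℕ, (∀ a b, a < b → b ≤ c → q ∈ rN a b (r a b)) ∧
    (∀ a b d, a < b → b < d → d ≤ c → r a d ≤ max (r a b) (r b d)) ∧
    (∀ a b d, a < b → b < d → d ≤ c → r a b ≤ max (r a d) (r b d)) ∧
    ∀ b (n : ℕ), b ≤ c → #{a : L | a < b ∧ r a b ≤ n} ≤ ℵ_ (n : Ordinal) := by
  obtain ⟨q, hq, hc⟩ := dense_top c p
  exact ⟨q, hq, q.p, fun a b hab hb => rN_coe hab q (hb.trans hc), fun a b d h1 h2 h3 => q.r1 a b d h1 h2 (h3.trans hc),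
    fun a b d h1 h2 h3 => q.r2 a b d h1 h2 (h3.trans hc), fun b n hb => q.r3 b n (hb.trans hc)⟩

end Pool.Agent.TrI
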