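import Pool.Agent.TrI.Q0Jump

set_option autoImplicit false
set_option linter.unusedSectionVars false

/-!
# MP_33d970_lc, V level: chains of marked conditions
-/

namespace Pool.Agent.TrI

open Cardinal

variable {L : Type} [LinearOrder L] [WellFoundedLT L] [hL : Lam L] {n : ℕ}

/-- A chain of marked conditions without a largest top. -/
structure Chn (C : Set (Mkd L n)) : Prop where
  ch : IsChain (· ≤ ·) C
  ne : C.Nonempty
  card : #C ≤ ℵ_ (n : Ordinal)
  nmax : ∀ x ∈ C, ∃ y ∈ C, x.c.top < y.c.top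

section
variable {C : Set (Mkd L n)} (hC : Chn C)

include hC

lemma Chn.bdd : ∃ u : L, ∀ x ∈ C, x.c.top < u := by
  obtain ⟨u, hu⟩ := bdd_of_le ((fun x : Mkd L n => x.c.top) '' C)
    ((mk_image_le).trans (hC.card.trans (aleph_le_aleph.2 (Ordinal.natCast_lt_omega0 n).le)))
  exact ⟨u, fun x hx => hu _ ⟨x, hx, rfl⟩⟩

/-- The supremum of the tops. -/
noncomputable def Chn.g : L := (wellFounded_lt (α := L)).min {u | ∀ x ∈ C, x.c.top < u} hC.bdd

lemma Chn.lt_g {x : Mkd L n} (hx : x ∈ C) : x.c.top < hC.g :=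
  (wellFounded_lt (α := L)).min_mem {u | ∀ x ∈ C, x.c.top < u} hC.bdd x hx

lemma Chn.exists_of_lt {a : L} (ha : a < hC.g) : ∃ x ∈ C, a < x.c.top := by
  by_contra hcon
  push Not at hcon
  have h1 : ∀ x ∈ C, x.c.top < a := by
    intro x hx
    obtain ⟨y, hy, hxy⟩ := hC.nmax x hx
    exact hxy.trans_le (hcon y hy)
  exact absurd ((wellFounded_lt (α := L)).min_le (s := {u | ∀ x ∈ C, x.c.top < u}) h1) (not_le.2 ha)

/-- For an element below the supremum, a condition of the chain. -/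
noncomputable def Chn.ex (a : L) (ha : a < hC.g) : Mkd L n := (hC.exists_of_lt ha).choose

lemma Chn.ex_mem (a : L) (ha : a < hC.g) : hC.ex a ha ∈ C := (hC.exists_of_lt ha).choose_spec.1

lemma Chn.lt_ex (a : L) (ha : a < hC.g) : a < (hC.ex a ha).c.top := (hC.exists_of_lt ha).choose_spec.2

lemma Chn.agree {x y : Mkd L n} (hx : x ∈ C) (hy : y ∈ C) (a b : L) (h1 : b ≤ x.c.top) (h2 : b ≤ y.c.top) :
    x.c.p a b = y.c.p a b := by
  rcases hC.ch.total hx hy with h | h
  · exact h.1.2 a b h2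
  · exact (h.1.2 a b h1).symm

lemma Chn.agreeA {x y : Mkd L n} (hx : x ∈ C) (hy : y ∈ C) (a : L) (h1 : a ≤ x.c.top) (h2 : a ≤ y.c.top) :
    a ∈ x.A ↔ a ∈ y.A := by
  rcases hC.ch.total hx hy with h | h
  · exact h.2 a h2
  · exact (h.2 a h1).symm

lemma Chn.tops {x y : Mkd L n} (hx : x ∈ C) (hy : y ∈ C) (h : x.c.top < y.c.top) : y.c.p x.c.top y.c.top ≤ n := by
  apply y.le _ _ _ y.mem h
  exact (hC.agreeA hx hy _ le_rfl h.le).1 x.mem

open Classical in
/-- The colouring below the supremum. -/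
noncomputable def Chn.u (a b : L) : ℕ := if h : b < hC.g then (hC.ex b h).c.p a b else 0

lemma Chn.u_eq {x : Mkd L n} (hx : x ∈ C) (a b : L) (hb : b ≤ x.c.top) : hC.u a b = x.c.p a b := by
  have h : b < hC.g := hb.trans_lt (hC.lt_g hx)
  unfold Chn.u
  rw [dif_pos h]
  exact hC.agree (hC.ex_mem b h) hx a b (hC.lt_ex b h).le hb

open Classical in
/-- The last column. -/
noncomputable def Chn.v (a : L) : ℕ := if h : a < hC.g then max ((hC.ex a h).c.p a (hC.ex a h).c.top) n else 0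

lemma Chn.v_eq {x : Mkd L n} (hx : x ∈ C) (a : L) (ha : a ≤ x.c.top) : hC.v a = max (x.c.p a x.c.top) n := by
  have h : a < hC.g := ha.trans_lt (hC.lt_g hx)
  unfold Chn.v
  rw [dif_pos h]
  set y := hC.ex a h with hy
  have hyC : y ∈ C := hC.ex_mem a h
  have hay : a < y.c.top := hC.lt_ex a h
  rcases lt_trichotomy x.c.top y.c.top with hxy | hxy | hxy
  · have h1 : x.c.p a x.c.top = y.c.p a x.c.top := hC.agree hx hyC a _ le_rfl hxy.le
    have h2 := hC.tops hx hyC hxy
    rcases eq_or_lt_of_le ha with h3 | h3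
    · rw [h1, ← h3, y.c.p_self]
      rw [← h3] at h2
      omega
    · have h4 := y.c.r1 a x.c.top y.c.top h3 hxy le_rfl
      have h5 := y.c.r2 a x.c.top y.c.top h3 hxy le_rfl
      rw [h1]
      omega
  · rw [← hxy, hC.agree hyC hx a _ hxy.le le_rfl]
  · have h1 : y.c.p a y.c.top = x.c.p a y.c.top := hC.agree hyC hx a _ le_rfl hxy.le
    have h2 := hC.tops hyC hx hxy
    have h4 := x.c.r1 a y.c.top x.c.top hay hxy le_rfl
    have h5 := x.c.r2 a y.c.top x.c.top hay hxy le_rfl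
    rw [h1]
    omega

open Classical in
/-- The limit condition. -/
noncomputable def Chn.lim : Cnd L where
  top := hC.g
  p a b := if b < hC.g then hC.u a b else if a < b ∧ b = hC.g then hC.v a else 0
  nf a b h := by
    by_cases hb : b < hC.g
    · rw [if_pos hb]
      unfold Chn.u
      rw [dif_pos hb]
      exact (hC.ex b hb).c.nf a b (fun h' => h ⟨h'.1, hb.le⟩)
    · rw [if_neg hb, if_neg]
      rintro ⟨h1, h2⟩
      exact h ⟨h1, h2.le⟩
  r1 a b c hab hbc hc := by
    rcases eq_or_lt_of_le hc with rfl | hc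
    · have hb := hbc
      rw [if_neg (lt_irrefl _), if_pos hb, if_neg (lt_irrefl _), if_pos ⟨hab.trans hbc, rfl⟩, if_pos ⟨hbc, rfl⟩]
      obtain ⟨x, hx, hbx⟩ := hC.exists_of_lt hb
      rw [hC.u_eq hx a b hbx.le, hC.v_eq hx a (hab.trans hbx).le, hC.v_eq hx b hbx.le]
      have := x.c.r1 a b x.c.top hab hbx le_rfl
      omega
    · rw [if_pos hc, if_pos (hbc.trans hc), if_pos hc]
      obtain ⟨x, hx, hcx⟩ := hC.exists_of_lt hc
      rw [hC.u_eq hx a b (hbc.trans hcx).le, hC.u_eq hx a c hcx.le, hC.u_eq hx b c hcx.le]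
      exact x.c.r1 a b c hab hbc hcx.le
  r2 a b c hab hbc hc := by
    rcases eq_or_lt_of_le hc with rfl | hc
    · have hb := hbc
      rw [if_neg (lt_irrefl _), if_pos hb, if_neg (lt_irrefl _), if_pos ⟨hab.trans hbc, rfl⟩, if_pos ⟨hbc, rfl⟩]
      obtain ⟨x, hx, hbx⟩ := hC.exists_of_lt hb
      rw [hC.u_eq hx a b hbx.le, hC.v_eq hx a (hab.trans hbx).le, hC.v_eq hx b hbx.le]
      have := x.c.r2 a b x.c.top hab hbx le_rfl
      omega
    · rw [if_pos hc, if_pos (hbc.trans hc), if_pos hc]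
      obtain ⟨x, hx, hcx⟩ := hC.exists_of_lt hc
      rw [hC.u_eq hx a b (hbc.trans hcx).le, hC.u_eq hx a c hcx.le, hC.u_eq hx b c hcx.le]
      exact x.c.r2 a b c hab hbc hcx.le
  r3 b m hb := by
    rcases eq_or_lt_of_le hb with rfl | hb
    · simp only [lt_irrefl, if_false]
      have hal : ℵ₀ ≤ ℵ_ (m : Ordinal) := aleph0_le_aleph _
      rcases lt_or_ge m n with h | h
      · have : {a : L | a < hC.g ∧ (if a < hC.g ∧ True then hC.v a else 0) ≤ m} = ∅ := by
          ext a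
          simp only [Set.mem_ofPred_eq, Set.mem_empty_iff_false, iff_false]
          rintro ⟨h1, h2⟩
          rw [if_pos ⟨h1, trivial⟩] at h2
          obtain ⟨x, hx, hax⟩ := hC.exists_of_lt h1
          rw [hC.v_eq hx a hax.le] at h2
          omega
        simp only [and_true] at this ⊢
        rw [this]
        simp
      · have hsub : {a : L | a < hC.g ∧ (if a < hC.g ∧ True then hC.v a else 0) ≤ m} ⊆
            ⋃ x ∈ C, {a : L | a < x.c.top ∧ x.c.p a x.c.top ≤ m} := by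
          rintro a ⟨h1, h2⟩
          rw [if_pos ⟨h1, trivial⟩] at h2
          obtain ⟨x, hx, hax⟩ := hC.exists_of_lt h1
          rw [hC.v_eq hx a hax.le] at h2
          exact Set.mem_biUnion hx ⟨hax, by omega⟩
        refine (mk_le_mk_of_subset hsub).trans ((mk_biUnion_le _ _).trans ?_)
        calc #C * ⨆ x : C, #{a : L | a < (x : Mkd L n).c.top ∧ (x : Mkd L n).c.p a (x : Mkd L n).c.top ≤ m}
            ≤ (ℵ_ (m : Ordinal)) * (ℵ_ (m : Ordinal)) := by
              apply mul_le_mul'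
              · exact hC.card.trans (aleph_le_aleph.2 (by exact_mod_cast h))
              · exact ciSup_le' (fun x => (x : Mkd L n).c.r3 _ m le_rfl)
          _ = ℵ_ (m : Ordinal) := mul_eq_self hal
    · simp only [if_pos hb]
      obtain ⟨x, hx, hbx⟩ := hC.exists_of_lt hb
      simp only [hC.u_eq hx _ b hbx.le]
      exact x.c.r3 b m hbx.le

lemma Chn.lim_le {x : Mkd L n} (hx : x ∈ C) : hC.lim ≤ x.c := by
  refine ⟨(hC.lt_g hx).le, fun a b hb => ?_⟩
  show (if b < hC.g then hC.u a b else if a < b ∧ b = hC.g then hC.v a else 0) = _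
  rw [if_pos (hb.trans_lt (hC.lt_g hx)), hC.u_eq hx a b hb]

lemma Chn.lim_p {a : L} (ha : a < hC.g) : hC.lim.p a hC.g = hC.v a := by
  show (if hC.g < hC.g then hC.u a hC.g else if a < hC.g ∧ hC.g = hC.g then hC.v a else 0) = _
  rw [if_neg (lt_irrefl _), if_pos ⟨ha, rfl⟩]

/-- The limit marked condition. -/
noncomputable def Chn.lb : Mkd L n where
  c := hC.lim
  A := insert hC.g {a | ∃ x ∈ C, a ∈ x.A}
  sub := by
    rintro a (rfl | ⟨x, hx, ha⟩)
    · exact le_rfl
    · exact (x.sub a ha).trans (hC.lt_g hx).le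
  mem := Set.mem_insert _ _
  le := by
    rintro a ha b (rfl | ⟨y, hy, hb⟩) hab
    · rcases ha with rfl | ⟨x, hx, ha⟩
      · exact absurd hab (lt_irrefl _)
      · rw [hC.lim_p hab, hC.v_eq hx a (x.sub a ha)]
        apply max_le _ le_rfl
        rcases eq_or_lt_of_le (x.sub a ha) with h | h
        · rw [h, x.c.p_self]
          exact Nat.zero_le _
        · exact x.le a ha _ x.mem h
    · have hby := y.sub b hb
      rcases ha with rfl | ⟨x, hx, ha⟩
      · exact absurd (hab.trans_le hby) (not_lt.2 (hC.lt_g hy).le)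
      · rw [(hC.lim_le hy).2 a b hby]
        exact y.le a ((hC.agreeA hx hy a (x.sub a ha) (hab.le.trans hby)).1 ha) b hb hab

lemma Chn.lb_le {x : Mkd L n} (hx : x ∈ C) : hC.lb ≤ x := by
  refine ⟨hC.lim_le hx, fun a ha => ⟨?_, fun h => Set.mem_insert_of_mem _ ⟨x, hx, h⟩⟩⟩
  rintro (rfl | ⟨y, hy, h⟩)
  · exact absurd ha (not_le.2 (hC.lt_g hx))
  · exact (hC.agreeA hy hx a (y.sub a h) ha).1 h

end

/-- (C) A chain of at most `ℵ_n` marked conditions has a lower bound. -/
theorem mkd_closed (C : Set (Mkd L n)) (h1 : IsChain (· ≤ ·) C) (h2 : C.Nonempty) (h3 : #C ≤ ℵ_ (n : Ordinal)) :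
    ∃ q, ∀ x ∈ C, q ≤ x := by
  by_cases h4 : ∀ x ∈ C, ∃ y ∈ C, x.c.top < y.c.top
  · have hC : Chn C := ⟨h1, h2, h3, h4⟩
    exact ⟨hC.lb, fun x hx => hC.lb_le hx⟩
  · push Not at h4
    obtain ⟨x, hx, hmax⟩ := h4
    refine ⟨x, fun y hy => ?_⟩
    rcases h1.total hx hy with h | h
    · exact h
    · have htop : y.c.top = x.c.top := le_antisymm (hmax y hy) h.1.1
      refine ⟨⟨htop.le, fun a b hb => ?_⟩, fun a ha => ?_⟩
      · exact (h.1.2 a b (hb.trans htop.le)).symm
      · exact (h.2 a (ha.trans htop.le)).symm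

end Pool.Agent.TrI
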