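import Mathlib

set_option autoImplicit false

/-!
# MP_33d970_lc, V level: closed forcing notions meet many open dense sets
-/

namespace Pool.Agent.TrI

open Cardinal

/-- If every chain of at most `c` elements has a lower bound, then at most `c` open dense sets have a dense intersection. -/
theorem closed_dense {P : Type} [Preorder P] {c : Cardinal.{0}} (hc : ℵ₀ ≤ c)
    (hcl : ∀ C : Set P, IsChain (· ≤ ·) C → C.Nonempty → #C ≤ c → ∃ q, ∀ x ∈ C, q ≤ x)
    {I : Type} (hI : #I ≤ c) (D : I → Set P) (hd : ∀ i p, ∃ q ≤ p, q ∈ D i)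
    (ho : ∀ i p q, p ∈ D i → q ≤ p → q ∈ D i) (p : P) : ∃ q ≤ p, ∀ i, q ∈ D i := by
  classical
  obtain ⟨r, hr⟩ : ∃ r : I → I → Prop, IsWellOrder I r := ⟨WellOrderingRel, inferInstance⟩
  have wf : WellFounded r := hr.wf
  let F : I → P := wf.fix (fun i IH => if h : ∃ q, q ∈ D i ∧ q ≤ p ∧ ∀ j (hj : r j i), q ≤ IH j hj then h.choose else p)
  have hF : ∀ i, F i = if h : ∃ q, q ∈ D i ∧ q ≤ p ∧ ∀ j (hj : r j i), q ≤ F j then h.choose else p := fun i => wf.fix_eq _ i
  have key : ∀ i, F i ∈ D i ∧ F i ≤ p ∧ ∀ j, r j i → F i ≤ F j := by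
    intro i
    induction i using wf.induction with
    | _ i ih =>
      have h : ∃ q, q ∈ D i ∧ q ≤ p ∧ ∀ j (hj : r j i), q ≤ F j := by
        obtain ⟨q, hq⟩ := hcl (insert p (F '' {j | r j i})) (by
          apply IsChain.insert
          · rintro _ ⟨j, hj, rfl⟩ _ ⟨k, hk, rfl⟩ _
            rcases trichotomous_of r j k with h | h | h
            · exact Or.inr ((ih k hk).2.2 j h)
            · exact Or.inl (h ▸ le_rfl)
            · exact Or.inl ((ih j hj).2.2 k h)
          · rintro _ ⟨j, hj, rfl⟩ _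
            exact Or.inr (ih j hj).2.1) ⟨p, Set.mem_insert _ _⟩ (by
          refine (mk_insert_le).trans ?_
          refine (add_le_add_left ((mk_image_le).trans ((mk_set_le _).trans hI)) 1).trans ?_
          exact (add_one_eq hc).le)
        obtain ⟨q', hq', hD⟩ := hd i q
        exact ⟨q', hD, hq'.trans (hq p (Set.mem_insert _ _)), fun j hj =>
          hq'.trans (hq _ (Set.mem_insert_of_mem _ ⟨j, hj, rfl⟩))⟩
      rw [hF i, dif_pos h]
      exact h.choose_spec
  obtain ⟨q, hq⟩ := hcl (insert p (Set.range F)) (by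
    apply IsChain.insert
    · rintro _ ⟨j, rfl⟩ _ ⟨k, rfl⟩ _
      rcases trichotomous_of r j k with h | h | h
      · exact Or.inr ((key k).2.2 j h)
      · exact Or.inl (h ▸ le_rfl)
      · exact Or.inl ((key j).2.2 k h)
    · rintro _ ⟨j, rfl⟩ _
      exact Or.inr (key j).2.1) ⟨p, Set.mem_insert _ _⟩ (by
    refine (mk_insert_le).trans ?_
    refine (add_le_add_left ((mk_range_le).trans hI) 1).trans ?_
    exact (add_one_eq hc).le)
  exact ⟨q, hq p (Set.mem_insert _ _), fun i => ho i _ _ (key i).1 (hq _ (Set.mem_insert_of_mem _ ⟨i, rfl⟩))⟩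

end Pool.Agent.TrI
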