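import Mathlib
import Pool.Agent.TrI.Q0Closed

set_option autoImplicit false

/-!
# MP_33d970_lc, V level: the forcing notion `Q0` for `M0`
-/

namespace Pool.Agent.TrI

open Cardinal

/-- `L` has order type `ℵ_{ω+1}`. -/
class Lam (L : Type) [LinearOrder L] [WellFoundedLT L] : Prop where
  card : #L = Order.succ (ℵ_ Ordinal.omega0)
  seg : ∀ a : L, #(Set.Iio a) ≤ ℵ_ Ordinal.omega0

/-- A condition: a colouring of the pairs of elements `≤ top`. -/
@[ext] structure Cnd (L : Type) [LinearOrder L] where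
  top : L
  p : L → L → ℕ
  nf : ∀ a b, ¬ (a < b ∧ b ≤ top) → p a b = 0
  r1 : ∀ a b c, a < b → b < c → c ≤ top → p a c ≤ max (p a b) (p b c)
  r2 : ∀ a b c, a < b → b < c → c ≤ top → p a b ≤ max (p a c) (p b c)
  r3 : ∀ b (n : ℕ), b ≤ top → #{a : L | a < b ∧ p a b ≤ n} ≤ ℵ_ (n : Ordinal)

variable {L : Type} [LinearOrder L]

instance : Preorder (Cnd L) where
  le q p := p.top ≤ q.top ∧ ∀ a b, b ≤ p.top → q.p a b = p.p a b
  le_refl p := ⟨le_rfl, fun _ _ _ => rfl⟩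
  le_trans p q r h1 h2 := ⟨h2.1.trans h1.1, fun a b hb => (h1.2 a b (hb.trans h2.1)).trans (h2.2 a b hb)⟩

lemma Cnd.le_def {p q : Cnd L} : q ≤ p ↔ p.top ≤ q.top ∧ ∀ a b, b ≤ p.top → q.p a b = p.p a b := Iff.rfl

lemma Cnd.p_self (p : Cnd L) (a : L) : p.p a a = 0 := p.nf a a (fun h => lt_irrefl _ h.1)

/-- The forcing notion. -/
abbrev Q0 (L : Type) [LinearOrder L] : Type := WithTop (Cnd L)

/-- Marked conditions. -/
structure Mkd (L : Type) [LinearOrder L] (n : ℕ) where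
  c : Cnd L
  A : Set L
  sub : ∀ a ∈ A, a ≤ c.top
  mem : c.top ∈ A
  le : ∀ a ∈ A, ∀ b ∈ A, a < b → c.p a b ≤ n

variable {n : ℕ}

instance : Preorder (Mkd L n) where
  le q p := q.c ≤ p.c ∧ ∀ a ≤ p.c.top, (a ∈ q.A ↔ a ∈ p.A)
  le_refl p := ⟨le_rfl, fun _ _ => Iff.rfl⟩
  le_trans p q r h1 h2 := ⟨h1.1.trans h2.1, fun a ha => (h1.2 a (ha.trans h2.1.1)).trans (h2.2 a ha)⟩

lemma Mkd.le_def {p q : Mkd L n} : q ≤ p ↔ q.c ≤ p.c ∧ ∀ a ≤ p.c.top, (a ∈ q.A ↔ a ∈ p.A) := Iff.rfl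

section wf
variable [WellFoundedLT L] [hL : Lam L]

omit hL [WellFoundedLT L] in
lemma mk_Iic_le (c : Cardinal.{0}) (hc : ℵ₀ ≤ c) (h : ∀ a : L, #(Set.Iio a) ≤ c) (a : L) : #(Set.Iic a) ≤ c := by
  have : Set.Iic a ⊆ insert a (Set.Iio a) := by
    intro x hx
    rcases eq_or_lt_of_le (Set.mem_Iic.1 hx) with h | h
    · exact Or.inl h
    · exact Or.inr h
  refine (mk_le_mk_of_subset this).trans ((mk_insert_le).trans ?_)
  exact (add_le_add_left (h a) 1).trans (add_one_eq hc).le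

/-- Small sets are bounded. -/
lemma bdd_of_le (C : Set L) (hC : #C ≤ ℵ_ Ordinal.omega0) : ∃ u, ∀ x ∈ C, x < u := by
  by_contra hcon
  push Not at hcon
  have h1 : (Set.univ : Set L) ⊆ ⋃ x ∈ C, Set.Iic x := by
    intro u _
    obtain ⟨x, hx, hux⟩ := hcon u
    exact Set.mem_biUnion hx hux
  have h2 : #(Set.univ : Set L) ≤ ℵ_ Ordinal.omega0 := by
    refine (mk_le_mk_of_subset h1).trans ?_
    refine (mk_biUnion_le _ _).trans ?_
    have hal : ℵ₀ ≤ ℵ_ Ordinal.omega0 := aleph0_le_aleph _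
    calc #C * ⨆ x : C, #(Set.Iic (x : L)) ≤ (ℵ_ Ordinal.omega0) * (ℵ_ Ordinal.omega0) := by
          apply mul_le_mul' hC
          exact ciSup_le' (fun x => mk_Iic_le _ hal hL.seg x)
      _ = ℵ_ Ordinal.omega0 := mul_eq_self hal
  rw [mk_univ, hL.card] at h2
  exact absurd h2 (Order.lt_succ _).not_ge

lemma exists_gt' (a : L) : ∃ b, a < b := by
  obtain ⟨u, hu⟩ := bdd_of_le (L := L) {a} (by
    rw [mk_singleton]
    exact one_le_aleph0.trans (aleph0_le_aleph _))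
  exact ⟨u, hu a rfl⟩

/-- The successor. -/
noncomputable def sc (a : L) : L := (wellFounded_lt (α := L)).min {x | a < x} (exists_gt' a)

lemma lt_sc (a : L) : a < sc a := (wellFounded_lt (α := L)).min_mem {x | a < x} (exists_gt' a)

lemma sc_le {a b : L} (h : a < b) : sc a ≤ b := (wellFounded_lt (α := L)).min_le (s := {x | a < x}) h

lemma lt_sc_iff {a b : L} : b < sc a ↔ b ≤ a := by
  constructor
  · intro h
    by_contra hcon
    exact absurd (sc_le (not_le.1 hcon)) (not_le.2 h)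
  · intro h
    exact h.trans_lt (lt_sc a)

lemma le_sc_iff {a b : L} : b ≤ sc a ↔ b ≤ a ∨ b = sc a := by
  rw [le_iff_lt_or_eq, lt_sc_iff]

end wf

end Pool.Agent.TrI
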