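import Pool.Agent.TrI.Q0Chain

set_option autoImplicit false
set_option linter.unusedSectionVars false

/-!
# MP_33d970_lc, V level: distributivity of `Q0`, density of the tops, cardinality
-/

namespace Pool.Agent.TrI

open Cardinal

variable {L : Type} [LinearOrder L] [WellFoundedLT L] [hL : Lam L]

lemma lam_nonempty : Nonempty L := by
  rw [← mk_ne_zero_iff, hL.card]
  exact (Order.bot_lt_succ _).ne'

/-- The condition with the least top. -/
theorem cnd_nonempty : Nonempty (Cnd L) := by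
  obtain ⟨x⟩ := lam_nonempty (L := L)
  let z : L := (wellFounded_lt (α := L)).min Set.univ ⟨x, trivial⟩
  have hz : ∀ a, ¬ a < z := fun a => (wellFounded_lt (α := L)).not_lt_min Set.univ (Set.mem_univ a)
  refine ⟨⟨z, fun _ _ => 0, fun _ _ _ => rfl, fun _ _ _ _ _ _ => by simp, fun _ _ _ _ _ _ => by simp, fun b n hb => ?_⟩⟩
  have : {a : L | a < b ∧ 0 ≤ n} = ∅ := by
    ext a
    simp only [Set.mem_ofPred_eq, Set.mem_empty_iff_false, iff_false]
    rintro ⟨h1, _⟩
    exact hz a (h1.trans_le hb)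
  rw [this]
  simp

/-- Every condition can be extended to a proper one. -/
theorem exists_cnd (p : Q0 L) : ∃ c : Cnd L, (c : Q0 L) ≤ p := by
  induction p using WithTop.recTopCoe with
  | top => exact ⟨(cnd_nonempty (L := L)).some, le_top⟩
  | coe c => exact ⟨c, le_rfl⟩

theorem le_coe {q : Q0 L} {c : Cnd L} (h : q ≤ c) : ∃ d : Cnd L, q = d ∧ d ≤ c := by
  induction q using WithTop.recTopCoe with
  | top => exact absurd h (by simp)
  | coe d => exact ⟨d, rfl, WithTop.coe_le_coe.1 h⟩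

/-- (D) At most `ℵ_n` open dense sets have a dense intersection. -/
theorem dense_aleph (n : ℕ) {I : Type} (hI : #I ≤ ℵ_ (n : Ordinal)) (D : I → Set (Q0 L)) (hd : ∀ i p, ∃ q ≤ p, q ∈ D i)
    (ho : ∀ i p q, p ∈ D i → q ≤ p → q ∈ D i) (p : Q0 L) : ∃ q ≤ p, ∀ i, q ∈ D i := by
  obtain ⟨c, hc⟩ := exists_cnd p
  let m0 : Mkd L n := ⟨c, {c.top}, by rintro _ rfl; exact le_rfl, rfl, by
    rintro _ rfl _ rfl h
    exact absurd h (lt_irrefl _)⟩
  obtain ⟨m, hm, hmD⟩ := closed_dense (P := Mkd L n) (aleph0_le_aleph (n : Ordinal)) (fun C h1 h2 h3 => mkd_closed C h1 h2 h3)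
    hI (fun i => {m | (m.c : Q0 L) ∈ D i}) (by
      intro i m
      obtain ⟨q, hq, hqD⟩ := hd i (m.c : Q0 L)
      obtain ⟨d, rfl, hd'⟩ := le_coe hq
      obtain ⟨m', hm', hm''⟩ := mkd_ext m d hd'
      exact ⟨m', hm', ho i _ _ hqD (WithTop.coe_le_coe.2 hm'')⟩) (by
      intro i m m' hm hm'
      exact ho i _ _ hm (WithTop.coe_le_coe.2 hm'.1)) m0
  exact ⟨m.c, (WithTop.coe_le_coe.2 hm.1).trans hc, hmD⟩

lemma card_small {T : Type} [LinearOrder T] [WellFoundedLT T] (c : Cardinal.{0}) :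
    #{x : T | #(Set.Iio x) < c} ≤ c := by
  by_contra hcon
  rw [not_le] at hcon
  set S : Set T := {x : T | #(Set.Iio x) < c} with hS
  have h1 : c.ord < Ordinal.type ((· < ·) : S → S → Prop) := by
    rw [← not_le]
    intro h
    have h2 : #S ≤ c := by
      have := Ordinal.card_le_card h
      rwa [Ordinal.card_type, card_ord] at this
    exact absurd hcon (not_lt.2 h2)
  let x : S := Ordinal.enum ((· < ·) : S → S → Prop) ⟨c.ord, h1⟩
  have h3 : Ordinal.typein ((· < ·) : S → S → Prop) x = c.ord := Ordinal.typein_enum _ h1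
  have h4 : #{y : S // y < x} = c := by
    have := Ordinal.card_typein (r := ((· < ·) : S → S → Prop)) x
    rw [h3, card_ord] at this
    exact this.symm
  have h5 : #{y : S // y < x} ≤ #(Set.Iio (x : T)) := by
    refine ⟨⟨fun y => ⟨y.1.1, y.2⟩, ?_⟩⟩
    intro y z h
    apply Subtype.ext
    apply Subtype.ext
    exact congrArg (fun w : Set.Iio (x : T) => (w : T)) h
  exact absurd (h4 ▸ h5) (not_le.2 x.2)

/-- (D) At most `ℵ_ω` open dense sets have a dense intersection. -/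
theorem dense_aleph_omega {I : Type} (hI : #I ≤ ℵ_ Ordinal.omega0) (D : I → Set (Q0 L)) (hd : ∀ i p, ∃ q ≤ p, q ∈ D i)
    (ho : ∀ i p q, p ∈ D i → q ≤ p → q ∈ D i) (p : Q0 L) : ∃ q ≤ p, ∀ i, q ∈ D i := by
  have hI' : #I ≤ #(ℵ_ Ordinal.omega0).ord.ToType := by rwa [mk_ord_toType]
  obtain ⟨e⟩ := hI'
  have hlev : ∀ i : I, ∃ n : ℕ, #(Set.Iio (e i)) < ℵ_ (n : Ordinal) := by
    intro i
    have h1 : #(Set.Iio (e i)) < ℵ_ Ordinal.omega0 := by
      have := mk_Iio_lt (e i) (by rw [mk_ord_toType, Ordinal.type_toType])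
      rwa [mk_ord_toType] at this
    by_contra hcon
    push Not at hcon
    have : ∀ c : Cardinal.{0}, (∀ n : ℕ, ℵ_ (n : Ordinal) ≤ c) → ℵ_ Ordinal.omega0 ≤ c := by
      intro c hc
      rw [aleph_limit Ordinal.isSuccLimit_omega0]
      apply ciSup_le'
      rintro ⟨a, ha⟩
      obtain ⟨n, rfl⟩ := Ordinal.lt_omega0.1 ha
      exact hc n
    exact absurd h1 (not_lt.2 (this _ hcon))
  let E : ℕ → Set (Q0 L) := fun n => {q | ∀ i : I, #(Set.Iio (e i)) < ℵ_ (n : Ordinal) → q ∈ D i}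
  obtain ⟨q, hq, hqE⟩ := dense_aleph (L := L) 0 (I := ℕ) (by simp) E (by
    intro n p
    obtain ⟨q, hq, hqD⟩ := dense_aleph (L := L) n (I := {i : I | #(Set.Iio (e i)) < ℵ_ (n : Ordinal)}) (by
      refine (mk_preimage_of_injective (e : I → _) {x | #(Set.Iio x) < ℵ_ (n : Ordinal)} e.injective).trans ?_
      exact card_small _) (fun i => D i.1) (fun i => hd i.1) (fun i => ho i.1) p
    exact ⟨q, hq, fun i hi => hqD ⟨i, hi⟩⟩) (by
    intro n p q hp hq i hi
    exact ho i _ _ (hp i hi) hq) p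
  exact ⟨q, hq, fun i => (hlev i).elim fun n hn => hqE n i hn⟩

/-- (T) The tops are unbounded. -/
theorem dense_top (d : L) : ∀ p : Q0 L, ∃ c : Cnd L, (c : Q0 L) ≤ p ∧ d ≤ c.top := by
  induction d using WellFoundedLT.induction with
  | _ d ih =>
    intro p
    obtain ⟨q, hq, hqD⟩ := dense_aleph_omega (L := L) (I := Set.Iio d) (hL.seg d)
      (fun i => {q | ∃ c : Cnd L, q = (c : Q0 L) ∧ i.1 ≤ c.top}) (by
        intro i p
        obtain ⟨c, hc, hic⟩ := ih i.1 i.2 p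
        exact ⟨c, hc, c, rfl, hic⟩) (by
        rintro i p q ⟨c, rfl, hic⟩ hq
        obtain ⟨c', rfl, hc'⟩ := le_coe hq
        exact ⟨c', rfl, hic.trans hc'.1⟩) p
    obtain ⟨c, hc⟩ := exists_cnd q
    refine ⟨jump c c.top le_rfl 0, (WithTop.coe_le_coe.2 (jump_le c c.top le_rfl 0)).trans (hc.trans hq), ?_⟩
    rw [jump_top]
    by_contra hcon
    rw [not_le] at hcon
    obtain ⟨c', h1, h2⟩ := hqD ⟨sc c.top, hcon⟩
    rw [h1] at hc
    exact absurd (h2.trans (WithTop.coe_le_coe.1 hc).1) (not_le.2 (lt_sc _))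

end Pool.Agent.TrI
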