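import Pool.Agent.TrI.Q0Defs

set_option autoImplicit false

/-!
# MP_33d970_lc, V level: the jump
-/

namespace Pool.Agent.TrI

open Cardinal

variable {L : Type} [LinearOrder L] [WellFoundedLT L] [hL : Lam L]

/-- The last column of the jump. -/
def jcol (q : Cnd L) (g0 : L) (n : ℕ) (a : L) : ℕ :=
  if a < g0 then max (q.p a g0) n else if a = g0 then n else
    max (max (q.p g0 a) (q.p a q.top)) (max n (q.p g0 q.top))

omit [WellFoundedLT L] hL in
lemma n_le_jcol (q : Cnd L) (g0 : L) (n : ℕ) (a : L) : n ≤ jcol q g0 n a := by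
  unfold jcol
  split_ifs <;> simp

omit [WellFoundedLT L] hL in
lemma jcol_r1 (q : Cnd L) (g0 : L) (hg : g0 ≤ q.top) (n : ℕ) (a b : L) (hab : a < b) (hb : b ≤ q.top) :
    jcol q g0 n a ≤ max (q.p a b) (jcol q g0 n b) := by
  unfold jcol
  rcases lt_trichotomy a g0 with ha | ha | ha
  · rcases lt_trichotomy b g0 with hb' | hb' | hb'
    · have := q.r1 a b g0 hab hb' hg
      simp only [ha, hb', if_true]
      omega
    · subst hb'
      simp only [ha, lt_irrefl, if_true, if_false]
      omega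
    · have := q.r2 a g0 b ha hb' hb
      simp only [ha, if_true, not_lt_of_gt hb', if_false, ne_of_gt hb']
      omega
  · subst ha
    simp only [lt_irrefl, if_true, if_false, not_lt_of_gt hab, ne_of_gt hab]
    omega
  · have hb' : g0 < b := ha.trans hab
    simp only [not_lt_of_gt ha, ne_of_gt ha, not_lt_of_gt hb', ne_of_gt hb', if_false]
    have h1 := q.r2 g0 a b ha hab hb
    have h2 : q.p a q.top ≤ max (q.p a b) (q.p b q.top) := by
      rcases eq_or_lt_of_le hb with h | h
      · rw [← h]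
        exact le_max_left _ _
      · exact q.r1 a b q.top hab h le_rfl
    omega

omit [WellFoundedLT L] hL in
lemma jcol_r2 (q : Cnd L) (g0 : L) (hg : g0 ≤ q.top) (n : ℕ) (a b : L) (hab : a < b) (hb : b ≤ q.top) :
    q.p a b ≤ max (jcol q g0 n a) (jcol q g0 n b) := by
  unfold jcol
  rcases lt_trichotomy a g0 with ha | ha | ha
  · rcases lt_trichotomy b g0 with hb' | hb' | hb'
    · have := q.r2 a b g0 hab hb' hg
      simp only [ha, hb', if_true]
      omega
    · subst hb'
      simp only [ha, if_true]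
      omega
    · have := q.r1 a g0 b ha hb' hb
      simp only [ha, if_true, not_lt_of_gt hb', if_false, ne_of_gt hb']
      omega
  · subst ha
    simp only [lt_irrefl, if_true, if_false, not_lt_of_gt hab, ne_of_gt hab]
    omega
  · have hb' : g0 < b := ha.trans hab
    simp only [not_lt_of_gt ha, ne_of_gt ha, not_lt_of_gt hb', ne_of_gt hb', if_false]
    rcases eq_or_lt_of_le hb with h | h
    · subst h
      omega
    · have := q.r2 a b q.top hab h le_rfl
      omega

omit [WellFoundedLT L] hL in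
lemma jcol_r3 (q : Cnd L) (g0 : L) (hg : g0 ≤ q.top) (n m : ℕ) :
    #{a : L | a ≤ q.top ∧ jcol q g0 n a ≤ m} ≤ ℵ_ (m : Ordinal) := by
  rcases lt_or_ge m n with h | h
  · have : {a : L | a ≤ q.top ∧ jcol q g0 n a ≤ m} = ∅ := by
      ext a
      simp only [Set.mem_ofPred_eq, Set.mem_empty_iff_false, iff_false]
      rintro ⟨_, h2⟩
      exact absurd ((n_le_jcol q g0 n a).trans h2) (by omega)
    rw [this]
    simp
  · have hsub : {a : L | a ≤ q.top ∧ jcol q g0 n a ≤ m} ⊆
        ({a | a < g0 ∧ q.p a g0 ≤ m} ∪ {a | a < q.top ∧ q.p a q.top ≤ m}) ∪ {g0, q.top} := by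
      rintro a ⟨h1, h2⟩
      unfold jcol at h2
      rcases lt_trichotomy a g0 with ha | ha | ha
      · simp only [ha, if_true] at h2
        exact Or.inl (Or.inl ⟨ha, by omega⟩)
      · exact Or.inr (Or.inl ha)
      · simp only [not_lt_of_gt ha, ne_of_gt ha, if_false] at h2
        rcases eq_or_lt_of_le h1 with h3 | h3
        · exact Or.inr (Or.inr h3)
        · exact Or.inl (Or.inr ⟨h3, by omega⟩)
    have hal : ℵ₀ ≤ ℵ_ (m : Ordinal) := aleph0_le_aleph _
    have hfin : #({g0, q.top} : Set L) ≤ ℵ_ (m : Ordinal) :=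
      (Set.Countable.le_aleph0 (Set.Finite.countable (Set.toFinite _))).trans hal
    refine (mk_le_mk_of_subset hsub).trans ((mk_union_le _ _).trans ?_)
    refine (add_le_add ((mk_union_le _ _).trans (add_le_add (q.r3 g0 m hg) (q.r3 q.top m le_rfl))) hfin).trans ?_
    rw [add_eq_self hal, add_eq_self hal]

/-- The jump (J). -/
noncomputable def jump (q : Cnd L) (g0 : L) (hg : g0 ≤ q.top) (n : ℕ) : Cnd L where
  top := sc q.top
  p a b := if b ≤ q.top then q.p a b else if a < b ∧ b = sc q.top then jcol q g0 n a else 0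
  nf a b h := by
    by_cases hb : b ≤ q.top
    · rw [if_pos hb]
      exact q.nf a b (fun h' => h ⟨h'.1, h'.2.trans (lt_sc _).le⟩)
    · rw [if_neg hb, if_neg]
      rintro ⟨h1, h2⟩
      exact h ⟨h1, h2.le⟩
  r1 a b c hab hbc hc := by
    rcases le_sc_iff.1 hc with hc | hc
    · rw [if_pos hc, if_pos (hbc.le.trans hc), if_pos hc]
      exact q.r1 a b c hab hbc hc
    · subst hc
      have hb : b ≤ q.top := lt_sc_iff.1 hbc
      have h1 : ¬ sc q.top ≤ q.top := not_le.2 (lt_sc _)
      rw [if_neg h1, if_pos hb, if_neg h1, if_pos ⟨hab.trans hbc, rfl⟩, if_pos ⟨hbc, rfl⟩]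
      exact jcol_r1 q g0 hg n a b hab hb
  r2 a b c hab hbc hc := by
    rcases le_sc_iff.1 hc with hc | hc
    · rw [if_pos hc, if_pos (hbc.le.trans hc), if_pos hc]
      exact q.r2 a b c hab hbc hc
    · subst hc
      have hb : b ≤ q.top := lt_sc_iff.1 hbc
      have h1 : ¬ sc q.top ≤ q.top := not_le.2 (lt_sc _)
      rw [if_neg h1, if_pos hb, if_neg h1, if_pos ⟨hab.trans hbc, rfl⟩, if_pos ⟨hbc, rfl⟩]
      exact jcol_r2 q g0 hg n a b hab hb
  r3 b m hb := by
    rcases le_sc_iff.1 hb with hb | hb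
    · simp only [if_pos hb]
      exact q.r3 b m hb
    · subst hb
      have h1 : ¬ sc q.top ≤ q.top := not_le.2 (lt_sc _)
      simp only [if_neg h1]
      refine (mk_le_mk_of_subset ?_).trans (jcol_r3 q g0 hg n m)
      rintro a ⟨h2, h3⟩
      simp only [h2, and_self, if_true] at h3
      exact ⟨lt_sc_iff.1 h2, h3⟩

lemma jump_le (q : Cnd L) (g0 : L) (hg : g0 ≤ q.top) (n : ℕ) : jump q g0 hg n ≤ q :=
  ⟨(lt_sc _).le, fun _ _ hb => if_pos hb⟩

@[simp] lemma jump_top (q : Cnd L) (g0 : L) (hg : g0 ≤ q.top) (n : ℕ) : (jump q g0 hg n).top = sc q.top := rfl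

lemma jump_p (q : Cnd L) (g0 : L) (hg : g0 ≤ q.top) (n : ℕ) (a : L) (ha : a ≤ q.top) :
    (jump q g0 hg n).p a (sc q.top) = jcol q g0 n a := by
  show (if sc q.top ≤ q.top then q.p a (sc q.top) else if a < sc q.top ∧ sc q.top = sc q.top then jcol q g0 n a else 0) = _
  rw [if_neg (not_le.2 (lt_sc _)), if_pos ⟨lt_sc_iff.2 ha, rfl⟩]

/-- Marked conditions can be extended into an extension of the first part. -/
theorem mkd_ext {n : ℕ} (m : Mkd L n) (q : Cnd L) (hq : q ≤ m.c) : ∃ m' : Mkd L n, m' ≤ m ∧ m'.c ≤ q := by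
  have hval : ∀ a ∈ m.A, (jump q m.c.top hq.1 n).p a (sc q.top) ≤ n := by
    intro a ha
    have h1 := m.sub a ha
    rw [jump_p q _ hq.1 n a (h1.trans hq.1)]
    unfold jcol
    rcases eq_or_lt_of_le h1 with h | h
    · subst h
      simp
    · rw [if_pos h, hq.2 a m.c.top le_rfl]
      exact max_le (m.le a ha _ m.mem h) le_rfl
  refine ⟨⟨jump q m.c.top hq.1 n, insert (sc q.top) m.A, ?_, ?_, ?_⟩, ⟨?_, ?_⟩, jump_le q _ hq.1 n⟩
  · rintro a (rfl | ha)
    · exact le_rfl
    · exact ((m.sub a ha).trans hq.1).trans (lt_sc _).le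
  · exact Set.mem_insert _ _
  · rintro a ha b (rfl | hb) hab
    · rcases ha with rfl | ha
      · exact absurd hab (lt_irrefl _)
      · exact hval a ha
    · rcases ha with rfl | ha
      · exact absurd (hab.trans_le ((m.sub b hb).trans hq.1)) (not_lt.2 (lt_sc _).le)
      · have hb' : b ≤ q.top := (m.sub b hb).trans hq.1
        rw [(jump_le q _ hq.1 n).2 a b hb', hq.2 a b (m.sub b hb)]
        exact m.le a ha b hb hab
  · exact (jump_le q _ hq.1 n).trans hq
  · intro a ha
    constructor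
    · rintro (rfl | h)
      · exact absurd (ha.trans hq.1) (not_le.2 (lt_sc _))
      · exact h
    · intro h
      exact Set.mem_insert_of_mem _ h

end Pool.Agent.TrI
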