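import Pool.Agent.TrI.W0

set_option autoImplicit false
set_option linter.all false

/-!
# W2 (difficulty 2): chain condition and size of the product

`prod_cc`: `P × C` with `#P < θ`, `θ` regular, `CcP C θ`. Antichain `X` with `θ ≤ #X`: the first coordinate maps `X` to `P`, so some fibre `{x ∈ X | x.1 = p}` has size `≥ θ` (`X` is the union of `#P < θ` fibres: `reg_union`); the second coordinates of the fibre are different and pairwise incompatible (a common extension `r` of `c, c'` gives
`(p, r)`), so they form an antichain of size `≥ θ` in `C`.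
-/

namespace Pool.Agent.TrI

open Cardinal Pool.Agent.SplK Pool.Agent.H55.Lav

theorem prod_cc {P C : Type} [Preorder P] [Preorder C] {θ : Cardinal.{0}} (hθ : θ.IsRegular) (hP : #P < θ) (hC : CcP C θ) :
    CcP (P × C) θ := by
  intro X hX
  have h1 : ∀ p : P, #({x : P × C | x ∈ X ∧ x.1 = p} : Set (P × C)) < θ := by
    intro p
    have h2 := hC ((fun x : P × C => x.2) '' {x : P × C | x ∈ X ∧ x.1 = p}) (by
      rintro c ⟨x, ⟨hx, hxp⟩, rfl⟩ d ⟨y, ⟨hy, hyp⟩, rfl⟩ hne r hr hr'
      have hne' : x ≠ y := fun h => hne (by rw [h])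
      exact hX x hx y hy hne' (p, r) ⟨hxp.symm.le, hr⟩ ⟨hyp.symm.le, hr'⟩)
    rw [Cardinal.mk_image_eq_of_injOn _ _ (by
      rintro x ⟨hx, hxp⟩ y ⟨hy, hyp⟩ h
      exact Prod.ext (hxp.trans hyp.symm) h)] at h2
    exact h2
  have h3 := reg_union hθ hP _ h1
  refine lt_of_le_of_lt (Cardinal.mk_le_mk_of_subset ?_) h3
  intro x hx
  exact Set.mem_iUnion.mpr ⟨x.1, hx, rfl⟩

end Pool.Agent.TrI
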