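import Pool.Agent.TrI.W5
import Pool.Agent.TrI.W2
import Pool.Agent.TrI.OT
import Pool.Agent.SKap.CInac

set_option autoImplicit false
set_option linter.all false

/-!
# W6 (difficulty 3): GCH for the second forcing notion `P × C`

`bigL_pt`: `BigL Q L`, `x < #L`: a point `j` with `OTyp (Iio j) x` (the order type of `L` is the cardinal `#L`: `OTyp L #L` by `lim` and Cantor; `ot_pt`). `gch_big`: `x = succ #(Iio i) = 2 ^ #(Iio i) < #L`, `j` the point; `c < j` gives `#(Iio c) ≤ #(Iio i)`: `img_of_card`; `pow_big`: `(2 ^ #Q) ^ #(Iio i) = 2 ^ #(Iio i)`.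
`gch_lo`: `#(Iio i) ≤ μ := plw c`, `#A = succ μ`: `j` the point for `succ μ`. For `c' < j`: `#(Iio c') ≤ μ < #A`, choose `a : A` with `#(Iio c') ≤ #(Iio a)` and a surjection `h` from `Iio a` onto `Iio c'` (if `Iio c'` is empty use `img_of_card`); `s` from `hP.col a`; `ν : ℕ → Iio i` injective;
`s' x y = {E | ∃ n z, ν n = x ∧ z < a ∧ h z = y ∧ E.1 ∈ s n z}`. `pow_prod`: `#(Iio i → {Z : Set P // #Z ≤ μ}) ≤ #A`: `#P ≤ #A = succ μ = 2 ^ μ` (GCH), `#{Z // #Z ≤ μ} ≤ (2 ^ μ) ^ μ = 2 ^ μ`, and again to the power `≤ μ`.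
`gch_mid`: `#A ≤ #(Iio i) < #K`: `j` the point for `#K`; for `c' < j` choose `α : K` with `#(Iio c') ≤ #(Iio α)` (`C_seg`, SKap/CInac), a surjection `h` from `Iio α` onto `Iio c'` and `k` from `Iio i` onto `A`: `s' x y = {E | ∃ z < α, h z = y ∧ E.2 ∈ s α (k x) z}`. `pow_cc` with `θ = #K` (`prod_cc`, `hP.size`, `hC.cc`):
`#(P × C) ≤ #K`, `#{Z // #Z < #K} ≤ #K` (`⋃` over `a : K` of the images of the functions `Iio a → P × C`; `C_fun`, `C_seg`), then `#K ^ #(Iio i) ≤ #K` (`C_fun`).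
-/

namespace Pool.Agent.TrI

open Cardinal Pool.Agent.SplK Pool.Agent.H55.Lav

theorem bigL_pt {Q L : Type} [LinearOrder L] (hL : BigL Q L) {x : Cardinal.{0}} (hx : x < #L) : ∃ j : L, OTyp (Set.Iio j) x :=
  ot_pt ⟨hL.wf, rfl, fun a => (Cardinal.cantor _).trans (hL.lim a)⟩ hx

private theorem w6_lt {L : Type} [LinearOrder L] {j c : L} {x : Cardinal.{0}} (hj : OTyp (Set.Iio j) x) (h : c < j) :
    #(Set.Iio c) < x := by
  have h1 := hj.seg ⟨c, h⟩
  rwa [ot_iio] at h1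

theorem gch_big (gch : GCH0) {Q L : Type} [Preorder Q] [LinearOrder L] (hL : BigL Q L) {i : L} (hi : ℵ₀ ≤ #(Set.Iio i))
    (hQ : #Q ≤ #(Set.Iio i)) : ∃ j : L, (∀ c < j, ImgP Q i c) ∧ PowP Q i j := by
  have hx : Order.succ #(Set.Iio i) < #L := by
    rw [← gch _ hi]; exact hL.lim i
  obtain ⟨j, hj⟩ := bigL_pt hL hx
  refine ⟨j, fun c hc => img_of_card Q (Order.lt_succ_iff.1 (w6_lt hj hc)), pow_big Q ?_⟩
  rw [hj.card, ← gch _ hi, ← Cardinal.power_def, Cardinal.mk_set, ← Cardinal.power_mul]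
  refine Cardinal.power_le_power_left two_ne_zero ?_
  calc #Q * #(Set.Iio i) ≤ #(Set.Iio i) * #(Set.Iio i) := mul_le_mul_left hQ _
    _ = _ := Cardinal.mul_eq_self hi

variable {K A P C : Type} [LinearOrder K] [LinearOrder A] [Preorder P] [Preorder C] {c : Cardinal.{0}} {b : ℕ → A} {f : A → ℕ → A}
  {B : A → Set P}

theorem gch_lo (gch : GCH0) (hc : c.IsInaccessible) (otA : OTyp A (Order.succ (plw c))) (hP : AdP c A b f P B)
    (hC : ColP K A C) {L : Type} [LinearOrder L] (hL : BigL (P × C) L) {i : L} (hi : ℵ₀ ≤ #(Set.Iio i)) (hi' : #(Set.Iio i) ≤ plw c)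
    (hA : #A < #L) : ∃ j : L, (∀ c < j, ImgP (P × C) i c) ∧ PowP (P × C) i j := by
  have hμ : ℵ₀ ≤ plw c := hi.trans hi'
  obtain ⟨j, hj⟩ := bigL_pt hL (x := Order.succ (plw c)) (by rw [← otA.card]; exact hA)
  refine ⟨j, fun c' hc' => ?_, ?_⟩
  · obtain ⟨a, ha⟩ := ot_pt otA (w6_lt hj hc')
    obtain ⟨e⟩ := Cardinal.eq.1 ha.card
    obtain ⟨s, s1, s2, s3⟩ := hP.col a
    haveI : Infinite (Set.Iio i) := Cardinal.infinite_iff.2 hi
    obtain ⟨ν⟩ : Nonempty (ℕ ↪ Set.Iio i) := ⟨Infinite.natEmbedding _⟩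
    intro p
    refine ⟨p, le_rfl, fun x y => {E | ∃ (n : ℕ) (z : Set.Iio a), (ν n).1 = x ∧ (e z).1 = y ∧ E.1 ∈ s n z.1}, ?_, ?_⟩
    · rintro x y y' E ⟨D, ⟨n, z, h1, h2, h3⟩, h4⟩ ⟨D', ⟨n', z', h1', h2', h3'⟩, h4'⟩
      have hn : n = n' := ν.injective (Subtype.ext (h1.trans h1'.symm))
      subst hn
      have hz : z.1 = z'.1 := s1 n _ _ E.1 (s2 _ _ _ _ h3 h4.1) (s2 _ _ _ _ h3' h4'.1)
      rw [← h2, ← h2', Subtype.ext hz]
    · intro y hy E' hE'
      obtain ⟨q, hq, n, hn⟩ := s3 (e.symm ⟨y, hy⟩).1 (e.symm ⟨y, hy⟩).2 E'.1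
      refine ⟨(q, E'.2), ⟨hq, le_rfl⟩, (q, E'.2), ⟨(ν n).1, (ν n).2, n, e.symm ⟨y, hy⟩, rfl, ?_, hn⟩, le_rfl⟩
      rw [Equiv.apply_symm_apply]
  · refine pow_prod hμ (fun X hX => ?_) (fun ι g hι hg => ?_) hi' ?_
    · rw [← otA.card]; exact hP.cc X hX
    · exact hC.closed ι g (by rw [otA.card]; exact Order.lt_succ_iff.2 hι) hg
    · rw [hj.card, ← gch _ hμ, ← Cardinal.power_def]
      have h1 : #{Z : Set P // #Z ≤ plw c} ≤ 2 ^ plw c := by
        refine (Cardinal.mk_bounded_set_le P (plw c)).trans ?_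
        have h2 : max #P ℵ₀ ≤ 2 ^ plw c := by
          refine max_le ?_ (hμ.trans (Cardinal.cantor _).le)
          rw [gch _ hμ, ← otA.card]; exact hP.size
        refine (Cardinal.power_le_power_right h2).trans ?_
        rw [← Cardinal.power_mul, Cardinal.mul_eq_self hμ]
      calc #{Z : Set P // #Z ≤ plw c} ^ #(Set.Iio i) ≤ (2 ^ plw c) ^ #(Set.Iio i) := Cardinal.power_le_power_right h1
        _ ≤ (2 ^ plw c) ^ plw c := Cardinal.power_le_power_left (Cardinal.power_ne_zero _ two_ne_zero) hi'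
        _ = 2 ^ plw c := by rw [← Cardinal.power_mul, Cardinal.mul_eq_self hμ]

private theorem w6_sets (hK : Inac K) {T : Type} (hT : #T ≤ #K) : #{Z : Set T // #Z < #K} ≤ #K := by
  have h1 : {Z : Set T | #Z < #K} ⊆ ⋃ a : K, {Z | #Z ≤ #(Set.Iio a)} := by
    intro Z hZ
    obtain ⟨a, ha⟩ := Pool.Agent.SKap.C_seg hK _ hZ
    exact Set.mem_iUnion.2 ⟨a, ha⟩
  refine (Cardinal.mk_le_mk_of_subset h1).trans (Cardinal.mk_iUnion_le_sum_mk.trans ?_)
  calc Cardinal.sum (fun a : K => #{Z : Set T | #Z ≤ #(Set.Iio a)})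
      ≤ Cardinal.sum (fun _ : K => #K) := by
        refine Cardinal.sum_le_sum _ _ fun a => ?_
        refine (Cardinal.mk_bounded_set_le T #(Set.Iio a)).trans ?_
        refine (Cardinal.power_le_power_right (max_le hT hK.unc.le)).trans ?_
        exact Pool.Agent.SKap.C_fun hK _ (hK.seg a)
    _ = #K * #K := by rw [Cardinal.sum_const']
    _ = #K := Cardinal.mul_eq_self hK.unc.le

private theorem w6_prod (hK : Inac K) (hAK : #A < #K) (hP : AdP c A b f P B) (hC : ColP K A C) : #(P × C) ≤ #K := by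
  rw [Cardinal.mk_prod, Cardinal.lift_id, Cardinal.lift_id]
  calc #P * #C ≤ #K * #K := mul_le_mul' (hP.size.trans hAK.le) hC.size
    _ = #K := Cardinal.mul_eq_self hK.unc.le

theorem gch_mid (gch : GCH0) (hK : Inac K) (otA : OTyp A (Order.succ (plw c))) (hAK : #A < #K) (hP : AdP c A b f P B)
    (hC : ColP K A C) {L : Type} [LinearOrder L] (hL : BigL (P × C) L) {i : L} (hi : #A ≤ #(Set.Iio i)) (hi' : #(Set.Iio i) < #K)
    (hKL : #K < #L) : ∃ j : L, (∀ c < j, ImgP (P × C) i c) ∧ PowP (P × C) i j := by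
  obtain ⟨j, hj⟩ := bigL_pt hL hKL
  refine ⟨j, fun c' hc' => ?_, ?_⟩
  · obtain ⟨α, hα⟩ := Pool.Agent.SKap.C_seg hK _ (w6_lt hj hc')
    obtain ⟨g⟩ := hα
    obtain ⟨m⟩ := hi
    obtain ⟨s, s1, s2, s3⟩ := hC.col
    intro p
    refine ⟨p, le_rfl, fun x y => {E | ∃ (a : A) (hy : y < c'), (m a).1 = x ∧ E.2 ∈ s α a (g ⟨y, hy⟩).1}, ?_, ?_⟩
    · rintro x y y' E ⟨D, ⟨a, hy, h1, h2⟩, h3⟩ ⟨D', ⟨a', hy', h1', h2'⟩, h3'⟩
      have ha : a = a' := m.injective (Subtype.ext (h1.trans h1'.symm))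
      subst ha
      have hz := s1 α a _ _ E.2 (s2 _ _ _ _ _ h2 h3.2) (s2 _ _ _ _ _ h2' h3'.2)
      have := g.injective (Subtype.ext hz)
      exact congrArg Subtype.val this
    · intro y hy E' hE'
      obtain ⟨q, hq, a, ha⟩ := s3 α (g ⟨y, hy⟩).1 (g ⟨y, hy⟩).2 E'.2
      exact ⟨(E'.1, q), ⟨le_rfl, hq⟩, (E'.1, q), ⟨(m a).1, (m a).2, a, hy, rfl, ha⟩, le_rfl⟩
  · refine pow_cc (θ := #K) (P × C) (prod_cc (Pool.Agent.SKap.C_reg hK) (hP.size.trans_lt hAK) hC.cc) ?_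
    rw [hj.card, ← Cardinal.power_def]
    refine (Cardinal.power_le_power_right (w6_sets hK (w6_prod hK hAK hP hC))).trans ?_
    exact Pool.Agent.SKap.C_fun hK _ hi'

theorem gchP_prod (gch : GCH0) (hK : Inac K) (hc : c.IsInaccessible) (otA : OTyp A (Order.succ (plw c))) (hAK : #A < #K)
    (hP : AdP c A b f P B) (hC : ColP K A C) (hKC : #K ≤ #(P × C)) : GchP (P × C) := by
  intro L _ hL i hi
  have hKL : #K < #L := hKC.trans_lt hL.big
  rcases le_or_gt #(Set.Iio i) (plw c) with h | h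
  · exact gch_lo gch hc otA hP hC hL hi h (hAK.trans hKL)
  · have hA : #A ≤ #(Set.Iio i) := by rw [otA.card]; exact Order.succ_le_of_lt h
    rcases lt_or_ge #(Set.Iio i) #K with h' | h'
    · exact gch_mid gch hK otA hAK hP hC hL hA h' hKL
    · exact gch_big gch hL hi ((w6_prod hK hAK hP hC).trans h')

end Pool.Agent.TrI
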