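import Pool.Agent.TrI.QD
import Pool.Agent.TrI.OT
import Pool.Agent.TrI.W6

set_option autoImplicit false
set_option linter.all false

/-!
# The cardinals `ω_n`, `ω_ω`, `ω_{ω+1}` of the first model, and the generic colouring
-/

namespace Pool.Agent.TrI

open Cardinal Pool.Agent.SplK Pool.Agent.H55.Lav

theorem pl_aleph0 (n : ℕ) : pl ℵ₀ n = ℵ_ (n : Ordinal) := by
  induction n with
  | zero => simp
  | succ n ih => rw [pl_succ, ih, ← aleph_succ, Nat.cast_succ, Order.succ_eq_add_one]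

theorem plw_aleph0 : plw ℵ₀ = ℵ_ Ordinal.omega0 := by
  rw [plw, aleph_limit Ordinal.isSuccLimit_omega0]
  apply le_antisymm
  · apply ciSup_le'
    intro n
    rw [pl_aleph0]
    exact le_ciSup (f := fun a : Set.Iio Ordinal.omega0 => ℵ_ a.1) (bddAbove_of_small) ⟨(n : Ordinal), Ordinal.natCast_lt_omega0 n⟩
  · apply ciSup_le'
    rintro ⟨a, ha⟩
    obtain ⟨n, rfl⟩ := Ordinal.lt_omega0.1 ha
    rw [← pl_aleph0]
    exact pl_le_plw _ _

variable {L : Type} [LinearOrder L]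

theorem lam_of_ot [WellFoundedLT L] (h : OTyp L (Order.succ (plw ℵ₀))) : Lam L :=
  ⟨by rw [h.card, plw_aleph0], fun a => by
    rw [← plw_aleph0, ← Order.lt_succ_iff]
    exact h.seg a⟩

theorem dist_Q0 [WellFoundedLT L] [Lam L] : DistP (Q0 L) (plw ℵ₀) := by
  intro I D hI hd ho p
  rw [plw_aleph0] at hI
  exact dense_aleph_omega hI D hd ho p

/-- The point of `WithTop L`. -/
theorem mk_Iio_coe (a : L) : #(Set.Iio (a : WithTop L)) = #(Set.Iio a) := by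
  apply mk_congr
  refine ⟨fun x => ⟨x.1.untop (ne_top_of_lt (Set.mem_Iio.1 x.2)), ?_⟩, fun x => ⟨(x.1 : WithTop L), WithTop.coe_lt_coe.2 x.2⟩, ?_, ?_⟩
  · rw [Set.mem_Iio, ← WithTop.coe_lt_coe, WithTop.coe_untop]
    exact x.2
  · intro x
    apply Subtype.ext
    simp
  · intro x
    apply Subtype.ext
    simp

theorem exists_adat0 (hL : OTyp L (Order.succ (plw ℵ₀))) : ∃ D : ADat (WithTop L), D.l = ⊤ ∧
    (∀ n, OTyp (Set.Iio (D.al n)) (pl ℵ₀ n)) ∧ OTyp (Set.Iio D.u) (plw ℵ₀) := by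
  have wf := hL.wf
  have hlt : ∀ n, pl ℵ₀ n < Order.succ (plw ℵ₀) := fun n => (pl_lt_plw ℵ₀ n).trans (Order.lt_succ _)
  obtain ⟨D, hD⟩ := exists_ndat hL (by simpa using hlt 0)
  choose al hal using fun n => ot_pt hL (hlt (n + 1))
  obtain ⟨u, hu⟩ := ot_pt hL (Order.lt_succ (plw ℵ₀))
  obtain ⟨al', h0, hal'⟩ : ∃ al' : ℕ → L, al' 0 = D.om ∧ ∀ n, OTyp (Set.Iio (al' n)) (pl ℵ₀ n) := by
    refine ⟨fun n => Nat.casesOn n D.om al, rfl, fun n => ?_⟩
    cases n with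
    | zero => exact hD
    | succ n => exact hal n
  have hom : ∀ x : WithTop L, x < (D.om : WithTop L) ↔ ∃ n, (D.nL n : WithTop L) = x := by
    intro x
    constructor
    · intro hx
      obtain ⟨y, rfl⟩ := WithTop.ne_top_iff_exists.1 (ne_top_of_lt hx)
      obtain ⟨n, hn⟩ := (D.om_iff y).1 (WithTop.coe_lt_coe.1 hx)
      exact ⟨n, by rw [hn]⟩
    · rintro ⟨n, rfl⟩
      exact WithTop.coe_lt_coe.2 ((D.om_iff _).2 ⟨n, rfl⟩)
  have hall : ∀ n : ℕ, ((al' n : L) : WithTop L) < ((al' (n + 1) : L) : WithTop L) := by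
    intro n
    apply WithTop.coe_lt_coe.2
    rw [ot_le (hal' n) (hal' (n + 1)), pl_succ]
    exact Order.lt_succ _
  have huu : ∀ x : WithTop L, x < (u : WithTop L) ↔ ∃ n, x < (al' n : WithTop L) := by
    intro x
    constructor
    · intro hx
      obtain ⟨y, rfl⟩ := WithTop.ne_top_iff_exists.1 (ne_top_of_lt hx)
      have hy : y < u := WithTop.coe_lt_coe.1 hx
      have h1 : #(Set.Iio y) < plw ℵ₀ := by
        have := hu.seg ⟨y, hy⟩
        rwa [ot_iio] at this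
      obtain ⟨n, hn⟩ := lt_plw h1
      refine ⟨n, WithTop.coe_lt_coe.2 ?_⟩
      by_contra hcon
      rw [not_lt] at hcon
      have h2 : #(Set.Iio (al' n)) ≤ #(Set.Iio y) := mk_le_mk_of_subset (Set.Iio_subset_Iio hcon)
      rw [(hal' n).card] at h2
      exact absurd hn (not_lt.2 h2)
    · rintro ⟨n, hn⟩
      refine hn.trans (WithTop.coe_lt_coe.2 ?_)
      rw [ot_le (hal' n) hu]
      exact pl_lt_plw _ _
  let D' : ADat (WithTop L) :=
    { nL := fun n => (D.nL n : WithTop L), om := (D.om : WithTop L), nL_lt := fun m n h => WithTop.coe_lt_coe.2 (D.nL_lt m n h),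
      om_iff := hom, al := fun n => (al' n : WithTop L), u := (u : WithTop L), l := ⊤, al_zero := by rw [h0], al_lt := hall, u_iff := huu,
      u_lt := WithTop.coe_lt_top u }
  exact ⟨D', rfl, fun n => ot_coe (hal' n), ot_coe hu⟩

theorem afrc_Q0 [WellFoundedLT L] [Lam L] (hL : OTyp L (Order.succ (plw ℵ₀))) {D : ADat (WithTop L)} (hl : D.l = ⊤)
    (hal : ∀ n, OTyp (Set.Iio (D.al n)) (pl ℵ₀ n)) (hu : OTyp (Set.Iio D.u) (plw ℵ₀)) : AFrc (Q0 L) D := by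
  have htop := ot_top hL
  refine ⟨fun n => ?_, fun n c hc => ?_, ?_, fun c hc => ?_⟩
  · apply notimg_dist
    · rw [(hal n).card]
      exact dist_Q0.mono (pl_le_plw _ _)
    · rw [(hal n).card, (hal (n + 1)).card, pl_succ]
      exact Order.lt_succ _
  · apply img_of_card
    have h1 := (hal (n + 1)).seg ⟨c, hc⟩
    rw [ot_iio, pl_succ, Order.lt_succ_iff] at h1
    rw [(hal n).card]
    exact h1
  · rw [hl]
    apply notimg_dist
    · rw [hu.card]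
      exact dist_Q0
    · rw [hu.card, htop.card]
      exact Order.lt_succ _
  · rw [hl] at hc
    apply img_of_card
    have h1 := htop.seg ⟨c, hc⟩
    rw [ot_iio, Order.lt_succ_iff] at h1
    rw [hu.card]
    exact h1

theorem gchP_Q0 [WellFoundedLT L] [Lam L] (gch : GCH0) : GchP (Q0 L) := by
  intro L' _ hL' i hi
  by_cases hQ : #(Q0 L) ≤ #(Set.Iio i)
  · exact gch_big gch hL' hi hQ
  · rw [not_le] at hQ
    have hal : ℵ₀ ≤ ℵ_ Ordinal.omega0 := aleph0_le_aleph _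
    have h1 : #(Set.Iio i) ≤ plw ℵ₀ := by
      rw [plw_aleph0, ← Order.lt_succ_iff]
      exact hQ.trans_le (card_Q0 (L := L) (gch _ hal))
    have h2 : Order.succ #(Set.Iio i) < #L' := by
      rw [← gch _ hi]
      exact hL'.lim i
    obtain ⟨j, hj⟩ := bigL_pt hL' h2
    exact ⟨j, gch_dist gch (dist_Q0.mono h1) hi hj⟩

/-- The name of the generic colouring on `WithTop L`. -/
def rT (a b : WithTop L) (n : ℕ) : Set (Q0 L) := {q | ∃ x y : L, a = x ∧ b = y ∧ q ∈ rN x y n}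

theorem belQ_rT [WellFoundedLT L] [Lam L] {a b : WithTop L} {n : ℕ} {E : Q0 L} (h : BelQ (rT a b n) E) : ∃ x y : L, a = x ∧ b = y ∧ E ∈ rN x y n := by
  obtain ⟨C, ⟨x, y, rfl, rfl, hC⟩, hE⟩ := h
  exact ⟨x, y, rfl, rfl, rN_down hC hE⟩

theorem rfrc_Q0 [WellFoundedLT L] [Lam L] {D : ADat (WithTop L)} (hl : D.l = ⊤)
    (hal : ∀ n, OTyp (Set.Iio (D.al n)) (pl ℵ₀ n)) : RFrc (Q0 L) D rT := by
  refine ⟨?_, ?_, ?_, ?_⟩
  · intro α β hαβ hβ p
    rw [hl] at hβ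
    obtain ⟨y, rfl⟩ := WithTop.ne_top_iff_exists.1 (ne_top_of_lt hβ)
    obtain ⟨x, rfl⟩ := WithTop.ne_top_iff_exists.1 (ne_top_of_lt hαβ)
    obtain ⟨q, hq, n, hn⟩ := rN_dense (WithTop.coe_lt_coe.1 hαβ) p
    exact ⟨q, hq, n, x, y, rfl, rfl, hn⟩
  · intro α β n m E h1 h2
    obtain ⟨x, y, rfl, rfl, h3⟩ := belQ_rT h1
    obtain ⟨x', y', hx, hy, h4⟩ := belQ_rT h2
    rw [← WithTop.coe_injective hx, ← WithTop.coe_injective hy] at h4
    exact rN_unique h3 h4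
  · intro α β γ k n m E hαβ hβγ hγ h1 h2 h3
    obtain ⟨x, y, rfl, rfl, h4⟩ := belQ_rT h1
    obtain ⟨x', z, hx, rfl, h5⟩ := belQ_rT h2
    obtain ⟨y', z', hy, hz, h6⟩ := belQ_rT h3
    obtain rfl := WithTop.coe_injective hx
    obtain rfl := WithTop.coe_injective hy
    obtain rfl := WithTop.coe_injective hz
    obtain ⟨c, rfl, _, _, rfl⟩ := h4
    have hxy := WithTop.coe_lt_coe.1 hαβ
    have hyz := WithTop.coe_lt_coe.1 hβγ
    obtain ⟨c', hc', _, hzc, rfl⟩ := h5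
    obtain rfl := WithTop.coe_injective hc'
    obtain ⟨c'', hc'', _, _, rfl⟩ := h6
    obtain rfl := WithTop.coe_injective hc''
    exact c.r2 x y z hxy hyz hzc
  · classical
    intro β n p hβ
    rw [hl] at hβ
    obtain ⟨y, rfl⟩ := WithTop.ne_top_iff_exists.1 (ne_top_of_lt hβ)
    obtain ⟨q, hq, r, h1, _, _, h3⟩ := rN_dec y p
    have hcard : #{a : L | a < y ∧ r a y ≤ n} ≤ #(Set.Iio (D.al n)) := by
      rw [(hal n).card, pl_aleph0]
      exact h3 y n le_rfl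
    obtain ⟨e⟩ := hcard
    refine ⟨q, hq, fun w => if h : ∃ a : {a : L | a < y ∧ r a y ≤ n}, (e a).1 = w then (h.choose.1 : WithTop L) else ⊤, ?_⟩
    intro α hα m hm E hE hB
    obtain ⟨x, y', rfl, hy, h4⟩ := belQ_rT hB
    obtain rfl := WithTop.coe_injective hy
    have hxy := WithTop.coe_lt_coe.1 hα
    have h5 : r x y = m := rN_unique (rN_down (h1 x y hxy le_rfl) hE) h4
    let a : {a : L | a < y ∧ r a y ≤ n} := ⟨x, hxy, h5.trans_le hm⟩
    have hex : ∃ a' : {a : L | a < y ∧ r a y ≤ n}, (e a').1 = (e a).1 := ⟨a, rfl⟩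
    refine ⟨(e a).1, (e a).2, ?_⟩
    beta_reduce
    rw [dif_pos hex]
    have h6 : hex.choose = a := e.injective (Subtype.ext hex.choose_spec)
    rw [h6]

/-- Names of relations on bounded sets are decided. -/
theorem q0_dec [WellFoundedLT L] [Lam L] (hL : OTyp L (Order.succ (plw ℵ₀))) (c : WithTop L) (hc : c < ⊤)
    (S : WithTop L → WithTop L → Set (Q0 L)) (p : Q0 L) :
    ∃ q ≤ p, ∀ i < c, ∀ j < c, FoQ (S i j) q ∨ IncQ (S i j) q := by
  have h1 : #(Set.Iio c) ≤ plw ℵ₀ := by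
    have := (ot_top hL).seg ⟨c, hc⟩
    rw [ot_iio, Order.lt_succ_iff] at this
    exact this
  have hinf : ℵ₀ ≤ plw ℵ₀ := pl_le_plw ℵ₀ 0
  have h2 : #(Set.Iio c × Set.Iio c) ≤ plw ℵ₀ := by
    rw [mk_prod, lift_id]
    exact (mul_le_mul' h1 h1).trans (mul_eq_self hinf).le
  obtain ⟨q, hq, h3⟩ := dist_dec (dist_Q0 (L := L)) h2 (fun x => S x.1.1 x.2.1) p
  exact ⟨q, hq, fun i hi j hj => h3 (⟨i, hi⟩, ⟨j, hj⟩)⟩

/-- The first forcing notion. -/
theorem exists_q0 (gch : GCH0) : ∃ (L : Type) (_ : LinearOrder L) (_ : OTyp L (Order.succ (plw ℵ₀))) (D : ADat (WithTop L)),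
    D.l = ⊤ ∧ (∀ n, OTyp (Set.Iio (D.al n)) (pl ℵ₀ n)) ∧ OTyp (Set.Iio D.u) (plw ℵ₀) ∧
    GchP (Q0 L) ∧ AFrc (Q0 L) D ∧ RFrc (Q0 L) D rT ∧ DistP (Q0 L) (plw ℵ₀) := by
  have hL := ot_ord (Order.succ (plw ℵ₀))
  haveI := hL.wf
  haveI := lam_of_ot hL
  obtain ⟨D, hl, hal, hu⟩ := exists_adat0 hL
  exact ⟨_, _, hL, D, hl, hal, hu, gchP_Q0 gch, afrc_Q0 hL hl hal hu, rfrc_Q0 hl hal, dist_Q0⟩

end Pool.Agent.TrI
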