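import Pool.Agent.TrI.W0
import Pool.Agent.TrI.Q0Card

set_option autoImplicit false
set_option linter.all false

/-!
# Distributive forcing notions

`DistP Q c`: at most `c` open dense sets have a dense intersection.
-/

namespace Pool.Agent.TrI

open Cardinal Pool.Agent.SplK Pool.Agent.H55.Lav

/-- At most `c` open dense sets have a dense intersection. -/
def DistP (Q : Type) [Preorder Q] (c : Cardinal.{0}) : Prop := ∀ (I : Type) (D : I → Set Q), #I ≤ c → (∀ i p, ∃ q ≤ p, q ∈ D i) →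
  (∀ i p q, p ∈ D i → q ≤ p → q ∈ D i) → ∀ p, ∃ q ≤ p, ∀ i, q ∈ D i

theorem DistP.mono {Q : Type} [Preorder Q] {c c' : Cardinal.{0}} (h : DistP Q c) (hc : c' ≤ c) : DistP Q c' :=
  fun I D hI => h I D (hI.trans hc)

variable {Q : Type} [Preorder Q] {L : Type} [LinearOrder L]

/-- Names of relations on small sets are decided. -/
theorem dist_dec {c : Cardinal.{0}} (h : DistP Q c) {I : Type} (hI : #I ≤ c) (X : I → Set Q) (p : Q) :
    ∃ q ≤ p, ∀ i, FoQ (X i) q ∨ IncQ (X i) q := by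
  refine h I (fun i => {q | FoQ (X i) q ∨ IncQ (X i) q}) hI (fun i p => foQ_or (X i) p) ?_ p
  rintro i p q (hp | hp) hq
  · exact Or.inl (foQ_mono hp hq)
  · exact Or.inr (incQ_mono' hp hq)

theorem notimg_dist {a b : L} (h : DistP Q #(Set.Iio a)) (hab : #(Set.Iio a) < #(Set.Iio b)) : NotImgP Q a b := by
  classical
  intro S p
  let U : L → L → Q → Prop := fun i j E => BelQ (S i j) E ∧ ∀ j' < b, j' ≠ j → IncQ (S i j') E
  have hU : ∀ i j E E', U i j E → E' ≤ E → U i j E' := fun i j E E' h1 h2 =>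
    ⟨belQ_mono h1.1 h2, fun j' hj' hne => incQ_mono' (h1.2 j' hj' hne) h2⟩
  obtain ⟨q, hq, hqD⟩ := h (Set.Iio a) (fun i => {q | (∃ j < b, U i.1 j q) ∨ ∀ E ≤ q, ∀ j < b, ¬ U i.1 j E}) le_rfl (by
    intro i p
    by_cases hex : ∃ E ≤ p, ∃ j < b, U i.1 j E
    · obtain ⟨E, hE, h1⟩ := hex
      exact ⟨E, hE, Or.inl h1⟩
    · push Not at hex
      exact ⟨p, le_rfl, Or.inr hex⟩) (by
    rintro i p q (⟨j, hj, h1⟩ | h1) hq
    · exact Or.inl ⟨j, hj, hU _ _ _ _ h1 hq⟩
    · exact Or.inr fun E hE => h1 E (hE.trans hq)) p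
  let g : Set.Iio a → L := fun i => if hi : ∃ j < b, U i.1 j q then hi.choose else i.1
  have hg : ¬ (Set.Iio b ⊆ Set.range g) := by
    intro hsub
    have := (mk_le_mk_of_subset hsub).trans mk_range_le
    exact absurd hab (not_lt.2 this)
  rw [Set.not_subset] at hg
  obtain ⟨j, hj, hjr⟩ := hg
  refine ⟨q, hq, j, hj, fun i hi E hE hUE => ?_⟩
  rcases hqD ⟨i, hi⟩ with h1 | h1
  · have h2 : U i h1.choose q := h1.choose_spec.2
    have h3 : g ⟨i, hi⟩ = h1.choose := dif_pos h1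
    have hne : j ≠ h1.choose := by
      intro he
      exact hjr ⟨⟨i, hi⟩, h3.trans he.symm⟩
    exact (hU _ _ _ _ h2 hE).2 j hj hne E le_rfl hUE.1
  · exact h1 E hE j hj hUE

theorem pow_dist {a b : L} (h : DistP Q #(Set.Iio a)) (hab : 2 ^ #(Set.Iio a) ≤ #(Set.Iio b)) : PowP Q a b := by
  classical
  intro p
  have h1 : #(Set (Set.Iio a)) ≤ #(Set.Iio b) := by rwa [mk_set]
  obtain ⟨e⟩ := h1
  let z : L → L → Set Q := fun k x => {E | ∃ (hk : k < b) (hx : x < a), ⟨x, hx⟩ ∈ Function.invFun e ⟨k, hk⟩}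
  refine ⟨p, le_rfl, z, fun X q' hq' => ?_⟩
  obtain ⟨q'', hq'', hdec⟩ := dist_dec h le_rfl (fun x : Set.Iio a => X x.1) q'
  let A : Set (Set.Iio a) := {x | FoQ (X x.1) q''}
  refine ⟨q'', hq'', (e A).1, (e A).2, fun x hx E hE => ?_⟩
  have hz : z (e A).1 x = {F : Q | (⟨x, hx⟩ : Set.Iio a) ∈ A} := by
    ext F
    constructor
    · rintro ⟨hk, hx', hm⟩
      have : Function.invFun e ⟨(e A).1, hk⟩ = A := Function.leftInverse_invFun e.injective A
      rwa [this] at hm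
    · intro hm
      refine ⟨(e A).2, hx, ?_⟩
      have : Function.invFun e ⟨(e A).1, (e A).2⟩ = A := Function.leftInverse_invFun e.injective A
      rwa [this]
  rw [hz]
  constructor
  · intro hF
    have hA : (⟨x, hx⟩ : Set.Iio a) ∈ A := by
      rcases hdec ⟨x, hx⟩ with h2 | h2
      · exact h2
      · obtain ⟨E'', hE'', hb⟩ := hF E le_rfl
        exact absurd hb (h2 E'' (hE''.trans hE))
    intro E' hE'
    exact ⟨E', le_rfl, E', hA, le_rfl⟩
  · intro hF
    obtain ⟨E'', hE'', C, hC, _⟩ := hF E le_rfl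
    exact foQ_mono hC hE

/-- The case of the generalized continuum hypothesis below the distributivity. -/
theorem gch_dist (gch : GCH0) {i : L} (h : DistP Q #(Set.Iio i)) (hi : ℵ₀ ≤ #(Set.Iio i)) {j : L}
    (hj : OTyp (Set.Iio j) (Order.succ #(Set.Iio i))) : (∀ c < j, ImgP Q i c) ∧ PowP Q i j := by
  constructor
  · intro c hc
    apply img_of_card
    have h1 := hj.seg ⟨c, hc⟩
    rw [Order.lt_succ_iff] at h1
    refine le_trans ?_ h1
    refine mk_le_of_injective (f := fun x : Set.Iio c => (⟨⟨x.1, x.2.trans hc⟩, x.2⟩ : Set.Iio (⟨c, hc⟩ : Set.Iio j))) ?_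
    intro x y hxy
    apply Subtype.ext
    exact congrArg (fun w : Set.Iio (⟨c, hc⟩ : Set.Iio j) => w.1.1) hxy
  · apply pow_dist h
    rw [gch _ hi, hj.card]

end Pool.Agent.TrI
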