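import Pool.Agent.TrI.Ie
import Pool.Agent.TrI.Cmp

set_option autoImplicit false
set_option linter.all false
universe u

/-!
# R3 (difficulty 3): the number of dead sets

`A` is a function on `l` (the family, `app A ξ`), `h` a function (the points chosen so far). `Zs`: the chosen points `app h a`, `a ∈ g`, `r(a, g) ≤ n`, which belong to `app A η`. `Dead`: the `η ∈ l` such that for some `g ∈ ξ` and `n` the set `Zs` is infinite.
`dead_img`: for fixed `g ∈ ξ`, `n ∈ omega` let `D = sep l (fun η => InfI (Zs r A h g n η))`. `hR.size g n` gives `s`. `Img (pow (app f n)) D` by `img_rel` with `R Y η := Y = sep (app f n) (fun z => app s z ∈ g ∧ app r (opair (app s z) g) ∈ suc n ∧ app h (app s z) ∈ app A η)`: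
if `η ≠ η'` have the same `Y` then `Zs .. η ⊆ inter (app A η) (app A η')` (a point of `Zs η` is `app h a`, `a = app s z`, `z ∈ Y`), which is finite (`hfin`), contradiction to `InfI`. So `Img (app f (suc n)) D` (`pow_fn`, `img_trans`), and `Img u D` (`app f (suc n) ⊆ u`, `img_dom`).
The union over `n ∈ omega` (`omega ⊆ u`) and over `g ∈ ξ` (`Img u ξ`: `hA.ul.img`): `img_bigU` twice, `pair_u`.
-/

namespace Pool.Agent.TrI

open Pool.Agent.H55.SC Pool.Agent.H55.CS Pool.Agent.H55.ZFU
open Pool.Agent.SplH (Img)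

variable {M : Type u} [Model M]

/-- `z` is infinite. -/
def InfI (z : M) : Prop := ∀ m, m ∈ (omega : M) → ¬ Img m z

instance infI_dfn {ι : Type} (t : (ι → M) → M) [DFun t] : Dfn (fun v => InfI (t v)) :=
  Dfn.comp1 (P := fun a : M => InfI a) (by unfold InfI; infer_instance) t

/-- The chosen points `h a`, `a ∈ g`, `r(a, g) ≤ n` in the set with index `η`. -/
noncomputable def Zs (r A h g n η : M) : M :=
  sep (app A η) (fun y => ∃ a, a ∈ g ∧ app r (opair a g) ∈ suc n ∧ app h a = y)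

/-- The dead indices at stage `ξ`. -/
noncomputable def Dead (l r A h ξ : M) : M :=
  sep l (fun η => ∃ g, g ∈ ξ ∧ ∃ n, n ∈ (omega : M) ∧ InfI (Zs r A h g n η))

theorem mem_zs {r A h g n η y : M} : y ∈ Zs r A h g n η ↔ y ∈ app A η ∧ ∃ a, a ∈ g ∧ app r (opair a g) ∈ suc n ∧ app h a = y := by
  unfold Zs
  rw [mem_sep]

instance zs_dfun {ι : Type} (r A h g n η : (ι → M) → M) [DFun r] [DFun A] [DFun h] [DFun g] [DFun n] [DFun η] :
    DFun (fun v => Zs (r v) (A v) (h v) (g v) (n v) (η v)) :=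
  dfun_comp6 (F := Zs) (by unfold Zs; infer_instance) r A h g n η

theorem mem_dead {l r A h ξ η : M} : η ∈ Dead l r A h ξ ↔ η ∈ l ∧ ∃ g, g ∈ ξ ∧ ∃ n, n ∈ (omega : M) ∧ InfI (Zs r A h g n η) := by
  unfold Dead
  rw [mem_sep]

instance dead_dfun {ι : Type} (l r A h ξ : (ι → M) → M) [DFun l] [DFun r] [DFun A] [DFun h] [DFun ξ] :
    DFun (fun v => Dead (l v) (r v) (A v) (h v) (ξ v)) :=
  dfun_comp5 (F := Dead) (by unfold Dead; infer_instance) l r A h ξ

variable [Pool.Agent.H55.ZFU.Pure M] [Choice M] {f u l r A : M}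

private theorem R3_one (hC : CArith M) (hA : UA f u l) (hR : UR f l r)
    (hfin : ∀ ξ η, ξ ∈ l → η ∈ l → ξ ≠ η → ∃ n, n ∈ (omega : M) ∧ Img n (inter (app A ξ) (app A η))) (h : M) {g n : M}
    (hg : g ∈ l) (hn : n ∈ (omega : M)) : Img u (sep l (fun η => InfI (Zs r A h g n η))) := by
  obtain ⟨s, hs⟩ := hR.size g n hg hn
  have hsuc : suc n ∈ (omega : M) := suc_mem_omega hn
  have h1 : Img (app f (suc n)) (pow (app f n)) := pow_fn hC hA hn
  have h2 : Img (pow (app f n)) (sep l (fun η => InfI (Zs r A h g n η))) := by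
    refine img_rel (fun Y η => Y = sep (app f n) (fun z => app s z ∈ g ∧ app r (opair (app s z) g) ∈ suc n ∧
      app h (app s z) ∈ app A η)) ?_ ?_
    · intro Y η η' hY hη hη' e e'
      rw [mem_sep] at hη hη'
      by_contra hne
      obtain ⟨m, hm, hm'⟩ := hfin η η' hη.1 hη'.1 hne
      refine hη.2 m hm (img_mono hm' ?_)
      intro y hy
      obtain ⟨hyA, a, hag, har, hay⟩ := mem_zs.1 hy
      refine mem_inter.2 ⟨hyA, ?_⟩
      obtain ⟨x, hx, hxa⟩ := hs a hag har
      have hxY : x ∈ Y := by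
        rw [e, mem_sep]
        refine ⟨hx, ?_, ?_, ?_⟩
        · rw [hxa]; exact hag
        · rw [hxa]; exact har
        · rw [hxa, hay]; exact hyA
      rw [e', mem_sep] at hxY
      have h3 := hxY.2.2.2
      rw [hxa, hay] at h3
      exact h3
    · intro η hη
      refine ⟨_, ?_, rfl⟩
      rw [mem_pow']
      intro z hz
      rw [mem_sep] at hz
      exact hz.1
  exact img_dom (img_trans h1 h2) (fun x hx => (hA.u_iff x).2 ⟨suc n, hsuc, hx⟩)

theorem dead_img (hC : CArith M) (hA : UA f u l) (hR : UR f l r)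
    (hfin : ∀ ξ η, ξ ∈ l → η ∈ l → ξ ≠ η → ∃ n, n ∈ (omega : M) ∧ Img n (inter (app A ξ) (app A η))) (h : M) {ξ : M} (hξ : ξ ∈ l) :
    Img u (Dead l r A h ξ) := by
  have hp : Img u (prod u u) := pair_u hC hA
  have hom : Img u (omega : M) := img_dom (img_refl omega) (fun x hx => hA.u_ord.sub (om_u hA) x hx)
  have h1 : ∀ g, g ∈ ξ → Img u (bigU (img omega (fun n => sep l (fun η => InfI (Zs r A h g n η))))) := by
    intro g hg
    have hgl : g ∈ l := hA.ul.ord.sub hξ g hg
    exact img_bigU (fun n => sep l (fun η => InfI (Zs r A h g n η))) hp hom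
      (fun n hn => R3_one hC hA hR hfin h hgl hn)
  have h2 : Img u (bigU (img ξ (fun g => bigU (img omega (fun n => sep l (fun η => InfI (Zs r A h g n η))))))) :=
    img_bigU (fun g => bigU (img omega (fun n => sep l (fun η => InfI (Zs r A h g n η))))) hp (hA.ul.img ξ hξ) h1
  refine img_mono h2 ?_
  intro η hη
  obtain ⟨hηl, g, hg, n, hn, hI⟩ := mem_dead.1 hη
  rw [mem_bigU]
  refine ⟨bigU (img omega (fun n => sep l (fun η => InfI (Zs r A h g n η)))), ?_, ?_⟩
  · rw [mem_img]
    exact ⟨g, hg, rfl⟩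
  · rw [mem_bigU]
    refine ⟨sep l (fun η => InfI (Zs r A h g n η)), ?_, ?_⟩
    · rw [mem_img]
      exact ⟨n, hn, rfl⟩
    · rw [mem_sep]
      exact ⟨hηl, hI⟩

end Pool.Agent.TrI
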