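import Pool.Agent.TrI.Ie
import Pool.Agent.TrI.Cmp

set_option autoImplicit false
set_option linter.all false
universe u

/-!
# S1 (difficulty 2): the family in the second model

`Pt c x y`: the point `(c, (x, y))`. `Own k c ξ = {(c, (ξ, a)) | a ∈ k}`. `Bs B T c ξ`: for `c = 1`: `{(0, (x, h x)) | x ∈ B_ξ}` with `h x` the least `a` with `(x, a) ∈ T_ξ`; for `c = 2` and `ξ ∈ omega`: `{(3, (i, i)) | i ∈ ξ}`; otherwise empty. `Mb` is the member of the family with index `(c, ξ)`,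
`Ix` the set of indices, `Fam` the family.
`b_img`: `img_inj` with `app h` (`hB.inj`). `b_nimg`: if `s` covers `B_d` from `omega` then `x ↦ app h (app s x)` maps `omega` into `ω_1` (where `app s x ∈ B_d`, `∅` otherwise) and is unbounded, against `reg_one`.
-/

namespace Pool.Agent.TrI

open Pool.Agent.H55.SC Pool.Agent.H55.CS Pool.Agent.H55.ZFU
open Pool.Agent.SplH (Img o1 o2 o3)

variable {M : Type u} [Model M]

/-- The point `(c, (x, y))`. -/
noncomputable def Pt (c x y : M) : M := opair c (opair x y)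

instance pt_dfun {ι : Type} (t s r : (ι → M) → M) [DFun t] [DFun s] [DFun r] : DFun (fun v => Pt (t v) (s v) (r v)) := by
  unfold Pt; infer_instance

theorem pt_inj {c x y c' x' y' : M} : Pt c x y = Pt c' x' y' ↔ c = c' ∧ x = x' ∧ y = y' := by
  unfold Pt
  rw [opair_inj, opair_inj]

/-- The private points of the member with index `(c, ξ)`. -/
noncomputable def Own (k c ξ : M) : M := img k (fun a => Pt c ξ a)

instance own_dfun {ι : Type} (t s r : (ι → M) → M) [DFun t] [DFun s] [DFun r] : DFun (fun v => Own (t v) (s v) (r v)) :=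
  DFun.comp3 (F := Own) (by unfold Own; infer_instance) t s r

/-- The least `a` with `(x, a) ∈ T_d`. -/
noncomputable def hT (T d x : M) : M := mu (fun a => opair x a ∈ app T d)

instance hT_dfun {ι : Type} (t s r : (ι → M) → M) [DFun t] [DFun s] [DFun r] : DFun (fun v => hT (t v) (s v) (r v)) :=
  DFun.comp3 (F := hT) (by unfold hT; infer_instance) t s r

/-- The other points of the member with index `(c, ξ)`. -/
noncomputable def Bs (B T c ξ : M) : M :=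
  iteM (c = o1) (img (app B ξ) (fun x => Pt ∅ x (hT T ξ x))) (iteM (c = o2 ∧ ξ ∈ (omega : M)) (img ξ (fun i => Pt o3 i i)) ∅)

instance bs_dfun {ι : Type} (t s r q : (ι → M) → M) [DFun t] [DFun s] [DFun r] [DFun q] :
    DFun (fun v => Bs (t v) (s v) (r v) (q v)) :=
  dfun_comp4 (F := Bs) (by unfold Bs; infer_instance) t s r q

/-- The member with index `(c, ξ)`. -/
noncomputable def Mb (k B T c ξ : M) : M := un (Bs B T c ξ) (Own k c ξ)

instance mb_dfun {ι : Type} (t s r q p : (ι → M) → M) [DFun t] [DFun s] [DFun r] [DFun q] [DFun p] :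
    DFun (fun v => Mb (t v) (s v) (r v) (q v) (p v)) :=
  dfun_comp5 (F := Mb) (by unfold Mb; infer_instance) t s r q p

/-- The set of indices. -/
noncomputable def Ix (l S m : M) : M := un (prod (sing ∅) l) (un (prod (sing o1) S) (prod (sing o2) m))

/-- The family. -/
noncomputable def Fam (k B T l S m : M) : M := img (Ix l S m) (fun p => Mb k B T (fst p) (snd p))

variable [Pool.Agent.H55.ZFU.Pure M] [Choice M] {f u l S B T : M}

theorem mem_ix {l S m p : M} : p ∈ Ix l S m ↔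
    (∃ x, x ∈ l ∧ p = opair ∅ x) ∨ (∃ x, x ∈ S ∧ p = opair o1 x) ∨ ∃ x, x ∈ m ∧ p = opair o2 x := by
  unfold Ix
  rw [mem_un, mem_un, mem_prod, mem_prod, mem_prod]
  constructor
  · rintro (⟨c, hc, x, hx, rfl⟩ | ⟨c, hc, x, hx, rfl⟩ | ⟨c, hc, x, hx, rfl⟩)
    · rw [mem_sing] at hc; subst hc; exact Or.inl ⟨x, hx, rfl⟩
    · rw [mem_sing] at hc; subst hc; exact Or.inr (Or.inl ⟨x, hx, rfl⟩)
    · rw [mem_sing] at hc; subst hc; exact Or.inr (Or.inr ⟨x, hx, rfl⟩)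
  · rintro (⟨x, hx, rfl⟩ | ⟨x, hx, rfl⟩ | ⟨x, hx, rfl⟩)
    · exact Or.inl ⟨∅, mem_sing.2 rfl, x, hx, rfl⟩
    · exact Or.inr (Or.inl ⟨o1, mem_sing.2 rfl, x, hx, rfl⟩)
    · exact Or.inr (Or.inr ⟨o2, mem_sing.2 rfl, x, hx, rfl⟩)

theorem mem_fam {k m y : M} : y ∈ Fam k B T l S m ↔ (∃ x, x ∈ l ∧ y = Mb k B T ∅ x) ∨ (∃ x, x ∈ S ∧ y = Mb k B T o1 x) ∨
    ∃ x, x ∈ m ∧ y = Mb k B T o2 x := by
  unfold Fam
  rw [mem_img]
  constructor
  · rintro ⟨p, hp, rfl⟩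
    rcases mem_ix.1 hp with ⟨x, hx, rfl⟩ | ⟨x, hx, rfl⟩ | ⟨x, hx, rfl⟩
    · exact Or.inl ⟨x, hx, by rw [fst_opair, snd_opair]⟩
    · exact Or.inr (Or.inl ⟨x, hx, by rw [fst_opair, snd_opair]⟩)
    · exact Or.inr (Or.inr ⟨x, hx, by rw [fst_opair, snd_opair]⟩)
  · rintro (⟨x, hx, rfl⟩ | ⟨x, hx, rfl⟩ | ⟨x, hx, rfl⟩)
    · exact ⟨opair ∅ x, mem_ix.2 (Or.inl ⟨x, hx, rfl⟩), by rw [fst_opair, snd_opair]⟩
    · exact ⟨opair o1 x, mem_ix.2 (Or.inr (Or.inl ⟨x, hx, rfl⟩)), by rw [fst_opair, snd_opair]⟩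
    · exact ⟨opair o2 x, mem_ix.2 (Or.inr (Or.inr ⟨x, hx, rfl⟩)), by rw [fst_opair, snd_opair]⟩

/-- The elements `0, 1, 2, 3` are different. -/
theorem o_ne : (∅ : M) ≠ o1 ∧ (∅ : M) ≠ o2 ∧ (∅ : M) ≠ o3 ∧ (o1 : M) ≠ o2 ∧ (o1 : M) ≠ o3 ∧ (o2 : M) ≠ o3 := by
  have h01 : (∅ : M) ∈ (o1 : M) := mem_suc.2 (Or.inr rfl)
  have h12 : (o1 : M) ∈ (o2 : M) := mem_suc.2 (Or.inr rfl)
  have h23 : (o2 : M) ∈ (o3 : M) := mem_suc.2 (Or.inr rfl)
  have h02 : (∅ : M) ∈ (o2 : M) := mem_suc.2 (Or.inl h01)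
  have h03 : (∅ : M) ∈ (o3 : M) := mem_suc.2 (Or.inl h02)
  have h13 : (o1 : M) ∈ (o3 : M) := mem_suc.2 (Or.inl h12)
  refine ⟨?_, ?_, ?_, ?_, ?_, ?_⟩
  · intro h; rw [← h] at h01; exact not_mem_self _ h01
  · intro h; rw [← h] at h02; exact not_mem_self _ h02
  · intro h; rw [← h] at h03; exact not_mem_self _ h03
  · intro h; rw [← h] at h12; exact not_mem_self _ h12
  · intro h; rw [← h] at h13; exact not_mem_self _ h13
  · intro h; rw [← h] at h23; exact not_mem_self _ h23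

/-- The private points determine the index. -/
theorem own_mb {k c ξ c' ξ' a : M} (hc' : c' = ∅ ∨ c' = o1 ∨ c' = o2) (h : Pt c ξ a ∈ Mb k B T c' ξ') :
    (c = c' ∧ ξ = ξ' ∧ a ∈ k) ∨ (c = ∅ ∧ c' = o1 ∧ ξ ∈ app B ξ' ∧ a = hT T ξ' ξ) ∨
      (c = o3 ∧ c' = o2 ∧ ξ' ∈ (omega : M) ∧ ξ ∈ ξ' ∧ a = ξ) := by
  unfold Mb at h
  rw [mem_un] at h
  rcases h with h | h
  · unfold Bs at h
    by_cases h1 : c' = o1
    · rw [iteM_pos h1, mem_img] at h
      obtain ⟨x, hx, hxe⟩ := h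
      rw [pt_inj] at hxe
      obtain ⟨e1, e2, e3⟩ := hxe
      subst e2
      exact Or.inr (Or.inl ⟨e1, h1, hx, e3⟩)
    · rw [iteM_neg h1] at h
      by_cases h2 : c' = o2 ∧ ξ' ∈ (omega : M)
      · rw [iteM_pos h2, mem_img] at h
        obtain ⟨x, hx, hxe⟩ := h
        rw [pt_inj] at hxe
        obtain ⟨e1, e2, e3⟩ := hxe
        subst e2
        exact Or.inr (Or.inr ⟨e1, h2.1, h2.2, hx, e3⟩)
      · rw [iteM_neg h2] at h
        exact absurd h (by simp)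
  · unfold Own at h
    rw [mem_img] at h
    obtain ⟨x, hx, hxe⟩ := h
    rw [pt_inj] at hxe
    obtain ⟨e1, e2, e3⟩ := hxe
    subst e3
    exact Or.inl ⟨e1, e2, hx⟩

theorem b_img (hB : UB (app f (suc ∅)) l S B T) {d : M} (hd : d ∈ S) : Img (app f (suc ∅)) (app B d) := by
  obtain ⟨h, h1, h2, h3⟩ := hB.inj d hd
  exact img_inj (fun x => app h x) h1 h2

theorem b_nimg (hC : CArith M) (hA : UA f u l) (hB : UB (app f (suc ∅)) l S B T) {d : M} (hd : d ∈ S) :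
    ¬ Img (omega : M) (app B d) := by
  rintro ⟨s, hs⟩
  obtain ⟨h, h1, h2, h3⟩ := hB.inj d hd
  have hone : (suc ∅ : M) ∈ (omega : M) := suc_mem_omega empty_mem_omega
  have h0 : (∅ : M) ∈ app f (suc ∅) := fn_om hA hone ∅ empty_mem_omega
  have i1 : Fn1 (fun x : M => iteM (app s x ∈ app B d) (app h (app s x)) ∅) := inferInstance
  obtain ⟨β, hβ, hb⟩ := reg_one hC hA (lam omega (fun x : M => iteM (app s x ∈ app B d) (app h (app s x)) ∅)) (by
    intro x hx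
    rw [app_lam hx]
    by_cases h4 : app s x ∈ app B d
    · rw [iteM_pos h4]; exact h1 _ h4
    · rw [iteM_neg h4]; exact h0)
  obtain ⟨y, hy, hy2⟩ := h3 β hβ
  obtain ⟨x, hx, hxy⟩ := hs y hy
  have h5 := hb x hx
  have h6 : app s x ∈ app B d := by rw [hxy]; exact hy
  rw [app_lam hx, iteM_pos h6, hxy] at h5
  exact not_mem_mem h5 hy2

end Pool.Agent.TrI
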