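import Pool.Agent.TrI.S1

set_option autoImplicit false
set_option linter.all false
universe u

/-!
# S2 (difficulty 3): cardinalities of the family and of its members

`fam_bij`: `bij_of_inj` (Id) with `G x = Mb k B T o2 x` (injective by the private points: `Pt o2 x ∅ ∈ Mb k B T o2 x`, `own_mb`) and `Img m (Fam ..)`: `Img m (prod m m)` (`hC.pair`), `Img (prod m m) (Ix ..)`: `Ix ⊆ prod m m`-image: the map `p ↦ p` (all indices `(c, x)` have `c ∈ m` (`∅, o1, o2 ∈ omega ⊆ m`) and `x ∈ m`: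
`l ⊆ m`, `S ⊆ l`), then `img_img`.
`mb_bij`: `bij_of_inj` with `G a = Pt c ξ a` (`∈ Own ⊆ Mb`), and `Img k (Mb ..)`: `img_un` (`hC.pair k`): `Img k (Own ..)` (`img_img`), `Img k (Bs ..)`: for `c = o1`: `Img (app f (suc ∅)) (app B ξ)` (`b_img`), `app f (suc ∅) ⊆ k` (`ω ∈ k`, `k` a cardinal: if `k ∈ app f (suc ∅)` then `Img omega k`; `card_nimg`); for `c = o2`, `ξ ∈ omega`:
`Img ξ ..`, `ξ ⊆ k`; otherwise empty (`img_mono`).
-/

namespace Pool.Agent.TrI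

open Pool.Agent.H55.SC Pool.Agent.H55.CS Pool.Agent.H55.ZFU
open Pool.Agent.SplH (Img o1 o2 o3 isBij_iff)
open Pool.Agent.SplC (IsBij IsCard)

variable {M : Type u} [Model M] [Pool.Agent.H55.ZFU.Pure M] [Choice M] {f u l S B T k m : M}

theorem s2_om_l (hA : UA f u l) : (omega : M) ⊆ l := fun x hx =>
  hA.ul.ord.sub hA.ul.mem x (hA.u_ord.sub (om_u hA) x hx)

theorem s2_f1_k (hA : UA f u l) (hk : IsCard Model.E k) (hωk : (omega : M) ∈ k) : app f (suc ∅) ⊆ k := by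
  obtain ⟨hko, hkn⟩ := card_nimg hk
  have h1 := hA.succ ∅ empty_mem_omega
  rw [hA.zero] at h1
  exact ord_not_mem hko h1.ord (fun h => hkn omega hωk (h1.img k h))

theorem s2_empty (k : M) : Img k (∅ : M) := img_mono (img_refl k) (fun x hx => absurd hx (not_mem_empty x))

theorem s2_bs (hC : CArith M) (hA : UA f u l) (hB : UB (app f (suc ∅)) l S B T) (hk : IsCard Model.E k) (hωk : (omega : M) ∈ k)
    {c ξ : M} (h : c = ∅ ∨ (c = o1 ∧ ξ ∈ S) ∨ c = o2) : Img k (Bs B T c ξ) := by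
  obtain ⟨hko, hkn⟩ := card_nimg hk
  obtain ⟨h01, h02, h03, h12, h13, h23⟩ := o_ne (M := M)
  unfold Bs
  rcases h with rfl | ⟨rfl, hξ⟩ | rfl
  · rw [iteM_neg h01, iteM_neg (fun h => h02 h.1)]
    exact s2_empty k
  · rw [iteM_pos rfl]
    exact img_img (fun x => Pt ∅ x (hT T ξ x)) (img_dom (b_img hB hξ) (s2_f1_k hA hk hωk))
  · rw [iteM_neg (Ne.symm h12)]
    by_cases hw : ξ ∈ (omega : M)
    · rw [iteM_pos ⟨rfl, hw⟩]
      exact img_img (fun i => Pt o3 i i) (img_dom (img_refl ξ) (fun x hx =>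
        hko.2.1 ξ (hko.2.1 omega hωk ξ hw) x hx))
    · rw [iteM_neg (fun h => hw h.2)]
      exact s2_empty k

theorem s2_own (k c ξ : M) : Img k (Own k c ξ) := img_img (fun a => Pt c ξ a) (img_refl k)

theorem s2_mb_img (hC : CArith M) (hA : UA f u l) (hB : UB (app f (suc ∅)) l S B T) (hk : IsCard Model.E k) (hωk : (omega : M) ∈ k)
    {c ξ : M} (h : c = ∅ ∨ (c = o1 ∧ ξ ∈ S) ∨ c = o2) : Img k (Mb k B T c ξ) := by
  obtain ⟨hko, hkn⟩ := card_nimg hk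
  have hωk' : (omega : M) ⊆ k := hko.sub hωk
  exact img_un (hC.pair k hko hωk') (hωk' ∅ empty_mem_omega) (hωk' (suc ∅) (suc_mem_omega empty_mem_omega))
    (Ne.symm (suc_ne_empty ∅)) (s2_bs hC hA hB hk hωk h) (s2_own k c ξ)

theorem s2_own_mem {c ξ a : M} (ha : a ∈ k) : Pt c ξ a ∈ Mb k B T c ξ := by
  unfold Mb Own
  rw [mem_un, mem_img]
  exact Or.inr ⟨a, ha, rfl⟩

theorem s2_mb_bij (hC : CArith M) (hA : UA f u l) (hB : UB (app f (suc ∅)) l S B T) (hk : IsCard Model.E k) (hωk : (omega : M) ∈ k)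
    {c ξ : M} (h : c = ∅ ∨ (c = o1 ∧ ξ ∈ S) ∨ c = o2) : ∃ g : M, IsBij Model.E g k (Mb k B T c ξ) := by
  refine bij_of_inj (card_nimg hk).1 (s2_mb_img hC hA hB hk hωk h) (fun a => Pt c ξ a) (fun a ha => s2_own_mem ha) ?_
  intro a a' _ _ he
  exact (pt_inj.1 he).2.2

theorem fam_bij (hC : CArith M) (hA : UA f u l) (hB : UB (app f (suc ∅)) l S B T) (hk : IsCard Model.E k) (hωk : (omega : M) ∈ k)
    (hm : IsCard Model.E m) (hlm : l ⊆ m) : ∃ g : M, IsBij Model.E g m (Fam k B T l S m) := by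
  obtain ⟨hmo, hmn⟩ := card_nimg hm
  obtain ⟨hko, hkn⟩ := card_nimg hk
  have hωm : (omega : M) ⊆ m := fun x hx => hlm x (s2_om_l hA x hx)
  have h0 : (∅ : M) ∈ m := hωm ∅ empty_mem_omega
  have h1 : (o1 : M) ∈ m := hωm _ (suc_mem_omega empty_mem_omega)
  have h2 : (o2 : M) ∈ m := hωm _ (suc_mem_omega (suc_mem_omega empty_mem_omega))
  have himg : Img m (Fam k B T l S m) := by
    unfold Fam
    refine img_img (fun p => Mb k B T (fst p) (snd p)) (img_mono (hC.pair m hmo hωm) ?_)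
    intro p hp
    rcases mem_ix.1 hp with ⟨x, hx, rfl⟩ | ⟨x, hx, rfl⟩ | ⟨x, hx, rfl⟩
    · exact opair_mem_prod.2 ⟨h0, hlm x hx⟩
    · exact opair_mem_prod.2 ⟨h1, hlm x (hB.sub x hx)⟩
    · exact opair_mem_prod.2 ⟨h2, hx⟩
  refine bij_of_inj hmo himg (fun x => Mb k B T o2 x) (fun x hx => mem_fam.2 (Or.inr (Or.inr ⟨x, hx, rfl⟩))) ?_
  intro x x' hx hx' he
  obtain ⟨h01, h02, h03, h12, h13, h23⟩ := o_ne (M := M)
  have hp : Pt o2 x ∅ ∈ Mb k B T o2 x := s2_own_mem (hko.2.1 omega hωk ∅ empty_mem_omega)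
  have he' : Mb k B T o2 x = Mb k B T o2 x' := he
  rw [he'] at hp
  rcases own_mb (Or.inr (Or.inr rfl)) hp with h | h | h
  · exact h.2.1
  · exact absurd h.1.symm h02
  · exact absurd h.1 h23

theorem mb_bij (hC : CArith M) (hA : UA f u l) (hB : UB (app f (suc ∅)) l S B T) (hk : IsCard Model.E k) (hωk : (omega : M) ∈ k) {y : M}
    (hy : y ∈ Fam k B T l S m) : ∃ g : M, IsBij Model.E g k y := by
  rcases mem_fam.1 hy with ⟨x, hx, rfl⟩ | ⟨x, hx, rfl⟩ | ⟨x, hx, rfl⟩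
  · exact s2_mb_bij hC hA hB hk hωk (Or.inl rfl)
  · exact s2_mb_bij hC hA hB hk hωk (Or.inr (Or.inl ⟨rfl, hx⟩))
  · exact s2_mb_bij hC hA hB hk hωk (Or.inr (Or.inr rfl))

end Pool.Agent.TrI
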