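import Pool.Agent.TrI.UDefs

set_option autoImplicit false
set_option linter.all false

/-!
# T1: `NotImgP` in the model
-/

namespace Pool.Agent.TrI

open FirstOrder FirstOrder.Language Pool.Agent.H55.SC Pool.Agent.H55.ZFU Pool.Agent.H55.Lav Pool.Agent.SplH

variable {Q : Type} [Preorder Q] [OrderTop Q] {L : Type} [LinearOrder L] [WellFoundedLT L]

/-- The three cases for the value at `i`. -/
def t1_set (S : L → L → Set Q) (b i j : L) : Set Q :=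
  {q | IncQ (S i j) q ∨ (∃ j', j' < b ∧ j' ≠ j ∧ BelQ (S i j') q) ∨
    (BelQ (S i j) q ∧ ∀ j' < b, j' ≠ j → IncQ (S i j') q)}

theorem t1_dense (S : L → L → Set Q) (b i j : L) (p : Q) : ∃ q, q ∈ t1_set S b i j ∧ q ≤ p := by
  by_cases h : ∃ r ≤ p, ∃ j', j' < b ∧ j' ≠ j ∧ BelQ (S i j') r
  · obtain ⟨r, hr, h1⟩ := h
    exact ⟨r, Or.inr (Or.inl h1), hr⟩
  · push Not at h
    have h1 : ∀ j' < b, j' ≠ j → IncQ (S i j') p := fun j' hj' hne r hr => h r hr j' hj' hne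
    by_cases h2 : ∃ r ≤ p, BelQ (S i j) r
    · obtain ⟨r, hr, h3⟩ := h2
      exact ⟨r, Or.inr (Or.inr ⟨h3, fun j' hj' hne => incQ_mono (h1 j' hj' hne) hr⟩), hr⟩
    · push Not at h2
      exact ⟨p, Or.inl h2, le_rfl⟩

/-- `q` forces that `j` is not a value below `a`. -/
def T1P (a b : L) (S : L → L → Set Q) (q : Q) (j : L) : Prop := j < b ∧ ∀ i < a, ∀ E ≤ q,
  ¬ (BelQ (S i j) E ∧ ∀ j' < b, j' ≠ j → IncQ (S i j') E)

theorem nimg_club : ∀ᶠ N in club (Un Q), ∀ (G : Set Q) [Env N G] [LEnv N L] (a b : LN N L), NotImgP Q a.1 b.1 →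
    ¬ Img (lv G a) (lv G b) := by
  have h0 : ∀ᶠ N in club (Un Q), ∀ S : L → L → Set Q, InT N S → ∀ a : L, InT N a → ∀ b : L, InT N b →
      InT N {q | ∃ j, T1P a b S q j} :=
    diagT (fun S => diagT (fun a => diagT (fun b => club_inT _)))
  have h1 : ∀ᶠ N in club (Un Q), ∀ S : L → L → Set Q, InT N S → ∀ a : L, InT N a → ∀ b : L, InT N b → ∀ q : Q, InT N q →
      (∃ j, T1P a b S q j) → ∃ j, T1P a b S q j ∧ InT N j :=
    diagT (fun S => diagT (fun a => diagT (fun b => diagT (fun q => u_wit _))))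
  have h2 : ∀ᶠ N in club (Un Q), ∀ S : L → L → Set Q, InT N S → ∀ i : L, InT N i → ∀ j : L, InT N j → ∀ b : L, InT N b →
      InT N (t1_set S b i j) :=
    diagT (fun S => diagT (fun i => diagT (fun j => diagT (fun b => club_inT _))))
  have h3 : ∀ᶠ N in club (Un Q), ∀ S : L → L → Set Q, InT N S → ∀ i : L, InT N i → ∀ j : L, InT N j → ∀ b : L, InT N b →
      ∀ q : Q, InT N q → (∃ j', j' < b ∧ j' ≠ j ∧ BelQ (S i j') q) →
        ∃ j', (j' < b ∧ j' ≠ j ∧ BelQ (S i j') q) ∧ InT N j' :=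
    diagT (fun S => diagT (fun i => diagT (fun j => diagT (fun b => diagT (fun q => u_wit _)))))
  filter_upwards [h0, h1, h2, h3] with N h0 h1 h2 h3 G _ _ a b hab
  have gen : GenF N G := Env.gen
  have qok : QOk N := Env.qok (N := N) (G := G)
  rintro ⟨s, hs⟩
  obtain ⟨S, hS, hdec⟩ := dec2 (N := N) (G := G) (L := L) (fun x y => app s x = y)
  obtain ⟨q0, hq0, hq0c⟩ := gen.gen _ (h0 S hS a.1 a.2 b.1 b.2) (fun p => by
    obtain ⟨q, hq, j, hj, h⟩ := hab S p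
    exact ⟨q, ⟨j, hj, h⟩, hq⟩)
  obtain ⟨j, ⟨hj, hcd⟩, hjN⟩ := h1 S hS a.1 a.2 b.1 b.2 q0 (gen.sub q0 hq0) hq0c
  obtain ⟨x, hx, hsx⟩ := hs (lv G ⟨j, hjN⟩) (lv_lt.mpr hj)
  obtain ⟨i, hi, rfl⟩ := mem_lv.mp hx
  obtain ⟨q1, hq1, hq1c⟩ := gen.gen _ (h2 S hS i.1 i.2 j hjN b.1 b.2) (fun p => t1_dense S _ i.1 j p)
  obtain ⟨q, hq, hqq0, hqq1⟩ := gen.dir q0 hq0 q1 hq1
  rcases hq1c with h4 | h4 | h4
  · exact not_ht gen hq1 h4 ((hdec i ⟨j, hjN⟩).mp hsx)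
  · obtain ⟨j', ⟨h5, h6, h7⟩, h8⟩ := h3 S hS i.1 i.2 j hjN b.1 b.2 q1 (gen.sub q1 hq1) h4
    have hSN : InT N (S i.1 j') :=
      (LEnv.iok (N := N) (L := L)).app (S i.1) (LEnv.sec S hS i.1 i.2) j' h8
    have h9 : app s (lv G i) = lv G ⟨j', h8⟩ := (hdec i ⟨j', h8⟩).mpr (ht_of_bel qok gen hSN hq1 h7)
    have h10 := lv_inj (hsx.symm.trans h9)
    exact h6 (congrArg Subtype.val h10).symm
  · refine hcd i.1 hi q hqq0 ⟨?_, fun j' hj' hne => incQ_mono (h4.2 j' hj' hne) hqq1⟩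
    obtain ⟨C, hC, hC'⟩ := h4.1
    exact ⟨C, hC, hqq1.trans hC'⟩

end Pool.Agent.TrI
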