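import Pool.Agent.TrI.UDefs

set_option autoImplicit false
set_option linter.all false

/-!
# U2: the sets `B_d` and the guessing sequence in the model
-/

namespace Pool.Agent.TrI

open FirstOrder FirstOrder.Language Pool.Agent.H55.SC Pool.Agent.H55.ZFU Pool.Agent.H55.Lav Pool.Agent.SplH

variable {Q : Type} [Preorder Q] [OrderTop Q] {L : Type} [LinearOrder L] [WellFoundedLT L]

/-- The three cases for the value at `i`. -/
def u2_set (S : L → L → Set Q) (μ' i j : L) : Set Q :=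
  {q | IncQ (S i j) q ∨ (∃ j', j' < μ' ∧ j' ≠ j ∧ BelQ (S i j') q) ∨
    (BelQ (S i j) q ∧ ∀ j' < μ', j' ≠ j → IncQ (S i j') q)}

omit [WellFoundedLT L] in
theorem u2_dense (S : L → L → Set Q) (μ' i j : L) (p : Q) : ∃ q, q ∈ u2_set S μ' i j ∧ q ≤ p := by
  by_cases h : ∃ r ≤ p, ∃ j', j' < μ' ∧ j' ≠ j ∧ BelQ (S i j') r
  · obtain ⟨r, hr, h1⟩ := h
    exact ⟨r, Or.inr (Or.inl h1), hr⟩
  · push Not at h
    have h1 : ∀ j' < μ', j' ≠ j → IncQ (S i j') p := fun j' hj' hne r hr => h r hr j' hj' hne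
    by_cases h2 : ∃ r ≤ p, BelQ (S i j) r
    · obtain ⟨r, hr, h3⟩ := h2
      exact ⟨r, Or.inr (Or.inr ⟨h3, fun j' hj' hne => incQ_mono (h1 j' hj' hne) hr⟩), hr⟩
    · push Not at h2
      exact ⟨p, Or.inl h2, le_rfl⟩

/-- `s` enumerates `B_d ∩ B_e`. -/
def u2_F (D : ADat L) (Bd : L → L → Set Q) (d e : L) (n : ℕ) (s : L → L) (q : Q) : Prop :=
  ∀ x, ∀ E ≤ q, BelQ (Bd d x) E → BelQ (Bd e x) E → ∃ i < D.nL n, s i = x

/-- `X`, `h` are guessed at `d`. -/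
def u2_G (D : ADat L) (S : Set L) (T : L → L → L → Set Q) (X h : L → L → Set Q) (d : L) : Prop :=
  d ∈ S ∧ (∀ x < d, ∀ y < D.l, ∀ E, BelQ (h x y) E → (∀ y' < D.l, y' ≠ y → IncQ (h x y') E) → y < d) ∧
    ∀ x < d, ∀ y < d, ∀ E, (FoQ (X x y) E ↔ FoQ (T d x y) E)

/-- Closure properties of `N` used in this file. -/
structure u2_Ok (D : ADat L) (S : Set L) (Bd : L → L → Set Q) (g : L → L → L) (T : L → L → L → Set Q)
    (N : Set (Un Q)) : Prop where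
  n1 : InT N Bd
  n2 : InT N (fun x : L => {_q : Q | x ∈ S})
  n3 : F4Ok N (fun a b _ _ => g a b)
  n4 : P2Ok N T
  n5 : ∀ d : L, InT N d → ∀ b : L, InT N b → InT N {q : Q | ∃ x, b < g d x ∧ q ∈ Bd d x}
  n6 : ∀ d : L, InT N d → ∀ b : L, InT N b → ∀ q : Q, InT N q → (∃ x, b < g d x ∧ q ∈ Bd d x) →
    ∃ x, (b < g d x ∧ q ∈ Bd d x) ∧ InT N x
  n7 : ∀ d : L, InT N d → ∀ e : L, InT N e → InT N {q : Q | ∃ s, ∃ n, u2_F D Bd d e n s q}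
  n8 : ∀ d : L, InT N d → ∀ e : L, InT N e → ∀ q : Q, InT N q → (∃ s, ∃ n, u2_F D Bd d e n s q) →
    ∃ s, (∃ n, u2_F D Bd d e n s q) ∧ InT N s
  n9 : ∀ s : L → L, InT N s → F4Ok N (fun a _ _ _ => s a)
  n10 : ∀ s : L → L, InT N s → ∀ x : L, InT N x → ∀ n : ℕ, (∃ i, i < D.nL n ∧ s i = x) →
    ∃ i, (i < D.nL n ∧ s i = x) ∧ InT N i
  n11 : ∀ X : L → L → Set Q, InT N X → ∀ h : L → L → Set Q, InT N h → (∃ d, u2_G D S T X h d) →
    ∃ d, u2_G D S T X h d ∧ InT N d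
  n12 : ∀ h : L → L → Set Q, InT N h → ∀ x : L, InT N x → ∀ y : L, InT N y → InT N (u2_set h D.l x y)
  n13 : ∀ h : L → L → Set Q, InT N h → ∀ x : L, InT N x → ∀ y : L, InT N y → ∀ q : Q, InT N q →
    (∃ j', j' < D.l ∧ j' ≠ y ∧ BelQ (h x j') q) → ∃ j', (j' < D.l ∧ j' ≠ y ∧ BelQ (h x j') q) ∧ InT N j'
  n14 : ∀ d : L, InT N d → ∀ x : L, InT N x → ∀ y : L, InT N y → InT N (T d x y)

theorem u2_ok_club (D : ADat L) (S : Set L) (Bd : L → L → Set Q) (g : L → L → L) (T : L → L → L → Set Q) :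
    ∀ᶠ N in club (Un Q), u2_Ok D S Bd g T N := by
  have h5 : ∀ᶠ N in club (Un Q), ∀ d : L, InT N d → ∀ b : L, InT N b → InT N {q : Q | ∃ x, b < g d x ∧ q ∈ Bd d x} :=
    diagT (fun d => diagT (fun b => club_inT _))
  have h6 : ∀ᶠ N in club (Un Q), ∀ d : L, InT N d → ∀ b : L, InT N b → ∀ q : Q, InT N q →
      (∃ x, b < g d x ∧ q ∈ Bd d x) → ∃ x, (b < g d x ∧ q ∈ Bd d x) ∧ InT N x :=
    diagT (fun d => diagT (fun b => diagT (fun q => u_wit _)))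
  have h7 : ∀ᶠ N in club (Un Q), ∀ d : L, InT N d → ∀ e : L, InT N e → InT N {q : Q | ∃ s, ∃ n, u2_F D Bd d e n s q} :=
    diagT (fun d => diagT (fun b => club_inT _))
  have h8 : ∀ᶠ N in club (Un Q), ∀ d : L, InT N d → ∀ e : L, InT N e → ∀ q : Q, InT N q →
      (∃ s, ∃ n, u2_F D Bd d e n s q) → ∃ s, (∃ n, u2_F D Bd d e n s q) ∧ InT N s :=
    diagT (fun d => diagT (fun b => diagT (fun q => u_wit _)))
  have h9 : ∀ᶠ N in club (Un Q), ∀ s : L → L, InT N s → F4Ok N (fun a _ _ _ => s a) := diagT (fun s => f4Ok_club _)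
  have h10 : ∀ᶠ N in club (Un Q), ∀ s : L → L, InT N s → ∀ x : L, InT N x → ∀ n : ℕ, (∃ i, i < D.nL n ∧ s i = x) →
      ∃ i, (i < D.nL n ∧ s i = x) ∧ InT N i :=
    diagT (fun s => diagT (fun x => club_all (fun n => u_wit _)))
  have h11 : ∀ᶠ N in club (Un Q), ∀ X : L → L → Set Q, InT N X → ∀ h : L → L → Set Q, InT N h →
      (∃ d, u2_G D S T X h d) → ∃ d, u2_G D S T X h d ∧ InT N d :=
    diagT (fun X => diagT (fun h => u_wit _))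
  have h12 : ∀ᶠ N in club (Un Q), ∀ h : L → L → Set Q, InT N h → ∀ x : L, InT N x → ∀ y : L, InT N y →
      InT N (u2_set h D.l x y) :=
    diagT (fun h => diagT (fun x => diagT (fun y => club_inT _)))
  have h13 : ∀ᶠ N in club (Un Q), ∀ h : L → L → Set Q, InT N h → ∀ x : L, InT N x → ∀ y : L, InT N y →
      ∀ q : Q, InT N q → (∃ j', j' < D.l ∧ j' ≠ y ∧ BelQ (h x j') q) →
      ∃ j', (j' < D.l ∧ j' ≠ y ∧ BelQ (h x j') q) ∧ InT N j' :=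
    diagT (fun h => diagT (fun x => diagT (fun y => diagT (fun q => u_wit _))))
  have h14 : ∀ᶠ N in club (Un Q), ∀ d : L, InT N d → ∀ x : L, InT N x → ∀ y : L, InT N y → InT N (T d x y) :=
    diagT (fun d => diagT (fun x => diagT (fun y => club_inT _)))
  filter_upwards [club_inT Bd, club_inT (fun x : L => {_q : Q | x ∈ S}), f4Ok_club (Q := Q) (fun a b _ _ => g a b),
    p2ok_club T, h5, h6, h7, h8, h9, h10, h11, h12, h13, h14] with N h1 h2 h3 h4 h5 h6 h7 h8 h9 h10 h11 h12 h13 h14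
  exact ⟨h1, h2, h3, h4, h5, h6, h7, h8, h9, h10, h11, h12, h13, h14⟩

theorem ub_club {D : ADat L} {S : Set L} {Bd : L → L → Set Q} {g : L → L → L} {T : L → L → L → Set Q}
    (hB : BFrc Q D S Bd g T) :
    ∀ᶠ N in club (Un Q), ∀ (G : Set Q) [Env N G] [LEnv N L] [AEnv N D], ∃ S' B' T' : MM N G,
      UB (lv G (D.alN (N := N) 1)) (lv G (D.lN (N := N))) S' B' T' := by
  filter_upwards [u2_ok_club D S Bd g T] with N ok G hE hL hA
  have htop : (⊤ : Q) ∈ G := top_mem (Env.ok (N := N) (G := G)) (Env.gen (N := N) (G := G))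
  obtain ⟨S', hS'⟩ := exists_set (G := G) ok.n2
  obtain ⟨B', hB'⟩ := exists_fam (G := G) ok.n1
  obtain ⟨f2, hf2⟩ := exists_fam2 (G := G) ok.n4
  obtain ⟨gM, hgM⟩ := exists_fn2 (G := G) ok.n3
  have memS : ∀ x : MM N G, x ∈ S' ↔ ∃ i : LN N L, x = lv G i ∧ i.1 ∈ S := by
    intro x
    rw [hS']
    constructor
    · rintro ⟨i, hi, q, _, hq⟩
      exact ⟨i, hi, hq⟩
    · rintro ⟨i, hi, hiS⟩
      exact ⟨i, hi, ⊤, htop, hiS⟩
  let T' : MM N G := lam S' (fun d => sep (prod (ll G N L) (ll G N L)) (fun p => snd p ∈ app f2 (opair d (fst p))))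
  have hT' : ∀ d x y : LN N L, d.1 ∈ S → (opair (lv G x) (lv G y) ∈ app T' (lv G d) ↔ Ht G (T d.1 x.1 y.1)) := by
    intro d x y hd
    have hd' : lv G d ∈ S' := (memS _).2 ⟨d, rfl, hd⟩
    show opair (lv G x) (lv G y) ∈ app (lam S' _) (lv G d) ↔ _
    rw [app_lam hd', mem_sep, fst_opair, snd_opair, hf2, opair_mem_prod]
    constructor
    · rintro ⟨_, k, hk, h1⟩
      have := lv_inj hk
      subst this
      exact h1
    · intro h1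
      exact ⟨⟨mem_ll.2 ⟨x, rfl⟩, mem_ll.2 ⟨y, rfl⟩⟩, y, rfl, h1⟩
  refine ⟨S', B', T', ?_⟩
  constructor
  · intro x hx
    obtain ⟨i, rfl, hi⟩ := (memS x).1 hx
    exact lv_lt.2 (hB.lt_l _ hi)
  · intro d hd x hx
    obtain ⟨d, rfl, hdS⟩ := (memS d).1 hd
    obtain ⟨x, rfl, q, hq, hqx⟩ := (hB' d x).1 hx
    exact lv_lt.2 (hB.bd_lt _ hdS _ _ hqx)
  · intro d hd
    obtain ⟨d, rfl, hdS⟩ := (memS d).1 hd
    let h : MM N G := lam (ll G N L) (fun x => app gM (opair (lv G d) x))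
    have hh : ∀ x : LN N L, app h (lv G x) =
        lv G ⟨g d.1 x.1, ok.n3.cl d.1 x.1 d.1 d.1 d.2 x.2 d.2 d.2⟩ := by
      intro x
      show app (lam _ _) _ = _
      rw [app_lam (mem_ll.2 ⟨x, rfl⟩)]
      exact hgM d x
    refine ⟨h, ?_, ?_, ?_⟩
    · intro x hx
      obtain ⟨x, rfl, q, hq, hqx⟩ := (hB' d x).1 hx
      rw [hh, lv_lt]
      exact hB.g_lt _ hdS _ _ hqx
    · intro x x' hx hx' he
      obtain ⟨x, rfl, q, hq, hqx⟩ := (hB' d x).1 hx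
      obtain ⟨x', rfl, q', hq', hqx'⟩ := (hB' d x').1 hx'
      rw [hh, hh] at he
      have h1 := hB.inj _ hdS _ _ _ _ hqx hqx' (congrArg Subtype.val (lv_inj he))
      rw [Subtype.ext h1]
    · intro b hb
      obtain ⟨b, hb1, rfl⟩ := mem_lv.1 hb
      obtain ⟨q, hq, hqx⟩ := hE.gen.gen _ (ok.n5 d.1 d.2 b.1 b.2) (fun p => by
        obtain ⟨q, hqp, x, h1, h2⟩ := hB.unb d.1 hdS b.1 hb1 p
        exact ⟨q, ⟨x, h1, h2⟩, hqp⟩)
      obtain ⟨x, ⟨h1, h2⟩, h3⟩ := ok.n6 d.1 d.2 b.1 b.2 q (hE.gen.sub q hq) hqx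
      refine ⟨lv G ⟨x, h3⟩, (hB' d _).2 ⟨⟨x, h3⟩, rfl, q, hq, h2⟩, ?_⟩
      rw [hh, lv_lt]
      exact h1
  · intro d e hd he hne
    obtain ⟨d, rfl, hdS⟩ := (memS d).1 hd
    obtain ⟨e, rfl, heS⟩ := (memS e).1 he
    have hne' : d.1 ≠ e.1 := fun h => hne (by rw [Subtype.ext h])
    obtain ⟨q, hq, hqx⟩ := hE.gen.gen _ (ok.n7 d.1 d.2 e.1 e.2) (fun p => by
      obtain ⟨q, hqp, n, s, h1⟩ := hB.fin d.1 hdS e.1 heS hne' p
      exact ⟨q, ⟨s, n, h1⟩, hqp⟩)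
    obtain ⟨s, ⟨n, hs⟩, hsN⟩ := ok.n8 d.1 d.2 e.1 e.2 q (hE.gen.sub q hq) hqx
    obtain ⟨sM, hsM⟩ := exists_fn1 (G := G) (ok.n9 s hsN)
    refine ⟨lv G (D.toNDat.nN (N := N) n), (mem_om D.toNDat).2 ⟨n, rfl⟩, sM, ?_⟩
    intro y hy
    obtain ⟨hy1, hy2⟩ := mem_inter.1 hy
    obtain ⟨x, rfl, q1, hq1, hx1⟩ := (hB' d y).1 hy1
    obtain ⟨x', hxx, q2, hq2, hx2⟩ := (hB' e _).1 hy2
    have := lv_inj hxx
    subst this
    obtain ⟨E1, hE1, h3, h4⟩ := hE.gen.dir q hq q1 hq1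
    obtain ⟨E, hE2, h5, h6⟩ := hE.gen.dir E1 hE1 q2 hq2
    have h7 := hs x.1 E (h5.trans h3) ⟨q1, hx1, h5.trans h4⟩ ⟨q2, hx2, h6⟩
    obtain ⟨i, ⟨hi, hsi⟩, hiN⟩ := ok.n10 s hsN x.1 x.2 n h7
    refine ⟨lv G ⟨i, hiN⟩, lv_lt.2 hi, ?_⟩
    rw [hsM]
    congr 1
    exact Subtype.ext hsi
  · intro X h
    obtain ⟨X', hX', hdX⟩ := dec2 (N := N) (G := G) (L := L) (fun x y : MM N G => opair x y ∈ X)
    obtain ⟨h', hh', hdh⟩ := dec2 (N := N) (G := G) (L := L) (fun x y : MM N G => app h x = y)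
    obtain ⟨d, ⟨hd, hg1, hg2⟩, hdN⟩ := ok.n11 X' hX' h' hh' (by
      obtain ⟨d, hd, h1, h2⟩ := hB.guess X' h'
      exact ⟨d, hd, h1, h2⟩)
    refine ⟨lv G ⟨d, hdN⟩, (memS _).2 ⟨_, rfl, hd⟩, ?_, ?_⟩
    · intro x hx hxl
      obtain ⟨x, hxd, rfl⟩ := mem_lv.1 hx
      obtain ⟨y, hyl, hxy⟩ := mem_lv.1 hxl
      obtain ⟨q, hq, hqc⟩ := hE.gen.gen _ (ok.n12 h' hh' x.1 x.2 y.1 y.2) (fun p => u2_dense h' D.l x.1 y.1 p)
      rw [hxy, lv_lt]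
      rcases hqc with h4 | h4 | h4
      · exact (not_ht hE.gen hq h4 ((hdh x y).mp hxy)).elim
      · obtain ⟨j', ⟨h5, h6, h7⟩, h8⟩ := ok.n13 h' hh' x.1 x.2 y.1 y.2 q (hE.gen.sub q hq) h4
        have hSN : InT N (h' x.1 j') :=
          (LEnv.iok (N := N) (L := L)).app (h' x.1) (LEnv.sec h' hh' x.1 x.2) j' h8
        have h9 : app h (lv G x) = lv G ⟨j', h8⟩ := (hdh x ⟨j', h8⟩).mpr (ht_of_bel hE.qok hE.gen hSN hq h7)
        have h10 := lv_inj (hxy.symm.trans h9)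
        exact (h6 (congrArg Subtype.val h10).symm).elim
      · exact hg1 x.1 hxd y.1 hyl q h4.1 h4.2
    · intro x y hx hy
      obtain ⟨x, hxd, rfl⟩ := mem_lv.1 hx
      obtain ⟨y, hyd, rfl⟩ := mem_lv.1 hy
      rw [hT' ⟨d, hdN⟩ x y hd, hdX]
      have hXN : InT N (X' x.1 y.1) :=
        (LEnv.iok (N := N) (L := L)).app (X' x.1) (LEnv.sec X' hX' x.1 x.2) y.1 y.2
      constructor
      · rintro ⟨q, hq, hqx⟩
        exact ht_of_fo hE.qok hE.gen (ok.n14 d hdN x.1 x.2 y.1 y.2) hq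
          ((hg2 x.1 hxd y.1 hyd q).1 (foQ_of_bel ⟨q, hqx, le_rfl⟩))
      · rintro ⟨q, hq, hqx⟩
        exact ht_of_fo hE.qok hE.gen hXN hq ((hg2 x.1 hxd y.1 hyd q).2 (foQ_of_bel ⟨q, hqx, le_rfl⟩))

end Pool.Agent.TrI
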