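import Pool.Agent.H55.Lav.MLev2
import Pool.Agent.SplK.Defs

set_option autoImplicit false
set_option linter.all false

/-!
# What is used about the forcing notions

`Q` is a forcing notion, `L` a wellordered type whose elements are the ordinals of the ground model. A function
`S : L → L → Set Q` is a name of a relation (or a partial function) on `L`.
-/

namespace Pool.Agent.TrI

open Cardinal Pool.Agent.SplK Pool.Agent.H55.Lav

section names
variable (Q : Type) [Preorder Q] {L : Type} [LinearOrder L]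

/-- It is forced that `b` is not an image of `a`. -/
def NotImgP (a b : L) : Prop := ∀ (S : L → L → Set Q) (p : Q), ∃ q ≤ p, ∃ j < b, ∀ i < a, ∀ E ≤ q,
  ¬ (BelQ (S i j) E ∧ ∀ j' < b, j' ≠ j → IncQ (S i j') E)

/-- It is forced that `b` is an image of `a`. -/
def ImgP (a b : L) : Prop := ∀ p : Q, ∃ q ≤ p, ∃ s : L → L → Set Q,
  (∀ x y y' E, BelQ (s x y) E → BelQ (s x y') E → y = y') ∧ ∀ y < b, FoQ {E | ∃ x < a, E ∈ s x y} q

/-- It is forced that the power set of `a` is an image of `b`. -/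
def PowP (a b : L) : Prop := ∀ p : Q, ∃ q ≤ p, ∃ z : L → L → Set Q, ∀ (X : L → Set Q), ∀ q' ≤ q, ∃ q'' ≤ q', ∃ i < b,
  ∀ x < a, ∀ E ≤ q'', (FoQ (X x) E ↔ FoQ (z i x) E)

end names

/-- The order type of `L` is a strong limit cardinal which is greater than the cardinality of `Q`. -/
structure BigL (Q L : Type) [LinearOrder L] : Prop where
  wf : WellFoundedLT L
  inf : ℵ₀ < #L
  big : #Q < #L
  lim : ∀ a : L, 2 ^ #(Set.Iio a) < #L

/-- What is used for the generalized continuum hypothesis in the model. -/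
def GchP (Q : Type) [Preorder Q] : Prop := ∀ (L : Type) [LinearOrder L], BigL Q L → ∀ i : L, ℵ₀ ≤ #(Set.Iio i) →
  ∃ j : L, (∀ c < j, ImgP Q i c) ∧ PowP Q i j

/-- The natural numbers and `ω` as elements of `L`. -/
structure NDat (L : Type) [LinearOrder L] where
  nL : ℕ → L
  om : L
  nL_lt : ∀ m n, m < n → nL m < nL n
  om_iff : ∀ x, x < om ↔ ∃ n, nL n = x

/-- The ordinals of the ground model which become `ω_n`, `ω_ω` and `ω_{ω+1}`. -/
structure ADat (L : Type) [LinearOrder L] extends NDat L where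
  al : ℕ → L
  u : L
  l : L
  al_zero : al 0 = om
  al_lt : ∀ n, al n < al (n + 1)
  u_iff : ∀ x, x < u ↔ ∃ n, x < al n
  u_lt : u < l

/-- What is used to identify `ω_n`, `ω_ω` and `ω_{ω+1}` in the model. -/
structure AFrc (Q : Type) [Preorder Q] {L : Type} [LinearOrder L] (D : ADat L) : Prop where
  nimg : ∀ n, NotImgP Q (D.al n) (D.al (n + 1))
  img : ∀ n, ∀ c < D.al (n + 1), ImgP Q (D.al n) c
  nimgu : NotImgP Q D.u D.l
  imgu : ∀ c < D.l, ImgP Q D.u c

/-- What is used to prove in the model that `ω_{ω+1}` is good for `(ω_{ω+1}, ω)`: `R α β n` is the set of conditions which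
force `ρ(α, β) = n`. -/
structure RFrc (Q : Type) [Preorder Q] {L : Type} [LinearOrder L] (D : ADat L) (R : L → L → ℕ → Set Q) : Prop where
  dec : ∀ α β, α < β → β < D.l → ∀ p, ∃ q ≤ p, ∃ n, q ∈ R α β n
  uniq : ∀ α β n m E, BelQ (R α β n) E → BelQ (R α β m) E → n = m
  sub : ∀ α β γ k n m E, α < β → β < γ → γ < D.l → BelQ (R α β k) E → BelQ (R α γ n) E → BelQ (R β γ m) E → k ≤ max n m
  size : ∀ (β : L) (n : ℕ) (p : Q), β < D.l → ∃ q ≤ p, ∃ s : L → L, ∀ α < β, ∀ m ≤ n, ∀ E ≤ q, BelQ (R α β m) E →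
    ∃ x < D.al n, s x = α

/-- What is used to prove in the model that no `ι ≥ ω_{ω+1}` is good for `(k, ω)` for `ω < k ≤ ω_{ω+1}`: `Bd d x` is the
set of conditions which force `x ∈ B_d`, `g d` maps `B_d` to an unbounded subset of `ω_1`, and `T d x y` is the set of
conditions which force that `(x, y)` belongs to the set guessed at `d`. -/
structure BFrc (Q : Type) [Preorder Q] {L : Type} [LinearOrder L] (D : ADat L) (S : Set L) (Bd : L → L → Set Q)
    (g : L → L → L) (T : L → L → L → Set Q) : Prop where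
  lt_l : ∀ d ∈ S, d < D.l
  bd_lt : ∀ d ∈ S, ∀ x q, q ∈ Bd d x → x < d
  inj : ∀ d ∈ S, ∀ x x' q q', q ∈ Bd d x → q' ∈ Bd d x' → g d x = g d x' → x = x'
  g_lt : ∀ d ∈ S, ∀ x q, q ∈ Bd d x → g d x < D.al 1
  unb : ∀ d ∈ S, ∀ b < D.al 1, ∀ p, ∃ q ≤ p, ∃ x, b < g d x ∧ q ∈ Bd d x
  fin : ∀ d ∈ S, ∀ e ∈ S, d ≠ e → ∀ p, ∃ q ≤ p, ∃ (n : ℕ) (s : L → L), ∀ x, ∀ E ≤ q, BelQ (Bd d x) E → BelQ (Bd e x) E →
    ∃ i < D.nL n, s i = x
  guess : ∀ (X h : L → L → Set Q), ∃ d ∈ S,
    (∀ x < d, ∀ y < D.l, ∀ E, BelQ (h x y) E → (∀ y' < D.l, y' ≠ y → IncQ (h x y') E) → y < d) ∧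
    ∀ x < d, ∀ y < d, ∀ E, (FoQ (X x y) E ↔ FoQ (T d x y) E)

end Pool.Agent.TrI
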