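import Pool.Agent.TrI.VDefs2

set_option autoImplicit false
set_option linter.all false

/-!
# W0 (difficulty 2): general facts on names

`foQ_mono`, `incQ_mono'`, `foQ_or`: routine. `exists_max_antichain`: Zorn for the antichains contained in `Y` (`zorn_subset`, or the order on `{Z : Set Q // ...}`): a maximal `Z`; if `p ∈ Y` is incompatible with all members of `Z` then `Z ∪ {p}` is larger (`Y` is downward closed is not needed).
`foQ_antichain`: if `Z` is a maximal antichain in `Y = {E | BelQ X E}` then `FoQ X E ↔ FoQ Z E`.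
`img_of_fn`: `ImgP` with `s x y = {q | f x = y}`. `img_of_card`: if `#(Iio b) ≤ #(Iio a)` there is such a function (if `Iio a` is empty then so is `Iio b`).
`notimg_cc`: for `S` let `V i = {j | j < b ∧ ∃ E, U i j E}`, `U i j E := BelQ (S i j) E ∧ ∀ j' < b, j' ≠ j → IncQ (S i j') E`; choose such `E_j`; for `j ≠ j'` they are incompatible (a common extension `r` has `BelQ (S i j) r` and `IncQ (S i j) r`), so `j ↦ E_j` is injective onto an antichain and `#(V i) < θ`. `hb` gives `j`, for all conditions.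
`pow_big`: all functions `Iio a → Set Q` are enumerated by `Iio b` (`hb : #(Iio a → Set Q) ≤ #(Iio b)`): `z i x = g i x` if `x < a`. `pow_cc`: the functions from `Iio a` to `{Z : Set Q // #Z < θ}` are enumerated by `Iio b`; for `X` choose for `x < a` a maximal antichain `Z x` in `{E | BelQ (X x) E}`.
`reg_union`: the union of fewer than `θ` sets of size `< θ` (`θ` regular) has size `< θ`.
-/

namespace Pool.Agent.TrI

open Cardinal Pool.Agent.SplK Pool.Agent.H55.Lav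

section
variable {Q : Type} [Preorder Q]

theorem foQ_mono {S : Set Q} {E E' : Q} (h : FoQ S E) (h' : E' ≤ E) : FoQ S E' := fun F hF => h F (hF.trans h')

theorem incQ_mono' {S : Set Q} {E E' : Q} (h : IncQ S E) (h' : E' ≤ E) : IncQ S E' := fun F hF => h F (hF.trans h')

theorem belQ_mono {S : Set Q} {E E' : Q} (h : BelQ S E) (h' : E' ≤ E) : BelQ S E' := by
  obtain ⟨C, hC, h1⟩ := h
  exact ⟨C, hC, h'.trans h1⟩

/-- Every condition has an extension which decides whether the generic filter meets `S`. -/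
theorem foQ_or (S : Set Q) (p : Q) : ∃ q ≤ p, FoQ S q ∨ IncQ S q := by
  by_cases h : ∃ q ≤ p, IncQ S q
  · obtain ⟨q, hq, hi⟩ := h
    exact ⟨q, hq, Or.inr hi⟩
  · refine ⟨p, le_refl p, Or.inl ?_⟩
    intro E' hE'
    by_contra hc
    apply h
    refine ⟨E', hE', ?_⟩
    intro F hF hB
    exact hc ⟨F, hF, hB⟩

theorem exists_max_antichain (Y : Set Q) : ∃ Z ⊆ Y, (∀ p ∈ Z, ∀ q ∈ Z, p ≠ q → ∀ r, r ≤ p → ¬ r ≤ q) ∧
    ∀ p ∈ Y, ∃ q ∈ Z, ∃ r, r ≤ p ∧ r ≤ q := by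
  let A : Set (Set Q) := {Z | Z ⊆ Y ∧ ∀ p ∈ Z, ∀ q ∈ Z, p ≠ q → ∀ r, r ≤ p → ¬ r ≤ q}
  obtain ⟨Z, hZ⟩ := zorn_subset A (by
    intro c hc hch
    refine ⟨⋃₀ c, ⟨?_, ?_⟩, fun s hs => Set.subset_sUnion_of_mem hs⟩
    · exact Set.sUnion_subset fun s hs => (hc hs).1
    · intro p hp q hq hpq r hrp hrq
      obtain ⟨s, hs, hps⟩ := hp
      obtain ⟨t, ht, hqt⟩ := hq
      rcases hch.total hs ht with h | h
      · exact (hc ht).2 p (h hps) q hqt hpq r hrp hrq
      · exact (hc hs).2 p hps q (h hqt) hpq r hrp hrq)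
  have hZA : Z ∈ A := hZ.prop
  refine ⟨Z, hZA.1, hZA.2, ?_⟩
  intro p hp
  by_contra hno
  have hno' : ∀ q ∈ Z, ∀ r, r ≤ p → ¬ r ≤ q := by
    intro q hq r h1 h2
    exact hno ⟨q, hq, r, h1, h2⟩
  have hins : insert p Z ∈ A := by
    refine ⟨Set.insert_subset hp hZA.1, ?_⟩
    intro x hx y hy hxy r hrx hry
    rcases hx with rfl | hx
    · rcases hy with rfl | hy
      · exact hxy rfl
      · exact hno' y hy r hrx hry
    · rcases hy with rfl | hy
      · exact hno' x hx r hry hrx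
      · exact hZA.2 x hx y hy hxy r hrx hry
  have hpZ : p ∈ Z := hZ.le_of_ge hins (Set.subset_insert p Z) (Set.mem_insert p Z)
  exact hno' p hpZ p (le_refl p) (le_refl p)

theorem foQ_antichain {X Z : Set Q} (hZ : Z ⊆ {E | BelQ X E}) (hm : ∀ p, BelQ X p → ∃ q ∈ Z, ∃ r, r ≤ p ∧ r ≤ q) (E : Q) :
    FoQ X E ↔ FoQ Z E := by
  constructor
  · intro h E' hE'
    obtain ⟨E'', hE'', hB⟩ := h E' hE'
    obtain ⟨q, hq, r, hr1, hr2⟩ := hm E'' hB
    exact ⟨r, hr1.trans hE'', q, hq, hr2⟩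
  · intro h E' hE'
    obtain ⟨E'', hE'', C, hC, hEC⟩ := h E' hE'
    exact ⟨E'', hE'', belQ_mono (hZ hC) hEC⟩

end

section
variable (Q : Type) [Preorder Q] {L : Type} [LinearOrder L]

theorem img_of_fn {a b : L} (f : L → L) (hf : ∀ y < b, ∃ x < a, f x = y) : ImgP Q a b := by
  intro p
  refine ⟨p, le_refl p, fun x y => {_q | f x = y}, ?_, ?_⟩
  · intro x y y' E h h'
    obtain ⟨C, hC, _⟩ := h
    obtain ⟨C', hC', _⟩ := h'
    have h1 : f x = y := hC
    have h2 : f x = y' := hC'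
    exact h1.symm.trans h2
  · intro y hy E' hE'
    obtain ⟨x, hx, hxy⟩ := hf y hy
    exact ⟨E', le_refl _, E', ⟨x, hx, hxy⟩, le_refl _⟩

theorem img_of_card {a b : L} (h : #(Set.Iio b) ≤ #(Set.Iio a)) : ImgP Q a b := by
  classical
  obtain ⟨g⟩ : Nonempty (Set.Iio b ↪ Set.Iio a) := (Cardinal.le_def _ _).mp h
  refine img_of_fn Q (fun x => if h : ∃ y : Set.Iio b, ((g y : Set.Iio a) : L) = x then
    ((Classical.choose h : Set.Iio b) : L) else x) ?_
  intro y hy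
  refine ⟨((g ⟨y, hy⟩ : Set.Iio a) : L), (g ⟨y, hy⟩).2, ?_⟩
  have hex : ∃ y' : Set.Iio b, ((g y' : Set.Iio a) : L) = ((g ⟨y, hy⟩ : Set.Iio a) : L) := ⟨⟨y, hy⟩, rfl⟩
  have h1 := Classical.choose_spec hex
  have h2 : Classical.choose hex = (⟨y, hy⟩ : Set.Iio b) := g.injective (Subtype.ext h1)
  show (if h : ∃ y' : Set.Iio b, ((g y' : Set.Iio a) : L) = ((g ⟨y, hy⟩ : Set.Iio a) : L) then
    ((Classical.choose h : Set.Iio b) : L) else ((g ⟨y, hy⟩ : Set.Iio a) : L)) = y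
  rw [dif_pos hex, h2]

theorem notimg_cc {θ : Cardinal.{0}} (hQ : CcP Q θ) {a b : L}
    (hb : ∀ V : L → Set L, (∀ i, #(V i) < θ) → ∃ j < b, ∀ i < a, j ∉ V i) : NotImgP Q a b := by
  classical
  intro S p
  let U : L → L → Q → Prop := fun i j E => BelQ (S i j) E ∧ ∀ j' < b, j' ≠ j → IncQ (S i j') E
  have hV : ∀ i, #({j : L | j < b ∧ ∃ E, U i j E} : Set L) < θ := by
    intro i
    have hch : ∀ j : ({j : L | j < b ∧ ∃ E, U i j E} : Set L), ∃ E, U i j E := fun j => j.2.2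
    choose e he using hch
    have hinc : ∀ j j' : ({j : L | j < b ∧ ∃ E, U i j E} : Set L), j ≠ j' → ∀ r, r ≤ e j → ¬ r ≤ e j' := by
      intro j j' hjj r hr hr'
      have h1 : BelQ (S i j) r := belQ_mono (he j).1 hr
      have h2 : IncQ (S i j) (e j') := (he j').2 j j.2.1 (fun h => hjj (Subtype.ext h))
      exact h2 r hr' h1
    have hinj : Function.Injective e := by
      intro j j' hjj
      by_contra hne
      exact hinc j j' hne (e j) (le_refl _) (le_of_eq hjj)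
    have hanti : #(Set.range e) < θ := by
      apply hQ
      rintro _ ⟨j, rfl⟩ _ ⟨j', rfl⟩ hne r hr
      exact hinc j j' (fun h => hne (by rw [h])) r hr
    rwa [Cardinal.mk_range_eq e hinj] at hanti
  obtain ⟨j, hj, hj'⟩ := hb (fun i => {j : L | j < b ∧ ∃ E, U i j E}) hV
  refine ⟨p, le_refl p, j, hj, ?_⟩
  intro i hi E hE hU
  exact hj' i hi ⟨hj, E, hU⟩

theorem pow_big {a b : L} (hb : #(Set.Iio a → Set Q) ≤ #(Set.Iio b)) : PowP Q a b := by
  classical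
  obtain ⟨g⟩ : Nonempty ((Set.Iio a → Set Q) ↪ Set.Iio b) := (Cardinal.le_def _ _).mp hb
  intro p
  refine ⟨p, le_refl p, fun i x => {E | ∃ (F : Set.Iio a → Set Q) (h : x < a), ((g F : Set.Iio b) : L) = i ∧ E ∈ F ⟨x, h⟩}, ?_⟩
  intro X q' hq'
  refine ⟨q', le_refl _, ((g (fun y : Set.Iio a => X (y : L)) : Set.Iio b) : L), (g (fun y : Set.Iio a => X (y : L))).2, ?_⟩
  intro x hx E hE
  have hEq : {E | ∃ (F : Set.Iio a → Set Q) (h : x < a), ((g F : Set.Iio b) : L) = ((g (fun y : Set.Iio a => X (y : L)) : Set.Iio b) : L) ∧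
      E ∈ F ⟨x, h⟩} = X x := by
    ext D
    constructor
    · rintro ⟨F, h, h1, h2⟩
      have hF : F = fun y : Set.Iio a => X (y : L) := g.injective (Subtype.ext h1)
      rw [hF] at h2
      exact h2
    · intro hD
      exact ⟨fun y : Set.Iio a => X (y : L), hx, rfl, hD⟩
  show FoQ (X x) E ↔ FoQ {E | ∃ (F : Set.Iio a → Set Q) (h : x < a),
    ((g F : Set.Iio b) : L) = ((g (fun y : Set.Iio a => X (y : L)) : Set.Iio b) : L) ∧ E ∈ F ⟨x, h⟩} E
  rw [hEq]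

theorem pow_cc {θ : Cardinal.{0}} (hQ : CcP Q θ) {a b : L} (hb : #(Set.Iio a → {Z : Set Q // #Z < θ}) ≤ #(Set.Iio b)) :
    PowP Q a b := by
  classical
  obtain ⟨g⟩ : Nonempty ((Set.Iio a → {Z : Set Q // #Z < θ}) ↪ Set.Iio b) := (Cardinal.le_def _ _).mp hb
  intro p
  refine ⟨p, le_refl p, fun i x => {E | ∃ (F : Set.Iio a → {Z : Set Q // #Z < θ}) (h : x < a),
    ((g F : Set.Iio b) : L) = i ∧ E ∈ (F ⟨x, h⟩ : Set Q)}, ?_⟩
  intro X q' hq'
  have hch : ∀ x : Set.Iio a, ∃ Z : {Z : Set Q // #Z < θ}, (Z : Set Q) ⊆ {E | BelQ (X x) E} ∧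
      ∀ p, BelQ (X x) p → ∃ q ∈ (Z : Set Q), ∃ r, r ≤ p ∧ r ≤ q := by
    intro x
    obtain ⟨Z, hZ1, hZ2, hZ3⟩ := exists_max_antichain {E | BelQ (X x) E}
    exact ⟨⟨Z, hQ Z hZ2⟩, hZ1, fun p hp => hZ3 p hp⟩
  choose F hF1 hF2 using hch
  refine ⟨q', le_refl _, ((g F : Set.Iio b) : L), (g F).2, ?_⟩
  intro x hx E hE
  have hEq : {E | ∃ (F' : Set.Iio a → {Z : Set Q // #Z < θ}) (h : x < a), ((g F' : Set.Iio b) : L) = ((g F : Set.Iio b) : L) ∧
      E ∈ (F' ⟨x, h⟩ : Set Q)} = (F ⟨x, hx⟩ : Set Q) := by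
    ext D
    constructor
    · rintro ⟨F', h, h1, h2⟩
      have hF : F' = F := g.injective (Subtype.ext h1)
      rw [hF] at h2
      exact h2
    · intro hD
      exact ⟨F, hx, rfl, hD⟩
  show FoQ (X x) E ↔ FoQ {E | ∃ (F' : Set.Iio a → {Z : Set Q // #Z < θ}) (h : x < a),
    ((g F' : Set.Iio b) : L) = ((g F : Set.Iio b) : L) ∧ E ∈ (F' ⟨x, h⟩ : Set Q)} E
  rw [hEq]
  exact foQ_antichain (hF1 ⟨x, hx⟩) (hF2 ⟨x, hx⟩) E

end

theorem reg_union {θ : Cardinal.{0}} (hθ : θ.IsRegular) {I T : Type} (hI : #I < θ) (V : I → Set T) (hV : ∀ i, #(V i) < θ) :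
    #(⋃ i, V i : Set T) < θ :=
  (Cardinal.card_iUnion_lt_iff_forall_of_isRegular hθ hI).mpr hV

end Pool.Agent.TrI
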