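import Pool.Agent.TrI.W0
import Pool.Agent.SplK.Ch

set_option autoImplicit false
set_option linter.all false

/-!
# W3 (difficulty 3): the lemma of Easton

`easton_one`: suppose that no `c ≤ c₀` works. Let `J = (Order.succ μ).ord.ToType`. By wellfounded recursion on `J` (see the proof of `chain_lemma`, SplK/Ch) construct `n : J → P × C` with `(n j).2 ≤ c₀`, `(n j).2 ≤ (n i).2` and `(n j).1` incompatible with `(n i).1` for `i < j`, and `n j ∈ D`: at stage `j` the family `Option (Iio j) → C`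
(`none ↦ c₀`, `i ↦ (n i).2`) is a chain of size `≤ μ` (infinite), so it has a lower bound `c`; since `c` does not work there is `p` with `(p', c) ∉ D` for all `p' ≤ p`; `p` is incompatible with all `(n i).1` (if `r ≤ p`, `r ≤ (n i).1` then `(r, c) ≤ n i ∈ D`, so `(r, c) ∈ D`). By density there is an element of `D` below `(p, c)`: `n j`.
The range of `j ↦ (n j).1` is an antichain of size `succ μ`, against `hP`. `easton`: `chain_lemma` (SplK/Ch) for the order of `C`, `J := I`, `Pr i c := ∀ p, ∃ p' ≤ p, (p', c) ∈ D i`.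
-/

namespace Pool.Agent.TrI

open Cardinal Pool.Agent.SplK

variable {P C : Type} [Preorder P] [Preorder C] {μ : Cardinal.{0}}

theorem easton_one (hμ : ℵ₀ ≤ μ) (hP : CcP P (Order.succ μ))
    (hC : ∀ (ι : Type) (f : ι → C), #ι ≤ μ → (∀ i j, f i ≤ f j ∨ f j ≤ f i) → ∃ m, ∀ i, m ≤ f i)
    (D : Set (P × C)) (hD : ∀ x ∈ D, ∀ y ≤ x, y ∈ D) (hd : ∀ x, ∃ y ≤ x, y ∈ D) (c₀ : C) :
    ∃ c ≤ c₀, ∀ p, ∃ p' ≤ p, (p', c) ∈ D := by
  classical
  by_contra hcon
  push Not at hcon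
  obtain ⟨p₀, -⟩ := hcon c₀ le_rfl
  let J : Type := (Order.succ μ).ord.ToType
  have hJ : #J = Order.succ μ := Cardinal.mk_ord_toType _
  have hseg : ∀ j : J, #(Option {i // i < j}) ≤ μ := by
    intro j
    rw [Cardinal.mk_option]
    have h1 : #{i // i < j} < Order.succ μ := Cardinal.mk_Iio_ord_toType j
    exact Cardinal.add_le_of_le hμ (Order.lt_succ_iff.1 h1) (Cardinal.one_le_aleph0.trans hμ)
  let G : ∀ j : J, (∀ i : J, i < j → P × C) → P × C := fun j r =>
    if h : ∃ x : P × C, (∀ i (hi : i < j), x.2 ≤ (r i hi).2 ∧ ∀ s, s ≤ x.1 → ¬ s ≤ (r i hi).1) ∧ x.2 ≤ c₀ ∧ x ∈ D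
    then h.choose else (p₀, c₀)
  have wf : WellFounded (fun i j : J => i < j) := wellFounded_lt
  let n : J → P × C := wf.fix G
  have hn : ∀ j, n j = G j (fun i _ => n i) := fun j => WellFounded.fix_eq _ _ _
  have key : ∀ j, (∀ i, i < j → (n j).2 ≤ (n i).2 ∧ ∀ s, s ≤ (n j).1 → ¬ s ≤ (n i).1) ∧ (n j).2 ≤ c₀ ∧ n j ∈ D := by
    intro j
    induction j using WellFoundedLT.induction with
    | ind j ih =>
      have hex : ∃ x : P × C, (∀ i (hi : i < j), x.2 ≤ (n i).2 ∧ ∀ s, s ≤ x.1 → ¬ s ≤ (n i).1) ∧ x.2 ≤ c₀ ∧ x ∈ D := by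
        obtain ⟨c, hc⟩ := hC (Option {i // i < j}) (fun o => o.elim c₀ (fun i => (n i).2)) (hseg j) (by
          rintro (_ | ⟨a, ha⟩) (_ | ⟨b, hb⟩)
          · exact Or.inl le_rfl
          · exact Or.inr (ih b hb).2.1
          · exact Or.inl (ih a ha).2.1
          · rcases lt_trichotomy a b with h | h | h
            · exact Or.inr ((ih b hb).1 a h).1
            · subst h
              exact Or.inl le_rfl
            · exact Or.inl ((ih a ha).1 b h).1)
        have hc0 : c ≤ c₀ := hc none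
        have hci : ∀ i, i < j → c ≤ (n i).2 := fun i hi => hc (some ⟨i, hi⟩)
        obtain ⟨p, hp⟩ := hcon c hc0
        obtain ⟨y, hy, hyD⟩ := hd (p, c)
        refine ⟨y, fun i hi => ⟨hy.2.trans (hci i hi), fun s hs hs' => ?_⟩, hy.2.trans hc0, hyD⟩
        exact hp s (hs.trans hy.1) (hD (n i) (ih i hi).2.2 (s, c) ⟨hs', hci i hi⟩)
      rw [hn j]
      simp only [G]
      rw [dif_pos hex]
      exact hex.choose_spec
  have hne : ∀ i j, i < j → (n i).1 ≠ (n j).1 := by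
    intro i j hij h
    exact ((key j).1 i hij).2 (n j).1 le_rfl (by rw [h])
  have hinj : Function.Injective (fun j => (n j).1) := by
    intro i j h
    rcases lt_trichotomy i j with h1 | h1 | h1
    · exact absurd h (hne i j h1)
    · exact h1
    · exact absurd h.symm (hne j i h1)
  have h1 := hP (Set.range (fun j => (n j).1)) (by
    rintro _ ⟨i, rfl⟩ _ ⟨j, rfl⟩ hij r hr hr'
    rcases lt_trichotomy i j with h1 | h1 | h1
    · exact ((key j).1 i h1).2 r hr' hr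
    · subst h1
      exact hij rfl
    · exact ((key i).1 j h1).2 r hr hr')
  rw [Cardinal.mk_range_eq _ hinj, hJ] at h1
  exact lt_irrefl _ h1

theorem easton (hμ : ℵ₀ ≤ μ) (hP : CcP P (Order.succ μ))
    (hC : ∀ (ι : Type) (f : ι → C), #ι ≤ μ → (∀ i j, f i ≤ f j ∨ f j ≤ f i) → ∃ m, ∀ i, m ≤ f i)
    {I : Type} (hI : #I ≤ μ) (D : I → Set (P × C)) (hD : ∀ i, ∀ x ∈ D i, ∀ y ≤ x, y ∈ D i) (hd : ∀ i x, ∃ y ≤ x, y ∈ D i) (c₀ : C) :
    ∃ c ≤ c₀, ∀ i p, ∃ p' ≤ p, (p', c) ∈ D i := by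
  refine chain_lemma (fun a b : C => a ≤ b) (fun m => le_rfl) (fun _ _ _ h h' => h.trans h') μ hμ hC I hI
    (fun i c => ∀ p, ∃ p' ≤ p, (p', c) ∈ D i) ?_ ?_ c₀
  · intro i m m' h hm p
    obtain ⟨p', hp', h1⟩ := h p
    exact ⟨p', hp', hD i _ h1 _ ⟨le_rfl, hm⟩⟩
  · intro i m
    exact easton_one hμ hP hC (D i) (hD i) (hd i) m

end Pool.Agent.TrI
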