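import Pool.Agent.TrI.W3

set_option autoImplicit false
set_option linter.all false

/-!
# W5 (difficulty 3): applications of the lemma of Easton

`notimg_prod`: `Q = P × C`, `a b : L` with `#(Iio a) ≤ μ` and `succ μ ≤ #(Iio b)`. Let `S`, `p = (p₀, c₀)` be given, `U i j E := BelQ (S i j) E ∧ ∀ j' < b, j' ≠ j → IncQ (S i j') E` (monotone in `E`). `D i = {E | (∃ j < b, U i j E) ∨ ∀ F ≤ E, ∀ j < b, ¬ U i j F}` for `i ∈ Iio a` is open and dense. `easton`: `c ≤ c₀`.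
`V i = {j < b | ∃ p', U i j (p', c)}`: choose `p'_j`, they form an antichain in `P` (if `r` is a common extension of `p'_j`, `p'_j'` then `(r, c)` satisfies `U i j` and `U i j'`), so `#(V i) < succ μ`; `⋃ V i` has size `< succ μ` (`reg_union`), so there is `j < b` in no `V i`. Take `q = (p₀, c)`. If `E = (e, f) ≤ q` and `U i j E`: `e' ≤ e` with
`(e', c) ∈ D i`; `(e', f)` extends `E` and `(e', c)`: in the first case `j = j1 ∈ V i`, in the second case `U i j (e', f)` is impossible.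
`pow_prod`: `hb : #(Iio a → {Z : Set P // #Z ≤ μ}) ≤ #(Iio b)`: enumeration of these functions. Given `X : L → Set (P × C)` and `q' = (p₀, c₀)`: `D x = {E | FoQ (X x) E ∨ IncQ (X x) E}` (`foQ_or`), `easton`: `c ≤ c₀`. `Y x = {p' | FoQ (X x) (p', c)}`, `Z x` a maximal antichain in `Y x` (`exists_max_antichain`), the name with index `i`:
`z i x = {(p', c') | p' ∈ Z x}`. `q'' = (p₀, c)`. For `E = (e, f) ≤ q''`, `x < a`: `FoQ (z i x) E → FoQ (X x) E`: if `E'' ≤ E'`, `E'' ≤ (p', c')`, `p' ∈ Z x` then `E'' ≤ (p', c)`. `FoQ (X x) E → FoQ (z i x) E`: `E' = (e', f') ≤ E`; `e1 ≤ e'` with `(e1, c) ∈ D x`; it is not `IncQ` (since `(e1, f') ≤ E`), so `e1 ∈ Y x`, it is compatible with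
some `p' ∈ Z x`: `e2 ≤ e1, p'`; `(e2, f')`.
-/

namespace Pool.Agent.TrI

open Cardinal Pool.Agent.SplK Pool.Agent.H55.Lav

variable {P C : Type} [Preorder P] [Preorder C] {μ : Cardinal.{0}} {L : Type} [LinearOrder L]

theorem notimg_prod (hμ : ℵ₀ ≤ μ) (hP : CcP P (Order.succ μ))
    (hC : ∀ (ι : Type) (f : ι → C), #ι ≤ μ → (∀ i j, f i ≤ f j ∨ f j ≤ f i) → ∃ m, ∀ i, m ≤ f i)
    {a b : L} (ha : #(Set.Iio a) ≤ μ) (hb : μ < #(Set.Iio b)) : NotImgP (P × C) a b := by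
  classical
  intro S p
  let U : L → L → P × C → Prop := fun i j E => BelQ (S i j) E ∧ ∀ j' < b, j' ≠ j → IncQ (S i j') E
  have hU : ∀ i j E F, F ≤ E → U i j E → U i j F := fun i j E F h h1 =>
    ⟨belQ_mono h1.1 h, fun j' hj' hne => incQ_mono' (h1.2 j' hj' hne) h⟩
  have huniq : ∀ i j j' E, j < b → j' < b → U i j E → U i j' E → j = j' := by
    intro i j j' E _ hj' h1 h2
    by_contra hne
    exact h1.2 j' hj' (fun h => hne h.symm) E le_rfl h2.1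
  obtain ⟨c, hc, hcD⟩ := easton hμ hP hC (I := Set.Iio a) ha
    (fun i => {E | (∃ j < b, U i j E) ∨ ∀ F ≤ E, ∀ j < b, ¬ U i j F}) (by
      rintro i x (⟨j, hj, h⟩ | h) y hy
      · exact Or.inl ⟨j, hj, hU _ _ _ _ hy h⟩
      · exact Or.inr (fun F hF => h F (hF.trans hy))) (by
      intro i x
      by_cases h : ∃ F ≤ x, ∃ j < b, U i j F
      · obtain ⟨F, hF, h1⟩ := h
        exact ⟨F, hF, Or.inl h1⟩
      · refine ⟨x, le_rfl, Or.inr (fun F hF j hj h1 => h ⟨F, hF, j, hj, h1⟩)⟩) p.2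
  let V : Set.Iio a → Set L := fun i => {j | j < b ∧ ∃ p', U i j (p', c)}
  have hV : ∀ i, #(V i) < Order.succ μ := by
    intro i
    choose g hg using fun j : V i => j.2.2
    have hinj : Function.Injective g := by
      intro j j' h
      apply Subtype.ext
      refine huniq i j j' (g j, c) j.2.1 j'.2.1 (hg j) ?_
      rw [h]
      exact hg j'
    have h1 := hP (Set.range g) (by
      rintro _ ⟨j, rfl⟩ _ ⟨j', rfl⟩ hne r hr hr'
      apply hne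
      have h2 : (j : L) = j' := huniq i j j' (r, c) j.2.1 j'.2.1 (hU i j (g j, c) (r, c) ⟨hr, le_rfl⟩ (hg j))
        (hU i j' (g j', c) (r, c) ⟨hr', le_rfl⟩ (hg j'))
      rw [Subtype.ext h2])
    rwa [Cardinal.mk_range_eq _ hinj] at h1
  have hreg : (Order.succ μ).IsRegular := Cardinal.isRegular_succ hμ
  have hun := reg_union hreg (lt_of_le_of_lt ha (Order.lt_succ μ)) V hV
  obtain ⟨j, hj, hjV⟩ : ∃ j < b, j ∉ ⋃ i, V i := by
    by_contra hcon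
    push Not at hcon
    have h1 : Set.Iio b ⊆ ⋃ i, V i := fun j hj => hcon j hj
    have h2 := Cardinal.mk_le_mk_of_subset h1
    exact absurd (lt_of_le_of_lt h2 hun) (not_lt.2 (Order.succ_le_of_lt hb))
  refine ⟨(p.1, c), ⟨le_rfl, hc⟩, j, hj, fun i hi E hE hUE => ?_⟩
  obtain ⟨e', he', h1⟩ := hcD ⟨i, hi⟩ E.1
  have h2 : ((e', E.2) : P × C) ≤ E := ⟨he', le_rfl⟩
  have h3 : ((e', E.2) : P × C) ≤ (e', c) := ⟨le_rfl, hE.2⟩
  rcases h1 with ⟨j1, hj1, h1⟩ | h1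
  · apply hjV
    rw [Set.mem_iUnion]
    refine ⟨⟨i, hi⟩, hj, e', ?_⟩
    have h4 : j = j1 := huniq i j j1 (e', E.2) hj hj1 (hU _ _ _ _ h2 hUE) (hU _ _ _ _ h3 h1)
    rw [h4]
    exact h1
  · exact h1 _ h3 j hj (hU _ _ _ _ h2 hUE)

theorem pow_prod (hμ : ℵ₀ ≤ μ) (hP : CcP P (Order.succ μ))
    (hC : ∀ (ι : Type) (f : ι → C), #ι ≤ μ → (∀ i j, f i ≤ f j ∨ f j ≤ f i) → ∃ m, ∀ i, m ≤ f i)
    {a b : L} (ha : #(Set.Iio a) ≤ μ) (hb : #(Set.Iio a → {Z : Set P // #Z ≤ μ}) ≤ #(Set.Iio b)) : PowP (P × C) a b := by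
  classical
  intro p
  obtain ⟨φ⟩ := hb
  have hne : Nonempty (Set.Iio a → {Z : Set P // #Z ≤ μ}) := ⟨fun _ => ⟨∅, by simp⟩⟩
  let g : Set.Iio b → (Set.Iio a → {Z : Set P // #Z ≤ μ}) := Function.invFun φ
  have hg : ∀ h, g (φ h) = h := Function.leftInverse_invFun φ.injective
  refine ⟨p, le_rfl, fun i x => {E | ∃ (hi : i < b) (hx : x < a), E.1 ∈ (g ⟨i, hi⟩ ⟨x, hx⟩).1}, ?_⟩
  intro X q' _
  obtain ⟨c, hc, hcD⟩ := easton hμ hP hC (I := Set.Iio a) ha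
    (fun x => {E | FoQ (X x) E ∨ IncQ (X x) E}) (by
      rintro i x (h | h) y hy
      · exact Or.inl (foQ_mono h hy)
      · exact Or.inr (incQ_mono' h hy)) (by
      intro i x
      obtain ⟨q, hq, h⟩ := foQ_or (X i) x
      exact ⟨q, hq, h⟩) q'.2
  choose Z hZY hZa hZm using fun x : Set.Iio a => exists_max_antichain {p' : P | FoQ (X x) (p', c)}
  have hZc : ∀ x, #(Z x) ≤ μ := fun x => Order.lt_succ_iff.1 (hP (Z x) (hZa x))
  let h : Set.Iio a → {Z : Set P // #Z ≤ μ} := fun x => ⟨Z x, hZc x⟩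
  refine ⟨(q'.1, c), ⟨le_rfl, hc⟩, φ h, (φ h).2, ?_⟩
  intro x hx E hE
  have hmem : ∀ K : P × C, K ∈ ({E | ∃ (hi : ((φ h : Set.Iio b) : L) < b) (hx : x < a),
      E.1 ∈ (g ⟨φ h, hi⟩ ⟨x, hx⟩).1} : Set (P × C)) ↔ K.1 ∈ Z ⟨x, hx⟩ := by
    intro K
    have e1 : ∀ hi : ((φ h : Set.Iio b) : L) < b, g ⟨φ h, hi⟩ = h := fun hi => hg h
    constructor
    · rintro ⟨hi, hx', h1⟩
      rw [e1 hi] at h1
      exact h1
    · intro h1
      have h2 : g ⟨φ h, (φ h).2⟩ ⟨x, hx⟩ = ⟨Z ⟨x, hx⟩, hZc _⟩ := congrFun (e1 (φ h).2) ⟨x, hx⟩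
      have h3 : (g ⟨φ h, (φ h).2⟩ ⟨x, hx⟩).1 = Z ⟨x, hx⟩ := congrArg Subtype.val h2
      exact ⟨(φ h).2, hx, (Set.ext_iff.1 h3 K.1).2 h1⟩
  constructor
  · intro hFo E' hE'
    obtain ⟨e1, he1, h1⟩ := hcD ⟨x, hx⟩ E'.1
    have h2 : ((e1, E'.2) : P × C) ≤ E' := ⟨he1, le_rfl⟩
    have h3 : ((e1, E'.2) : P × C) ≤ (e1, c) := ⟨le_rfl, hE'.2.trans hE.2⟩
    rcases h1 with h1 | h1
    · obtain ⟨p', hp', r, hr, hr'⟩ := hZm ⟨x, hx⟩ e1 h1
      refine ⟨(r, E'.2), ⟨hr.trans he1, le_rfl⟩, (p', E'.2), (hmem _).2 hp', ⟨hr', le_rfl⟩⟩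
    · exfalso
      obtain ⟨E'', hE'', h4⟩ := hFo _ (h2.trans hE')
      exact h1 E'' (hE''.trans h3) h4
  · intro hFo E' hE'
    obtain ⟨E'', hE'', K, hK, hEK⟩ := hFo E' hE'
    have h1 : FoQ (X x) (K.1, c) := hZY ⟨x, hx⟩ ((hmem K).1 hK)
    have h2 : E'' ≤ (K.1, c) := ⟨hEK.1, (hE''.trans (hE'.trans hE)).2⟩
    obtain ⟨F, hF, h3⟩ := h1 E'' h2
    exact ⟨F, hF.trans hE'', h3⟩

end Pool.Agent.TrI
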