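import Pool.Agent.TrI.W6

set_option autoImplicit false
set_option linter.all false

/-!
# W7 (difficulty 3): the cardinals `ω_n`, `ω_ω`, `ω_{ω+1}` of the second model

`L` has order type `(κ⁺ʷ)⁺`, `κ = #K`. In `WithTop L`: `nL`, `om` from `exists_ndat` for `L` (coerced), `al 0 = om`, `al 1` the point with `OTyp (Iio _) (succ (plw c))` (`= #A`), `al (n + 2)` the point for `pl κ n`, `u` the point for `plw κ`, `l = ⊤` (`ot_pt`, `ot_coe`, `ot_top`). `al_lt`: `ot_le` with `ℵ₀ < succ (plw c) < κ < pl κ 1 < ..`.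
`u_iff`: `x < u ↔ #(Iio x) < plw κ` (for `x ≠ ⊤`), `lt_plw`. `AFrc`: `nimg 0`: `notimg_prod` with `μ = plw c` (`hP.cc`, `hC.closed`; `#A = succ μ`). `img 0`: for `c' < al 1`: as in `gch_lo` (W6) for `i = om` (state a common lemma `img_lo` : `ℵ₀ ≤ #(Iio i)`, `#(Iio c') < #A` → `ImgP (P × C) i c'`).
`nimg 1`: `notimg_cc` with `θ = #K` (`prod_cc`): `#(Iio (al 1)) < κ = #(Iio (al 2))`, `κ` regular: `reg_union`. `img 1`: as in `gch_mid` (common lemma `img_mid`). `nimg (n + 2)`: `notimg_cc` with `θ = #K`: the union of the `V i`, `i < al (n + 2)`, has size `≤ pl κ n * κ = pl κ n < pl κ (n + 1)`. `img (n + 2)`: `c' < al (n + 3)` has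
`#(Iio c') ≤ pl κ n`: `img_of_card`. `nimgu`, `imgu`: in the same way.
-/

namespace Pool.Agent.TrI

open Cardinal Pool.Agent.SplK Pool.Agent.H55.Lav

variable {K A P C L : Type} [LinearOrder K] [LinearOrder A] [Preorder P] [Preorder C] [LinearOrder L] {c : Cardinal.{0}} {b : ℕ → A}
  {f : A → ℕ → A} {B : A → Set P}

theorem img_lo (otA : OTyp A (Order.succ (plw c))) (hP : AdP c A b f P B) {L' : Type} [LinearOrder L'] {i c' : L'} (hi : ℵ₀ ≤ #(Set.Iio i))
    (hc' : #(Set.Iio c') < #A) : ImgP (P × C) i c' := by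
  rw [otA.card] at hc'
  obtain ⟨a, ha⟩ := ot_pt otA hc'
  have hca : #(Set.Iio c') ≤ #(Set.Iio a) := ha.card.symm.le
  obtain ⟨g⟩ := hca
  obtain ⟨s, hs1, hs2, hs3⟩ := hP.col a
  haveI : Infinite (Set.Iio i) := Cardinal.infinite_iff.2 hi
  let ν : ℕ ↪ Set.Iio i := Infinite.natEmbedding _
  intro p
  refine ⟨p, le_rfl, fun x y => {E | ∃ (n : ℕ) (hy : y < c'), (ν n).1 = x ∧ E.1 ∈ s n (g ⟨y, hy⟩).1}, ?_, ?_⟩
  · rintro x y y' E ⟨C1, ⟨n, hy, hn, h1⟩, hE⟩ ⟨C2, ⟨n', hy', hn', h2⟩, hE'⟩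
    have e1 : n = n' := ν.injective (Subtype.ext (hn.trans hn'.symm))
    subst e1
    have h3 := hs2 _ _ _ _ h1 hE.1
    have h4 := hs2 _ _ _ _ h2 hE'.1
    have h5 := hs1 _ _ _ _ h3 h4
    have h6 := g.injective (Subtype.ext h5)
    exact congrArg Subtype.val h6
  · intro y hy E' _
    obtain ⟨q, hq, n, hqn⟩ := hs3 (g ⟨y, hy⟩).1 (g ⟨y, hy⟩).2 E'.1
    refine ⟨(q, E'.2), ⟨hq, le_rfl⟩, (q, E'.2), ⟨(ν n).1, (ν n).2, n, hy, rfl, hqn⟩, le_rfl⟩

theorem img_mid (hK : Inac K) (hC : ColP K A C) {L' : Type} [LinearOrder L'] {i c' : L'} (hi : #A ≤ #(Set.Iio i))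
    (hc' : #(Set.Iio c') < #K) : ImgP (P × C) i c' := by
  obtain ⟨α, hα⟩ := exists_seg hK hc'
  obtain ⟨g⟩ := hα
  obtain ⟨k⟩ := hi
  obtain ⟨s, hs1, hs2, hs3⟩ := hC.col
  intro p
  refine ⟨p, le_rfl, fun x y => {E | ∃ (w : A) (hy : y < c'), (k w).1 = x ∧ E.2 ∈ s α w (g ⟨y, hy⟩).1}, ?_, ?_⟩
  · rintro x y y' E ⟨C1, ⟨n, hy, hn, h1⟩, hE⟩ ⟨C2, ⟨n', hy', hn', h2⟩, hE'⟩
    have e1 : n = n' := k.injective (Subtype.ext (hn.trans hn'.symm))
    subst e1
    have h3 := hs2 _ _ _ _ _ h1 hE.2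
    have h4 := hs2 _ _ _ _ _ h2 hE'.2
    have h5 := hs1 _ _ _ _ _ h3 h4
    have h6 := g.injective (Subtype.ext h5)
    exact congrArg Subtype.val h6
  · intro y hy E' _
    obtain ⟨q, hq, w, hqw⟩ := hs3 α (g ⟨y, hy⟩).1 (g ⟨y, hy⟩).2 E'.2
    refine ⟨(E'.1, q), ⟨le_rfl, hq⟩, (E'.1, q), ⟨(k w).1, (k w).2, w, hy, rfl, hqw⟩, le_rfl⟩

theorem w7_nimg {Q : Type} [Preorder Q] {L' : Type} [LinearOrder L'] {θ : Cardinal.{0}} (hQ : CcP Q θ) {a b : L'}
    (h : ∀ V : L' → Set L', (∀ i, #(V i) < θ) → #(⋃ i : Set.Iio a, V i.1 : Set L') < #(Set.Iio b)) : NotImgP Q a b := by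
  refine notimg_cc Q hQ ?_
  intro V hV
  by_contra hcon
  push Not at hcon
  refine absurd (h V hV) (not_lt.2 ?_)
  refine Cardinal.mk_le_mk_of_subset ?_
  intro j hj
  obtain ⟨i, hi, hji⟩ := hcon j hj
  exact Set.mem_iUnion.2 ⟨⟨i, hi⟩, hji⟩

theorem w7_sum {L' : Type} [LinearOrder L'] {θ x : Cardinal.{0}} {a b : L'} (hx : ℵ₀ ≤ x) (hθ : θ ≤ x)
    (ha : #(Set.Iio a) ≤ x) (hb : x < #(Set.Iio b)) (V : L' → Set L') (hV : ∀ i, #(V i) < θ) :
    #(⋃ i : Set.Iio a, V i.1 : Set L') < #(Set.Iio b) := by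
  refine lt_of_le_of_lt ?_ hb
  refine (Cardinal.mk_iUnion_le_sum_mk).trans ?_
  refine (Cardinal.sum_le_sum _ (fun _ : Set.Iio a => θ) (fun i => (hV _).le)).trans ?_
  rw [Cardinal.sum_const']
  calc #(Set.Iio a) * θ ≤ x * x := mul_le_mul' ha hθ
    _ = x := Cardinal.mul_eq_self hx

theorem w7_lt {L' : Type} [LinearOrder L'] {a b : L'} {x : Cardinal.{0}} (hb : OTyp (Set.Iio b) x) (hab : a < b) :
    #(Set.Iio a) < x := by
  have h := hb.seg ⟨a, hab⟩
  rwa [ot_iio] at h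

theorem exists_adat (hK : Inac K) (hc : c.IsInaccessible) (otA : OTyp A (Order.succ (plw c))) (hAK : #A < #K)
    (hP : AdP c A b f P B) (hC : ColP K A C) (otL : OTyp L (Order.succ (plw #K))) :
    ∃ D : ADat (WithTop L), D.l = ⊤ ∧ OTyp (Set.Iio (D.al 1)) (Order.succ (plw c)) ∧ AFrc (P × C) D := by
  haveI := otL.wf
  have hK0 : ℵ₀ ≤ #K := hK.unc.le
  have hKp : #K ≤ plw #K := pl_le_plw #K 0
  have hcp : c ≤ plw c := pl_le_plw c 0
  have hc0 : ℵ₀ < plw c := hc.aleph0_lt.trans_le hcp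
  have hAc : #A = Order.succ (plw c) := otA.card
  have h1K : Order.succ (plw c) < #K := hAc ▸ hAK
  obtain ⟨D0, hom⟩ := exists_ndat otL (hK.unc.trans_le (hKp.trans (Order.le_succ _)))
  obtain ⟨a1, ha1⟩ := ot_pt otL (h1K.trans_le (hKp.trans (Order.le_succ _)))
  have hex : ∀ n : ℕ, ∃ a : L, OTyp (Set.Iio a) (pl #K n) := fun n =>
    ot_pt otL ((pl_lt_plw #K n).trans (Order.lt_succ _))
  choose am ham using hex
  obtain ⟨u, hu⟩ := ot_pt otL (Order.lt_succ (plw #K))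
  have hmono : ∀ n, pl #K n < pl #K (n + 1) := fun n => by
    rw [pl_succ]; exact Order.lt_succ _
  have hKn : ∀ n, #K ≤ pl #K n := by
    intro n
    induction n with
    | zero => exact le_rfl
    | succ n ih => exact ih.trans (hmono n).le
  let al : ℕ → WithTop L := fun n => match n with
    | 0 => (D0.om : WithTop L)
    | 1 => (a1 : WithTop L)
    | (n + 2) => (am n : WithTop L)
  have hal : ∀ n, al n < (u : WithTop L) := by
    intro n
    match n with
    | 0 => exact WithTop.coe_lt_coe.2 ((ot_le hom hu).2 (hK.unc.trans_le hKp))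
    | 1 => exact WithTop.coe_lt_coe.2 ((ot_le ha1 hu).2 (h1K.trans_le hKp))
    | (n + 2) => exact WithTop.coe_lt_coe.2 ((ot_le (ham n) hu).2 (pl_lt_plw _ _))
  let D : ADat (WithTop L) :=
    { nL := fun n => (D0.nL n : WithTop L)
      om := (D0.om : WithTop L)
      nL_lt := fun m n h => WithTop.coe_lt_coe.2 (D0.nL_lt m n h)
      om_iff := by
        intro x
        constructor
        · intro h
          obtain ⟨y, rfl⟩ := WithTop.ne_top_iff_exists.1 (ne_top_of_lt h)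
          obtain ⟨n, hn⟩ := (D0.om_iff y).1 (WithTop.coe_lt_coe.1 h)
          exact ⟨n, by rw [hn]⟩
        · rintro ⟨n, rfl⟩
          exact WithTop.coe_lt_coe.2 ((D0.om_iff _).2 ⟨n, rfl⟩)
      al := al
      u := (u : WithTop L)
      l := ⊤
      al_zero := rfl
      al_lt := by
        intro n
        match n with
        | 0 => exact WithTop.coe_lt_coe.2 ((ot_le hom ha1).2 (hc0.trans (Order.lt_succ _)))
        | 1 => exact WithTop.coe_lt_coe.2 ((ot_le ha1 (ham 0)).2 h1K)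
        | (n + 2) => exact WithTop.coe_lt_coe.2 ((ot_le (ham n) (ham (n + 1))).2 (hmono n))
      u_iff := by
        intro x
        constructor
        · intro h
          obtain ⟨y, rfl⟩ := WithTop.ne_top_iff_exists.1 (ne_top_of_lt h)
          have h1 := w7_lt hu (WithTop.coe_lt_coe.1 h)
          obtain ⟨n, hn⟩ := lt_plw h1
          refine ⟨n + 2, WithTop.coe_lt_coe.2 ?_⟩
          by_contra hcon
          rw [not_lt] at hcon
          have h2 : #(Set.Iio (am n)) ≤ #(Set.Iio y) := Cardinal.mk_le_mk_of_subset (Set.Iio_subset_Iio hcon)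
          rw [(ham n).card] at h2
          exact absurd hn (not_lt.2 h2)
        · rintro ⟨n, hn⟩
          exact hn.trans (hal n)
      u_lt := WithTop.coe_lt_top u }
  have hcc : CcP (P × C) #K := prod_cc (SKap.C_reg hK) (hP.size.trans_lt hAK) hC.cc
  have tom : OTyp (Set.Iio (D0.om : WithTop L)) ℵ₀ := ot_coe hom
  have t1 : OTyp (Set.Iio (a1 : WithTop L)) (Order.succ (plw c)) := ot_coe ha1
  have tm : ∀ n, OTyp (Set.Iio (am n : WithTop L)) (pl #K n) := fun n => ot_coe (ham n)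
  have tu : OTyp (Set.Iio (u : WithTop L)) (plw #K) := ot_coe hu
  have tl : OTyp (Set.Iio (⊤ : WithTop L)) (Order.succ (plw #K)) := ot_top otL
  refine ⟨D, rfl, t1, ?_, ?_, ?_, ?_⟩
  · intro n
    match n with
    | 0 =>
      refine notimg_prod (μ := plw c) hc0.le ?_ ?_ ?_ ?_
      · intro X hX
        rw [← hAc]
        exact hP.cc X hX
      · intro ι f hι hf
        refine hC.closed ι f ?_ hf
        rw [hAc]
        exact Order.lt_succ_of_le hι
      · exact tom.card.le.trans hc0.le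
      · exact (Order.lt_succ _).trans_le t1.card.symm.le
    | 1 =>
      refine w7_nimg hcc ?_
      intro V hV
      refine lt_of_lt_of_le (reg_union (SKap.C_reg hK) (t1.card.le.trans_lt h1K) (fun i : Set.Iio (a1 : WithTop L) => V i.1)
        (fun i => hV i.1)) (tm 0).card.symm.le
    | (n + 2) =>
      refine w7_nimg hcc ?_
      intro V hV
      exact w7_sum (hK0.trans (hKn n)) (hKn n) (tm n).card.le ((hmono n).trans_le (tm (n + 1)).card.symm.le) V hV
  · intro n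
    match n with
    | 0 =>
      intro c' hc'
      refine img_lo otA hP tom.card.symm.le ?_
      rw [hAc]
      exact w7_lt t1 hc'
    | 1 =>
      intro c' hc'
      exact img_mid hK hC (hAc.le.trans t1.card.symm.le) (w7_lt (tm 0) hc')
    | (n + 2) =>
      intro c' hc'
      refine img_of_card _ ?_
      have h1 := w7_lt (tm (n + 1)) hc'
      rw [pl_succ] at h1
      exact (Order.lt_succ_iff.1 h1).trans (tm n).card.symm.le
  · refine w7_nimg hcc ?_
    intro V hV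
    exact w7_sum (hK0.trans hKp) hKp tu.card.le ((Order.lt_succ _).trans_le tl.card.symm.le) V hV
  · intro c' hc'
    refine img_of_card _ ?_
    exact (Order.lt_succ_iff.1 (w7_lt tl hc')).trans tu.card.symm.le

end Pool.Agent.TrI
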