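import Pool.Agent.TrI.W2
import Pool.Agent.TrI.OT
import Pool.Agent.TrI.CF

set_option autoImplicit false
set_option linter.all false

namespace Pool.Agent.TrI

open Cardinal Pool.Agent.SplK Pool.Agent.H55.Lav

variable {K A P C L : Type} [LinearOrder K] [LinearOrder A] [Preorder P] [Preorder C] [LinearOrder L] {c : Cardinal.{0}} {b : ℕ → A}
  {f : A → ℕ → A} {B : A → Set P} {S : Set L} {j : L → A → L} {W : L → Set L}

theorem exists_bfrc (gch : GCH0) (hK : Inac K) (hL : LadP #K c L A S j b f W) (hD : DiaP L S) (hP : AdP c A b f P B)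
    (hsize : #(P × C) ≤ #K) (hcc : CcP (P × C) #K) (D : ADat (WithTop L)) (hl : D.l = ⊤)
    (h1 : OTyp (Set.Iio (D.al 1)) (Order.succ (plw c))) : ∃ S' Bd g T, BFrc (P × C) D S' Bd g T := by
  have hKi : (#K).IsInaccessible := inac_card hK
  have hK0 : ℵ₀ ≤ #K := hKi.aleph0_lt.le
  obtain ⟨φ⟩ := ot_iso hL.otA h1
  have hQ : #(Set (P × C)) ≤ Order.succ (plw #K) := by
    rw [Cardinal.mk_set]
    refine (Cardinal.power_le_power_left two_ne_zero hsize).trans ?_
    rw [gch _ hK0]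
    exact Order.succ_le_succ (pl_le_plw _ 0)
  have hcc' : CcP (P × C) (Order.succ (plw #K)) := fun X hX =>
    (hcc X hX).trans_le ((pl_le_plw _ 0).trans (Order.le_succ _))
  obtain ⟨Bd, g, T, h⟩ := bfrc_of_lad hK0 hL hD hQ hcc' (B := fun z => {E | E.1 ∈ B z})
    (fun z p q hp hq => hP.B_down z _ _ hp hq.1)
    (fun z p => by
      obtain ⟨q, hq, z', hz', h2⟩ := hP.unb z p.1
      exact ⟨(q, p.2), ⟨hq, le_refl _⟩, z', hz', h2⟩)
    (fun m n₀ hm p => by
      obtain ⟨q, hq, F, hF⟩ := hP.fin m n₀ hm p.1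
      exact ⟨(q, p.2), ⟨hq, le_refl _⟩, F, fun z hz r hr hrB => hF z hz r.1 hr.1 hrB⟩)
    D (fun a => (a : WithTop L)) (WithTop.coe_strictMono) (fun x => by
      rw [hl]
      constructor
      · intro hx
        exact ⟨x.untop hx.ne, WithTop.coe_untop _ _⟩
      · rintro ⟨a, rfl⟩
        exact WithTop.coe_lt_top a)
    (fun z => (φ z).1) (fun z z' hz => φ.strictMono hz) (fun x => by
      constructor
      · intro hx
        obtain ⟨a, ha⟩ := φ.surjective ⟨x, hx⟩
        exact ⟨a, by rw [ha]⟩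
      · rintro ⟨a, rfl⟩
        exact (φ a).2)
  exact ⟨_, Bd, g, T, h⟩

end Pool.Agent.TrI
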