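import Pool.Agent.TrI.W7
import Pool.Agent.TrI.W8
import Pool.Agent.TrI.CH
import Pool.Agent.TrI.PAd

set_option autoImplicit false
set_option linter.all false

/-!
# W9: the second forcing notion
-/

namespace Pool.Agent.TrI

open Cardinal Pool.Agent.SplK Pool.Agent.H55.Lav

theorem LCol.card_ge {K A : Type} [LinearOrder K] (hK : Inac K) (hA : ℵ₀ ≤ #A) : #K ≤ #(LCol K A) := by
  classical
  have hne : Nonempty A := by
    rw [← Cardinal.mk_ne_zero_iff]
    exact (aleph0_pos.trans_le hA).ne'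
  obtain ⟨x0⟩ := hne
  have h1 : ∀ a : K, ∃ s : K, a < s := by
    intro a
    obtain ⟨s, hs⟩ := Pool.Agent.SKap.inac_bdd hK (I := Unit) (by
      rw [Cardinal.mk_unit]
      exact one_lt_aleph0.trans_le (Pool.Agent.SKap.C_reg hK).aleph0_le) (fun _ => a)
    exact ⟨s, hs ()⟩
  choose s hs using h1
  refine Cardinal.mk_le_of_injective (f := fun a => (⟨fun u => if u = (s a, x0) then some a else none, ?_, ?_⟩ : LCol K A)) ?_
  · refine lt_of_le_of_lt (Cardinal.mk_le_mk_of_subset (t := {(s a, x0)}) ?_) ?_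
    · intro u hu
      by_contra h
      apply hu
      exact if_neg h
    · rw [Cardinal.mk_singleton]
      exact one_lt_aleph0.trans_le hA
  · intro a' x y h
    by_cases h' : (a', x) = (s a, x0)
    · rw [if_pos h'] at h
      have h2 : a = y := Option.some.inj h
      have h3 : a' = s a := congrArg Prod.fst h'
      rw [h3, ← h2]
      exact hs a
    · rw [if_neg h'] at h
      cases h
  · intro a a' h
    have h2 := congrFun (congrArg LCol.fn h) (s a, x0)
    dsimp only at h2
    rw [if_pos rfl] at h2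
    by_cases h' : (s a, x0) = (s a', x0)
    · rw [if_pos h'] at h2
      exact Option.some.inj h2
    · rw [if_neg h'] at h2
      cases h2

theorem exists_q1 (gch : GCH0) {κ : Cardinal.{0}} (hκ : κ.IsInaccessible)
    (sc : ∀ Θ : Type, ∃ W : Ultrafilter (Set Θ), NFU κ Θ W) :
    ∃ (Q : Type) (_ : Preorder Q) (_ : OrderTop Q) (L : Type) (_ : LinearOrder L) (_ : WellFoundedLT L) (D : ADat L)
      (S : Set L) (Bd : L → L → Set Q) (g : L → L → L) (T : L → L → L → Set Q), GchP Q ∧ AFrc Q D ∧ BFrc Q D S Bd g T := by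
  obtain ⟨c, L, iL, A, iA, S, j, b, f, W, hL, hD⟩ := exists_lad gch hκ sc
  obtain ⟨P, iP, tP, B, hP⟩ := exists_ad gch hL.inac hL.otA hL.b_ot hL.f_lt hL.sc
  have hI : Inac κ.ord.ToType := inac_ord hκ
  have hK : #κ.ord.ToType = κ := mk_ord_toType κ
  have hc := hL.inac
  have hμ : ℵ₀ ≤ plw c := (hc.aleph0_lt.le).trans (pl_le_plw c 0)
  have hAc : #A = Order.succ (plw c) := hL.otA.card
  have hAκ : #A < κ := by
    rw [hAc]
    exact hκ.isStrongLimit.isSuccLimit.succ_lt (plw_lt hκ hL.lt)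
  have hAK : #A < #κ.ord.ToType := by rw [hK]; exact hAκ
  have hA0 : ℵ₀ ≤ #A := by
    rw [hAc]
    exact hμ.trans (Order.le_succ _)
  have hAne : Nonempty A := by
    rw [← Cardinal.mk_ne_zero_iff]
    exact (aleph0_pos.trans_le hA0).ne'
  have hC : ColP κ.ord.ToType A (LCol κ.ord.ToType A) := colP_LCol hI hμ hL.otA hAK
  have wfL : WellFoundedLT L := hL.otL.wf
  have hsize : #(P × LCol κ.ord.ToType A) ≤ #κ.ord.ToType := by
    rw [Cardinal.mk_prod, Cardinal.lift_id, Cardinal.lift_id]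
    exact Cardinal.mul_le_of_le (Pool.Agent.SKap.C_reg hI).aleph0_le (hP.size.trans hAK.le) hC.size
  have hKC : #κ.ord.ToType ≤ #(P × LCol κ.ord.ToType A) := by
    refine (LCol.card_ge hI hA0).trans ?_
    exact Cardinal.mk_le_of_injective (f := fun x => ((⊤ : P), x)) (fun x y h => congrArg Prod.snd h)
  have hcc : CcP (P × LCol κ.ord.ToType A) #κ.ord.ToType :=
    prod_cc (Pool.Agent.SKap.C_reg hI) (hP.size.trans_lt hAK) hC.cc
  have hL' : LadP #κ.ord.ToType c L A S j b f W := by rw [hK]; exact hL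
  obtain ⟨D, hDl, hD1, hDA⟩ := exists_adat (L := L) hI hc hL.otA hAK hP hC hL'.otL
  obtain ⟨S', Bd, g, T, hB⟩ := exists_bfrc gch hI hL' hD hP hsize hcc D hDl hD1
  exact ⟨P × LCol κ.ord.ToType A, inferInstance, inferInstance, WithTop L, inferInstance, inferInstance, D, S', Bd, g, T,
    gchP_prod gch hI hc hL.otA hAK hP hC hKC, hDA, hB⟩

end Pool.Agent.TrI
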